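import Mathlib
import Pool.Agent.P.MP_0d6be8_lc.Defs

-- part Pool.Agent.P.MP_0d6be8_lc.Basic
section

namespace Pool.Agent.P.MP_0d6be8_lc
open Set Filter MeasureTheory

/-- additivity on a family of subsets of `ℕ` -/
def AddOn (𝒜 : Set (Set ℕ)) (μ : Set ℕ → ℝ) : Prop :=
  ∀ a ∈ 𝒜, ∀ b ∈ 𝒜, Disjoint a b → μ (a ∪ b) = μ a + μ b

variable {𝒜 : Set (Set ℕ)} {μ ν : Set ℕ → ℝ}

lemma AddOn.empty (hA : IsSetAlgebra 𝒜) (h : AddOn 𝒜 μ) : μ ∅ = 0 := by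
  have := h ∅ hA.empty_mem ∅ hA.empty_mem (by simp)
  simp at this
  exact this

lemma AddOn.split (hA : IsSetAlgebra 𝒜) (h : AddOn 𝒜 μ) {a b : Set ℕ} (ha : a ∈ 𝒜) (hb : b ∈ 𝒜) :
    μ a = μ (a ∩ b) + μ (a \ b) := by
  rw [← h _ (hA.inter_mem ha hb) _ (hA.sdiff_mem ha hb) (Set.disjoint_left.2 fun x h1 h2 => h2.2 h1.2)]
  simp

lemma AddOn.subset {ℬ : Set (Set ℕ)} (h : AddOn 𝒜 μ) (hB : ℬ ⊆ 𝒜) : AddOn ℬ μ :=
  fun a ha b hb hd => h a (hB ha) b (hB hb) hd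

/-- nonnegative additive -/
structure Pos (𝒜 : Set (Set ℕ)) (ν : Set ℕ → ℝ) : Prop where
  add : AddOn 𝒜 ν
  nonneg : ∀ a ∈ 𝒜, 0 ≤ ν a

lemma Pos.mono (hA : IsSetAlgebra 𝒜) (h : Pos 𝒜 ν) {a b : Set ℕ} (ha : a ∈ 𝒜) (hb : b ∈ 𝒜)
    (hab : a ⊆ b) : ν a ≤ ν b := by
  rw [h.add.split hA hb ha, Set.inter_eq_right.2 hab]
  linarith [h.nonneg _ (hA.sdiff_mem hb ha)]

lemma Pos.union_le (hA : IsSetAlgebra 𝒜) (h : Pos 𝒜 ν) {a b : Set ℕ} (ha : a ∈ 𝒜) (hb : b ∈ 𝒜) :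
    ν (a ∪ b) ≤ ν a + ν b := by
  have h1 := h.add.split hA (hA.union_mem ha hb) ha
  have h2 : (a ∪ b) ∩ a = a := by ext x; simp; tauto
  rw [h2] at h1
  have h3 := h.mono hA (hA.sdiff_mem (hA.union_mem ha hb) ha) hb (by intro x; simp; tauto)
  linarith

/-- domination -/
def Dom (𝒜 : Set (Set ℕ)) (μ ν : Set ℕ → ℝ) : Prop := ∀ e ∈ 𝒜, |μ e| ≤ ν e

lemma approx_le (hA : IsSetAlgebra 𝒜) (hμ : AddOn 𝒜 μ) (hν : Pos 𝒜 ν) (hd : Dom 𝒜 μ ν)
    {a c S : Set ℕ} (ha : a ∈ 𝒜) (hc : c ∈ 𝒜) (hS : S ∈ 𝒜) (h : ∀ x, x ∉ S → (x ∈ a ↔ x ∈ c)) :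
    |μ a - μ c| ≤ ν S := by
  have h1 := hμ.split hA ha hc
  have h2 := hμ.split hA hc ha
  rw [Set.inter_comm c a] at h2
  have h3 := hd _ (hA.sdiff_mem ha hc)
  have h4 := hd _ (hA.sdiff_mem hc ha)
  have h5 := hν.add _ (hA.sdiff_mem ha hc) _ (hA.sdiff_mem hc ha)
    (Set.disjoint_left.2 fun x h1 h2 => h1.2 h2.1)
  have h6 := hν.mono hA (hA.union_mem (hA.sdiff_mem ha hc) (hA.sdiff_mem hc ha)) hS (by
    intro x hx
    by_contra hx'
    have := h x hx'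
    rcases hx with hx | hx
    · exact hx.2 (this.1 hx.1)
    · exact hx.2 (this.2 hx.1))
  rw [abs_le] at *
  constructor <;> linarith [h3.1, h3.2, h4.1, h4.2]

/-- `ν` is the variation of `μ` -/
structure IsVar (𝒜 : Set (Set ℕ)) (μ ν : Set ℕ → ℝ) : Prop where
  pos : Pos 𝒜 ν
  dom : Dom 𝒜 μ ν
  hahn : ∀ e ∈ 𝒜, ∀ ε > 0, ∃ c ∈ 𝒜, c ⊆ e ∧ ν e - ε ≤ μ c - μ (e \ c)

theorem exists_var (hA : IsSetAlgebra 𝒜) (hμ : AddOn 𝒜 μ) {C : ℝ} (hC : ∀ a ∈ 𝒜, |μ a| ≤ C) :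
    ∃ ν, IsVar 𝒜 μ ν := by
  let S : Set ℕ → Set ℝ := fun e => {x | ∃ c ∈ 𝒜, c ⊆ e ∧ x = μ c - μ (e \ c)}
  have hne : ∀ e, (S e).Nonempty := fun e => ⟨_, ∅, hA.empty_mem, empty_subset _, rfl⟩
  have hbd : ∀ e ∈ 𝒜, BddAbove (S e) := by
    intro e he
    refine ⟨2 * C, ?_⟩
    rintro x ⟨c, hc, -, rfl⟩
    have h1 := abs_le.1 (hC c hc)
    have h2 := abs_le.1 (hC _ (hA.sdiff_mem he hc))
    linarith [h1.2, h2.1]
  have hle : ∀ e ∈ 𝒜, ∀ c ∈ 𝒜, c ⊆ e → μ c - μ (e \ c) ≤ sSup (S e) :=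
    fun e he c hc hce => le_csSup (hbd e he) ⟨c, hc, hce, rfl⟩
  have hap : ∀ e ∈ 𝒜, ∀ ε > 0, ∃ c ∈ 𝒜, c ⊆ e ∧ sSup (S e) - ε ≤ μ c - μ (e \ c) := by
    intro e he ε hε
    obtain ⟨x, ⟨c, hc, hce, rfl⟩, hx⟩ := exists_lt_of_lt_csSup (hne e) (sub_lt_self (sSup (S e)) hε)
    exact ⟨c, hc, hce, hx.le⟩
  have hdom : ∀ e ∈ 𝒜, |μ e| ≤ sSup (S e) := by
    intro e he
    have h1 := hle e he e he subset_rfl
    have h2 := hle e he ∅ hA.empty_mem (empty_subset _)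
    simp only [sdiff_self, Set.sdiff_empty, hμ.empty hA] at h1 h2
    rw [abs_le]; constructor <;> linarith
  refine ⟨fun e => sSup (S e), ⟨⟨?_, fun a ha => (abs_nonneg _).trans (hdom a ha)⟩, hdom, hap⟩⟩
  intro a ha b hb hab
  have hab' : ∀ x, x ∈ a → x ∉ b := fun x hx => Set.disjoint_left.1 hab hx
  apply le_antisymm
  · refine csSup_le (hne _) ?_
    rintro x ⟨c, hc, hce, rfl⟩
    have h1 := hle a ha (c ∩ a) (hA.inter_mem hc ha) inter_subset_right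
    have h2 := hle b hb (c \ a) (hA.sdiff_mem hc ha) (by
      intro x hx; rcases hce hx.1 with h | h
      · exact absurd h hx.2
      · exact h)
    have h3 := hμ.split hA hc ha
    have h4 := hμ.split hA (hA.sdiff_mem (hA.union_mem ha hb) hc) ha
    have e1 : ((a ∪ b) \ c) ∩ a = a \ (c ∩ a) := by ext x; simp; tauto
    have e2 : ((a ∪ b) \ c) \ a = b \ (c \ a) := by
      ext x; have := hab' x; simp; tauto
    rw [e1, e2] at h4
    linarith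
  · refine le_of_forall_pos_le_add fun ε hε => ?_
    obtain ⟨c, hc, hce, h1⟩ := hap a ha (ε / 2) (by positivity)
    obtain ⟨d, hd, hde, h2⟩ := hap b hb (ε / 2) (by positivity)
    have h3 := hle _ (hA.union_mem ha hb) _ (hA.union_mem hc hd) (union_subset_union hce hde)
    have h4 := hμ c hc d hd (hab.mono hce hde)
    have h5 := hμ _ (hA.sdiff_mem ha hc) _ (hA.sdiff_mem hb hd) (hab.mono sdiff_subset sdiff_subset)
    have e1 : (a ∪ b) \ (c ∪ d) = a \ c ∪ b \ d := by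
      ext x; have := hab' x; have h6 : x ∈ c → x ∈ a := fun h => hce h
      have h7 : x ∈ d → x ∈ b := fun h => hde h
      simp; tauto
    rw [e1] at h3
    linarith

lemma IsVar.exists_hahn (hA : IsSetAlgebra 𝒜) (hμ : AddOn 𝒜 μ) (h : IsVar 𝒜 μ ν) :
    ∃ g ∈ 𝒜, ∀ W ∈ 𝒜, ν W - 1 ≤ μ (W ∩ g) - μ (W \ g) := by
  obtain ⟨g, hg, -, h1⟩ := h.hahn univ hA.univ_mem 1 one_pos
  refine ⟨g, hg, fun W hW => ?_⟩
  have h2 := hμ.split hA hg hW
  have h3 := hμ.split hA (hA.sdiff_mem hA.univ_mem hg) hW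
  have h4 := h.pos.add.split hA hA.univ_mem hW
  have h5 := h.pos.add.split hA (hA.sdiff_mem hA.univ_mem hW) hg
  have h6 := abs_le.1 (h.dom _ (hA.sdiff_mem hg hW))
  have h7 := abs_le.1 (h.dom _ (hA.sdiff_mem (hA.sdiff_mem hA.univ_mem hg) hW))
  have e1 : (univ \ W) ∩ g = g \ W := by ext x; simp; tauto
  have e2 : (univ \ W) \ g = (univ \ g) \ W := by ext x; simp; tauto
  have e3 : (univ \ g) ∩ W = W \ g := by ext x; simp; tauto
  rw [e1, e2] at h5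
  rw [e3] at h3
  rw [univ_inter] at h4
  rw [inter_comm g W] at h2
  linarith [h6.2, h7.1]

lemma IsVar.univ_le (hA : IsSetAlgebra 𝒜) (h : IsVar 𝒜 μ ν) {C : ℝ} (hC : ∀ a ∈ 𝒜, |μ a| ≤ C) :
    ν univ ≤ 2 * C := by
  refine le_of_forall_pos_le_add fun ε hε => ?_
  obtain ⟨c, hc, -, h1⟩ := h.hahn univ hA.univ_mem ε hε
  have h2 := abs_le.1 (hC c hc)
  have h3 := abs_le.1 (hC _ (hA.sdiff_mem hA.univ_mem hc))
  linarith [h2.2, h3.1]

/-- signed mass of the atom at an ultrafilter -/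
def AtomMass (𝒜 : Set (Set ℕ)) (μ : Set ℕ → ℝ) (z : Ultrafilter ℕ) (m : ℝ) : Prop :=
  ∀ ε > 0, ∃ e ∈ 𝒜, e ∈ z ∧ ∀ e' ∈ 𝒜, e' ∈ z → e' ⊆ e → |μ e' - m| ≤ ε

lemma near_inf (hA : IsSetAlgebra 𝒜) (hν : Pos 𝒜 ν) (z : Ultrafilter ℕ) {δ : ℝ} (hδ : 0 < δ) :
    ∃ e ∈ 𝒜, e ∈ z ∧ ∀ e' ∈ 𝒜, e' ∈ z → ν e ≤ ν e' + δ := by
  let S : Set ℝ := {x | ∃ e ∈ 𝒜, e ∈ z ∧ x = ν e}
  have hne : S.Nonempty := ⟨_, univ, hA.univ_mem, univ_mem, rfl⟩
  have hbd : BddBelow S := ⟨0, by rintro x ⟨e, he, -, rfl⟩; exact hν.nonneg e he⟩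
  obtain ⟨x, ⟨e, he, hez, rfl⟩, hx⟩ := exists_lt_of_csInf_lt hne (lt_add_of_pos_right (sInf S) hδ)
  refine ⟨e, he, hez, fun e' he' hez' => ?_⟩
  have : sInf S ≤ ν e' := csInf_le hbd ⟨e', he', hez', rfl⟩
  linarith

lemma pos_atomMass (hA : IsSetAlgebra 𝒜) (hν : Pos 𝒜 ν) (z : Ultrafilter ℕ) :
    ∃ m, AtomMass 𝒜 ν z m := by
  let S : Set ℝ := {x | ∃ e ∈ 𝒜, e ∈ z ∧ x = ν e}
  have hne : S.Nonempty := ⟨_, univ, hA.univ_mem, univ_mem, rfl⟩
  have hbd : BddBelow S := ⟨0, by rintro x ⟨e, he, -, rfl⟩; exact hν.nonneg e he⟩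
  refine ⟨sInf S, fun ε hε => ?_⟩
  obtain ⟨x, ⟨e, he, hez, rfl⟩, hx⟩ := exists_lt_of_csInf_lt hne (lt_add_of_pos_right (sInf S) hε)
  refine ⟨e, he, hez, fun e' he' hez' hee => ?_⟩
  have h1 : sInf S ≤ ν e' := csInf_le hbd ⟨e', he', hez', rfl⟩
  have h2 := hν.mono hA he' he hee
  rw [abs_le]; constructor <;> linarith

lemma AtomMass.lin (hA : IsSetAlgebra 𝒜) {μ' : Set ℕ → ℝ} {z : Ultrafilter ℕ} {m m' : ℝ}
    (h : AtomMass 𝒜 μ z m) (h' : AtomMass 𝒜 μ' z m') (s t : ℝ) :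
    AtomMass 𝒜 (fun e => s * μ e + t * μ' e) z (s * m + t * m') := by
  intro ε hε
  have hp : 0 < ε / (|s| + |t| + 1) := by positivity
  obtain ⟨e, he, hez, h1⟩ := h _ hp
  obtain ⟨d, hd, hdz, h2⟩ := h' _ hp
  refine ⟨e ∩ d, hA.inter_mem he hd, inter_mem hez hdz, fun e' he' hez' hee => ?_⟩
  have h3 := h1 e' he' hez' (hee.trans inter_subset_left)
  have h4 := h2 e' he' hez' (hee.trans inter_subset_right)
  have e1 : s * μ e' + t * μ' e' - (s * m + t * m') = s * (μ e' - m) + t * (μ' e' - m') := by ring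
  rw [e1]
  calc |s * (μ e' - m) + t * (μ' e' - m')| ≤ |s| * |μ e' - m| + |t| * |μ' e' - m'| := by
        rw [← abs_mul, ← abs_mul]; exact abs_add_le _ _
    _ ≤ |s| * (ε / (|s| + |t| + 1)) + |t| * (ε / (|s| + |t| + 1)) := by gcongr
    _ = (|s| + |t|) / (|s| + |t| + 1) * ε := by ring
    _ ≤ 1 * ε := by
        gcongr
        rw [div_le_one (by positivity)]; linarith
    _ = ε := one_mul _

lemma IsVar.atomMass (hA : IsSetAlgebra 𝒜) (hμ : AddOn 𝒜 μ) (h : IsVar 𝒜 μ ν) (z : Ultrafilter ℕ) :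
    ∃ m, AtomMass 𝒜 μ z m := by
  have hp : Pos 𝒜 (fun e => ν e + μ e) := ⟨fun a ha b hb hab => by
      simp only [h.pos.add a ha b hb hab, hμ a ha b hb hab]; ring,
    fun a ha => by linarith [(abs_le.1 (h.dom a ha)).1]⟩
  obtain ⟨m1, h1⟩ := pos_atomMass hA hp z
  obtain ⟨m2, h2⟩ := pos_atomMass hA h.pos z
  refine ⟨1 * m1 + (-1) * m2, ?_⟩
  have := h1.lin hA h2 1 (-1)
  simpa using this

lemma AtomMass.abs_le (hA : IsSetAlgebra 𝒜) (hν : Pos 𝒜 ν) (hd : Dom 𝒜 μ ν) {z : Ultrafilter ℕ}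
    {m : ℝ} (h : AtomMass 𝒜 μ z m) {d : Set ℕ} (hdA : d ∈ 𝒜) (hdz : d ∈ z) : |m| ≤ ν d := by
  refine le_of_forall_pos_le_add fun ε hε => ?_
  obtain ⟨e, he, hez, h1⟩ := h ε hε
  have h2 := h1 (e ∩ d) (hA.inter_mem he hdA) (inter_mem hez hdz) inter_subset_left
  have h3 := hd _ (hA.inter_mem he hdA)
  have h4 := hν.mono hA (hA.inter_mem he hdA) hdA inter_subset_right
  rw [_root_.abs_le] at *
  constructor <;> linarith [h2.1, h2.2, h3.1, h3.2]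

lemma IsVar.small (hA : IsSetAlgebra 𝒜) (hμ : AddOn 𝒜 μ) (h : IsVar 𝒜 μ ν) {z : Ultrafilter ℕ}
    {m : ℝ} (hm : AtomMass 𝒜 μ z m) {ε : ℝ} (hε : 0 < ε) : ∃ e ∈ 𝒜, e ∈ z ∧ ν e ≤ |m| + ε := by
  obtain ⟨e, he, hez, h1⟩ := hm (ε / 4) (by positivity)
  refine ⟨e, he, hez, ?_⟩
  obtain ⟨c, hc, hce, h2⟩ := h.hahn e he (ε / 4) (by positivity)
  have h3 := hμ.split hA he hc
  rw [Set.inter_eq_right.2 hce] at h3
  have h4 := abs_le.1 (h1 e he hez subset_rfl)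
  have h5 := le_abs_self m
  have h6 := neg_abs_le m
  by_cases hcz : c ∈ z
  · have h7 := abs_le.1 (h1 c hc hcz hce)
    linarith [h4.1, h4.2, h7.1, h7.2]
  · have h7 := abs_le.1 (h1 (e \ c) (hA.sdiff_mem he hc)
      (inter_mem hez (Ultrafilter.compl_mem_iff_notMem.2 hcz)) sdiff_subset)
    linarith [h4.1, h4.2, h7.1, h7.2]

/-- finite covers by neighbourhoods carrying little mass off their centre -/
lemma exists_cover (hA : IsSetAlgebra 𝒜) (hν : Pos 𝒜 ν) {δ : ℝ} (hδ : 0 < δ) :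
    ∃ Y : Set (Ultrafilter ℕ × Set ℕ), Y.Finite ∧
      (∀ y ∈ Y, y.2 ∈ 𝒜 ∧ y.2 ∈ y.1 ∧ ∀ d ∈ 𝒜, d ∉ y.1 → ν (y.2 ∩ d) ≤ δ) ∧
      ∀ z : Ultrafilter ℕ, ∃ y ∈ Y, y.2 ∈ z := by
  choose e he hez hinf using fun z => near_inf hA hν z hδ
  obtain ⟨t, ht⟩ := isCompact_univ.elim_finite_subcover (fun z => {u : Ultrafilter ℕ | e z ∈ u})
    (fun z => ultrafilter_isOpen_basic _) (fun z _ => mem_iUnion.2 ⟨z, hez z⟩)
  refine ⟨(fun z => (z, e z)) '' t, t.finite_toSet.image _, ?_, fun z => ?_⟩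
  · rintro y ⟨z, -, rfl⟩
    refine ⟨he z, hez z, fun d hd hdz => ?_⟩
    have h1 := hinf z (e z \ d) (hA.sdiff_mem (he z) hd)
      (inter_mem (hez z) (Ultrafilter.compl_mem_iff_notMem.2 hdz))
    have h2 := hν.add.split hA (he z) hd
    simp only
    linarith
  · have := ht (mem_univ z)
    simp only [mem_iUnion] at this
    obtain ⟨y, hy, hyz⟩ := this
    exact ⟨_, ⟨y, hy, rfl⟩, hyz⟩

end Pool.Agent.P.MP_0d6be8_lc
end

-- part Pool.Agent.P.MP_0d6be8_lc.Step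
section

namespace Pool.Agent.P.MP_0d6be8_lc
open Set Filter MeasureTheory Topology

/-- `a` agrees off `S` with a member of `B0` -/
def Det (B0 : Set (Set ℕ)) (S a : Set ℕ) : Prop := ∃ c ∈ B0, ∀ x, x ∉ S → (x ∈ a ↔ x ∈ c)

/-- a promise that may be made at a stage with algebra `B0` -/
structure Valid (B0 : Set (Set ℕ)) (E : ℕ → Set ℕ) (w : ℕ → ℕ → ℝ) : Prop where
  mem : ∀ i, E i ∈ B0
  sub : ∀ i j, ∃ k, E i ∪ E j ⊆ E k ∧ ∀ n, w n k ≤ w n i + w n j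
  atomless : ∀ z : Ultrafilter ℕ, ∀ ε > 0, ∀ᶠ n in atTop, ∃ i, E i ∈ z ∧ w n i < ε

/-- the promise is kept on `B` -/
def Holds (B0 : Set (Set ℕ)) (E : ℕ → Set ℕ) (w : ℕ → ℕ → ℝ) (B : Set (Set ℕ)) : Prop :=
  ∀ F : Set (Set ℕ), F.Finite → F ⊆ B → ∀ ε > 0, ∃ᶠ n in atTop, ∃ i, w n i < ε ∧
    ∀ a ∈ F, Det B0 (E i) a

lemma Det.mono {B0 : Set (Set ℕ)} {S T a : Set ℕ} (h : Det B0 S a) (hST : S ⊆ T) : Det B0 T a := by
  obtain ⟨c, hc, h⟩ := h
  exact ⟨c, hc, fun x hx => h x fun h' => hx (hST h')⟩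

lemma det_algebra {B0 : Set (Set ℕ)} (h : IsSetAlgebra B0) (S : Set ℕ) :
    IsSetAlgebra {a | Det B0 S a} where
  empty_mem := ⟨∅, h.empty_mem, fun _ _ => Iff.rfl⟩
  compl_mem := by
    rintro a ⟨c, hc, h1⟩
    exact ⟨cᶜ, h.compl_mem hc, fun x hx => not_congr (h1 x hx)⟩
  union_mem := by
    rintro a b ⟨c, hc, h1⟩ ⟨d, hd, h2⟩
    exact ⟨c ∪ d, h.union_mem hc hd, fun x hx => or_congr (h1 x hx) (h2 x hx)⟩

lemma gen_finite {G : Set (Set ℕ)} {a : Set ℕ} (ha : a ∈ generateSetAlgebra G) :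
    ∃ T ⊆ G, T.Finite ∧ a ∈ generateSetAlgebra T := by
  induction ha with
  | base s hs => exact ⟨{s}, by simpa using hs, finite_singleton _,
      self_subset_generateSetAlgebra rfl⟩
  | empty => exact ⟨∅, empty_subset _, finite_empty, generateSetAlgebra.empty⟩
  | compl s _ ih =>
    obtain ⟨T, h1, h2, h3⟩ := ih
    exact ⟨T, h1, h2, generateSetAlgebra.compl _ h3⟩
  | union s t _ _ ih1 ih2 =>
    obtain ⟨T, h1, h2, h3⟩ := ih1
    obtain ⟨T', h1', h2', h3'⟩ := ih2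
    exact ⟨T ∪ T', union_subset h1 h1', h2.union h2', generateSetAlgebra.union _ _
      (generateSetAlgebra_mono subset_union_left h3) (generateSetAlgebra_mono subset_union_right h3')⟩

lemma gen_finite' {G F : Set (Set ℕ)} (hF : F.Finite) (h : F ⊆ generateSetAlgebra G) :
    ∃ T ⊆ G, T.Finite ∧ F ⊆ generateSetAlgebra T := by
  choose T h1 h2 h3 using fun a : F => gen_finite (h a.2)
  have := hF.to_subtype
  exact ⟨⋃ a, T a, iUnion_subset h1, finite_iUnion h2, fun a ha =>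
    generateSetAlgebra_mono (subset_iUnion T ⟨a, ha⟩) (h3 ⟨a, ha⟩)⟩

lemma Holds.gen {B0 : Set (Set ℕ)} {E : ℕ → Set ℕ} {w : ℕ → ℕ → ℝ} {G : Set (Set ℕ)}
    (h0 : IsSetAlgebra B0) (h : Holds B0 E w G) : Holds B0 E w (generateSetAlgebra G) := by
  intro F hF hFG ε hε
  obtain ⟨T, h1, h2, h3⟩ := gen_finite' hF hFG
  refine (h T h2 h1 ε hε).mono ?_
  rintro n ⟨i, hi, h4⟩
  exact ⟨i, hi, fun a ha => (det_algebra h0 (E i)).generateSetAlgebra_subset h4 (h3 ha)⟩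

lemma Valid.holds {B0 : Set (Set ℕ)} {E : ℕ → Set ℕ} {w : ℕ → ℕ → ℝ} (h : Valid B0 E w) :
    Holds B0 E w B0 := by
  intro F _ hF ε hε
  refine (h.atomless (pure 0) ε hε).frequently.mono ?_
  rintro n ⟨i, -, hi⟩
  exact ⟨i, hi, fun a ha => ⟨a, hF ha, fun _ _ => Iff.rfl⟩⟩

/-- a free ultrafilter on the indices along which the promise is kept -/
lemma Holds.exists_ultrafilter {B0 B : Set (Set ℕ)} {E : ℕ → Set ℕ} {w : ℕ → ℕ → ℝ}
    (h : Holds B0 E w B) : ∃ U : Ultrafilter ℕ, (U : Filter ℕ) ≤ atTop ∧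
      ∀ F : Set (Set ℕ), F.Finite → F ⊆ B → ∀ ε > 0, ∀ᶠ n in (U : Filter ℕ), ∃ i, w n i < ε ∧
        ∀ a ∈ F, Det B0 (E i) a := by
  let I := {q : Set (Set ℕ) × ℝ // q.1.Finite ∧ q.1 ⊆ B ∧ 0 < q.2}
  let f : I → Filter ℕ := fun q => atTop ⊓ 𝓟 {n | ∃ i, w n i < q.1.2 ∧ ∀ a ∈ q.1.1, Det B0 (E i) a}
  have : Nonempty I := ⟨⟨(∅, 1), finite_empty, empty_subset _, one_pos⟩⟩
  have hdir : Directed (· ≥ ·) f := by
    rintro ⟨⟨F, ε⟩, h1, h2, h3⟩ ⟨⟨F', ε'⟩, h1', h2', h3'⟩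
    refine ⟨⟨(F ∪ F', min ε ε'), h1.union h1', union_subset h2 h2', lt_min h3 h3'⟩, ?_, ?_⟩ <;>
    refine inf_le_inf_left _ (principal_mono.2 ?_) <;> rintro n ⟨i, hi, h4⟩
    · exact ⟨i, hi.trans_le (min_le_left _ _), fun a ha => h4 a (Or.inl ha)⟩
    · exact ⟨i, hi.trans_le (min_le_right _ _), fun a ha => h4 a (Or.inr ha)⟩
  have hne : NeBot (⨅ q, f q) := iInf_neBot_of_directed hdir fun q =>
    frequently_iff_neBot.1 (h q.1.1 q.2.1 q.2.2.1 q.1.2 q.2.2.2)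
  obtain ⟨U, hU⟩ := Ultrafilter.exists_le (⨅ q, f q)
  refine ⟨U, hU.trans ((iInf_le f (Classical.arbitrary I)).trans inf_le_left), fun F h1 h2 ε hε => ?_⟩
  exact le_principal_iff.1 (hU.trans ((iInf_le f ⟨(F, ε), h1, h2, hε⟩).trans inf_le_right))

/-- a point at which a fixed proportion of the mass concentrates -/
lemma exists_point {B : Set (Set ℕ)} (hB : IsSetAlgebra B) (ν : ℕ → Set ℕ → ℝ)
    (hν : ∀ n, Pos B (ν n)) (U : Ultrafilter ℕ) (hU : ∀ᶠ n in (U : Filter ℕ), 0 < ν n univ) :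
    ∃ p : Ultrafilter ℕ, ∀ W ∈ B, W ∈ p → ∃ δ > 0, ∀ᶠ n in (U : Filter ℕ), δ * ν n univ < ν n W := by
  let I := {W : Set ℕ // W ∈ B ∧ ∀ δ > 0, ∀ᶠ n in (U : Filter ℕ), ν n W ≤ δ * ν n univ}
  have : Nonempty I := ⟨⟨∅, hB.empty_mem, fun δ hδ => hU.mono fun n hn => by
    rw [(hν n).add.empty hB]; positivity⟩⟩
  let f : I → Filter ℕ := fun W => 𝓟 (W.1)ᶜ
  have hdir : Directed (· ≥ ·) f := by
    rintro ⟨W, h1, h2⟩ ⟨W', h1', h2'⟩
    refine ⟨⟨W ∪ W', hB.union_mem h1 h1', fun δ hδ => ?_⟩,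
      principal_mono.2 (compl_subset_compl.2 subset_union_left),
      principal_mono.2 (compl_subset_compl.2 subset_union_right)⟩
    filter_upwards [h2 (δ / 2) (by positivity), h2' (δ / 2) (by positivity)] with n h3 h4
    linarith [(hν n).union_le hB h1 h1']
  have hne : NeBot (⨅ q, f q) := iInf_neBot_of_directed hdir fun W => by
    refine principal_neBot_iff.2 (nonempty_compl.2 fun h => ?_)
    obtain ⟨n, h1, h2⟩ := ((W.2.2 (1 / 2) (by norm_num)).and hU).exists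
    rw [h] at h1
    linarith
  obtain ⟨p, hp⟩ := Ultrafilter.exists_le (⨅ q, f q)
  refine ⟨p, fun W hW hWp => ?_⟩
  by_contra hcon
  push Not at hcon
  have h1 : ∀ δ > 0, ∀ᶠ n in (U : Filter ℕ), ν n W ≤ δ * ν n univ := fun δ hδ => hcon δ hδ
  have h2 : Wᶜ ∈ p := le_principal_iff.1 (hp.trans (iInf_le f ⟨W, hW, h1⟩))
  exact Ultrafilter.compl_mem_iff_notMem.1 h2 hWp

lemma exists_seq {X : Type} (P : X → Prop) (R : ℕ → X → X → Prop) (x0 : X) (h0 : P x0)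
    (h : ∀ k x, P x → ∃ y, P y ∧ R k x y) :
    ∃ x : ℕ → X, (∀ k, P (x k)) ∧ ∀ k, R k (x k) (x (k + 1)) := by
  choose! f hf1 hf2 using h
  let x : ℕ → X := fun k => Nat.rec x0 (fun k y => f k y) k
  have hx : ∀ k, P (x k) := fun k => by
    induction k with
    | zero => exact h0
    | succ k ih => exact hf1 k _ ih
  exact ⟨x, hx, fun k => hf2 k _ (hx k)⟩

section step
variable {B B0 : Set (Set ℕ)} {E : ℕ → Set ℕ} {w : ℕ → ℕ → ℝ}

lemma sub_promise (hB : IsSetAlgebra B) (hB0 : B0 ⊆ B) (hV : Valid B0 E w) (hH : Holds B0 E w B)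
    (p : Ultrafilter ℕ) {W u : Set ℕ} (hW : W ∈ B) (hWp : W ∈ p) (hu : u ∈ B)
    {F : Set (Set ℕ)} (hF : F.Finite) (hFB : F ⊆ B) {ε : ℝ} (hε : 0 < ε) (N : ℕ) :
    ∃ W' ∈ B, W' ∈ p ∧ W' ⊆ W ∧ ∃ n ≥ N, ∃ i, w n i < ε ∧ (∀ b ∈ F, Det B0 (E i) b) ∧
      ∀ a : Set ℕ, (∀ x, x ∉ W' → (x ∈ a ↔ x ∈ u)) → Det B0 (E i) a := by
  obtain ⟨n, ⟨i, hi, h1⟩, ⟨j, hj, h2⟩, hn⟩ := ((hH (insert u F) (hF.insert u)
    (insert_subset hu hFB) (ε / 2) (by positivity)).and_eventually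
    ((hV.atomless p (ε / 2) (by positivity)).and (eventually_ge_atTop N))).exists
  obtain ⟨k, hk, hw⟩ := hV.sub i j
  refine ⟨W ∩ E j, hB.inter_mem hW (hB0 (hV.mem j)), inter_mem hWp hj, inter_subset_left, n, hn, k,
    by linarith [hw n], fun b hb => (h1 b (Or.inr hb)).mono (subset_union_left.trans hk),
    fun a ha => ?_⟩
  obtain ⟨c, hc, h3⟩ := h1 u (Or.inl rfl)
  refine ⟨c, hc, fun x hx => ?_⟩
  rw [ha x fun h => hx (hk (Or.inr h.2)), h3 x fun h => hx (hk (Or.inl h))]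

lemma sub_kill (hB : IsSetAlgebra B) (hA0 : IsSetAlgebra B0) (hB0 : B0 ⊆ B) (hV : Valid B0 E w)
    {μ ν : ℕ → Set ℕ → ℝ} (hadd : ∀ n, AddOn B (μ n)) (hν : ∀ n, Pos B (ν n))
    (hdom : ∀ n, Dom B (μ n) (ν n)) (htend : Tendsto (fun n => ν n univ) atTop atTop)
    (hw : ∀ n i, ν n (E i) ≤ ν n univ * w n i)
    (hh : ∀ n, ∃ g ∈ B0, ∀ W ∈ B, ν n W - 1 ≤ μ n (W ∩ g) - μ n (W \ g))
    (hbd : ∀ e ∈ B, ∃ C, ∀ n, |μ n e| ≤ C)
    (U : Ultrafilter ℕ) (hU : (U : Filter ℕ) ≤ atTop)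
    (hU2 : ∀ F : Set (Set ℕ), F.Finite → F ⊆ B → ∀ ε > 0, ∀ᶠ n in (U : Filter ℕ),
      ∃ i, w n i < ε ∧ ∀ a ∈ F, Det B0 (E i) a)
    (p : Ultrafilter ℕ)
    (hp : ∀ W ∈ B, W ∈ p → ∃ δ > 0, ∀ᶠ n in (U : Filter ℕ), δ * ν n univ < ν n W)
    {W u : Set ℕ} (hW : W ∈ B) (hWp : W ∈ p) (hu : u ∈ B) (hWu : Disjoint u W) (k : ℕ) :
    ∃ W' ∈ B, ∃ u' ∈ B, W' ∈ p ∧ W' ⊆ W ∧ Disjoint u' W' ∧ (∀ x, x ∉ W → (x ∈ u' ↔ x ∈ u)) ∧
      ∃ n i, ∃ c ∈ B0, (∀ a : Set ℕ, (∀ x, x ∉ W' → (x ∈ a ↔ x ∈ u')) →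
        ∀ x, x ∉ E i → (x ∈ a ↔ x ∈ c)) ∧ ν n univ * w n i + k ≤ |μ n c| := by
  obtain ⟨δ, hδ, h1⟩ := hp W hW hWp
  obtain ⟨C, hC⟩ := hbd u hu
  obtain ⟨n, h1, ⟨i, hi, h2⟩, ⟨j, hj, h3⟩, h4, h5⟩ := (h1.and ((hU2 {W, u} (toFinite _)
    (insert_subset hW (singleton_subset_iff.2 hu)) (δ / 10) (by positivity)).and
    (hU ((hV.atomless p (δ / 10) (by positivity)).and
      ((htend.eventually_ge_atTop ((k + C + 1) * 5 / δ)).and (htend.eventually_ge_atTop 0)))))).exists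
  obtain ⟨g0, hg0, h6⟩ := hh n
  have hg : ∃ g ∈ B0, (δ * ν n univ - 1) / 2 ≤ |μ n (W ∩ g)| := by
    have h7 := h6 W hW
    by_cases h : (δ * ν n univ - 1) / 2 ≤ |μ n (W ∩ g0)|
    · exact ⟨g0, hg0, h⟩
    · refine ⟨g0ᶜ, hA0.compl_mem hg0, ?_⟩
      rw [← Set.sdiff_eq]
      linarith [le_abs_self (μ n (W ∩ g0)), neg_abs_le (μ n (W \ g0))]
  obtain ⟨g, hg, h7⟩ := hg
  obtain ⟨cW, hcW, h8⟩ := h2 W (Or.inl rfl)
  obtain ⟨cu, hcu, h9⟩ := h2 u (Or.inr rfl)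
  obtain ⟨l, hl, hwl⟩ := hV.sub i j
  have hEj := hB0 (hV.mem j)
  have hdis : ∀ x, x ∈ u → x ∉ W := fun x hx => Set.disjoint_left.1 hWu hx
  refine ⟨W ∩ E j, hB.inter_mem hW hEj, u ∪ (W ∩ g) \ E j,
    hB.union_mem hu (hB.sdiff_mem (hB.inter_mem hW (hB0 hg)) hEj), inter_mem hWp hj,
    inter_subset_left, Set.disjoint_left.2 ?_, fun x hx => by simp [hx], n, l, cu ∪ cW ∩ g,
    hA0.union_mem hcu (hA0.inter_mem hcW hg), fun a ha x hx => ?_, ?_⟩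
  · rintro x (hx | hx) hx'
    · exact hdis x hx hx'.1
    · exact hx.2 hx'.2
  · have hxj : x ∉ E j := fun h => hx (hl (Or.inr h))
    have hxi : x ∉ E i := fun h => hx (hl (Or.inl h))
    rw [ha x fun h => hxj h.2]
    simp [hxj, h8 x hxi, h9 x hxi]
  · have h10 := approx_le hB (hadd n) (hν n) (hdom n)
      (hB.union_mem hu (hB.inter_mem hW (hB0 hg)))
      (hB0 (hA0.union_mem hcu (hA0.inter_mem hcW hg))) (hB0 (hV.mem i))
      (fun x hxi => by simp [h8 x hxi, h9 x hxi])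
    rw [hadd n u hu _ (hB.inter_mem hW (hB0 hg)) (hWu.mono_right inter_subset_left)] at h10
    have h11 := hw n i
    have h12 := hC n
    have h13 : ν n univ * w n i ≤ ν n univ * (δ / 10) := by gcongr
    have h14 : ν n univ * w n l ≤ ν n univ * (δ / 10 + δ / 10) := by
      gcongr; linarith [hwl n]
    have h15 : (k + C + 1) * 5 ≤ ν n univ * δ := by rwa [div_le_iff₀ hδ] at h4
    have h16 : |μ n (W ∩ g)| ≤ |μ n (cu ∪ cW ∩ g)| + |μ n u + μ n (W ∩ g) - μ n (cu ∪ cW ∩ g)|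
        + |μ n u| := by
      have e : μ n (W ∩ g) = μ n (cu ∪ cW ∩ g) + (μ n u + μ n (W ∩ g) - μ n (cu ∪ cW ∩ g))
          + -μ n u := by ring
      calc |μ n (W ∩ g)| = |μ n (cu ∪ cW ∩ g) + (μ n u + μ n (W ∩ g) - μ n (cu ∪ cW ∩ g))
          + -μ n u| := by rw [← e]
        _ ≤ _ := by
          refine (abs_add_le _ _).trans ?_
          rw [abs_neg]
          gcongr
          exact abs_add_le _ _
    nlinarith

end step

theorem step {B : Set (Set ℕ)} (hB : IsSetAlgebra B) (hc : B.Countable) {J : Type} [Countable J]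
    (B0 : J → Set (Set ℕ)) (E : J → ℕ → Set ℕ) (w : J → ℕ → ℕ → ℝ)
    (hA0 : ∀ j, IsSetAlgebra (B0 j)) (hB0 : ∀ j, B0 j ⊆ B) (hV : ∀ j, Valid (B0 j) (E j) (w j))
    (hH : ∀ j, Holds (B0 j) (E j) (w j) B) (j0 : J)
    {μ ν : ℕ → Set ℕ → ℝ} (hadd : ∀ n, AddOn B (μ n)) (hν : ∀ n, Pos B (ν n))
    (hdom : ∀ n, Dom B (μ n) (ν n)) (htend : Tendsto (fun n => ν n univ) atTop atTop)
    (hw : ∀ n i, ν n (E j0 i) ≤ ν n univ * w j0 n i)
    (hh : ∀ n, ∃ g ∈ B0 j0, ∀ W ∈ B, ν n W - 1 ≤ μ n (W ∩ g) - μ n (W \ g))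
    (hbd : ∀ e ∈ B, ∃ C, ∀ n, |μ n e| ≤ C) :
    ∃ (a : Set ℕ) (p : Ultrafilter ℕ), (∀ e ∈ B, e ∉ p → a ∩ e ∈ B) ∧
      (∀ j, Holds (B0 j) (E j) (w j) (insert a B)) ∧
      ∀ k : ℕ, ∃ n i, ∃ c ∈ B0 j0, (∀ x, x ∉ E j0 i → (x ∈ a ↔ x ∈ c)) ∧
        ν n univ * w j0 n i + k ≤ |μ n c| := by
  obtain ⟨U, hU, hU2⟩ := (hH j0).exists_ultrafilter
  obtain ⟨p, hp⟩ := exists_point hB ν hν U (hU (htend.eventually_gt_atTop 0))
  obtain ⟨f, hf⟩ := hc.exists_eq_range ⟨∅, hB.empty_mem⟩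
  have : Nonempty J := ⟨j0⟩
  obtain ⟨ι, hι⟩ := exists_surjective_nat J
  have hfB : ∀ k, f k ∈ B := fun k => hf ▸ mem_range_self k
  obtain ⟨x, hx, hR⟩ := exists_seq
    (fun q : Set ℕ × Set ℕ => q.1 ∈ B ∧ q.2 ∈ B ∧ q.1 ∈ p ∧ Disjoint q.2 q.1)
    (fun k q q' => q'.1 ⊆ q.1 ∧ (∀ x, x ∉ q.1 → (x ∈ q'.2 ↔ x ∈ q.2)) ∧ (f k ∈ p → q'.1 ⊆ f k) ∧
      (∃ n i, ∃ c ∈ B0 j0, (∀ a : Set ℕ, (∀ x, x ∉ q'.1 → (x ∈ a ↔ x ∈ q'.2)) →
        ∀ x, x ∉ E j0 i → (x ∈ a ↔ x ∈ c)) ∧ ν n univ * w j0 n i + k ≤ |μ n c|) ∧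
      ∃ n ≥ k, ∃ i, w (ι k.unpair.1) n i < 1 / ((k : ℝ) + 1) ∧
        (∀ b ∈ f '' Iic k, Det (B0 (ι k.unpair.1)) (E (ι k.unpair.1) i) b) ∧
        ∀ a : Set ℕ, (∀ x, x ∉ q'.1 → (x ∈ a ↔ x ∈ q'.2)) →
          Det (B0 (ι k.unpair.1)) (E (ι k.unpair.1) i) a)
    (univ, ∅) ⟨hB.univ_mem, hB.empty_mem, univ_mem, by simp⟩ (by
      rintro k ⟨W, u⟩ ⟨hW, hu, hWp, hWu⟩
      obtain ⟨W1, hW1, u1, hu1, hW1p, hW1W, hd1, hu1u, n, i, c, hc, h1, h2⟩ :=
        sub_kill hB (hA0 j0) (hB0 j0) (hV j0) hadd hν hdom htend hw hh hbd U hU hU2 p hp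
          hW hWp hu hWu k
      have : ∃ W2 ∈ B, W2 ∈ p ∧ W2 ⊆ W1 ∧ (f k ∈ p → W2 ⊆ f k) := by
        by_cases h : f k ∈ p
        · exact ⟨W1 ∩ f k, hB.inter_mem hW1 (hfB k), inter_mem hW1p h, inter_subset_left,
            fun _ => inter_subset_right⟩
        · exact ⟨W1, hW1, hW1p, subset_rfl, fun h' => absurd h' h⟩
      obtain ⟨W2, hW2, hW2p, hW21, hW2f⟩ := this
      obtain ⟨W3, hW3, hW3p, hW32, n', hn', i', h3, h4, h5⟩ :=
        sub_promise hB (hB0 (ι k.unpair.1)) (hV _) (hH _) p hW2 hW2p hu1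
          ((finite_Iic k).image f) (by rintro _ ⟨l, -, rfl⟩; exact hfB l)
          (Nat.one_div_pos_of_nat (α := ℝ) (n := k)) k
      refine ⟨(W3, u1), ⟨hW3, hu1, hW3p, hd1.mono_right (hW32.trans hW21)⟩,
        hW32.trans (hW21.trans hW1W), hu1u, fun h => hW32.trans (hW2f h),
        ⟨n, i, c, hc, fun a ha => h1 a fun x hx => ha x fun h => hx (hW21 (hW32 h)), h2⟩,
        n', hn', i', h3, h4, h5⟩)
  have hanti : Antitone fun k => (x k).1 := antitone_nat_of_succ_le fun k => (hR k).1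
  have hstab : ∀ k l, k ≤ l → ∀ y, y ∉ (x k).1 → (y ∈ (x l).2 ↔ y ∈ (x k).2) := by
    intro k l hkl y hy
    induction l, hkl using Nat.le_induction with
    | base => rfl
    | succ l hkl ih => rw [← ih]; exact (hR l).2.1 y fun h => hy (hanti hkl h)
  let a : Set ℕ := ⋃ k, (x k).2
  have ha : ∀ k y, y ∉ (x k).1 → (y ∈ a ↔ y ∈ (x k).2) := by
    intro k y hy
    refine ⟨fun h => ?_, fun h => mem_iUnion.2 ⟨k, h⟩⟩
    obtain ⟨l, hl⟩ := mem_iUnion.1 h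
    rcases le_total k l with hkl | hkl
    · exact (hstab k l hkl y hy).1 hl
    · exact (hstab l k hkl y (Set.disjoint_left.1 (hx l).2.2.2 hl)).2 hl
  refine ⟨a, p, fun e he hep => ?_, fun j F hF hFB ε hε => ?_, fun k => ?_⟩
  · obtain ⟨k, hk⟩ : eᶜ ∈ range f := hf ▸ hB.compl_mem he
    have h1 := (hR k).2.2.1 (hk ▸ Ultrafilter.compl_mem_iff_notMem.2 hep)
    rw [hk] at h1
    have : a ∩ e = (x (k + 1)).2 ∩ e := by
      ext y
      exact and_congr_left fun hy => ha (k + 1) y fun h => h1 h hy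
    rw [this]
    exact hB.inter_mem (hx _).2.1 he
  · refine frequently_atTop.2 fun N => ?_
    obtain ⟨t, rfl⟩ := hι j
    have h1 : ∃ M, F \ {a} ⊆ f '' Iic M := by
      have h2 : F \ {a} ⊆ range f := fun b hb => hf ▸ (hFB hb.1).resolve_left hb.2
      obtain ⟨T, -, hT, hT2⟩ := (hF.subset sdiff_subset).exists_subset_finite_image_eq
        (s := univ) (f := f) (by rwa [image_univ])
      obtain ⟨M, hM⟩ := hT.bddAbove
      exact ⟨M, hT2 ▸ image_mono hM⟩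
    obtain ⟨M, hM⟩ := h1
    obtain ⟨L, hL⟩ := exists_nat_one_div_lt hε
    have hk := Nat.right_le_pair t (max N (max M L))
    obtain ⟨n, hn, i, h2, h3, h4⟩ := (hR (Nat.pair t (max N (max M L)))).2.2.2.2
    simp only [max_le_iff] at hk
    rw [Nat.unpair_pair] at h2 h3 h4
    refine ⟨n, hk.1.trans hn, i, h2.trans_le (le_trans ?_ hL.le), fun b hb => ?_⟩
    · gcongr; exact hk.2.2
    · by_cases hba : b = a
      · exact hba ▸ h4 a (ha _)
      · exact h3 b (image_mono (Iic_subset_Iic.2 hk.2.1) (hM ⟨hb, hba⟩))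
  · obtain ⟨n, i, c, hc, h1, h2⟩ := (hR k).2.2.2.1
    exact ⟨n, i, c, hc, h1 a (ha _), h2⟩

end Pool.Agent.P.MP_0d6be8_lc
end

-- part Pool.Agent.P.MP_0d6be8_lc.Reduce
section

namespace Pool.Agent.P.MP_0d6be8_lc
open Set Filter MeasureTheory Topology

variable {𝒜 : Set (Set ℕ)}

/-- a pointwise bounded sequence whose variations tend to infinity -/
structure Bad (𝒜 : Set (Set ℕ)) (μ ν : ℕ → Set ℕ → ℝ) : Prop where
  add : ∀ n, AddOn 𝒜 (μ n)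
  var : ∀ n, IsVar 𝒜 (μ n) (ν n)
  bdd : ∀ a ∈ 𝒜, ∃ C, ∀ n, |μ n a| ≤ C
  tend : Tendsto (fun n => ν n univ) atTop atTop

lemma exists_sep (hA : IsSetAlgebra 𝒜) {y z : Ultrafilter ℕ} (h : ¬ ∀ d ∈ 𝒜, d ∈ z ↔ d ∈ y) :
    ∃ d ∈ 𝒜, d ∈ z ∧ d ∉ y := by
  push Not at h
  obtain ⟨d, hd, h | h⟩ := h
  · exact ⟨d, hd, h.1, h.2⟩
  · exact ⟨dᶜ, hA.compl_mem hd, Ultrafilter.compl_mem_iff_notMem.2 h.1,
      fun h' => Ultrafilter.compl_mem_iff_notMem.1 h' h.2⟩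

lemma AtomMass.congr {μ : Set ℕ → ℝ} {y z : Ultrafilter ℕ} {m : ℝ} (h : AtomMass 𝒜 μ y m)
    (hyz : ∀ d ∈ 𝒜, d ∈ z ↔ d ∈ y) : AtomMass 𝒜 μ z m := by
  intro ε hε
  obtain ⟨e, he, hez, h1⟩ := h ε hε
  exact ⟨e, he, (hyz e he).2 hez, fun e' he' hz hee => h1 e' he' ((hyz e' he').1 hz) hee⟩

theorem stepA' (hA : IsSetAlgebra 𝒜) (μ ν : ℕ → Set ℕ → ℝ) (hadd : ∀ n, AddOn 𝒜 (μ n))
    (hvar : ∀ n, IsVar 𝒜 (μ n) (ν n)) (hbdd : ∀ a ∈ 𝒜, ∃ C, ∀ n, |μ n a| ≤ C)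
    (hs : ∀ n : ℕ, (n : ℝ) + 1 ≤ ν n univ) :
    ∃ μ' ν', Bad 𝒜 μ' ν' ∧
      ∀ z : Ultrafilter ℕ, ∀ ε > 0, ∀ᶠ n in atTop, ∃ e ∈ 𝒜, e ∈ z ∧ ν' n e < ε * ν' n univ := by
  set s : ℕ → ℝ := fun n => ν n univ with hsdef
  have hspos : ∀ n, 0 < s n := fun n => lt_of_lt_of_le (by positivity) (hs n)
  choose m hm using fun n z => (hvar n).atomMass hA (hadd n) z
  have hmle : ∀ n z, |m n z| ≤ s n := fun n z =>
    (hm n z).abs_le hA (hvar n).pos (hvar n).dom hA.univ_mem univ_mem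
  choose Yc hYfin hYc hYcov using fun (n j : ℕ) =>
    exists_cover hA (hvar n).pos (Nat.one_div_pos_of_nat (α := ℝ) (n := j))
  let Y : Set (Ultrafilter ℕ) := ⋃ n, ⋃ j, Prod.fst '' Yc n j
  have hYcount : Y.Countable :=
    countable_iUnion fun n => countable_iUnion fun j => ((hYfin n j).image _).countable
  have hdich : ∀ z : Ultrafilter ℕ, (∃ y ∈ Y, ∀ d ∈ 𝒜, d ∈ z ↔ d ∈ y) ∨ ∀ n, m n z = 0 := by
    intro z
    by_contra hcon
    push Not at hcon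
    obtain ⟨h1, n, hn⟩ := hcon
    obtain ⟨j, hj⟩ := exists_nat_one_div_lt (abs_pos.2 hn)
    obtain ⟨y, hy, hyz⟩ := hYcov n j z
    have hyY : y.1 ∈ Y := mem_iUnion.2 ⟨n, mem_iUnion.2 ⟨j, y, hy, rfl⟩⟩
    obtain ⟨d, hd, hdz, hdy⟩ := exists_sep hA (y := y.1) (z := z) (by
      intro h; obtain ⟨d, hd, h2⟩ := h1 _ hyY; have := h d hd; tauto)
    have h2 := (hYc n j y hy).2.2 d hd hdy
    have h3 := (hm n z).abs_le hA (hvar n).pos (hvar n).dom (hA.inter_mem (hYc n j y hy).1 hd)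
      (inter_mem hyz hdz)
    linarith
  have : Countable Y := hYcount.to_subtype
  let x : ℕ → Y → ℝ := fun n y => m n y / s n
  have hx : ∀ n, x n ∈ Set.pi univ (fun _ : Y => Icc (-1 : ℝ) 1) := by
    intro n y _
    have : |x n y| ≤ 1 := by
      simp only [x, abs_div, abs_of_pos (hspos n)]
      exact (div_le_one (hspos n)).2 (hmle n y)
    exact abs_le.1 this
  obtain ⟨θ, -, φ, hφ, hlim⟩ := (isCompact_univ_pi fun _ : Y => isCompact_Icc).tendsto_subseq hx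
  have hW : ∀ n, ∃ W ∈ 𝒜, s n / 3 ≤ |μ n W| := by
    intro n
    obtain ⟨c, hc, -, h1⟩ := (hvar n).hahn univ hA.univ_mem (s n / 3) (by linarith [hspos n])
    by_cases h : s n / 3 ≤ |μ n c|
    · exact ⟨c, hc, h⟩
    · refine ⟨univ \ c, hA.sdiff_mem hA.univ_mem hc, ?_⟩
      push Not at h
      have h2 := le_abs_self (μ n c)
      have h3 := neg_abs_le (μ n (univ \ c))
      simp only [hsdef] at *
      linarith
  choose W hWA hW using hW
  have hl : ∀ k, ∃ l, k ≤ l ∧ s (φ k) ≤ s (φ l) ∧ |μ (φ l) (W (φ k))| ≤ s (φ l) / 12 := by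
    intro k
    obtain ⟨C, hC⟩ := hbdd _ (hWA (φ k))
    obtain ⟨l, hl⟩ := exists_nat_ge (max (k : ℝ) (max (s (φ k)) (12 * C)))
    simp only [max_le_iff] at hl
    have h1 : (l : ℝ) ≤ φ l := by exact_mod_cast hφ.id_le l
    have h2 := hs (φ l)
    refine ⟨l, by exact_mod_cast hl.1, ?_, ?_⟩
    · simp only [hsdef] at *; linarith [hl.2.1]
    · simp only [hsdef] at *; linarith [hl.2.2, hC (φ l)]
  choose l hlk hls hlW using hl
  let t : ℕ → ℝ := fun k => s (φ k) / s (φ (l k))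
  have ht0 : ∀ k, 0 ≤ t k := fun k => div_nonneg (hspos _).le (hspos _).le
  have ht1 : ∀ k, t k ≤ 1 := fun k => (div_le_one (hspos _)).2 (hls k)
  let μ' : ℕ → Set ℕ → ℝ := fun k e => t k * μ (φ (l k)) e + (-1) * μ (φ k) e
  have hadd' : ∀ k, AddOn 𝒜 (μ' k) := fun k a ha b hb hab => by
    simp only [μ', hadd _ a ha b hb hab]; ring
  have hle' : ∀ k e, |μ' k e| ≤ |μ (φ (l k)) e| + |μ (φ k) e| := by
    intro k e
    calc |μ' k e| ≤ |t k * μ (φ (l k)) e| + |(-1) * μ (φ k) e| := abs_add_le _ _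
      _ = t k * |μ (φ (l k)) e| + |μ (φ k) e| := by
          rw [abs_mul, abs_mul, abs_of_nonneg (ht0 k)]; simp
      _ ≤ 1 * |μ (φ (l k)) e| + |μ (φ k) e| := by gcongr; exact ht1 k
      _ = _ := by rw [one_mul]
  have hb' : ∀ k, ∀ a ∈ 𝒜, |μ' k a| ≤ s (φ (l k)) + s (φ k) := by
    intro k a ha
    refine (hle' k a).trans (add_le_add ?_ ?_) <;>
    exact ((hvar _).dom a ha).trans ((hvar _).pos.mono hA ha hA.univ_mem (subset_univ _))
  choose ν' hν' using fun k => exists_var hA (hadd' k) (hb' k)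
  have hlow : ∀ k, s (φ k) / 4 ≤ ν' k univ := by
    intro k
    have h1 := ((hν' k).dom _ (hWA (φ k))).trans
      ((hν' k).pos.mono hA (hWA (φ k)) hA.univ_mem (subset_univ _))
    refine le_trans ?_ h1
    have h2 : |t k * μ (φ (l k)) (W (φ k))| ≤ s (φ k) / 12 := by
      rw [abs_mul, abs_of_nonneg (ht0 k)]
      calc t k * |μ (φ (l k)) (W (φ k))| ≤ t k * (s (φ (l k)) / 12) := by
            gcongr; exact ht0 k; exact hlW k
        _ = s (φ k) / 12 := by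
            simp only [t]; field_simp [(hspos (φ (l k))).ne']
    have h3 := hW (φ k)
    have h4 : |μ (φ k) (W (φ k))| ≤ |μ' k (W (φ k))| + |t k * μ (φ (l k)) (W (φ k))| := by
      have : μ (φ k) (W (φ k)) = -(μ' k (W (φ k))) + t k * μ (φ (l k)) (W (φ k)) := by
        simp only [μ']; ring
      rw [this]
      refine (abs_add_le _ _).trans ?_
      rw [abs_neg]
    linarith
  refine ⟨μ', ν', ⟨hadd', hν', fun a ha => ?_, ?_⟩, fun z ε hε => ?_⟩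
  · obtain ⟨C, hC⟩ := hbdd a ha
    exact ⟨C + C, fun k => (hle' k a).trans (add_le_add (hC _) (hC _))⟩
  · refine tendsto_atTop_mono (f := fun k : ℕ => (k : ℝ) / 4) (fun k => ?_)
      (tendsto_natCast_atTop_atTop.atTop_div_const (by norm_num))
    have h1 : (k : ℝ) ≤ φ k := by exact_mod_cast hφ.id_le k
    have h2 := hs (φ k)
    have h3 := hlow k
    simp only [hsdef] at *
    linarith
  · have key : ∀ᶠ k in atTop, ∃ m', AtomMass 𝒜 (μ' k) z m' ∧ |m'| ≤ ε * s (φ k) / 16 := by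
      rcases hdich z with ⟨y, hy, hyz⟩ | h0
      · have h1 : Tendsto (fun k => x (φ k) ⟨y, hy⟩) atTop (𝓝 (θ ⟨y, hy⟩)) :=
          (continuous_apply _).continuousAt.tendsto.comp hlim
        have h2 : Tendsto (fun k => x (φ (l k)) ⟨y, hy⟩) atTop (𝓝 (θ ⟨y, hy⟩)) :=
          h1.comp (tendsto_atTop_mono hlk tendsto_id)
        have h3 := (h2.sub h1).abs
        rw [sub_self, abs_zero] at h3
        filter_upwards [h3.eventually (gt_mem_nhds (show (0 : ℝ) < ε / 16 by positivity))] with k hk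
        refine ⟨_, (((hm (φ (l k)) y).lin hA (hm (φ k) y) (t k) (-1))).congr hyz, ?_⟩
        have e1 : t k * m (φ (l k)) y + -1 * m (φ k) y =
            s (φ k) * (x (φ (l k)) ⟨y, hy⟩ - x (φ k) ⟨y, hy⟩) := by
          simp only [t, x]; field_simp [(hspos (φ (l k))).ne', (hspos (φ k)).ne']; ring
        rw [e1, abs_mul, abs_of_pos (hspos _)]
        nlinarith [hspos (φ k)]
      · refine Eventually.of_forall fun k => ⟨_, (hm (φ (l k)) z).lin hA (hm (φ k) z) (t k) (-1), ?_⟩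
        simp only [h0, mul_zero, add_zero, abs_zero]
        have := hspos (φ k)
        positivity
    filter_upwards [key] with k ⟨m', hm', hm2⟩
    have hp : 0 < ε * s (φ k) / 16 := by have := hspos (φ k); positivity
    obtain ⟨e, he, hez, h1⟩ := (hν' k).small hA (hadd' k) hm' hp
    refine ⟨e, he, hez, ?_⟩
    have h2 := mul_le_mul_of_nonneg_left (hlow k) hε.le
    linarith

theorem stepA (hA : IsSetAlgebra 𝒜) (μ : ℕ → Set ℕ → ℝ) (hadd : ∀ n, AddOn 𝒜 (μ n))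
    (hb : ∀ n, ∃ C, ∀ a ∈ 𝒜, |μ n a| ≤ C) (hbdd : ∀ a ∈ 𝒜, ∃ C, ∀ n, |μ n a| ≤ C)
    (hun : ¬ ∃ C, ∀ n, ∀ a ∈ 𝒜, |μ n a| ≤ C) :
    ∃ μ' ν', Bad 𝒜 μ' ν' ∧
      ∀ z : Ultrafilter ℕ, ∀ ε > 0, ∀ᶠ n in atTop, ∃ e ∈ 𝒜, e ∈ z ∧ ν' n e < ε * ν' n univ := by
  have hv : ∀ n, ∃ ν, IsVar 𝒜 (μ n) ν := fun n => by
    obtain ⟨C, hC⟩ := hb n
    exact exists_var hA (hadd n) hC
  choose ν hν using hv
  have h1 : ∀ k : ℕ, ∃ n, (k : ℝ) + 1 ≤ ν n univ := by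
    intro k
    by_contra h
    push Not at h
    exact hun ⟨k + 1, fun n a ha => (((hν n).dom a ha).trans
      ((hν n).pos.mono hA ha hA.univ_mem (subset_univ _))).trans (h n).le⟩
  choose φ hφ using h1
  refine stepA' hA (fun k => μ (φ k)) (fun k => ν (φ k)) (fun k => hadd _) (fun k => hν _) ?_ hφ
  intro a ha
  obtain ⟨C, hC⟩ := hbdd a ha
  exact ⟨C, fun n => hC _⟩

theorem stepB (hA : IsSetAlgebra 𝒜) (ν : ℕ → Set ℕ → ℝ) (hν : ∀ n, Pos 𝒜 (ν n))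
    (hat : ∀ z : Ultrafilter ℕ, ∀ ε > 0, ∀ᶠ n in atTop, ∃ e ∈ 𝒜, e ∈ z ∧ ν n e < ε) :
    ∃ ℬ : Set (Set ℕ), ℬ.Countable ∧ IsSetAlgebra ℬ ∧ ℬ ⊆ 𝒜 ∧
      ∀ z : Ultrafilter ℕ, ∀ ε > 0, ∀ᶠ n in atTop, ∃ e ∈ ℬ, e ∈ z ∧ ν n e < ε := by
  classical
  choose Yc hYfin hYc hYcov using fun (n j : ℕ) =>
    exists_cover hA (hν n) (Nat.one_div_pos_of_nat (α := ℝ) (n := j))
  let Y : Set (Ultrafilter ℕ × Set ℕ) := ⋃ n, ⋃ j, Yc n j
  have hYcount : Y.Countable :=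
    countable_iUnion fun n => countable_iUnion fun j => (hYfin n j).countable
  have hsep : ∀ y y' : Ultrafilter ℕ, ∃ d ∈ 𝒜, (¬ ∀ d ∈ 𝒜, d ∈ y ↔ d ∈ y') → d ∈ y ∧ d ∉ y' := by
    intro y y'
    by_cases h : ∀ d ∈ 𝒜, d ∈ y ↔ d ∈ y'
    · exact ⟨∅, hA.empty_mem, fun h' => absurd h h'⟩
    · obtain ⟨d, hd, h1⟩ := exists_sep hA h
      exact ⟨d, hd, fun _ => h1⟩
  choose D hD hDs using hsep
  let G : Set (Set ℕ) := Prod.snd '' Y ∪ image2 (fun y y' => D y.1 y'.1) Y Y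
  have hG : G ⊆ 𝒜 := by
    rintro e (⟨y, hy, rfl⟩ | ⟨y, -, y', -, rfl⟩)
    · simp only [Y, mem_iUnion] at hy
      obtain ⟨n, j, hy⟩ := hy
      exact (hYc n j y hy).1
    · exact hD _ _
  have hB := isSetAlgebra_generateSetAlgebra (𝒜 := G)
  have hBA : generateSetAlgebra G ⊆ 𝒜 := hA.generateSetAlgebra_subset hG
  refine ⟨generateSetAlgebra G, countable_generateSetAlgebra
    ((hYcount.image _).union (hYcount.image2 hYcount _)), hB, hBA, fun z ε hε => ?_⟩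
  by_contra hcon
  rw [Filter.not_eventually] at hcon
  obtain ⟨j, hj⟩ := exists_nat_one_div_lt (show 0 < ε / 2 by positivity)
  have hy : ∀ n, (¬ ∃ e ∈ generateSetAlgebra G, e ∈ z ∧ ν n e < ε) →
      ∃ y ∈ Yc n j, y.2 ∈ z ∧ ∀ d ∈ generateSetAlgebra G, d ∈ z ↔ d ∈ y.1 := by
    intro n hn
    obtain ⟨y, hy, hyz⟩ := hYcov n j z
    refine ⟨y, hy, hyz, ?_⟩
    by_contra h
    obtain ⟨d, hd, hdz, hdy⟩ := exists_sep hB h
    have hyG : y.2 ∈ generateSetAlgebra G := self_subset_generateSetAlgebra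
      (Or.inl ⟨y, mem_iUnion.2 ⟨n, mem_iUnion.2 ⟨j, hy⟩⟩, rfl⟩)
    refine hn ⟨_, hB.inter_mem hyG hd, inter_mem hyz hdz, ?_⟩
    have := (hYc n j y hy).2.2 d (hBA hd) hdy
    linarith
  obtain ⟨n0, hn0⟩ := hcon.exists
  obtain ⟨y0, hy0, -, hy0z⟩ := hy n0 hn0
  obtain ⟨n, hn, e, he, hey, hlt⟩ := (hcon.and_eventually (hat y0.1 (ε / 2) (by positivity))).exists
  obtain ⟨y, hyn, hyz, hyz'⟩ := hy n hn
  have hyY : y ∈ Y := mem_iUnion.2 ⟨n, mem_iUnion.2 ⟨j, hyn⟩⟩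
  have hy0Y : y0 ∈ Y := mem_iUnion.2 ⟨n0, mem_iUnion.2 ⟨j, hy0⟩⟩
  have heq : ∀ d ∈ 𝒜, d ∈ y0.1 ↔ d ∈ y.1 := by
    by_contra h
    have h1 := hDs _ _ h
    have h2 : D y0.1 y.1 ∈ generateSetAlgebra G := self_subset_generateSetAlgebra
      (Or.inr ⟨y0, hy0Y, y, hyY, rfl⟩)
    exact h1.2 ((hyz' _ h2).1 ((hy0z _ h2).2 h1.1))
  have hyG : y.2 ∈ generateSetAlgebra G := self_subset_generateSetAlgebra (Or.inl ⟨y, hyY, rfl⟩)
  refine hn ⟨y.2, hyG, hyz, ?_⟩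
  have h1 := (hYc n j y hyn).2.2 eᶜ (hA.compl_mem he)
    (fun h => Ultrafilter.compl_mem_iff_notMem.1 h ((heq e he).1 hey))
  have h2 := (hν n).add.split hA (hBA hyG) he
  have h3 := (hν n).mono hA (hA.inter_mem (hBA hyG) he) he inter_subset_right
  rw [Set.sdiff_eq] at h2
  linarith

end Pool.Agent.P.MP_0d6be8_lc
end

-- part Pool.Agent.P.MP_0d6be8_lc.Construct
section

namespace Pool.Agent.P.MP_0d6be8_lc
open Set Filter MeasureTheory Topology symmDiff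

/-- bookkeeping data -/
abbrev Datum : Type := (ℕ → Set ℕ) × (ℕ → ℕ → ℝ) × (ℕ → Set ℕ) × (ℕ → ℕ → ℝ) × (ℕ → ℝ)

def Kill (d : Datum) (a : Set ℕ) : Prop :=
  ∀ k : ℕ, ∃ n i j, (∀ x, x ∉ d.1 i → (x ∈ a ↔ x ∈ d.2.2.1 j)) ∧
    d.2.2.2.2 n * d.2.1 n i + k ≤ |d.2.2.2.1 n j|

variable {I : Type}

def stage (a : I → Set ℕ) (S : Set I) : Set (Set ℕ) :=
  generateSetAlgebra (range (fun n : ℕ => ({n} : Set ℕ)) ∪ a '' S)

lemma stage_alg (a : I → Set ℕ) (S : Set I) : IsSetAlgebra (stage a S) :=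
  isSetAlgebra_generateSetAlgebra

lemma stage_mono (a : I → Set ℕ) {S T : Set I} (h : S ⊆ T) : stage a S ⊆ stage a T :=
  generateSetAlgebra_mono (union_subset_union_right _ (image_mono h))

lemma mem_stage (a : I → Set ℕ) {S : Set I} {i : I} (h : i ∈ S) : a i ∈ stage a S :=
  self_subset_generateSetAlgebra (Or.inr ⟨i, h, rfl⟩)

lemma stage_countable (a : I → Set ℕ) {S : Set I} (h : S.Countable) : (stage a S).Countable :=
  countable_generateSetAlgebra ((countable_range _).union (h.image _))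

variable [LinearOrder I]

def Minimal' (a : I → Set ℕ) (γ : I) (x : Set ℕ) : Prop :=
  ∃ p : Ultrafilter ℕ, ∀ e ∈ stage a (Iio γ), e ∉ p → x ∩ e ∈ stage a (Iio γ)

def Keeps (f : I → Datum) (a : I → Set ℕ) (γ : I) (B : Set (Set ℕ)) : Prop :=
  ∀ β ≤ γ, Valid (stage a (Iio β)) (f β).1 (f β).2.1 → Holds (stage a (Iio β)) (f β).1 (f β).2.1 B

def Good (f : I → Datum) (a : I → Set ℕ) (γ : I) (x : Set ℕ) : Prop :=
  Minimal' a γ x ∧ Keeps f a γ (insert x (stage a (Iio γ))) ∧ Kill (f γ) x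

lemma exists_rec [WellFoundedLT I] {X : Type} [Inhabited X] (G : (I → X) → I → X)
    (hG : ∀ a a' γ, (∀ ξ < γ, a ξ = a' ξ) → G a γ = G a' γ) : ∃ a : I → X, ∀ γ, a γ = G a γ := by
  classical
  let F : ∀ γ : I, (∀ ξ, ξ < γ → X) → X := fun γ prev =>
    G (fun ξ => if h : ξ < γ then prev ξ h else default) γ
  refine ⟨(wellFounded_lt (α := I)).fix F, fun γ => ?_⟩
  rw [WellFounded.fix_eq]
  exact hG _ _ _ fun ξ hξ => by simp [hξ]

lemma exists_construction [WellFoundedLT I] (f : I → Datum) :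
    ∃ a : I → Set ℕ, ∀ γ, ((∃ x, Good f a γ x) → Good f a γ (a γ)) ∧
      (Good f a γ (a γ) ∨ a γ = ∅) := by
  classical
  let pick : (Set ℕ → Prop) → Set ℕ := fun P => if h : ∃ x, P x then h.choose else ∅
  obtain ⟨a, ha⟩ := exists_rec (fun a γ => pick (Good f a γ)) (fun a a' γ h => by
    have h1 : ∀ β ≤ γ, stage a (Iio β) = stage a' (Iio β) := fun β hβ => by
      unfold stage
      rw [image_congr fun ξ (hξ : ξ ∈ Iio β) => h ξ (lt_of_lt_of_le hξ hβ)]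
    have : Good f a γ = Good f a' γ := by
      funext x
      unfold Good Minimal' Keeps
      rw [h1 γ le_rfl]
      congr 2
      refine forall_congr fun β => forall_congr fun hβ => ?_
      rw [h1 β hβ]
    simp only [this])
  refine ⟨a, fun γ => ?_⟩
  by_cases h : ∃ x, Good f a γ x
  · have : Good f a γ (a γ) := by
      rw [ha γ]; simp only [pick, dif_pos h]; exact h.choose_spec
    exact ⟨fun _ => this, Or.inl this⟩
  · refine ⟨fun h' => absurd h' h, Or.inr ?_⟩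
    rw [ha γ]; simp only [pick, dif_neg h]

lemma Holds.subset {B0 : Set (Set ℕ)} {E : ℕ → Set ℕ} {w : ℕ → ℕ → ℝ} {B B' : Set (Set ℕ)}
    (h : Holds B0 E w B) (hB : B' ⊆ B) : Holds B0 E w B' :=
  fun F h1 h2 => h F h1 (h2.trans hB)

lemma keeps_stage [WellFoundedLT I] {f : I → Datum} {a : I → Set ℕ}
    (ha : ∀ γ, Good f a γ (a γ) ∨ a γ = ∅) (γ : I) : Keeps f a γ (stage a (Iio γ)) := by
  induction γ using WellFoundedLT.induction with
  | ind γ ih =>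
  intro β hβ hV
  refine Holds.gen (stage_alg _ _) fun T hT hTG => ?_
  obtain ⟨S, hS1, hS2, hS3⟩ := (hT.subset (inter_subset_left (t := a '' Iio γ))).exists_subset_finite_image_eq
    (s := Iio γ) (f := a) inter_subset_right
  have hT' : ∀ b ∈ T, b ∈ range (fun n : ℕ => ({n} : Set ℕ)) ∨ b ∈ a '' S := by
    intro b hb
    rcases hTG hb with h | h
    · exact Or.inl h
    · exact Or.inr (hS3 ▸ ⟨hb, h⟩)
  by_cases hS : ∀ ξ ∈ S, ξ < β
  · refine hV.holds T hT fun b hb => ?_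
    rcases hT' b hb with h | ⟨ξ, hξ, rfl⟩
    · exact self_subset_generateSetAlgebra (Or.inl h)
    · exact mem_stage a (hS ξ hξ)
  · push Not at hS
    obtain ⟨ξ0, hξ0, hβξ⟩ := hS
    obtain ⟨ξ, hξ, hmax⟩ := exists_max_image S id hS2 ⟨ξ0, hξ0⟩
    have hβξ' : β ≤ ξ := hβξ.trans (hmax ξ0 hξ0)
    have h1 : Holds (stage a (Iio β)) (f β).1 (f β).2.1 (insert (a ξ) (stage a (Iio ξ))) := by
      rcases ha ξ with h | h
      · exact h.2.1 β hβξ' hV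
      · refine (ih ξ (hS1 hξ) β hβξ' hV).subset (insert_subset ?_ subset_rfl)
        rw [h]; exact (stage_alg _ _).empty_mem
    refine h1 T hT fun b hb => ?_
    rcases hT' b hb with h | ⟨η, hη, rfl⟩
    · exact Or.inr (self_subset_generateSetAlgebra (Or.inl h))
    · rcases (hmax η hη).lt_or_eq with h | h
      · exact Or.inr (mem_stage a h)
      · exact Or.inl (congrArg a h)

lemma subset_stage (hb : ∀ S : Set I, S.Countable → ∃ i, ∀ j ∈ S, j < i) (a : I → Set ℕ)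
    {F : Set (Set ℕ)} (hF : F.Countable) (h : F ⊆ stage a univ) : ∃ β, F ⊆ stage a (Iio β) := by
  have h1 : ∀ b : F, ∃ S : Set I, S.Finite ∧ b.1 ∈ stage a S := by
    intro b
    obtain ⟨T, hT1, hT2, hT3⟩ := gen_finite (h b.2)
    obtain ⟨S, -, hS2, hS3⟩ :=
      (hT2.subset (inter_subset_left (t := a '' univ))).exists_subset_finite_image_eq
      (s := univ) (f := a) inter_subset_right
    refine ⟨S, hS2, generateSetAlgebra_mono (fun c hc => ?_) hT3⟩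
    rcases hT1 hc with h | h
    · exact Or.inl h
    · exact Or.inr (hS3 ▸ ⟨hc, h⟩)
  choose S hS1 hS2 using h1
  have := hF.to_subtype
  obtain ⟨β, hβ⟩ := hb (⋃ b, S b) (countable_iUnion fun b => (hS1 b).countable)
  exact ⟨β, fun b hb => stage_mono a (fun j hj => hβ j (mem_iUnion.2 ⟨_, hj⟩)) (hS2 ⟨b, hb⟩)⟩

theorem nikodym_set [WellFoundedLT I] (hI : ∀ i : I, (Iio i).Countable)
    (hb : ∀ S : Set I, S.Countable → ∃ i, ∀ j ∈ S, j < i) {f : I → Datum}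
    (hf : ∀ d i, ∃ j, i ≤ j ∧ f j = d) {a : I → Set ℕ}
    (ha : ∀ γ, ((∃ x, Good f a γ x) → Good f a γ (a γ)) ∧ (Good f a γ (a γ) ∨ a γ = ∅))
    (μ0 : ℕ → Set ℕ → ℝ) (hadd : ∀ n, AddOn (stage a univ) (μ0 n))
    (hb0 : ∀ n, ∃ C, ∀ e ∈ stage a univ, |μ0 n e| ≤ C)
    (hbdd : ∀ e ∈ stage a univ, ∃ C, ∀ n, |μ0 n e| ≤ C) :
    ∃ C, ∀ n, ∀ e ∈ stage a univ, |μ0 n e| ≤ C := by
  by_contra hun
  have hA := stage_alg a univ
  obtain ⟨μ, ν, hBad, hat⟩ := stepA hA μ0 hadd hb0 hbdd hun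
  have hs0 : ∀ n, 0 ≤ ν n univ := fun n => (hBad.var n).pos.nonneg _ hA.univ_mem
  have hpos : ∀ n, Pos (stage a univ) (fun e => ν n e / ν n univ) := fun n =>
    ⟨fun b hb c hc hbc => by simp only [(hBad.var n).pos.add b hb c hc hbc, add_div],
      fun b hb => div_nonneg ((hBad.var n).pos.nonneg b hb) (hs0 n)⟩
  obtain ⟨ℬ, hBc, hBA, hBs, hat'⟩ := stepB hA _ hpos (fun z ε hε => by
    filter_upwards [hat z ε hε, hBad.tend.eventually_gt_atTop 0] with n ⟨e, he, hez, h1⟩ hn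
    exact ⟨e, he, hez, (div_lt_iff₀ hn).2 h1⟩)
  obtain ⟨E, hE⟩ := hBc.exists_eq_range ⟨∅, hBA.empty_mem⟩
  have hEB : ∀ i, E i ∈ ℬ := fun i => hE ▸ mem_range_self i
  let w : ℕ → ℕ → ℝ := fun n i => ν n (E i) / ν n univ
  have hw : ∀ n i, ν n (E i) ≤ ν n univ * w n i := by
    intro n i
    rcases (hs0 n).eq_or_lt with h | h
    · rw [← h, zero_mul, h]
      exact (hBad.var n).pos.mono hA (hBs (hEB i)) hA.univ_mem (subset_univ _)
    · simp only [w]; rw [mul_div_cancel₀ _ h.ne']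
  choose g hg hgh using fun n => (hBad.var n).exists_hahn hA (hBad.add n)
  obtain ⟨β0, hβ0⟩ := subset_stage hb a (hBc.union (countable_range g))
    (union_subset hBs (range_subset_iff.2 hg))
  obtain ⟨β, hβ, hfβ⟩ := hf (E, w, default, default, default) β0
  have hβ1 := hβ0.trans (stage_mono a (Iio_subset_Iio hβ))
  have hV : Valid (stage a (Iio β)) E w := by
    refine ⟨fun i => hβ1 (Or.inl (hEB i)), fun i j => ?_, fun z ε hε => ?_⟩
    · obtain ⟨k, hk⟩ : E i ∪ E j ∈ range E := hE ▸ hBA.union_mem (hEB i) (hEB j)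
      refine ⟨k, hk.ge, fun n => ?_⟩
      simp only [w, hk]
      exact (hpos n).union_le hA (hBs (hEB i)) (hBs (hEB j))
    · filter_upwards [hat' z ε hε] with n ⟨e, he, hez, h1⟩
      obtain ⟨i, rfl⟩ : e ∈ range E := hE ▸ he
      exact ⟨i, hez, h1⟩
  obtain ⟨C, hC⟩ := (stage_countable a (hI β)).exists_eq_range ⟨∅, (stage_alg _ _).empty_mem⟩
  obtain ⟨γ, hγ, hfγ⟩ := hf (E, w, C, fun n j => μ n (C j), fun n => ν n univ) β
  have hsub : stage a (Iio γ) ⊆ stage a univ := stage_mono a (subset_univ _)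
  let J := {β' : I // β' ≤ γ ∧ Valid (stage a (Iio β')) (f β').1 (f β').2.1}
  have : Countable J := by
    have : (Iic γ).Countable := by
      rw [← Iio_insert]; exact (hI γ).insert γ
    exact (this.mono fun β' h => h.1 : {β' : I | β' ≤ γ ∧ _}.Countable).to_subtype
  let j0 : J := ⟨β, hγ, by rw [hfβ]; exact hV⟩
  obtain ⟨x, p, h1, h2, h3⟩ := step (stage_alg a (Iio γ)) (stage_countable a (hI γ))
    (fun j : J => stage a (Iio j.1)) (fun j => (f j.1).1) (fun j => (f j.1).2.1)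
    (fun j => stage_alg _ _) (fun j => stage_mono a (Iio_subset_Iio j.2.1)) (fun j => j.2.2)
    (fun j => keeps_stage (fun γ => (ha γ).2) γ j.1 j.2.1 j.2.2) j0 (μ := μ) (ν := ν)
    (fun n => (hBad.add n).subset hsub)
    (fun n => ⟨(hBad.var n).pos.add.subset hsub, fun b hb => (hBad.var n).pos.nonneg b (hsub hb)⟩)
    (fun n e he => (hBad.var n).dom e (hsub he)) hBad.tend
    (fun n i => by simp only [j0, hfβ]; exact hw n i)
    (fun n => ⟨g n, hβ1 (Or.inr (mem_range_self n)), fun W hW => hgh n W (hsub hW)⟩)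
    (fun e he => hBad.bdd e (hsub he))
  have hGood : Good f a γ x := by
    refine ⟨⟨p, h1⟩, fun β' hβ' hV' => h2 ⟨β', hβ', hV'⟩, fun k => ?_⟩
    obtain ⟨n, i, c, hc, h4, h5⟩ := h3 k
    simp only [j0, hfβ] at hc h4 h5
    obtain ⟨j, rfl⟩ : c ∈ range C := hC ▸ hc
    rw [hfγ]
    exact ⟨n, i, j, h4, h5⟩
  have hK := ((ha γ).1 ⟨x, hGood⟩).2.2
  rw [hfγ] at hK
  obtain ⟨M, hM⟩ := hBad.bdd (a γ) (mem_stage a (mem_univ γ))
  obtain ⟨k, hk⟩ := exists_nat_gt M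
  obtain ⟨n, i, j, h4, h5⟩ := hK k
  have h6 := approx_le hA (hBad.add n) (hBad.var n).pos (hBad.var n).dom (mem_stage a (mem_univ γ))
    (stage_mono a (subset_univ _) (hC ▸ mem_range_self j)) (hBs (hEB i)) h4
  simp only at h5 h6
  have h7 := hw n i
  have h8 := hM n
  have h9 : |μ n (C j)| ≤ |μ n (a γ)| + |μ n (a γ) - μ n (C j)| := by
    have := abs_sub_abs_le_abs_sub (μ n (C j)) (μ n (a γ))
    rw [abs_sub_comm] at this
    linarith
  linarith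

theorem separable_set [WellFoundedLT I] {a : I → Set ℕ} (ha : ∀ γ, Minimal' a γ (a γ))
    {ν : Set ℕ → ℝ} (hν : Pos (stage a univ) ν) :
    ∃ 𝒞 ⊆ stage a univ, 𝒞.Countable ∧ ∀ e ∈ stage a univ, ∀ ε > 0, ∃ c ∈ 𝒞, ν (e ∆ c) < ε := by
  have hA := stage_alg a univ
  have hsub : ∀ γ, stage a (Iio γ) ⊆ stage a univ := fun γ => stage_mono a (subset_univ _)
  have haA : ∀ γ, a γ ∈ stage a univ := fun γ => mem_stage a (mem_univ γ)
  choose p hp using ha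
  let Ess : ℝ → I → Prop := fun ε γ =>
    ∀ e ∈ stage a (Iio γ), e ∈ p γ → ε ≤ ν (e ∩ a γ) ∧ ε ≤ ν (e \ a γ)
  have hfin : ∀ ε > 0, ∀ r : ℕ, ∀ e ∈ stage a univ, ν e < r * ε →
      {γ | Ess ε γ ∧ e ∈ stage a (Iio γ) ∧ e ∈ p γ}.Finite := by
    intro ε hε r
    induction r with
    | zero =>
      intro e he h
      have := hν.nonneg e he
      simp at h; linarith
    | succ r ih =>
      intro e he h
      rcases {γ | Ess ε γ ∧ e ∈ stage a (Iio γ) ∧ e ∈ p γ}.eq_empty_or_nonempty with h0 | h0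
      · rw [h0]; exact finite_empty
      obtain ⟨γ0, hγ0, hmin⟩ := (wellFounded_lt (α := I)).has_min _ h0
      have h1 := hγ0.1 e hγ0.2.1 hγ0.2.2
      have h2 := hν.add.split hA he (haA γ0)
      push_cast at h
      refine (((ih _ (hA.inter_mem he (haA γ0)) (by linarith)).union
        (ih _ (hA.sdiff_mem he (haA γ0)) (by linarith))).insert γ0).subset fun γ hγ => ?_
      rcases (not_lt.1 (hmin γ hγ)).eq_or_lt with h3 | h3
      · exact Or.inl h3.symm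
      · have h4 := mem_stage a (S := Iio γ) h3
        by_cases h5 : a γ0 ∈ p γ
        · exact Or.inr (Or.inl ⟨hγ.1, (stage_alg _ _).inter_mem hγ.2.1 h4, inter_mem hγ.2.2 h5⟩)
        · exact Or.inr (Or.inr ⟨hγ.1, (stage_alg _ _).sdiff_mem hγ.2.1 h4,
            inter_mem hγ.2.2 (Ultrafilter.compl_mem_iff_notMem.2 h5)⟩)
  let S : Set I := ⋃ j : ℕ, {γ | Ess (1 / ((j : ℝ) + 1)) γ}
  have hS : S.Countable := countable_iUnion fun j => by
    have hε := Nat.one_div_pos_of_nat (α := ℝ) (n := j)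
    obtain ⟨r, hr⟩ := exists_nat_gt (ν univ / (1 / ((j : ℝ) + 1)))
    refine ((hfin _ hε r univ hA.univ_mem ((div_lt_iff₀ hε).1 hr)).subset fun γ hγ => ?_).countable
    exact ⟨hγ, (stage_alg _ _).univ_mem, univ_mem⟩
  have hSA : stage a S ⊆ stage a univ := stage_mono a (subset_univ _)
  have hsd : ∀ b ∈ stage a univ, ∀ c ∈ stage a univ, b ∆ c ∈ stage a univ := fun b hb c hc =>
    hA.union_mem (hA.sdiff_mem hb hc) (hA.sdiff_mem hc hb)
  let 𝒟 : Set (Set ℕ) := {e | e ∈ stage a univ ∧ ∀ ε > 0, ∃ c ∈ stage a S, ν (e ∆ c) < ε}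
  have hself : stage a S ⊆ 𝒟 := fun e he => ⟨hSA he, fun ε hε => ⟨e, he, by
    rw [symmDiff_self, Set.bot_eq_empty, hν.add.empty hA]; exact hε⟩⟩
  have hD : IsSetAlgebra 𝒟 := by
    refine ⟨hself (stage_alg _ _).empty_mem, fun e he => ⟨hA.compl_mem he.1, fun ε hε => ?_⟩,
      fun e e' he he' => ⟨hA.union_mem he.1 he'.1, fun ε hε => ?_⟩⟩
    · obtain ⟨c, hc, h⟩ := he.2 ε hε
      exact ⟨cᶜ, (stage_alg _ _).compl_mem hc, by rwa [compl_symmDiff_compl]⟩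
    · obtain ⟨c, hc, h⟩ := he.2 (ε / 2) (by positivity)
      obtain ⟨c', hc', h'⟩ := he'.2 (ε / 2) (by positivity)
      refine ⟨c ∪ c', (stage_alg _ _).union_mem hc hc', ?_⟩
      have h1 := hν.union_le hA (hsd _ he.1 _ (hSA hc)) (hsd _ he'.1 _ (hSA hc'))
      have h2 := hν.mono hA (hsd _ (hA.union_mem he.1 he'.1) _ (hA.union_mem (hSA hc) (hSA hc')))
        (hA.union_mem (hsd _ he.1 _ (hSA hc)) (hsd _ he'.1 _ (hSA hc')))
        (by intro x; simp only [mem_symmDiff, mem_union]; tauto)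
      linarith
  have hall : ∀ γ, a γ ∈ 𝒟 := by
    intro γ
    induction γ using WellFoundedLT.induction with
    | ind γ ih =>
    by_cases hγ : γ ∈ S
    · exact hself (mem_stage a hγ)
    have hst : stage a (Iio γ) ⊆ 𝒟 := hD.generateSetAlgebra_subset (by
      rintro b (hb | ⟨ξ, hξ, rfl⟩)
      · exact hself (self_subset_generateSetAlgebra (Or.inl hb))
      · exact ih ξ hξ)
    refine ⟨haA γ, fun ε hε => ?_⟩
    obtain ⟨j, hj⟩ := exists_nat_one_div_lt (show 0 < ε / 2 by positivity)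
    have h1 : ¬ Ess (1 / ((j : ℝ) + 1)) γ := fun h => hγ (mem_iUnion.2 ⟨j, h⟩)
    have h2 : ∃ b ∈ stage a (Iio γ), ν (a γ ∆ b) < ε / 2 := by
      simp only [Ess] at h1
      push Not at h1
      obtain ⟨e, he, hep, h1⟩ := h1
      have h3 := hp γ eᶜ ((stage_alg _ _).compl_mem he)
        fun h => Ultrafilter.compl_mem_iff_notMem.1 h hep
      by_cases h4 : 1 / ((j : ℝ) + 1) ≤ ν (e ∩ a γ)
      · refine ⟨a γ ∩ eᶜ ∪ e, (stage_alg _ _).union_mem h3 he, ?_⟩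
        have : a γ ∆ (a γ ∩ eᶜ ∪ e) = e \ a γ := by
          ext x; simp only [mem_symmDiff, mem_union, mem_inter_iff, mem_compl_iff,
            Set.mem_sdiff]; tauto
        rw [this]; linarith [h1 h4]
      · refine ⟨a γ ∩ eᶜ, h3, ?_⟩
        have : a γ ∆ (a γ ∩ eᶜ) = e ∩ a γ := by
          ext x; simp only [mem_symmDiff, mem_inter_iff, mem_compl_iff]; tauto
        rw [this]; linarith [not_le.1 h4]
    obtain ⟨b, hb, h2⟩ := h2
    obtain ⟨c, hc, h3⟩ := (hst hb).2 (ε / 2) (by positivity)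
    refine ⟨c, hc, ?_⟩
    have h4 := hν.union_le hA (hsd _ (haA γ) _ (hsub γ hb)) (hsd _ (hsub γ hb) _ (hSA hc))
    have h5 := hν.mono hA (hsd _ (haA γ) _ (hSA hc))
      (hA.union_mem (hsd _ (haA γ) _ (hsub γ hb)) (hsd _ (hsub γ hb) _ (hSA hc)))
      (by intro x; simp only [mem_symmDiff, mem_union]; tauto)
    linarith
  refine ⟨stage a S, hSA, stage_countable a hS, fun e he => (hD.generateSetAlgebra_subset ?_ he).2⟩
  rintro b (hb | ⟨ξ, -, rfl⟩)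
  · exact hself (self_subset_generateSetAlgebra (Or.inl hb))
  · exact hall ξ

end Pool.Agent.P.MP_0d6be8_lc
end

-- part Pool.Agent.P.MP_0d6be8_lc.Main
section

namespace Pool.Agent.P.MP_0d6be8_lc
open Set Filter MeasureTheory Topology symmDiff

section stone
variable {A : Type} [BooleanAlgebra A]

lemma basic_inf (a b : A) : Stone.basic (a ⊓ b) = Stone.basic a ∩ Stone.basic b := by
  ext u; exact u.inf_mem a b

lemma basic_bot : Stone.basic (⊥ : A) = ∅ := by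
  ext u; exact iff_of_false u.bot_notMem id

lemma basic_top : Stone.basic (⊤ : A) = univ := by
  ext u; exact iff_of_true u.top_mem trivial

lemma basic_compl (a : A) : Stone.basic aᶜ = (Stone.basic a)ᶜ := by
  ext u
  refine ⟨fun h h' => u.bot_notMem ?_, fun h => (u.mem_or_compl_mem a).resolve_left h⟩
  rw [← inf_compl_eq_bot (a := a)]
  exact (u.inf_mem _ _).2 ⟨h', h⟩

lemma basic_sup (a b : A) : Stone.basic (a ⊔ b) = Stone.basic a ∪ Stone.basic b := by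
  rw [← compl_compl (a ⊔ b), compl_sup, basic_compl, basic_inf, basic_compl, basic_compl,
    compl_inter, compl_compl, compl_compl]

lemma basic_symmDiff (a b : A) : Stone.basic (a ∆ b) = Stone.basic a ∆ Stone.basic b := by
  rw [symmDiff_def a b, basic_sup, _root_.sdiff_eq, _root_.sdiff_eq, basic_inf, basic_inf, basic_compl,
    basic_compl]
  rfl

lemma isOpen_basic (a : A) : IsOpen (Stone.basic a) :=
  TopologicalSpace.isOpen_generateFrom_of_mem (mem_range_self a)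

lemma basis_basic : TopologicalSpace.IsTopologicalBasis (range (Stone.basic (A := A))) := by
  refine ⟨?_, ?_, rfl⟩
  · rintro _ ⟨a, rfl⟩ _ ⟨b, rfl⟩ x hx
    exact ⟨_, ⟨a ⊓ b, basic_inf a b⟩, hx, subset_rfl⟩
  · exact eq_univ_of_univ_subset (subset_sUnion_of_mem ⟨⊤, basic_top⟩)

lemma stone_t2 : T2Space (Stone A) := by
  refine ⟨fun u v huv => ?_⟩
  have : ∃ a, ¬ (u ∈ Stone.basic a ↔ v ∈ Stone.basic a) := by
    by_contra h
    apply huv
    have h1 : u.carrier = v.carrier := Set.ext fun a => not_not.1 fun h' => h ⟨a, h'⟩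
    cases u; cases v; congr
  obtain ⟨a, ha⟩ := this
  have ho : IsOpen (Stone.basic a)ᶜ := basic_compl a ▸ isOpen_basic _
  by_cases hu : u ∈ Stone.basic a
  · exact ⟨_, _, isOpen_basic a, ho, hu, fun h => ha (iff_of_true hu h), disjoint_compl_right⟩
  · exact ⟨_, _, ho, isOpen_basic a, hu, by by_contra h; exact ha (iff_of_false hu h),
      disjoint_compl_left⟩

lemma exists_basic_between {K U : Set (Stone A)} (hK : IsCompact K) (hU : IsOpen U) (h : K ⊆ U) :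
    ∃ a, K ⊆ Stone.basic a ∧ Stone.basic a ⊆ U := by
  refine hK.induction_on (p := fun K => ∃ a, K ⊆ Stone.basic a ∧ Stone.basic a ⊆ U)
    ⟨⊥, empty_subset _, by rw [basic_bot]; exact empty_subset _⟩ ?_ ?_ ?_
  · rintro s t hst ⟨a, h1, h2⟩
    exact ⟨a, hst.trans h1, h2⟩
  · rintro s t ⟨a, h1, h2⟩ ⟨b, h3, h4⟩
    exact ⟨a ⊔ b, basic_sup a b ▸ union_subset_union h1 h3, basic_sup a b ▸ union_subset h2 h4⟩
  · intro x hx
    obtain ⟨_, ⟨a, rfl⟩, h1, h2⟩ := basis_basic.exists_subset_of_mem_open (h hx) hU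
    exact ⟨_, mem_nhdsWithin_of_mem_nhds ((isOpen_basic a).mem_nhds h1), a, subset_rfl, h2⟩

theorem isSeparable_of (μ : Measure (Stone A)) [IsFiniteMeasure μ] [μ.InnerRegular]
    (h : ∃ 𝒞 : Set A, 𝒞.Countable ∧ ∀ a, ∀ ε > 0, ∃ c ∈ 𝒞, μ.real (Stone.basic (a ∆ c)) < ε) :
    IsSeparable μ := by
  have : BorelSpace (Stone A) := ⟨rfl⟩
  have : T2Space (Stone A) := stone_t2
  obtain ⟨𝒞, hc, h⟩ := h
  refine ⟨Stone.basic '' 𝒞, hc.image _, ?_, fun s hs _ ε hε => ?_⟩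
  · rintro _ ⟨a, -, rfl⟩
    exact (isOpen_basic a).measurableSet
  have hε' : ENNReal.ofReal (ε / 3) ≠ 0 := by simpa using hε
  obtain ⟨K1, hK1, hK1c, h1⟩ := hs.exists_isCompact_sdiff_lt (measure_ne_top μ _) hε'
  obtain ⟨K2, hK2, hK2c, h2⟩ := hs.compl.exists_isCompact_sdiff_lt (measure_ne_top μ _) hε'
  obtain ⟨a, h3, h4⟩ := exists_basic_between hK1c hK2c.isClosed.isOpen_compl
    (hK1.trans (subset_compl_comm.1 hK2))
  obtain ⟨c, hc', h5⟩ := h a (ε / 3) (by positivity)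
  refine ⟨_, ⟨c, hc', rfl⟩, ?_⟩
  have h6 : μ (Stone.basic (a ∆ c)) < ENNReal.ofReal (ε / 3) :=
    (ENNReal.lt_ofReal_iff_toReal_lt (measure_ne_top μ _)).2 h5
  have h7 : s ∆ Stone.basic c ⊆ (s \ K1 ∪ sᶜ \ K2) ∪ Stone.basic (a ∆ c) := by
    rw [basic_symmDiff]
    intro x
    have := @h3 x
    have := @h4 x
    simp only [mem_symmDiff, mem_union, Set.mem_sdiff, mem_compl_iff] at *
    tauto
  calc μ (s ∆ Stone.basic c) ≤ μ ((s \ K1 ∪ sᶜ \ K2) ∪ Stone.basic (a ∆ c)) := measure_mono h7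
    _ ≤ μ (s \ K1) + μ (sᶜ \ K2) + μ (Stone.basic (a ∆ c)) :=
        (measure_union_le _ _).trans (by gcongr; exact measure_union_le _ _)
    _ < ENNReal.ofReal (ε / 3) + ENNReal.ofReal (ε / 3) + ENNReal.ofReal (ε / 3) :=
        ENNReal.add_lt_add (ENNReal.add_lt_add h1 h2) h6
    _ = ENNReal.ofReal ε := by
        rw [← ENNReal.ofReal_add (by positivity) (by positivity),
          ← ENNReal.ofReal_add (by positivity) (by positivity)]
        congr 1; ring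

lemma IsAdditive.bot {μ : A → ℝ} (h : IsAdditive μ) : μ ⊥ = 0 := by
  simpa using h ⊥ ⊥ disjoint_bot_left

lemma IsAdditive.sum {μ : A → ℝ} (h : IsAdditive μ) (s : Finset A)
    (hs : (s : Set A).PairwiseDisjoint id) : ∑ a ∈ s, μ a = μ (s.sup id) := by
  classical
  induction s using Finset.induction_on with
  | empty => simp [h.bot]
  | insert a s ha ih =>
    rw [Finset.sum_insert ha, Finset.sup_insert, ih (hs.subset (by simp)), id,
      h a _ (Finset.disjoint_sup_right.2 fun b hb =>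
        hs (by simp) (by simp [hb]) (fun e => ha (e ▸ hb)))]

lemma IsAdditive.varLE {μ : A → ℝ} (h : IsAdditive μ) {C : ℝ} (hC : ∀ a, |μ a| ≤ C) :
    VarLE μ (2 * C) := by
  classical
  intro s hs
  rw [← Finset.sum_filter_add_sum_filter_not s fun a => 0 ≤ μ a]
  rw [Finset.sum_congr rfl fun a ha => abs_of_nonneg (Finset.mem_filter.1 ha).2,
    Finset.sum_congr rfl fun a ha => abs_of_neg (not_le.1 (Finset.mem_filter.1 ha).2),
    Finset.sum_neg_distrib, h.sum _ (hs.subset (Finset.coe_subset.2 (Finset.filter_subset _ _))),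
    h.sum _ (hs.subset (Finset.coe_subset.2 (Finset.filter_subset _ _)))]
  linarith [(abs_le.1 (hC ((s.filter fun a => 0 ≤ μ a).sup id))).2,
    (abs_le.1 (hC ((s.filter fun a => ¬ 0 ≤ μ a).sup id))).1]

end stone

/-- an algebra of sets as a Boolean subalgebra -/
def toSub {𝒜 : Set (Set ℕ)} (h : IsSetAlgebra 𝒜) : BooleanSubalgebra (Set ℕ) where
  carrier := 𝒜
  supClosed' := fun _ ha _ hb => h.union_mem ha hb
  infClosed' := fun _ ha _ hb => h.inter_mem ha hb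
  compl_mem' := fun ha => h.compl_mem ha
  bot_mem' := h.empty_mem

open Classical in
/-- extension by zero -/
noncomputable def extend {𝒜 : Set (Set ℕ)} (h : IsSetAlgebra 𝒜) (μ : toSub h → ℝ) (e : Set ℕ) : ℝ :=
  if he : e ∈ 𝒜 then μ ⟨e, he⟩ else 0

lemma extend_apply {𝒜 : Set (Set ℕ)} (h : IsSetAlgebra 𝒜) (μ : toSub h → ℝ) {e : Set ℕ}
    (he : e ∈ 𝒜) : extend h μ e = μ ⟨e, he⟩ := dif_pos he

lemma extend_add {𝒜 : Set (Set ℕ)} (h : IsSetAlgebra 𝒜) {μ : toSub h → ℝ} (hμ : IsAdditive μ) :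
    AddOn 𝒜 (extend h μ) := by
  intro a ha b hb hab
  rw [extend_apply h μ ha, extend_apply h μ hb, extend_apply h μ (h.union_mem ha hb)]
  exact hμ ⟨a, ha⟩ ⟨b, hb⟩ (disjoint_iff.2 (Subtype.ext (disjoint_iff.1 hab)))

theorem of_set {𝒜 : Set (Set ℕ)} (h : IsSetAlgebra 𝒜) (h1 : ∀ n : ℕ, {n} ∈ 𝒜)
    (h2 : ∀ μ : ℕ → Set ℕ → ℝ, (∀ n, AddOn 𝒜 (μ n)) → (∀ n, ∃ C, ∀ e ∈ 𝒜, |μ n e| ≤ C) →
      (∀ e ∈ 𝒜, ∃ C, ∀ n, |μ n e| ≤ C) → ∃ C, ∀ n, ∀ e ∈ 𝒜, |μ n e| ≤ C)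
    (h3 : ∀ ν : Set ℕ → ℝ, Pos 𝒜 ν →
      ∃ 𝒞 ⊆ 𝒜, 𝒞.Countable ∧ ∀ e ∈ 𝒜, ∀ ε > 0, ∃ c ∈ 𝒞, ν (e ∆ c) < ε) :
    Infinite (toSub h) ∧ Nikodym (toSub h) ∧
      ∀ μ : Measure (Stone (toSub h)), IsFiniteMeasure μ → μ.InnerRegular → IsSeparable μ := by
  refine ⟨Infinite.of_injective (fun n : ℕ => (⟨{n}, h1 n⟩ : toSub h)) fun m n hmn =>
    singleton_injective (congrArg Subtype.val hmn), fun μ hadd hv hb => ?_, fun μ _ _ => ?_⟩
  · obtain ⟨C, hC⟩ := h2 (fun n => extend h (μ n)) (fun n => extend_add h (hadd n))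
      (fun n => by
        obtain ⟨C, hC⟩ := hv n
        refine ⟨C, fun e he => ?_⟩
        rw [extend_apply h _ he]
        simpa using hC {⟨e, he⟩} (by simp))
      (fun e he => by simpa only [extend_apply h _ he] using hb ⟨e, he⟩)
    refine ⟨2 * C, fun n => (hadd n).varLE fun a => ?_⟩
    have := hC n a.1 a.2
    rwa [extend_apply h _ a.2] at this
  · have : BorelSpace (Stone (toSub h)) := ⟨rfl⟩
    have hadd : IsAdditive fun a : toSub h => μ.real (Stone.basic a) := by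
      intro a b hab
      simp only [basic_sup]
      refine measureReal_union ?_ (isOpen_basic b).measurableSet
      rw [Set.disjoint_iff_inter_eq_empty, ← basic_inf, disjoint_iff.1 hab, basic_bot]
    obtain ⟨𝒞, hCA, hc, h4⟩ := h3 _ ⟨extend_add h hadd, fun a ha => by
      rw [extend_apply h _ ha]; exact measureReal_nonneg⟩
    refine isSeparable_of μ ⟨Subtype.val ⁻¹' 𝒞, hc.preimage Subtype.val_injective, fun a ε hε => ?_⟩
    obtain ⟨c, hc', h5⟩ := h4 a.1 a.2 ε hε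
    refine ⟨⟨c, hCA hc'⟩, hc', ?_⟩
    exact lt_of_eq_of_lt (extend_apply h (fun a : toSub h => μ.real (Stone.basic a))
      (a ∆ (⟨c, hCA hc'⟩ : toSub h)).2).symm h5

theorem exists_index (hCH : Cardinal.continuum.{0} = Cardinal.aleph 1) :
    ∃ (I : Type) (_ : LinearOrder I) (_ : WellFoundedLT I) (f : I → Datum),
      (∀ i : I, (Iio i).Countable) ∧ (∀ S : Set I, S.Countable → ∃ i, ∀ j ∈ S, j < i) ∧
      ∀ d i, ∃ j, i ≤ j ∧ f j = d := by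
  let I := (Cardinal.aleph.{0} 1).ord.ToType
  have hI : Cardinal.mk I = Cardinal.aleph 1 := by simp [I]
  have h1 : ∀ i : I, (Iio i).Countable := fun i => by
    rw [← Cardinal.le_aleph0_iff_set_countable, ← Order.lt_succ_iff, Cardinal.succ_aleph0]
    exact (Cardinal.mk_Iio_lt i (by simp [I])).trans_eq hI
  have h1' : ∀ i : I, (Iic i).Countable := fun i => by
    rw [← Iio_insert]; exact (h1 i).insert i
  have hunc : Uncountable I := by
    rw [← Cardinal.aleph0_lt_mk_iff, hI]; exact Cardinal.aleph0_lt_aleph_one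
  have hD : Cardinal.mk (Datum × I) = Cardinal.mk I := by
    simp [hI, ← hCH, Cardinal.mk_real]
  obtain ⟨e⟩ := Cardinal.eq.1 hD
  refine ⟨I, inferInstance, inferInstance, fun j => (e.symm j).1, h1, fun S hS => ?_,
    fun d i => ?_⟩
  · by_contra h
    push Not at h
    refine not_countable_univ ((hS.biUnion fun j _ => h1' j).mono fun i _ => ?_)
    obtain ⟨j, hj, hij⟩ := h i
    exact mem_biUnion hj hij
  · by_contra h
    push Not at h
    refine not_countable_univ (((h1 i).preimage_of_injOn (f := fun t : I => e (d, t))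
      fun s _ t _ hst => (Prod.ext_iff.1 (e.injective hst)).2).mono fun t _ => ?_)
    by_contra h'
    exact h _ (not_lt.1 h') (by simp)

section minimal
variable {A : Type} [BooleanAlgebra A]

lemma minimal_ext (B : BooleanSubalgebra A) (x : A) (p : A → Prop)
    (hinf : ∀ a b, p (a ⊓ b) ↔ p a ∧ p b) (hcompl : ∀ a, p aᶜ ↔ ¬ p a)
    (h : ∀ e ∈ B, ¬ p e → x ⊓ e ∈ B) (C : BooleanSubalgebra A)
    (hC : ∀ D : BooleanSubalgebra A, B ≤ D → x ∈ D → C ≤ D)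
    (D : BooleanSubalgebra A) (h1 : B ≤ D) (h2 : D ≤ C) : D = B ∨ D = C := by
  let N : BooleanSubalgebra A :=
    { carrier := {d | ∃ b ∈ B, ∃ c ∈ B, d ⊓ x = b ⊓ x ∧ d ⊓ xᶜ = c ⊓ xᶜ}
      supClosed' := by
        rintro d ⟨b, hb, c, hc, h3, h4⟩ d' ⟨b', hb', c', hc', h3', h4'⟩
        exact ⟨b ⊔ b', B.sup_mem hb hb', c ⊔ c', B.sup_mem hc hc',
          by rw [inf_sup_right, inf_sup_right, h3, h3'],
          by rw [inf_sup_right, inf_sup_right, h4, h4']⟩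
      infClosed' := by
        rintro d ⟨b, hb, c, hc, h3, h4⟩ d' ⟨b', hb', c', hc', h3', h4'⟩
        exact ⟨b ⊓ b', B.inf_mem hb hb', c ⊓ c', B.inf_mem hc hc',
          by rw [inf_inf_distrib_right, h3, h3', ← inf_inf_distrib_right],
          by rw [inf_inf_distrib_right, h4, h4', ← inf_inf_distrib_right]⟩
      compl_mem' := by
        have key : ∀ d b y : A, d ⊓ y = b ⊓ y → dᶜ ⊓ y = bᶜ ⊓ y := fun d b y e => by
          have e1 : ∀ d : A, dᶜ ⊓ y = (d ⊓ y)ᶜ ⊓ y := fun d => by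
            rw [compl_inf, inf_sup_right, compl_inf_eq_bot, sup_bot_eq]
          rw [e1 d, e1 b, e]
        rintro d ⟨b, hb, c, hc, h3, h4⟩
        exact ⟨bᶜ, B.compl_mem hb, cᶜ, B.compl_mem hc, key _ _ _ h3, key _ _ _ h4⟩
      bot_mem' := ⟨⊥, B.bot_mem, ⊥, B.bot_mem, rfl, rfl⟩ }
  have hCN : C ≤ N := hC N (fun b hb => ⟨b, hb, b, hb, rfl, rfl⟩)
    ⟨⊤, B.top_mem, ⊥, B.bot_mem, by simp, by simp⟩
  have hsplit : ∀ d y : A, d = d ⊓ y ⊔ d ⊓ yᶜ := fun d y => by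
    rw [← inf_sup_left, sup_compl_eq_top, inf_top_eq]
  have h' : ∀ e ∈ B, ¬ p e → xᶜ ⊓ e ∈ B := fun e he hp => by
    have : xᶜ ⊓ e = e ⊓ (x ⊓ e)ᶜ := by
      rw [compl_inf, inf_sup_left, inf_compl_eq_bot, sup_bot_eq, inf_comm]
    rw [this]; exact B.inf_mem he (B.compl_mem (h e he hp))
  by_cases hx : x ∈ D
  · exact Or.inr (le_antisymm h2 (hC D h1 hx))
  refine Or.inl (le_antisymm (fun d hd => ?_) h1)
  have main : ∀ d ∈ D, ∀ b ∈ B, ∀ c ∈ B, d ⊓ x = b ⊓ x → d ⊓ xᶜ = c ⊓ xᶜ → ¬ p c → d ∈ B := by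
    intro d hd b hb c hc h3 h4 hpc
    by_cases hpb : p b
    · exfalso
      apply hx
      have hp : ¬ p (b ⊓ cᶜ)ᶜ := by
        rw [hcompl, not_not, hinf, hcompl]; exact ⟨hpb, hpc⟩
      have h5 := h1 (h _ (B.compl_mem (B.inf_mem hb (B.compl_mem hc))) hp)
      have h6 : x ⊓ (b ⊓ cᶜ) = d ⊓ (b ⊓ cᶜ) := by
        rw [hsplit d x, h3, h4, inf_sup_right]
        have e1 : c ⊓ xᶜ ⊓ (b ⊓ cᶜ) = ⊥ := by
          rw [eq_bot_iff, ← inf_compl_eq_bot (a := c)]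
          exact le_inf (inf_le_left.trans inf_le_left) (inf_le_right.trans inf_le_right)
        rw [e1, sup_bot_eq, inf_comm b x, inf_assoc, ← inf_assoc b b, inf_idem]
      rw [hsplit x (b ⊓ cᶜ), h6]
      exact D.sup_mem (D.inf_mem hd (h1 (B.inf_mem hb (B.compl_mem hc)))) h5
    · rw [hsplit d x, h3, h4, inf_comm b, inf_comm c]
      exact B.sup_mem (h b hb hpb) (h' c hc hpc)
  obtain ⟨b, hb, c, hc, h3, h4⟩ := hCN (h2 hd)
  by_cases hpc : p c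
  · obtain ⟨b', hb', c', hc', h3', h4'⟩ := hCN (h2 (D.compl_mem hd))
    have key : ∀ d b y : A, d ⊓ y = b ⊓ y → dᶜ ⊓ y = bᶜ ⊓ y := fun d b y e => by
      have e1 : ∀ d : A, dᶜ ⊓ y = (d ⊓ y)ᶜ ⊓ y := fun d => by
        rw [compl_inf, inf_sup_right, compl_inf_eq_bot, sup_bot_eq]
      rw [e1 d, e1 b, e]
    exact B.compl_mem_iff.1 (main _ (D.compl_mem hd) _ (B.compl_mem hb) _ (B.compl_mem hc)
      (key _ _ _ h3) (key _ _ _ h4) (by rw [hcompl, not_not]; exact hpc))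
  · exact main d hd b hb c hc h3 h4 hpc

end minimal

lemma mem_closure_iff {𝒜 : Set (Set ℕ)} (h : IsSetAlgebra 𝒜) (T : Set (toSub h)) (x : toSub h) :
    x ∈ BooleanSubalgebra.closure T ↔ x.1 ∈ generateSetAlgebra (Subtype.val '' T) := by
  constructor
  · intro hx
    exact BooleanSubalgebra.closure_le.2 (show T ⊆ (toSub (isSetAlgebra_generateSetAlgebra
      (𝒜 := Subtype.val '' T))).comap (toSub h).subtype from
      fun y hy => self_subset_generateSetAlgebra ⟨y, hy, rfl⟩) hx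
  · intro hx
    have : ∀ s ∈ generateSetAlgebra (Subtype.val '' T),
        ∃ hs : s ∈ toSub h, (⟨s, hs⟩ : toSub h) ∈ BooleanSubalgebra.closure T := by
      intro s hs
      induction hs with
      | base s hs =>
        obtain ⟨y, hy, rfl⟩ := hs
        exact ⟨y.2, BooleanSubalgebra.subset_closure hy⟩
      | empty => exact ⟨h.empty_mem, BooleanSubalgebra.bot_mem⟩
      | compl s _ ih =>
        obtain ⟨h1, h2⟩ := ih
        exact ⟨h.compl_mem h1, BooleanSubalgebra.compl_mem h2⟩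
      | union s t _ _ ih1 ih2 =>
        obtain ⟨h1, h2⟩ := ih1
        obtain ⟨h3, h4⟩ := ih2
        exact ⟨h.union_mem h1 h3, BooleanSubalgebra.sup_mem h2 h4⟩
    exact (this _ hx).2

theorem minGen {I : Type} [LinearOrder I] [WellFoundedLT I] {a : I → Set ℕ}
    (ha : ∀ γ, Minimal' a γ (a γ)) : MinimallyGenerated (toSub (stage_alg a univ)) := by
  let g : ℕ ⊕ₗ I → toSub (stage_alg a univ) := fun i => match ofLex i with
    | Sum.inl n => ⟨{n}, self_subset_generateSetAlgebra (Or.inl ⟨n, rfl⟩)⟩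
    | Sum.inr γ => ⟨a γ, mem_stage a (mem_univ γ)⟩
  refine ⟨ℕ ⊕ₗ I, inferInstance, ⟨Sum.lex_wf wellFounded_lt wellFounded_lt⟩, g, ?_, fun i D h1 h2 => ?_⟩
  · refine eq_top_iff.2 fun x _ => (mem_closure_iff _ _ _).2 (generateSetAlgebra_mono ?_ x.2)
    rintro _ (⟨n, rfl⟩ | ⟨γ, -, rfl⟩)
    · exact ⟨_, ⟨toLex (Sum.inl n), rfl⟩, rfl⟩
    · exact ⟨_, ⟨toLex (Sum.inr γ), rfl⟩, rfl⟩
  have hp : ∃ p : Ultrafilter ℕ, ∀ e ∈ BooleanSubalgebra.closure (g '' Iio i), e.1 ∉ p →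
      g i ⊓ e ∈ BooleanSubalgebra.closure (g '' Iio i) := by
    rcases i with n | γ
    · refine ⟨pure n, fun e _ he => ?_⟩
      have : g (Sum.inl n) ⊓ e = ⊥ := Subtype.ext (singleton_inter_eq_empty.2 he)
      rw [this]; exact BooleanSubalgebra.bot_mem
    · obtain ⟨p, hp⟩ := ha γ
      have : Subtype.val '' (g '' Iio (toLex (Sum.inr γ))) =
          range (fun n : ℕ => ({n} : Set ℕ)) ∪ a '' Iio γ := by
        apply Subset.antisymm
        · rintro _ ⟨_, ⟨n | ξ, h, rfl⟩, rfl⟩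
          · exact Or.inl ⟨n, rfl⟩
          · exact Or.inr ⟨ξ, Sum.Lex.inr_lt_inr_iff.1 h, rfl⟩
        · rintro _ (⟨n, rfl⟩ | ⟨ξ, h, rfl⟩)
          · exact ⟨_, ⟨toLex (Sum.inl n), Sum.Lex.inl_lt_inr _ _, rfl⟩, rfl⟩
          · exact ⟨_, ⟨toLex (Sum.inr ξ), Sum.Lex.inr_lt_inr_iff.2 h, rfl⟩, rfl⟩
      refine ⟨p, fun e he hep => (mem_closure_iff _ _ _).2 ?_⟩
      have he' := (mem_closure_iff _ _ _).1 he
      erw [this] at he' ⊢
      exact hp _ he' hep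
  obtain ⟨p, hp⟩ := hp
  refine minimal_ext _ (g i) (fun e => e.1 ∈ p) (fun a b => inter_mem_iff)
    (fun a => Ultrafilter.compl_mem_iff_notMem) hp _ (fun D' h3 h4 => ?_) D h1 h2
  rw [BooleanSubalgebra.closure_le, ← Iio_insert, image_insert_eq]
  exact insert_subset h4 (BooleanSubalgebra.closure_le.1 h3)

theorem main (hCH : Cardinal.continuum.{0} = Cardinal.aleph 1) :
    ∃ (A : Type) (_ : BooleanAlgebra A), Infinite A ∧ MinimallyGenerated A ∧ Nikodym A ∧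
      ∀ μ : Measure (Stone A), IsFiniteMeasure μ → μ.InnerRegular → IsSeparable μ := by
  obtain ⟨I, _, _, f, h1, h2, h3⟩ := exists_index hCH
  obtain ⟨a, ha⟩ := exists_construction f
  have hmin : ∀ γ, Minimal' a γ (a γ) := fun γ => by
    rcases (ha γ).2 with h | h
    · exact h.1
    · exact ⟨pure 0, fun e _ _ => by rw [h, empty_inter]; exact (stage_alg _ _).empty_mem⟩
  obtain ⟨h4, h5, h6⟩ := of_set (stage_alg a univ)
    (fun n => self_subset_generateSetAlgebra (Or.inl ⟨n, rfl⟩)) (nikodym_set h1 h2 h3 ha)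
    fun ν hν => separable_set hmin hν
  exact ⟨toSub (stage_alg a univ), inferInstance, h4, minGen hmin, h5, h6⟩

end Pool.Agent.P.MP_0d6be8_lc
end
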