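import Mathlib
import Pool.Agent.K.MP_0d6be8_lc.C0
import Pool.Agent.P.MP_0d6be8_lc.DefsH

-- part Pool.Agent.P.MP_0d6be8_lc.NM1
section

namespace Pool.Agent.P.MP_0d6be8_lc
open Set Filter Topology

variable {I : Type}

/-- nonprincipal ultrafilters on the naturals -/
def NU : Type := {U : Ultrafilter ℕ // (U : Filter ℕ) ≤ cofinite}

lemma exists_NU {A : Set ℕ} (hA : A.Infinite) : ∃ U : NU, A ∈ U.1 := by
  have : (cofinite ⊓ 𝓟 A : Filter ℕ).NeBot := hA.cofinite_inf_principal_neBot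
  obtain ⟨U, hU⟩ := Ultrafilter.exists_le (cofinite ⊓ 𝓟 A : Filter ℕ)
  exact ⟨⟨U, hU.trans inf_le_left⟩, (le_principal_iff.1 (hU.trans inf_le_right))⟩

lemma NU.infinite (U : NU) {A : Set ℕ} (hA : A ∈ U.1) : A.Infinite := by
  intro h
  have h1 : Aᶜ ∈ (U.1 : Filter ℕ) := U.2 h.compl_mem_cofinite
  exact (Ultrafilter.compl_mem_iff_notMem.1 h1) hA

lemma NU.compl_mem (U : NU) {A : Set ℕ} (hA : A.Finite) : Aᶜ ∈ U.1 := U.2 hA.compl_mem_cofinite

lemma NU.ge_mem (U : NU) (m : ℕ) : {n | m ≤ n} ∈ U.1 := by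
  have := U.compl_mem (finite_Iio m)
  simpa [Set.compl_Iio, Set.Ici] using this

instance : Nonempty NU := let ⟨U, _⟩ := exists_NU (infinite_univ (α := ℕ)); ⟨U⟩

open Classical in
/-- limit of a sequence of points along an ultrafilter -/
noncomputable def ulim (U : NU) (w : ℕ → I → Bool) : I → Bool :=
  fun i => decide ({n | w n i = true} ∈ U.1)

lemma ulim_mem (U : NU) (w : ℕ → I → Bool) (i : I) : {n | w n i = ulim U w i} ∈ U.1 := by
  by_cases h : {n | w n i = true} ∈ U.1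
  · have : ulim U w i = true := by simp [ulim, h]
    rwa [this]
  · have : ulim U w i = false := by simp [ulim, h]
    rw [this]
    have h2 := Ultrafilter.compl_mem_iff_notMem.2 h
    refine mem_of_superset h2 fun n hn => ?_
    simpa using hn

lemma ulim_eq (U : NU) (w : ℕ → I → Bool) (i : I) {c : Bool} (h : {n | w n i = c} ∈ U.1) :
    ulim U w i = c := by
  obtain ⟨n, h1, h2⟩ := U.1.nonempty_of_mem (inter_mem h (ulim_mem U w i))
  exact h2.symm.trans h1

lemma ulim_closed (U : NU) (w : ℕ → I → Bool) {C : Set (I → Bool)} (hC : IsClosed C)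
    (h : {n | w n ∈ C} ∈ U.1) : ulim U w ∈ C := by
  refine hC.mem_of_tendsto (f := w) (b := (U.1 : Filter ℕ)) ?_ h
  rw [tendsto_pi_nhds]
  intro i
  rw [nhds_discrete, tendsto_pure]
  exact ulim_mem U w i

lemma isClosed_coord (i : I) (p : Bool → Prop) : IsClosed {w : I → Bool | p (w i)} :=
  (isClosed_discrete {b | p b}).preimage (continuous_apply i)

/-- two-point form of the Nikodym property -/
def PTwo (K : Set (I → Bool)) : Prop :=
  ∀ y z : ℕ → I → Bool, (∀ n, y n ∈ K) → (∀ n, z n ∈ K) → (∀ n, y n ≠ z n) →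
    ∃ i, {n | y n i ≠ z n i}.Infinite

variable {K : Set (I → Bool)}

lemma PTwo.on (h : PTwo K) {E : Set ℕ} (hE : E.Infinite) (y z : ℕ → I → Bool)
    (hy : ∀ n, y n ∈ K) (hz : ∀ n, z n ∈ K) (hne : ∀ n, y n ≠ z n) :
    ∃ i, {n | n ∈ E ∧ y n i ≠ z n i}.Infinite := by
  let e := hE.natEmbedding
  obtain ⟨i, hi⟩ := h (fun k => y (e k)) (fun k => z (e k)) (fun _ => hy _) (fun _ => hz _)
    (fun _ => hne _)
  refine ⟨i, ?_⟩
  have := hi.image (f := fun k => (e k : ℕ))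
    (fun a _ b _ hab => e.injective (Subtype.ext hab))
  refine this.mono ?_
  rintro _ ⟨k, hk, rfl⟩
  exact ⟨(e k).2, hk⟩

lemma PTwo.split (h : PTwo K) {E : Set ℕ} (hE : E.Infinite) (r : ℕ → I → Bool)
    (hr : ∀ n, r n ∈ K) (hinj : Function.Injective r) :
    ∃ i, ∀ c, {n | n ∈ E ∧ r n i = c}.Infinite := by
  let e := hE.natEmbedding
  have he : Function.Injective fun k => (e k : ℕ) := fun a b hab => e.injective (Subtype.ext hab)
  obtain ⟨i, hi⟩ := h (fun k => r (e (2 * k))) (fun k => r (e (2 * k + 1))) (fun _ => hr _)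
    (fun _ => hr _) (fun k hk => by have := he (hinj hk); omega)
  refine ⟨i, fun c hc => hi ?_⟩
  have h1 := hc.preimage (f := fun k => (e (2 * k) : ℕ))
    (fun a _ b _ hab => by have := he hab; omega)
  have h2 := hc.preimage (f := fun k => (e (2 * k + 1) : ℕ))
    (fun a _ b _ hab => by have := he hab; omega)
  refine (h1.union h2).subset fun k hk => ?_
  have hk' : r (e (2 * k)) i ≠ r (e (2 * k + 1)) i := hk
  by_cases h3 : r (e (2 * k)) i = c
  · exact Or.inl ⟨(e _).2, h3⟩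
  · refine Or.inr ⟨(e _).2, ?_⟩
    revert hk' h3
    cases r (e (2 * k)) i <;> cases r (e (2 * k + 1)) i <;> cases c <;> simp

/-- infinite closed subsets of `K` -/
structure IC (K G : Set (I → Bool)) : Prop where
  sub : G ⊆ K
  closed : IsClosed G
  inf : G.Infinite

lemma PTwo.split_set (h : PTwo K) {G : Set (I → Bool)} (hG : IC K G) :
    ∃ i, ∀ c, (G ∩ {w | w i = c}).Infinite := by
  let e := hG.inf.natEmbedding
  have he : Function.Injective fun k => (e k : I → Bool) :=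
    fun a b hab => e.injective (Subtype.ext hab)
  obtain ⟨i, hi⟩ := h.split infinite_univ (fun k => e k) (fun k => hG.sub (e k).2) he
  refine ⟨i, fun c => ((hi c).image he.injOn).mono ?_⟩
  rintro _ ⟨k, hk, rfl⟩
  exact ⟨(e k).2, hk.2⟩

lemma IC.part {G : Set (I → Bool)} (hG : IC K G) {i : I} {c : Bool}
    (h : (G ∩ {w | w i = c}).Infinite) : IC K (G ∩ {w | w i = c}) :=
  ⟨inter_subset_left.trans hG.sub, hG.closed.inter (isClosed_coord i (· = c)), h⟩

lemma PTwo.disj_seq (h : PTwo K) {G : Set (I → Bool)} (hG : IC K G) :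
    ∃ F : ℕ → Set (I → Bool), (∀ n, IC K (F n) ∧ F n ⊆ G) ∧
      ∀ n m, n ≠ m → ∀ w, w ∈ F n → w ∉ F m := by
  choose f hf using fun G : {G // IC K G} => h.split_set G.2
  let H : ℕ → {G // IC K G} := fun n => Nat.rec ⟨G, hG⟩
    (fun _ H => ⟨H.1 ∩ {w | w (f H) = false}, H.2.part (hf H false)⟩) n
  have hH : ∀ n, (H (n + 1)).1 = (H n).1 ∩ {w | w (f (H n)) = false} := fun _ => rfl
  have hanti : Antitone fun n => (H n).1 :=
    antitone_nat_of_succ_le fun n => by rw [hH]; exact inter_subset_left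
  have key : ∀ n m, n < m → ∀ w, w ∈ (H n).1 ∩ {w | w (f (H n)) = true} →
      w ∉ (H m).1 ∩ {w | w (f (H m)) = true} := by
    intro n m hnm w h1 h2
    have h3 : w ∈ (H (n + 1)).1 := hanti (Nat.succ_le_of_lt hnm) h2.1
    rw [hH] at h3
    have h4 : w (f (H n)) = true := h1.2
    have h5 : w (f (H n)) = false := h3.2
    rw [h4] at h5
    exact Bool.noConfusion h5
  refine ⟨fun n => (H n).1 ∩ {w | w (f (H n)) = true}, fun n => ⟨(H n).2.part (hf _ true), ?_⟩, ?_⟩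
  · exact inter_subset_left.trans (hanti (Nat.zero_le n))
  · intro n m hnm w h1 h2
    rcases lt_or_gt_of_ne hnm with h3 | h3
    · exact key n m h3 w h1 h2
    · exact key m n h3 w h2 h1

lemma IC.acc {F : Set (I → Bool)} (hF : IC K F) :
    ∃ w ∈ F, ∀ j c, (F ∩ {u | u j ≠ c}).Finite → w j = c := by
  let e := hF.inf.natEmbedding
  have he : Function.Injective fun k => (e k : I → Bool) :=
    fun a b hab => e.injective (Subtype.ext hab)
  obtain ⟨U⟩ : Nonempty NU := inferInstance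
  refine ⟨ulim U fun k => e k, ulim_closed U _ hF.closed (univ_mem' fun k => (e k).2), ?_⟩
  intro j c hc
  refine ulim_eq U _ j (mem_of_superset (U.compl_mem (hc.preimage he.injOn)) fun k hk => ?_)
  by_contra h1
  exact hk ⟨(e k).2, h1⟩

variable [LinearOrder I] [WellFoundedLT I]

lemma PTwo.half (h : PTwo K) {G : Set (I → Bool)} (hG : IC K G) :
    ∃ m, ∀ b, ∃ G', IC K G' ∧ G' ⊆ G ∧ (∀ w ∈ G', w m = b) ∧
      ∀ j ≤ m, ∀ u ∈ G', ∀ v ∈ G', u j = v j := by
  obtain ⟨m, hm, hmin⟩ := WellFounded.has_min (wellFounded_lt (α := I))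
    {i | ∀ c, (G ∩ {w | w i = c}).Infinite} (h.split_set hG)
  have hv : ∀ j, ∃ c, j < m → (G ∩ {w | w j ≠ c}).Finite := by
    intro j
    by_cases hj : j < m
    · have h1 : ¬ ∀ c, (G ∩ {w | w j = c}).Infinite := fun h1 => hmin j h1 hj
      simp only [not_forall, Set.not_infinite] at h1
      obtain ⟨c, hc⟩ := h1
      refine ⟨!c, fun _ => hc.subset fun w hw => ⟨hw.1, ?_⟩⟩
      have h2 : w j ≠ !c := hw.2
      change w j = c
      revert h2
      cases w j <;> cases c <;> simp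
    · exact ⟨true, fun h1 => absurd h1 hj⟩
  choose v hv using hv
  refine ⟨m, fun b => ⟨(G ∩ {w | w m = b}) ∩ {w | ∀ j < m, w j = v j}, ⟨?_, ?_, ?_⟩, ?_, ?_, ?_⟩⟩
  · exact fun w hw => hG.sub hw.1.1
  · refine (hG.part (hm b)).closed.inter ?_
    have : {w : I → Bool | ∀ j < m, w j = v j} = ⋂ j, {w | j < m → w j = v j} := by
      ext w; simp
    rw [this]
    exact isClosed_iInter fun j => isClosed_coord j fun c => j < m → c = v j
  · obtain ⟨F, hF, hd⟩ := h.disj_seq (hG.part (hm b))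
    choose w hw hw' using fun n => (hF n).1.acc
    refine infinite_of_injective_forall_mem (f := w) (fun n k hnk => ?_) fun n => ⟨(hF n).2 (hw n), ?_⟩
    · by_contra h1
      exact hd n k h1 _ (hw n) (hnk ▸ hw k)
    · intro j hj
      exact hw' n j _ ((hv j hj).subset fun u hu => ⟨((hF n).2 hu.1).1, hu.2⟩)
  · exact fun w hw => hw.1.1
  · exact fun w hw => hw.1.2
  · intro j hj u hu w hw
    rcases hj.lt_or_eq with h1 | h1
    · rw [hu.2 j h1, hw.2 j h1]
    · rw [h1]; exact hu.1.2.trans hw.1.2.symm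

/-- a tree of closed sets in which children accumulate inside the parent and siblings are
separated below their first split -/
structure Sys (K : Set (I → Bool)) {N : Type} (ch : N → ℕ → N) (Φ : N → Set (I → Bool)) : Prop where
  sub : ∀ s, Φ s ⊆ K
  closed : ∀ s, IsClosed (Φ s)
  ne : ∀ s, (Φ s).Nonempty
  lim : ∀ s (U : NU) (w : ℕ → I → Bool), {n | w n ∈ Φ (ch s n)} ∈ U.1 → ulim U w ∈ Φ s
  sep : ∀ s n n', n ≠ n' → ∃ j, (∀ u ∈ Φ (ch s n), ∀ u' ∈ Φ (ch s n'), u j ≠ u' j) ∧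
    ∀ i ≤ j, ∀ u ∈ Φ (ch s n), ∀ v ∈ Φ (ch s n), u i = v i

theorem PTwo.exists_sys (h : PTwo K) {F : Set (I → Bool)} (hF : IC K F) :
    ∃ (N : Type) (_ : Nonempty N) (ch : N → ℕ → N) (Φ : N → Set (I → Bool)),
      Sys K ch Φ ∧ ∀ s, Φ s ⊆ F := by
  choose m hf hic hsub hval hconst using fun G : {G // IC K G} => h.half G.2
  let G : (ℕ → Bool) → ℕ → {G // IC K G} := fun x k => Nat.rec ⟨F, hF⟩
    (fun k H => ⟨hf H (x k), hic H (x k)⟩) k
  have hG : ∀ x k, (G x (k + 1)).1 = hf (G x k) (x k) := fun _ _ => rfl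
  have hloc : ∀ x x' k, (∀ j < k, x j = x' j) → G x k = G x' k := by
    intro x x' k
    induction k with
    | zero => intro _; rfl
    | succ k ih =>
      intro hk
      apply Subtype.ext
      rw [hG, hG, ih fun j hj => hk j (Nat.lt_succ_of_lt hj), hk k (Nat.lt_succ_self k)]
  have hanti : ∀ x, Antitone fun k => (G x k).1 := fun x =>
    antitone_nat_of_succ_le fun k => by rw [hG]; exact hsub _ _
  let ch : (ℕ → Bool) → ℕ → (ℕ → Bool) := fun x n => Function.update x n (!x n)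
  have hch : ∀ x n k, k ≤ n → G (ch x n) k = G x k := fun x n k hk =>
    hloc _ _ _ fun j hj => Function.update_of_ne (by omega) _ _
  have key : ∀ x n n', n < n' → ∀ u ∈ ⋂ k, (G (ch x n) k).1, ∀ u' ∈ ⋂ k, (G (ch x n') k).1,
      (u ∈ hf (G x n) (!x n)) ∧ u' ∈ hf (G x n) (x n) := by
    intro x n n' hn u hu u' hu'
    have h1 := mem_iInter.1 hu (n + 1)
    have h2 := mem_iInter.1 hu' (n + 1)
    rw [hG, hch x n n le_rfl] at h1
    rw [hch x n' (n + 1) hn, hG] at h2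
    refine ⟨?_, h2⟩
    simpa [ch] using h1
  refine ⟨ℕ → Bool, inferInstance, ch, fun x => ⋂ k, (G x k).1, ⟨?_, ?_, ?_, ?_, ?_⟩, ?_⟩
  · exact fun x => (iInter_subset _ 0).trans (G x 0).2.sub
  · exact fun x => isClosed_iInter fun k => (G x k).2.closed
  · intro x
    exact IsCompact.nonempty_iInter_of_sequence_nonempty_isCompact_isClosed _
      (fun k => hanti x (Nat.le_succ k)) (fun k => (G x k).2.inf.nonempty)
      (G x 0).2.closed.isCompact (fun k => (G x k).2.closed)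
  · intro x U w hw
    refine mem_iInter.2 fun k => ulim_closed U w (G x k).2.closed ?_
    refine mem_of_superset (inter_mem hw (U.ge_mem k)) fun n hn => ?_
    have h1 := mem_iInter.1 hn.1 k
    rwa [hch x n k hn.2] at h1
  · intro x n n' hn
    rcases lt_or_gt_of_ne hn with h1 | h1
    · refine ⟨m (G x n), fun u hu u' hu' => ?_, fun i hi u hu v hv => ?_⟩
      · obtain ⟨h2, h3⟩ := key x n n' h1 u hu u' hu'
        rw [hval _ _ _ h2, hval _ _ _ h3]
        cases x n <;> simp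
      · have h2 := mem_iInter.1 hu (n + 1)
        have h3 := mem_iInter.1 hv (n + 1)
        rw [hG, hch x n n le_rfl] at h2 h3
        exact hconst _ _ i hi u h2 v h3
    · refine ⟨m (G x n'), fun u hu u' hu' => ?_, fun i hi u hu v hv => ?_⟩
      · obtain ⟨h2, h3⟩ := key x n' n h1 u' hu' u hu
        rw [hval _ _ _ h2, hval _ _ _ h3]
        cases x n' <;> simp
      · have h2 := mem_iInter.1 hu (n' + 1)
        have h3 := mem_iInter.1 hv (n' + 1)
        rw [hch x n (n' + 1) h1, hG] at h2 h3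
        exact hconst _ _ i hi u h2 v h3
  · exact fun x => iInter_subset (fun k => (G x k).1) 0

end Pool.Agent.P.MP_0d6be8_lc
end

-- part Pool.Agent.P.MP_0d6be8_lc.NM2
section

set_option linter.unusedSectionVars false

namespace Pool.Agent.P.MP_0d6be8_lc
open Set Filter Topology

variable {I N : Type} {K : Set (I → Bool)} {ch : N → ℕ → N} {Φ : N → Set (I → Bool)}

/-- the part of a labelled tree above the child `n` of the root -/
def sh {α : Type} (n : ℕ) (U : List ℕ → α) : List ℕ → α := fun t => U (n :: t)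

/-- a labelled tree from a root label and the trees above the children -/
def jn {α : Type} (a : α) (f : ℕ → List ℕ → α) : List ℕ → α
  | [] => a
  | n :: t => f n t

/-- the value at coordinate `i` computed by iterated ultrafilter limits -/
inductive Val (ch : N → ℕ → N) (Φ : N → Set (I → Bool)) (i : I) :
    N → (List ℕ → NU) → Bool → Prop
  | base (s : N) (U : List ℕ → NU) (v : Bool) (h : ∀ w ∈ Φ s, w i = v) : Val ch Φ i s U v
  | step (s : N) (U : List ℕ → NU) (v : Bool) (A : Set ℕ) (hA : A ∈ (U []).1)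
      (h : ∀ n ∈ A, Val ch Φ i (ch s n) (sh n U) v) : Val ch Φ i s U v

/-- the coordinates in `J` split along a well-founded tree only -/
inductive Rk (ch : N → ℕ → N) (Φ : N → Set (I → Bool)) (J : Set I) : N → Prop
  | base (s : N) (h : ∀ i ∈ J, ∀ u ∈ Φ s, ∀ v ∈ Φ s, u i = v i) : Rk ch Φ J s
  | step (s : N) (m : ℕ) (h : ∀ n, m ≤ n → Rk ch Φ J (ch s n)) : Rk ch Φ J s

variable [LinearOrder I] [WellFoundedLT I]

lemma Sys.const_child (h : Sys K ch Φ) {s : N} {i : I} {v : Bool} (hv : ∀ w ∈ Φ s, w i = v) :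
    {n | ¬ ∀ w ∈ Φ (ch s n), w i = v}.Finite := by
  by_contra h1
  obtain ⟨U, hU⟩ := exists_NU h1
  have h2 : ∀ n, ∃ w ∈ Φ (ch s n), (¬ ∀ w ∈ Φ (ch s n), w i = v) → w i ≠ v := by
    intro n
    by_cases h3 : ∀ w ∈ Φ (ch s n), w i = v
    · obtain ⟨w, hw⟩ := h.ne (ch s n)
      exact ⟨w, hw, fun h4 => absurd h3 h4⟩
    · simp only [not_forall] at h3
      obtain ⟨w, hw, h4⟩ := h3
      exact ⟨w, hw, fun _ => h4⟩
  choose w hw hw' using h2
  have h3 := hv _ (h.lim s U w (univ_mem' hw))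
  obtain ⟨n, h4, h5⟩ := U.1.nonempty_of_mem (inter_mem hU (ulim_mem U w i))
  exact hw' n h4 (h5.trans h3)

lemma Sys.val_const (h : Sys K ch Φ) {i : I} {s : N} {U : List ℕ → NU} {v : Bool}
    (hv : Val ch Φ i s U v) : ∀ v', (∀ w ∈ Φ s, w i = v') → v = v' := by
  induction hv with
  | base s U v h1 =>
    intro v' h2
    obtain ⟨w, hw⟩ := h.ne s
    exact (h1 w hw).symm.trans (h2 w hw)
  | step s U v A hA _ ih =>
    intro v' h2
    obtain ⟨n, h3, h4⟩ := (U []).1.nonempty_of_mem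
      (inter_mem hA ((U []).compl_mem (h.const_child h2)))
    exact ih n h3 v' (not_not.1 h4)

lemma Sys.val_unique (h : Sys K ch Φ) {i : I} {s : N} {U : List ℕ → NU} {v : Bool}
    (hv : Val ch Φ i s U v) : ∀ v', Val ch Φ i s U v' → v = v' := by
  induction hv with
  | base s U v h1 => exact fun v' h2 => (h.val_const h2 v h1).symm
  | step s U v A hA h1 ih =>
    intro v' h2
    cases h2 with
    | base _ _ _ h3 => exact h.val_const (Val.step s U v A hA h1) v' h3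
    | step _ _ _ B hB h3 =>
      obtain ⟨n, h4, h5⟩ := (U []).1.nonempty_of_mem (inter_mem hA hB)
      exact ih n h4 v' (h3 n h5)

lemma Sys.rk_const (h : Sys K ch Φ) {J J' : Set I} (hJ : J.Finite) {s : N} (hs : Rk ch Φ J' s) :
    (∀ i ∈ J, ∀ u ∈ Φ s, ∀ v ∈ Φ s, u i = v i) → Rk ch Φ (J ∪ J') s := by
  induction hs with
  | base s h1 =>
    intro h2
    refine Rk.base s fun i hi => ?_
    rcases hi with hi | hi
    · exact h2 i hi
    · exact h1 i hi
  | step s m _ ih =>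
    intro h2
    obtain ⟨w, hw⟩ := h.ne s
    have h3 : (⋃ i ∈ J, {n | ¬ ∀ u ∈ Φ (ch s n), u i = w i}).Finite :=
      hJ.biUnion fun i hi => h.const_child fun u hu => h2 i hi u hu w hw
    obtain ⟨b, hb⟩ := h3.bddAbove
    refine Rk.step s (max m (b + 1)) fun n hn => ih n (le_of_max_le_left hn) ?_
    intro i hi u hu v hv
    have h4 : ∀ u ∈ Φ (ch s n), u i = w i := by
      by_contra h5
      have := hb (mem_biUnion hi h5)
      have := le_of_max_le_right hn
      omega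
    rw [h4 u hu, h4 v hv]

lemma Sys.rk_union (h : Sys K ch Φ) {J J' : Set I} (hJ : J.Finite) (hJ' : J'.Finite) {s : N}
    (hs : Rk ch Φ J s) : Rk ch Φ J' s → Rk ch Φ (J ∪ J') s := by
  induction hs with
  | base s h1 => exact fun h2 => h.rk_const hJ h2 h1
  | step s m h1 ih =>
    intro h2
    cases h2 with
    | base _ h3 => rw [union_comm]; exact h.rk_const hJ' (Rk.step s m h1) h3
    | step _ m' h3 =>
      exact Rk.step s (max m m') fun n hn =>
        ih n (le_of_max_le_left hn) (h3 n (le_of_max_le_right hn))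

lemma Sys.rk_finite (h : Sys K ch Φ) {J : Set I} (hJ : J.Finite) {s : N} :
    (∀ i ∈ J, Rk ch Φ {i} s) → Rk ch Φ J s := by
  induction J, hJ using Set.Finite.induction_on with
  | empty => exact fun _ => Rk.base s fun i hi => hi.elim
  | @insert a J _ hJ ih =>
    intro h1
    rw [insert_eq]
    exact h.rk_union (finite_singleton a) hJ (h1 a (mem_insert _ _))
      (ih fun i hi => h1 i (mem_insert_of_mem _ hi))

/-- the ultrafilters follow the set `W` of nodes -/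
def Adapt (ch : N → ℕ → N) (W : Set N) (s : N) (U : List ℕ → NU) : Prop :=
  ∀ t : List ℕ, t.foldl ch s ∈ W → {n | ch (t.foldl ch s) n ∈ W} ∈ (U t).1

lemma Sys.ex_fin (h : Sys K ch Φ) {C : Set (I → Bool)} (hC : IsClosed C) {W : Set N}
    (hW : ∀ s ∈ W, (Φ s ∩ C).Nonempty) {J : Set I} {s : N} (hs : Rk ch Φ J s) :
    ∀ U, s ∈ W → Adapt ch W s U → ∃ w ∈ Φ s ∩ C, ∀ j ∈ J, Val ch Φ j s U (w j) := by
  induction hs with
  | base s h1 =>
    intro U h2 _
    obtain ⟨w, hw⟩ := hW s h2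
    exact ⟨w, hw, fun j hj => Val.base s U _ fun u hu => h1 j hj u hu w hw.1⟩
  | step s m _ ih =>
    intro U h2 h3
    have hA : {n | m ≤ n} ∩ {n | ch s n ∈ W} ∈ (U []).1 := inter_mem ((U []).ge_mem m) (h3 [] h2)
    have h4 : ∀ n, ∃ w, n ∈ {n | m ≤ n} ∩ {n | ch s n ∈ W} →
        w ∈ Φ (ch s n) ∩ C ∧ ∀ j ∈ J, Val ch Φ j (ch s n) (sh n U) (w j) := by
      intro n
      by_cases h5 : n ∈ {n | m ≤ n} ∩ {n | ch s n ∈ W}
      · obtain ⟨w, hw, hw'⟩ := ih n h5.1 (sh n U) h5.2 fun t ht => h3 (n :: t) ht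
        exact ⟨w, fun _ => ⟨hw, hw'⟩⟩
      · exact ⟨fun _ => true, fun h6 => absurd h6 h5⟩
    choose w hw using h4
    refine ⟨ulim (U []) w, ⟨h.lim s _ w (mem_of_superset hA fun n hn => (hw n hn).1.1),
      ulim_closed _ w hC (mem_of_superset hA fun n hn => (hw n hn).1.2)⟩, fun j hj => ?_⟩
    refine Val.step s U _ _ (inter_mem hA (ulim_mem (U []) w j)) fun n hn => ?_
    have h5 : w n j = ulim (U []) w j := hn.2
    rw [← h5]
    exact (hw n hn.1).2 j hj

lemma Sys.ex_all (h : Sys K ch Φ) {C : Set (I → Bool)} (hC : IsClosed C) {W : Set N}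
    (hW : ∀ s ∈ W, (Φ s ∩ C).Nonempty) {J : Set I} {s : N} (hs : ∀ j ∈ J, Rk ch Φ {j} s)
    (U : List ℕ → NU) (h1 : s ∈ W) (h2 : Adapt ch W s U) :
    ∃ w ∈ Φ s ∩ C, ∀ j ∈ J, Val ch Φ j s U (w j) := by
  have := ((h.closed s).inter hC).isCompact.inter_iInter_nonempty
    (fun j : J => {w : I → Bool | Val ch Φ j s U (w j)})
    (fun j => isClosed_coord (j : I) fun c => Val ch Φ j s U c) (fun u => by
      have h3 : (Subtype.val '' (u : Set J)).Finite := u.finite_toSet.image _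
      obtain ⟨w, hw, hw'⟩ := h.ex_fin hC hW (h.rk_finite h3 (s := s) (by
        rintro _ ⟨j, -, rfl⟩; exact hs j j.2)) U h1 h2
      exact ⟨w, hw, mem_iInter₂.2 fun j hj => hw' j ⟨j, hj, rfl⟩⟩)
  obtain ⟨w, hw, hw'⟩ := this
  exact ⟨w, hw, fun j hj => mem_iInter.1 hw' ⟨j, hj⟩⟩

/-- at most one node of each level splits -/
def OneSplit (K : Set (I → Bool)) : Prop :=
  ∀ i, ∀ u ∈ K, ∀ v ∈ K, ∀ u' ∈ K, ∀ v' ∈ K, (∀ j < i, u j = v j) → u i ≠ v i →
    (∀ j < i, u' j = v' j) → u' i ≠ v' i → ∀ j < i, u j = u' j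

lemma Sys.all_rk (h : Sys K ch Φ) (hM : OneSplit K) (i : I) : ∀ s, Rk ch Φ {i} s := by
  induction i using WellFoundedLT.induction with
  | ind i ih =>
  by_contra h0
  simp only [not_forall] at h0
  obtain ⟨s, hs⟩ := h0
  let W : Set N := {s | ¬ Rk ch Φ {i} s}
  have hinf : ∀ s ∈ W, {n | ch s n ∈ W}.Infinite := by
    intro s hs h1
    obtain ⟨b, hb⟩ := h1.bddAbove
    refine hs (Rk.step s (b + 1) fun n hn => ?_)
    by_contra h2
    have := hb (show n ∈ {n | ch s n ∈ W} from h2)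
    omega
  have hsp : ∀ s ∈ W, ¬ ∀ u ∈ Φ s, ∀ v ∈ Φ s, u i = v i := fun s hs h1 =>
    hs (Rk.base s fun j hj => by rw [mem_singleton_iff.1 hj]; exact h1)
  have hne : ∀ b, ∀ s ∈ W, (Φ s ∩ {w | w i = b}).Nonempty := by
    intro b s hs
    have h1 := hsp s hs
    simp only [not_forall] at h1
    obtain ⟨u, hu, v, hv, huv⟩ := h1
    by_cases h2 : u i = b
    · exact ⟨u, hu, h2⟩
    · refine ⟨v, hv, ?_⟩
      change v i = b
      revert huv h2
      cases u i <;> cases v i <;> cases b <;> simp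
  have hU : ∀ s, ∃ U : NU, s ∈ W → {n | ch s n ∈ W} ∈ U.1 := by
    intro s
    by_cases h1 : s ∈ W
    · obtain ⟨U, hU⟩ := exists_NU (hinf s h1)
      exact ⟨U, fun _ => hU⟩
    · exact ⟨Classical.arbitrary _, fun h2 => absurd h2 h1⟩
  choose U hU using hU
  have key : ∀ s ∈ W, ∃ u ∈ Φ s, ∃ v ∈ Φ s, (∀ j < i, u j = v j) ∧ u i ≠ v i := by
    intro s hs
    have h1 : Adapt ch W s fun t => U (t.foldl ch s) := fun t ht => hU _ ht
    obtain ⟨u, hu, hu'⟩ := h.ex_all (isClosed_coord i (· = true)) (hne true) (J := Iio i)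
      (fun j hj => ih j hj s) _ hs h1
    obtain ⟨v, hv, hv'⟩ := h.ex_all (isClosed_coord i (· = false)) (hne false) (J := Iio i)
      (fun j hj => ih j hj s) _ hs h1
    refine ⟨u, hu.1, v, hv.1, fun j hj => h.val_unique (hu' j hj) _ (hv' j hj), ?_⟩
    have h2 : u i = true := hu.2
    have h3 : v i = false := hv.2
    rw [h2, h3]
    simp
  obtain ⟨n, hn, n', hn', hnn⟩ := (hinf s hs).nontrivial
  obtain ⟨j, hj, hj'⟩ := h.sep s n n' hnn
  obtain ⟨u, hu, v, hv, h1, h2⟩ := key _ hn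
  obtain ⟨u', hu', v', hv', h3, h4⟩ := key _ hn'
  have hji : j < i := by
    by_contra h5
    exact h2 (hj' i (not_lt.1 h5) u hu v hv)
  exact hj u hu u' hu' (hM i u (h.sub _ hu) v (h.sub _ hv) u' (h.sub _ hu') v' (h.sub _ hv')
    h1 h2 h3 h4 j hji)

lemma Sys.exists_z (h : Sys K ch Φ) (hM : OneSplit K) (s : N) (U : List ℕ → NU) :
    ∃ w ∈ Φ s, ∀ j, Val ch Φ j s U (w j) := by
  obtain ⟨w, hw, hw'⟩ := h.ex_all isClosed_univ (W := univ)
    (fun s _ => by rw [inter_univ]; exact h.ne s) (J := univ) (fun j _ => h.all_rk hM j s) U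
    (mem_univ _) (fun _ _ => univ_mem' fun _ => mem_univ _)
  exact ⟨w, hw.1, fun j => hw' j (mem_univ _)⟩

omit [LinearOrder I] [WellFoundedLT I] in
lemma Val.loc {i : I} {s : N} {U : List ℕ → NU} {v : Bool} (hv : Val ch Φ i s U v) :
    ∃ A : List ℕ → Set ℕ, (∀ t, A t ∈ (U t).1) ∧
      ∀ U' : List ℕ → NU, (∀ t, A t ∈ (U' t).1) → Val ch Φ i s U' v := by
  induction hv with
  | base s U v h1 => exact ⟨fun _ => univ, fun _ => univ_mem, fun U' _ => Val.base s U' v h1⟩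
  | step s U v B hB _ ih =>
    have h1 : ∀ n, ∃ A : List ℕ → Set ℕ, (∀ t, A t ∈ (sh n U t).1) ∧ (n ∈ B →
        ∀ U' : List ℕ → NU, (∀ t, A t ∈ (U' t).1) → Val ch Φ i (ch s n) U' v) := by
      intro n
      by_cases hn : n ∈ B
      · obtain ⟨A, h2, h3⟩ := ih n hn
        exact ⟨A, h2, fun _ => h3⟩
      · exact ⟨fun _ => univ, fun _ => univ_mem, fun h2 => absurd h2 hn⟩
    choose A hA hA' using h1
    refine ⟨jn B A, fun t => ?_, fun U' hU' => Val.step s U' v B (hU' []) fun n hn =>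
      hA' n hn _ fun t => hU' (n :: t)⟩
    cases t with
    | nil => exact hB
    | cons n t => exact hA n t

lemma Sys.nontrivial (h : Sys K ch Φ) (hP : PTwo K) (s : N) (z : I → Bool) :
    ∃ y ∈ Φ s, y ≠ z := by
  choose w hw using fun n => h.ne (ch s n)
  have hinj : Function.Injective w := by
    intro n n' hn
    by_contra h1
    obtain ⟨j, hj, -⟩ := h.sep s n n' h1
    exact hj _ (hw n) _ (hw n') (by rw [hn])
  obtain ⟨i, hi⟩ := hP.split infinite_univ w (fun n => h.sub _ (hw n)) hinj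
  obtain ⟨U, hU⟩ := exists_NU (hi (!z i))
  refine ⟨ulim U w, h.lim s U w (univ_mem' hw), fun h1 => ?_⟩
  have h2 := ulim_eq U w i (c := !z i) (mem_of_superset hU fun n hn => hn.2)
  rw [h1] at h2
  revert h2
  cases z i <;> simp

/-- coordinate `i` splits along a tree of rank at least the given ordinal -/
inductive Big {Ω : Type} [LT Ω] (ch : N → ℕ → N) (Φ : N → Set (I → Bool)) (i : I) : N → Ω → Prop
  | mk (s : N) (ζ : Ω) (h : ¬ ∀ u ∈ Φ s, ∀ v ∈ Φ s, u i = v i) (S : Ω → Set ℕ)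
      (hS : ∀ ξ, ξ < ζ → (S ξ).Infinite)
      (hb : ∀ ξ, ξ < ζ → ∀ n ∈ S ξ, Big ch Φ i (ch s n) ξ) : Big ch Φ i s ζ

variable {Ω : Type} [LinearOrder Ω]

omit [LinearOrder I] [WellFoundedLT I] in
lemma Big.mono {i : I} {s : N} {ζ ξ : Ω} (h : Big ch Φ i s ζ) (hξ : ξ ≤ ζ) : Big ch Φ i s ξ := by
  cases h with
  | mk _ _ h1 S hS hb =>
    exact Big.mk s ξ h1 S (fun a ha => hS a (ha.trans_le hξ)) fun a ha => hb a (ha.trans_le hξ)

omit [LinearOrder I] [WellFoundedLT I] in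
lemma Rk.not_big [Nonempty Ω] (hb : ∀ f : ℕ → Ω, ∃ ζ, ∀ n, f n < ζ) {i : I} {s : N}
    (hs : Rk ch Φ {i} s) : ∃ ζ : Ω, ¬ Big ch Φ i s ζ := by
  induction hs with
  | base s h1 =>
    refine ⟨Classical.arbitrary _, fun h2 => ?_⟩
    cases h2 with
    | mk _ _ h3 => exact h3 (h1 i rfl)
  | step s m _ ih =>
    have h1 : ∀ n, ∃ ζ : Ω, m ≤ n → ¬ Big ch Φ i (ch s n) ζ := by
      intro n
      by_cases hn : m ≤ n
      · obtain ⟨ζ, h2⟩ := ih n hn
        exact ⟨ζ, fun _ => h2⟩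
      · exact ⟨Classical.arbitrary _, fun h2 => absurd h2 hn⟩
    choose f hf using h1
    obtain ⟨ξ, hξ⟩ := hb f
    obtain ⟨ζ, hζ⟩ := hb fun _ => ξ
    refine ⟨ζ, fun h2 => ?_⟩
    cases h2 with
    | mk _ _ _ S hS h3 =>
      obtain ⟨n, h4, h5⟩ := (hS ξ (hζ 0)).exists_gt m
      exact hf n h5.le ((h3 ξ (hζ 0) n h4).mono (hξ n).le)

/-- each coordinate depends on one member of each ultrafilter -/
def Cont (y : (List ℕ → NU) → I → Bool) : Prop :=
  ∀ U i, ∃ A : List ℕ → Set ℕ, (∀ t, A t ∈ (U t).1) ∧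
    ∀ U' : List ℕ → NU, (∀ t, A t ∈ (U' t).1) → y U' i = y U i

lemma ladder {ζ : Ω} (hc : (Iio ζ).Countable) (hne : (Iio ζ).Nonempty) :
    ∃ l : ℕ → Ω, (∀ n, l n < ζ) ∧ ∀ ξ < ζ, ∃ m, ∀ n, m ≤ n → ξ ≤ l n := by
  obtain ⟨f, hf⟩ := hc.exists_eq_range hne
  have h1 : ∀ n, f n < ζ := fun n => show f n ∈ Iio ζ from hf ▸ mem_range_self n
  refine ⟨fun n => (Finset.range (n + 1)).sup' Finset.nonempty_range_add_one f, fun n => ?_,
    fun ξ hξ => ?_⟩
  · exact (Finset.sup'_lt_iff _).2 fun k _ => h1 k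
  · obtain ⟨m, rfl⟩ : ξ ∈ range f := hf ▸ hξ
    exact ⟨m, fun n hn => Finset.le_sup' f (Finset.mem_range.2 (by omega))⟩

theorem Sys.names [WellFoundedLT Ω] (h : Sys K ch Φ) (hP : PTwo K)
    (hc : ∀ ζ : Ω, (Iio ζ).Countable) (z : N → (List ℕ → NU) → I → Bool)
    (hz : ∀ s U, z s U ∈ Φ s) (hz' : ∀ s U j, Val ch Φ j s U (z s U j)) (ζ : Ω) :
    ∀ s (E : List ℕ → Set ℕ), (∀ t, (E t).Infinite) → ∃ y, Cont y ∧
      (∀ U, y U ∈ Φ s ∧ ∀ i, y U i ≠ z s U i → Big ch Φ i s ζ) ∧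
      ∃ U : List ℕ → NU, (∀ t, E t ∈ (U t).1) ∧ y U ≠ z s U := by
  induction ζ using WellFoundedLT.induction with
  | ind ζ ih =>
  intro s E hE
  by_cases hne : (Iio ζ).Nonempty
  · obtain ⟨l, hl, hl'⟩ := ladder (hc ζ) hne
    choose y hy1 hy2 V hV hy3 using fun n => ih (l n) (hl n) (ch s n) (sh n E) fun t => hE _
    obtain ⟨i₀, hi₀⟩ := hP.on (hE []) (fun n => y n (V n)) (fun n => z (ch s n) (V n))
      (fun n => h.sub _ (hy2 n _).1) (fun n => h.sub _ (hz _ _)) hy3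
    obtain ⟨U₀, hU₀⟩ := exists_NU hi₀
    have coh : ∀ U i, z s U i = ulim (U []) (fun n => z (ch s n) (sh n U)) i := by
      intro U i
      refine h.val_unique (hz' s U i) _ (Val.step s U _ _
        (ulim_mem (U []) (fun n => z (ch s n) (sh n U)) i) fun n hn => ?_)
      have h1 : z (ch s n) (sh n U) i = _ := hn
      rw [← h1]
      exact hz' _ _ _
    have hmem : ∀ U : List ℕ → NU, ulim (U []) (fun n => y n (sh n U)) ∈ Φ s := fun U =>
      h.lim s _ _ (univ_mem' fun n => (hy2 n _).1)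
    refine ⟨fun U => ulim (U []) fun n => y n (sh n U), fun U i => ?_, fun U => ⟨hmem U, ?_⟩,
      jn U₀ V, fun t => ?_, fun h1 => ?_⟩
    · choose A hA hA' using fun n => hy1 n (sh n U) i
      refine ⟨jn {n | y n (sh n U) i = ulim (U []) (fun n => y n (sh n U)) i} A, fun t => ?_,
        fun U' hU' => ulim_eq _ _ _ (mem_of_superset (hU' []) fun n hn => ?_)⟩
      · cases t with
        | nil => exact ulim_mem (U []) (fun n => y n (sh n U)) i
        | cons n t => exact hA n t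
      · exact (hA' n _ fun t => hU' (n :: t)).trans hn
    · intro i hi
      have h1 : {n | y n (sh n U) i ≠ z (ch s n) (sh n U) i} ∈ (U []).1 := by
        refine mem_of_superset (inter_mem (ulim_mem (U []) (fun n => y n (sh n U)) i)
          (ulim_mem (U []) (fun n => z (ch s n) (sh n U)) i)) fun n hn h2 => hi ?_
        rw [coh]
        exact hn.1.symm.trans (h2.trans hn.2)
      refine Big.mk s ζ (fun h2 => hi (h2 _ (hmem U) _ (hz s U)))
        (fun ξ => {n | y n (sh n U) i ≠ z (ch s n) (sh n U) i} ∩ {n | ξ ≤ l n})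
        (fun ξ hξ => ?_) fun ξ _ n hn => ((hy2 n _).2 i hn.1).mono hn.2
      obtain ⟨m, hm⟩ := hl' ξ hξ
      exact (U []).infinite (inter_mem h1 (mem_of_superset ((U []).ge_mem m) hm))
    · cases t with
      | nil => exact mem_of_superset hU₀ fun n hn => hn.1
      | cons n t => exact hV n t
    · have h2 := congrFun h1 i₀
      rw [coh] at h2
      obtain ⟨n, ⟨h3, h4⟩, h5⟩ := U₀.1.nonempty_of_mem (inter_mem (inter_mem hU₀
        (ulim_mem U₀ (fun n => y n (V n)) i₀)) (ulim_mem U₀ (fun n => z (ch s n) (V n)) i₀))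
      exact h3.2 (h4.trans (h2.trans h5.symm))
  · choose U hU using fun t => exists_NU (hE t)
    obtain ⟨y, hy, hy'⟩ := h.nontrivial hP s (z s U)
    refine ⟨fun _ => y, fun U i => ⟨fun _ => univ, fun _ => univ_mem, fun _ _ => rfl⟩,
      fun U' => ⟨hy, fun i hi => ?_⟩, U, hU, hy'⟩
    exact Big.mk s ζ (fun h2 => hi (h2 _ hy _ (hz s U'))) (fun _ => univ)
      (fun ξ hξ => absurd ⟨ξ, hξ⟩ hne) fun ξ hξ => absurd ⟨ξ, hξ⟩ hne

end Pool.Agent.P.MP_0d6be8_lc
end

-- part Pool.Agent.P.MP_0d6be8_lc.NM3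
section

set_option linter.unusedSectionVars false

namespace Pool.Agent.P.MP_0d6be8_lc
open Set Filter Topology

variable {Ω : Type} [LinearOrder Ω] [WellFoundedLT Ω]

lemma chain_neBot {ι : Type} [LinearOrder ι] [Nonempty ι] (E : ι → Set ℕ) (h1 : ∀ a, (E a).Infinite)
    (h2 : ∀ a b, a < b → (E b \ E a).Finite) : (⨅ a, (cofinite ⊓ 𝓟 (E a) : Filter ℕ)).NeBot := by
  have hanti : Antitone fun a => (cofinite ⊓ 𝓟 (E a) : Filter ℕ) := by
    intro a b hab
    rcases hab.lt_or_eq with h3 | h3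
    · refine le_inf inf_le_left (le_principal_iff.2 ?_)
      refine mem_of_superset (inter_mem_inf (h2 a b h3).compl_mem_cofinite (mem_principal_self _))
        fun n hn => ?_
      by_contra h4
      exact hn.1 ⟨hn.2, h4⟩
    · rw [h3]
  exact iInf_neBot_of_directed' hanti.directed_ge fun a => (h1 a).cofinite_inf_principal_neBot

lemma chain_pseudo {ι : Type} [LinearOrder ι] [Countable ι] (E : ι → Set ℕ)
    (h1 : ∀ a, (E a).Infinite) (h2 : ∀ a b, a < b → (E b \ E a).Finite) :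
    ∃ B : Set ℕ, B.Infinite ∧ ∀ a, (B \ E a).Finite := by
  rcases isEmpty_or_nonempty ι with h3 | h3
  · exact ⟨univ, infinite_univ, fun a => h3.elim a⟩
  have := chain_neBot E h1 h2
  have h4 : (cofinite : Filter ℕ).IsCountablyGenerated := by
    rw [Nat.cofinite_eq_atTop]; infer_instance
  obtain ⟨x, hx⟩ := exists_seq_tendsto (⨅ a, (cofinite ⊓ 𝓟 (E a) : Filter ℕ))
  rw [tendsto_iInf] at hx
  refine ⟨range x, fun h5 => ?_, fun a => ?_⟩
  · obtain ⟨a⟩ := h3
    have h6 := (tendsto_inf.1 (hx a)).1 h5.compl_mem_cofinite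
    obtain ⟨n, hn⟩ := (atTop : Filter ℕ).nonempty_of_mem h6
    exact hn (mem_range_self n)
  · have h6 := tendsto_principal.1 (tendsto_inf.1 (hx a)).2
    rw [← Nat.cofinite_eq_atTop, eventually_cofinite] at h6
    refine (h6.image x).subset ?_
    rintro _ ⟨⟨n, rfl⟩, hn⟩
    exact ⟨n, hn, rfl⟩

theorem tower {T : Type} (hc : ∀ ζ : Ω, (Iio ζ).Countable) (D : Ω → (T → Set ℕ) → Prop)
    (hD : ∀ η (E : T → Set ℕ), (∀ t, (E t).Infinite) →
      ∃ E' : T → Set ℕ, (∀ t, (E' t).Infinite ∧ E' t ⊆ E t) ∧ D η E') :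
    ∃ E : Ω → T → Set ℕ, (∀ η t, (E η t).Infinite) ∧ (∀ η, D η (E η)) ∧
      ∀ ζ η, ζ < η → ∀ t, (E η t \ E ζ t).Finite := by
  classical
  let P : (η : Ω) → ((ζ : Ω) → ζ < η → T → Set ℕ) → (T → Set ℕ) → Prop := fun η f E' =>
    (∀ t, (E' t).Infinite) ∧ D η E' ∧ ∀ ζ (h : ζ < η) t, (E' t \ f ζ h t).Finite
  let E : Ω → T → Set ℕ := (wellFounded_lt (α := Ω)).fix fun η f =>
    if h : ∃ E', P η f E' then h.choose else fun _ => univ
  have hE : ∀ η, E η = if h : ∃ E', P η (fun ζ _ => E ζ) E' then h.choose else fun _ => univ :=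
    fun η => WellFounded.fix_eq _ _ η
  have key : ∀ η, P η (fun ζ _ => E ζ) (E η) := by
    intro η
    induction η using WellFoundedLT.induction with
    | ind η ih =>
    have h : ∃ E', P η (fun ζ _ => E ζ) E' := by
      have := (hc η).to_subtype
      choose B hB hB' using fun t => chain_pseudo (ι := Iio η) (fun a => E a t)
        (fun a => (ih a a.2).1 t) fun a b hab => (ih b b.2).2.2 a hab t
      obtain ⟨E', h1, h2⟩ := hD η B hB
      exact ⟨E', fun t => (h1 t).1, h2, fun ζ h t =>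
        (hB' t ⟨ζ, h⟩).subset (sdiff_subset_sdiff_left (h1 t).2)⟩
    rw [hE η, dif_pos h]
    exact h.choose_spec
  exact ⟨E, fun η => (key η).1, fun η => (key η).2.1, fun ζ η h => (key η).2.2 ζ h⟩

variable {I : Type} [LinearOrder I] [WellFoundedLT I] {K : Set (I → Bool)} [Nonempty Ω]

theorem column (hM : OneSplit K) (hP : PTwo K) (hc : ∀ ζ : Ω, (Iio ζ).Countable)
    (hb : ∀ f : ℕ → Ω, ∃ ζ, ∀ n, f n < ζ) {F : Set (I → Bool)} (hF : IC K F) :
    ∃ z ∈ F, ∃ y : Ω → I → Bool, (∀ η, y η ∈ F ∧ y η ≠ z) ∧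
      ∀ i, ∃ ζ, ∀ η, ζ ≤ η → y η i = z i := by
  obtain ⟨N, ⟨s⟩, ch, Φ, h, hsub⟩ := hP.exists_sys hF
  choose z hz hz' using h.exists_z hM
  obtain ⟨E, h1, h2, h3⟩ := tower (T := List ℕ) hc (fun η E => ∀ U : List ℕ → NU,
      (∀ t, E t ∈ (U t).1) → ∃ y ∈ Φ s, y ≠ z s U ∧ ∀ i, y i ≠ z s U i → Big ch Φ i s η) (by
    intro η E hE
    obtain ⟨y, hy1, hy2, U, hU, hy3⟩ := h.names hP hc z hz hz' η s E hE
    obtain ⟨i, hi⟩ := Function.ne_iff.1 hy3
    obtain ⟨A, hA, hA'⟩ := hy1 U i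
    obtain ⟨B, hB, hB'⟩ := (hz' s U i).loc
    refine ⟨fun t => E t ∩ (A t ∩ B t), fun t => ⟨(U t).infinite
      (inter_mem (hU t) (inter_mem (hA t) (hB t))), inter_subset_left⟩, fun U' hU' => ?_⟩
    refine ⟨y U', (hy2 U').1, fun h4 => hi ?_, (hy2 U').2⟩
    rw [← hA' U' fun t => mem_of_superset (hU' t) fun n hn => hn.2.1, h4]
    exact h.val_unique (hz' s U' i) _ (hB' U' fun t => mem_of_superset (hU' t) fun n hn => hn.2.2))
  have h4 : ∀ t, ∃ U : NU, ∀ η, E η t ∈ U.1 := by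
    intro t
    have := chain_neBot (fun η => E η t) (fun η => h1 η t) fun a b hab => h3 a b hab t
    obtain ⟨U, hU⟩ := Ultrafilter.exists_le (⨅ a, (cofinite ⊓ 𝓟 (E a t) : Filter ℕ))
    exact ⟨⟨U, (hU.trans (iInf_le _ (Classical.arbitrary Ω))).trans inf_le_left⟩, fun η =>
      le_principal_iff.1 ((hU.trans (iInf_le _ η)).trans inf_le_right)⟩
  choose U hU using h4
  choose y hy1 hy2 hy3 using fun η => h2 η U fun t => hU t η
  refine ⟨z s U, hsub s (hz s U), y, fun η => ⟨hsub s (hy1 η), hy2 η⟩, fun i => ?_⟩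
  obtain ⟨ζ, hζ⟩ := (h.all_rk hM i s).not_big hb
  refine ⟨ζ, fun η hη => ?_⟩
  by_contra h5
  exact hζ ((hy3 η i h5).mono hη)

theorem column_set (hM : OneSplit K) (hP : PTwo K) (hc : ∀ ζ : Ω, (Iio ζ).Countable)
    (hb : ∀ f : ℕ → Ω, ∃ ζ, ∀ n, f n < ζ) {F : Set (I → Bool)} (hF : IC K F) :
    ∃ z ∈ F, ∃ G : Ω → Set (I → Bool), (∀ η, IC K (G η)) ∧ (∀ η, G η ⊆ F ∧ z ∉ G η) ∧
      ∀ i, ∃ ζ, ∀ η, ζ ≤ η → ∀ w ∈ G η, w i = z i := by
  obtain ⟨z, hz, y, hy, hy'⟩ := column hM hP hc hb hF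
  have h1 : ∀ η, (y '' Ici η).Infinite := by
    intro η h2
    choose i hi using fun η => Function.ne_iff.1 (hy η).2
    obtain ⟨f, hf⟩ := h2.countable.exists_eq_range ⟨_, η, self_mem_Ici, rfl⟩
    choose g hg hg' using fun n => show f n ∈ y '' Ici η from hf ▸ mem_range_self n
    choose c hc' using hy'
    obtain ⟨ξ, hξ⟩ := hb fun n => c (i (g n))
    obtain ⟨n, hn⟩ : y (max η ξ) ∈ range f := hf ▸ ⟨_, le_max_left η ξ, rfl⟩
    apply hi (g n)
    rw [hg', hn]
    exact hc' _ _ ((hξ n).le.trans (le_max_right _ _))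
  have h2 : ∀ η, ∃ i, (y '' Ici η ∩ {w | w i ≠ z i}).Infinite := by
    intro η
    let e := (h1 η).natEmbedding
    have he : Function.Injective fun k => (e k : I → Bool) :=
      fun a b hab => e.injective (Subtype.ext hab)
    have h3 : ∀ k, (e k : I → Bool) ∈ F ∧ (e k : I → Bool) ≠ z := fun k => by
      obtain ⟨ξ, -, h4⟩ := (e k).2
      rw [← h4]
      exact hy ξ
    obtain ⟨i, hi⟩ := hP (fun k => e k) (fun _ => z) (fun k => hF.sub (h3 k).1)
      (fun _ => hF.sub hz) fun k => (h3 k).2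
    refine ⟨i, (hi.image he.injOn).mono ?_⟩
    rintro _ ⟨k, hk, rfl⟩
    exact ⟨(e k).2, hk⟩
  choose i hi using h2
  refine ⟨z, hz, fun η => (F ∩ {w | w (i η) ≠ z (i η)}) ∩
    ⋂ j, {w | (∀ ξ, η ≤ ξ → y ξ j = z j) → w j = z j}, fun η => ⟨fun w hw => hF.sub hw.1.1, ?_, ?_⟩,
    fun η => ⟨fun w hw => hw.1.1, fun hw => hw.1.2 rfl⟩, fun j => ?_⟩
  · exact (hF.closed.inter (isClosed_coord (i η) (· ≠ z (i η)))).inter (isClosed_iInter fun j =>
      isClosed_coord j fun c => (∀ ξ, η ≤ ξ → y ξ j = z j) → c = z j)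
  · refine (hi η).mono ?_
    rintro _ ⟨⟨ξ, hξ, rfl⟩, h3⟩
    exact ⟨⟨(hy ξ).1, h3⟩, mem_iInter.2 fun j hj => hj ξ hξ⟩
  · obtain ⟨ζ, hζ⟩ := hy' j
    exact ⟨ζ, fun η hη w hw => mem_iInter.1 hw.2 j fun ξ hξ => hζ ξ (hη.trans hξ)⟩

/-- coordinate `i` of the sequence is almost constant on `E` -/
def Conv (r : ℕ → I → Bool) (E : Set ℕ) (i : I) : Prop := ∃ c, {n | n ∈ E ∧ r n i ≠ c}.Finite

lemma not_conv {r : ℕ → I → Bool} {E : Set ℕ} {i : I} (h : ¬ Conv r E i) (c : Bool) :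
    {n | n ∈ E ∧ r n i = c}.Infinite := fun h1 => h ⟨!c, h1.subset fun n hn => ⟨hn.1, by
      have h2 := hn.2
      revert h2
      cases r n i <;> cases c <;> simp⟩⟩

lemma Conv.ulim_eq {r : ℕ → I → Bool} {E : Set ℕ} {i : I} (h : Conv r E i) {U V : NU}
    (hU : E ∈ U.1) (hV : E ∈ V.1) : ulim U r i = ulim V r i := by
  obtain ⟨c, hc⟩ := h
  have : ∀ U : NU, E ∈ U.1 → ulim U r i = c := fun U hU =>
    Pool.Agent.P.MP_0d6be8_lc.ulim_eq U r i (mem_of_superset (inter_mem hU (U.compl_mem hc))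
      fun n hn => by by_contra h1; exact hn.2 ⟨hn.1, h1⟩)
  rw [this U hU, this V hV]

lemma ulim_ne (U : NU) (r r' : ℕ → I → Bool) (i : I) (h : {n | r n i ≠ r' n i} ∈ U.1) :
    ulim U r i ≠ ulim U r' i := by
  intro h1
  obtain ⟨n, ⟨h2, h3⟩, h4⟩ := U.1.nonempty_of_mem
    (inter_mem (inter_mem h (ulim_mem U r i)) (ulim_mem U r' i))
  exact h2 (h3.trans (h1.trans h4.symm))

lemma first_sep (hM : OneSplit K) (hP : PTwo K) (y z : ℕ → I → Bool) (hy : ∀ n, y n ∈ K)
    (hz : ∀ n, z n ∈ K) (hne : ∀ n, y n ≠ z n) (hK : IsClosed K) {E : Set ℕ} (hE : E.Infinite) :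
    ∃ E', E'.Infinite ∧ E' ⊆ E ∧ ∃ i, (∀ n ∈ E', y n i ≠ z n i) ∧ ∀ j < i, Conv z E' j := by
  obtain ⟨i, hi, hmin⟩ := WellFounded.has_min (wellFounded_lt (α := I))
    {i | {n | n ∈ E ∧ y n i ≠ z n i}.Infinite} (hP.on hE y z hy hz hne)
  refine ⟨_, hi, fun n hn => hn.1, i, fun n hn => hn.2, fun j hj => ?_⟩
  by_contra h1
  have key : ∀ U : NU, {n | n ∈ E ∧ y n i ≠ z n i} ∈ U.1 →
      (∀ k < i, ulim U z k = ulim U y k) ∧ ulim U z i ≠ ulim U y i := by
    intro U hU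
    refine ⟨fun k hk => ?_, (ulim_ne U y z i (mem_of_superset hU fun n hn => hn.2)).symm⟩
    have h2 : {n | n ∈ E ∧ y n k ≠ z n k}.Finite := not_infinite.1 fun h2 => hmin k h2 hk
    refine ulim_eq U z k (mem_of_superset
      (inter_mem (inter_mem hU (U.compl_mem h2)) (ulim_mem U y k)) fun n hn => ?_)
    have h3 : y n k = z n k := by by_contra h3; exact hn.1.2 ⟨hn.1.1.1, h3⟩
    exact h3.symm.trans hn.2
  obtain ⟨U, hU⟩ := exists_NU (not_conv h1 true)
  obtain ⟨V, hV⟩ := exists_NU (not_conv h1 false)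
  obtain ⟨h2, h3⟩ := key U (mem_of_superset hU fun n hn => hn.1)
  obtain ⟨h4, h5⟩ := key V (mem_of_superset hV fun n hn => hn.1)
  have h6 := hM i _ (ulim_closed U z hK (univ_mem' hz)) _ (ulim_closed U y hK (univ_mem' hy))
    _ (ulim_closed V z hK (univ_mem' hz)) _ (ulim_closed V y hK (univ_mem' hy)) h2 h3 h4 h5 j hj
  rw [ulim_eq U z j (c := true) (mem_of_superset hU fun n hn => hn.2),
    ulim_eq V z j (c := false) (mem_of_superset hV fun n hn => hn.2)] at h6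
  exact Bool.noConfusion h6

theorem descent (hM : OneSplit K) (hP : PTwo K) (hK : IC K K) (hc : ∀ ζ : Ω, (Iio ζ).Countable)
    (hb : ∀ f : ℕ → Ω, ∃ ζ, ∀ n, f n < ζ)
    (hH : ∀ D : List Ω × Ω → Set ℕ → Prop,
      (∀ p E, E.Infinite → ∃ E', E'.Infinite ∧ E' ⊆ E ∧ D p E') →
      ∃ B : Set ℕ, B.Infinite ∧ ∀ p, ∃ E, D p E ∧ (B \ E).Finite) : False := by
  obtain ⟨F, hF, hd⟩ := hP.disj_seq hK
  choose z hz G hG hG' hG'' using fun F : {F // IC K F} => column_set hM hP hc hb F.2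
  let H : ℕ → List Ω → {F // IC K F} := fun n σ => List.rec ⟨F n, (hF n).1⟩
    (fun η _ X => ⟨G X η, hG X η⟩) σ
  have hH' : ∀ n η σ, (H n (η :: σ)).1 = G (H n σ) η := fun _ _ _ => rfl
  have hsub : ∀ n σ, (H n σ).1 ⊆ F n := by
    intro n σ
    induction σ with
    | nil => exact subset_rfl
    | cons η σ ih => rw [hH']; exact (hG' _ η).1.trans ih
  let r : List Ω → ℕ → I → Bool := fun σ n => z (H n σ)
  have hr : ∀ σ n, r σ n ∈ K := fun σ n => (H n σ).2.sub (hz _)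
  have hne : ∀ η σ n, r (η :: σ) n ≠ r σ n := by
    intro η σ n h1
    have h2 : r (η :: σ) n ∈ G (H n σ) η := hz (H n (η :: σ))
    rw [h1] at h2
    exact (hG' _ η).2 h2
  have hinj : ∀ σ, Function.Injective (r σ) := by
    intro σ n m h1
    by_contra h2
    exact hd n m h2 _ (hsub n σ (hz _)) (by
      change r σ n ∈ F m
      rw [h1]; exact hsub m σ (hz _))
  obtain ⟨B, hB, hB'⟩ := hH (fun p E => ∃ i, (∀ n ∈ E, r (p.2 :: p.1) n i ≠ r p.1 n i) ∧
      ∀ j < i, Conv (r p.1) E j)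
    (fun p E hE => first_sep hM hP (r (p.2 :: p.1)) (r p.1) (hr (p.2 :: p.1)) (hr p.1)
      (hne p.2 p.1)
      hK.closed hE)
  obtain ⟨i, ⟨σ, hi⟩, hmin⟩ := WellFounded.has_min (wellFounded_lt (α := I))
    {i | ∃ σ, ¬ Conv (r σ) B i} (by
      obtain ⟨i, hi⟩ := hP.split hB (r []) (hr []) (hinj [])
      refine ⟨i, [], fun ⟨c, h1⟩ => hi (!c) (h1.subset fun n hn => ⟨hn.1, ?_⟩)⟩
      rw [hn.2]
      cases c <;> simp)
  have hlow : ∀ σ, ∀ j < i, Conv (r σ) B j := fun σ j hj => by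
    by_contra h1
    exact hmin j ⟨σ, h1⟩ hj
  choose c hc' using fun n => hG'' (H n σ) i
  obtain ⟨η, hη⟩ := hb c
  have heq : ∀ n, r (η :: σ) n i = r σ n i := fun n => hc' n η (hη n).le _ (hz (H n (η :: σ)))
  obtain ⟨E, ⟨i₀, h1, h2⟩, h3⟩ := hB' (σ, η)
  have h4 : i₀ < i := by
    rcases lt_trichotomy i₀ i with h4 | h4 | h4
    · exact h4
    · obtain ⟨n, h5, h6⟩ := (hB.sdiff h3).nonempty
      have h7 : n ∈ E := by by_contra h7; exact h6 ⟨h5, h7⟩
      exact absurd (heq n) (h4 ▸ h1 n h7)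
    · obtain ⟨v, hv⟩ := h2 i h4
      refine absurd ⟨v, (hv.union h3).subset fun n hn => ?_⟩ hi
      by_cases h7 : n ∈ E
      · exact Or.inl ⟨h7, hn.2⟩
      · exact Or.inr ⟨hn.1, h7⟩
  obtain ⟨U, hU⟩ := exists_NU (not_conv hi true)
  obtain ⟨V, hV⟩ := exists_NU (not_conv hi false)
  have hUB : B ∈ U.1 := mem_of_superset hU fun n hn => hn.1
  have hVB : B ∈ V.1 := mem_of_superset hV fun n hn => hn.1
  have h5 : ∀ τ, (∀ n, r τ n i = r σ n i) → ulim U (r τ) i ≠ ulim V (r τ) i := by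
    intro τ hτ
    rw [ulim_eq U _ i (c := true) (mem_of_superset hU fun n hn => (hτ n).trans hn.2),
      ulim_eq V _ i (c := false) (mem_of_superset hV fun n hn => (hτ n).trans hn.2)]
    simp
  have h6 := hM i _ (ulim_closed U _ hK.closed (univ_mem' (hr σ)))
    _ (ulim_closed V _ hK.closed (univ_mem' (hr σ)))
    _ (ulim_closed U _ hK.closed (univ_mem' (hr (η :: σ))))
    _ (ulim_closed V _ hK.closed (univ_mem' (hr (η :: σ))))
    (fun j hj => (hlow σ j hj).ulim_eq hUB hVB) (h5 σ fun _ => rfl)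
    (fun j hj => (hlow (η :: σ) j hj).ulim_eq hUB hVB) (h5 (η :: σ) heq) i₀ h4
  refine ulim_ne U (r (η :: σ)) (r σ) i₀ ?_ h6.symm
  refine mem_of_superset (inter_mem hUB (U.compl_mem h3)) fun n hn => h1 n ?_
  by_contra h7
  exact hn.2 ⟨hn.1, h7⟩

end Pool.Agent.P.MP_0d6be8_lc
end

-- part Pool.Agent.P.MP_0d6be8_lc.DefsMA
section

namespace Pool.Agent.P.MP_0d6be8_lc

/-- Martin's statement: for every nonempty ccc poset and every family of fewer than continuum many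
dense subsets there is a filter meeting all of them -/
def MA : Prop :=
  ∀ (P : Type) [PartialOrder P], Nonempty P →
    (∀ A : Set P, (A.Pairwise fun p q => ¬ ∃ r, r ≤ p ∧ r ≤ q) → A.Countable) →
    ∀ 𝒟 : Set (Set P), Cardinal.mk 𝒟 < Cardinal.continuum →
      (∀ D ∈ 𝒟, ∀ p, ∃ q ∈ D, q ≤ p) →
      ∃ G : Set P, G.Nonempty ∧ (∀ p ∈ G, ∀ q, p ≤ q → q ∈ G) ∧
        (∀ p ∈ G, ∀ q ∈ G, ∃ r ∈ G, r ≤ p ∧ r ≤ q) ∧ ∀ D ∈ 𝒟, (G ∩ D).Nonempty

end Pool.Agent.P.MP_0d6be8_lc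
end

-- part Pool.Agent.P.MP_0d6be8_lc.NM4
section

set_option linter.unusedSectionVars false

namespace Pool.Agent.P.MP_0d6be8_lc
open Set Filter Topology

/-- conditions for adding a pseudo-intersection -/
structure Cnd {Ω : Type} (E : Ω → Set ℕ) : Type where
  s : Finset ℕ
  F : Finset Ω

instance Cnd.po {Ω : Type} (E : Ω → Set ℕ) : PartialOrder (Cnd E) where
  le q p := p.s ⊆ q.s ∧ p.F ⊆ q.F ∧ ∀ n ∈ q.s, n ∉ p.s → ∀ η ∈ p.F, n ∈ E η
  le_refl p := ⟨subset_rfl, subset_rfl, fun _ h h' => absurd h h'⟩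
  le_trans r q p h1 h2 := ⟨h2.1.trans h1.1, h2.2.1.trans h1.2.1, fun n hn hn' η hη => by
    by_cases h3 : n ∈ q.s
    · exact h2.2.2 n h3 hn' η hη
    · exact h1.2.2 n hn h3 η (h2.2.1 hη)⟩
  le_antisymm p q h1 h2 := by
    cases p; cases q
    congr
    · exact Finset.Subset.antisymm h2.1 h1.1
    · exact Finset.Subset.antisymm h2.2.1 h1.2.1

theorem MA.pseudo (h : MA) {Ω : Type} [LinearOrder Ω] [Nonempty Ω]
    (hΩ : Cardinal.mk Ω < Cardinal.continuum) (hω : Cardinal.aleph0.{0} < Cardinal.continuum)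
    (E : Ω → Set ℕ) (h1 : ∀ a, (E a).Infinite) (h2 : ∀ a b, a < b → (E b \ E a).Finite) :
    ∃ B : Set ℕ, B.Infinite ∧ ∀ a, (B \ E a).Finite := by
  classical
  let D : Ω ⊕ ℕ → Set (Cnd E) := Sum.elim (fun η => {p | η ∈ p.F}) fun n => {p | ∃ m ∈ p.s, n < m}
  obtain ⟨G, -, -, hG, hD⟩ := h (Cnd E) ⟨⟨∅, ∅⟩⟩ (by
    intro A hA
    refine Set.MapsTo.countable_of_injOn (f := Cnd.s) (t := univ) (mapsTo_univ _ _) ?_
      countable_univ
    intro p hp q hq hpq
    by_contra h3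
    refine hA hp hq h3 ⟨⟨p.s, p.F ∪ q.F⟩, ⟨subset_rfl, Finset.subset_union_left,
      fun _ h h' => absurd h h'⟩, ⟨hpq ▸ subset_rfl, Finset.subset_union_right,
      fun _ h h' => absurd h (hpq ▸ h')⟩⟩) (range D) (by
    refine Cardinal.mk_range_le.trans_lt ?_
    rw [Cardinal.mk_sum, Cardinal.lift_id, Cardinal.lift_id, Cardinal.mk_nat]
    exact Cardinal.add_lt_of_lt hω.le hΩ hω) (by
    rintro _ ⟨x, rfl⟩ p
    rcases x with η | n
    · exact ⟨⟨p.s, insert η p.F⟩, Finset.mem_insert_self _ _, subset_rfl,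
        Finset.subset_insert _ _, fun _ h h' => absurd h h'⟩
    · have := chain_neBot E h1 h2
      have h3 : {m | n < m} ∩ ⋂ η ∈ p.F, E η ∈ ⨅ a, (cofinite ⊓ 𝓟 (E a) : Filter ℕ) := by
        refine inter_mem (mem_iInf_of_mem (Classical.arbitrary Ω) (mem_inf_of_left ?_)) ?_
        · rw [Nat.cofinite_eq_atTop]; exact eventually_gt_atTop n
        · exact (biInter_finset_mem _).2 fun η _ =>
            mem_iInf_of_mem η (mem_inf_of_right (mem_principal_self _))
      obtain ⟨m, h4, h5⟩ := Filter.nonempty_of_mem h3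
      refine ⟨⟨insert m p.s, p.F⟩, ⟨m, Finset.mem_insert_self _ _, h4⟩, Finset.subset_insert _ _,
        subset_rfl, fun k hk hk' η hη => ?_⟩
      rcases Finset.mem_insert.1 hk with h6 | h6
      · rw [h6]; exact mem_iInter₂.1 h5 η hη
      · exact absurd h6 hk')
  refine ⟨{n | ∃ p ∈ G, n ∈ p.s}, infinite_of_forall_exists_gt fun n => ?_, fun η => ?_⟩
  · obtain ⟨p, hp, m, hm, hm'⟩ := hD _ ⟨Sum.inr n, rfl⟩
    exact ⟨m, ⟨p, hp, hm⟩, hm'⟩
  · obtain ⟨p, hp, hη⟩ := hD _ ⟨Sum.inl η, rfl⟩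
    refine p.s.finite_toSet.subset ?_
    rintro n ⟨⟨q, hq, hn⟩, hn'⟩
    obtain ⟨r, -, h3, h4⟩ := hG p hp q hq
    by_contra h5
    exact hn' (h3.2.2 n (h4.1 hn) h5 η hη)

/-- every family of at most `aleph 1` dense open sets has a common member -/
def HBig : Prop :=
  ∀ 𝒟 : Set (Set (Set ℕ)), Cardinal.mk 𝒟 ≤ Cardinal.aleph 1 → (∀ D ∈ 𝒟, DenseOpen D) →
    (⋂₀ 𝒟).Nonempty

lemma exists_omega1 : ∃ (Ω : Type) (_ : LinearOrder Ω) (_ : WellFoundedLT Ω) (_ : Infinite Ω),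
    Cardinal.mk Ω = Cardinal.aleph 1 ∧ (∀ i : Ω, (Iio i).Countable) ∧
      ∀ f : ℕ → Ω, ∃ ζ, ∀ n, f n < ζ := by
  let Ω := (Cardinal.aleph.{0} 1).ord.ToType
  have hI : Cardinal.mk Ω = Cardinal.aleph 1 := by simp [Ω]
  have h1 : ∀ i : Ω, (Iio i).Countable := fun i => by
    rw [← Cardinal.le_aleph0_iff_set_countable, ← Order.lt_succ_iff, Cardinal.succ_aleph0]
    exact (Cardinal.mk_Iio_lt i (by simp [Ω])).trans_eq hI
  have h1' : ∀ i : Ω, (Iic i).Countable := fun i => by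
    rw [← Iio_insert]; exact (h1 i).insert i
  have hunc : Uncountable Ω := by
    rw [← Cardinal.aleph0_lt_mk_iff, hI]; exact Cardinal.aleph0_lt_aleph_one
  refine ⟨Ω, inferInstance, inferInstance, inferInstance, hI, h1, fun f => ?_⟩
  by_contra h2
  simp only [not_exists, not_forall, not_lt] at h2
  refine not_countable_univ ((countable_iUnion fun n => h1' (f n)).mono fun i _ => ?_)
  obtain ⟨n, hn⟩ := h2 i
  exact mem_iUnion.2 ⟨n, hn⟩

theorem MA.hBig (h : MA) (hCH : Cardinal.continuum.{0} ≠ Cardinal.aleph 1) : HBig := by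
  intro 𝒟 h𝒟 hD
  rcases 𝒟.eq_empty_or_nonempty with h0 | h0
  · exact ⟨univ, by simp [h0]⟩
  obtain ⟨Ω, _, _, _, hI, h1, -⟩ := exists_omega1
  have := h0.to_subtype
  obtain ⟨j⟩ := (Cardinal.le_def _ _).1 (h𝒟.trans_eq hI.symm)
  let e : Ω → 𝒟 := Function.invFun j
  have he : Function.Surjective e := Function.invFun_surjective j.injective
  obtain ⟨E, h2, h3, h4⟩ := tower (T := Unit) h1 (fun η E => E () ∈ (e η).1) fun η E hE => by
    obtain ⟨E', h2, h3⟩ := (hD _ (e η).2).2.2 (E ()) (hE ())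
    exact ⟨fun _ => E', fun _ => ⟨(hD _ (e η).2).1 _ h2, h3⟩, h2⟩
  obtain ⟨B, hB, hB'⟩ := h.pseudo
    (hI.trans_lt (lt_of_le_of_ne Cardinal.aleph_one_le_continuum hCH.symm))
    Cardinal.aleph0_lt_continuum (fun η => E η ()) (fun η => h2 η ()) fun a b hab => h4 a b hab ()
  refine ⟨B, fun D hD' => ?_⟩
  obtain ⟨η, hη⟩ := he ⟨D, hD'⟩
  have h5 := h3 η
  rw [hη] at h5
  exact (hD D hD').2.1 _ h5 B hB (hB' η)

theorem no_closed (h : HBig) {I : Type}
    [LinearOrder I] [WellFoundedLT I] {K : Set (I → Bool)} (hM : OneSplit K) (hP : PTwo K)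
    (hK : IC K K) : False := by
  obtain ⟨Ω, _, _, _, hI, h1, hb⟩ := exists_omega1
  have hD : Cardinal.mk (List Ω × Ω) = Cardinal.aleph 1 := by
    rw [Cardinal.mk_prod, Cardinal.lift_id, Cardinal.lift_id, Cardinal.mk_list_eq_mk, hI,
      Cardinal.mul_eq_self (Cardinal.aleph0_le_aleph 1)]
  refine descent hM hP hK h1 hb fun D hD' => ?_
  obtain ⟨B, hB⟩ := h (range fun p => {E | E.Infinite ∧ ∃ E', D p E' ∧ (E \ E').Finite})
    (Cardinal.mk_range_le.trans_eq hD) (by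
    rintro _ ⟨p, rfl⟩
    refine ⟨fun E hE => hE.1, ?_, fun E hE => ?_⟩
    · rintro E ⟨-, E', h2, h3⟩ E'' h4 h5
      refine ⟨h4, E', h2, (h5.union h3).subset fun n hn => ?_⟩
      by_cases h6 : n ∈ E
      · exact Or.inr ⟨h6, hn.2⟩
      · exact Or.inl ⟨hn.1, h6⟩
    · obtain ⟨E', h2, h3, h4⟩ := hD' p E hE
      exact ⟨E', ⟨h2, E', h4, by simp⟩, h3⟩)
  have h2 := fun p => hB _ ⟨p, rfl⟩
  exact ⟨B, (h2 (Classical.arbitrary _)).1, fun p => (h2 p).2⟩

variable {A : Type} [BooleanAlgebra A]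

lemma Stone.ext' {u v : Stone A} (h : ∀ a, a ∈ u.carrier ↔ a ∈ v.carrier) : u = v := by
  have h1 : u.carrier = v.carrier := Set.ext h
  cases u; cases v; congr

lemma Stone.compl_mem (u : Stone A) (a : A) : aᶜ ∈ u.carrier ↔ a ∉ u.carrier :=
  Set.ext_iff.1 (basic_compl a) u

lemma Stone.sup_mem (u : Stone A) (a b : A) : a ⊔ b ∈ u.carrier ↔ a ∈ u.carrier ∨ b ∈ u.carrier :=
  Set.ext_iff.1 (basic_sup a b) u

lemma Stone.agree {u v : Stone A} {S : Set A} (h : ∀ a ∈ S, a ∈ u.carrier ↔ a ∈ v.carrier) {a : A}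
    (ha : a ∈ BooleanSubalgebra.closure S) : a ∈ u.carrier ↔ a ∈ v.carrier := by
  induction ha using BooleanSubalgebra.closure_bot_sup_induction with
  | mem x hx => exact h x hx
  | bot => exact iff_of_false u.bot_notMem v.bot_notMem
  | sup x _ y _ h1 h2 => rw [u.sup_mem, v.sup_mem, h1, h2]
  | compl x _ h1 => rw [u.compl_mem, v.compl_mem, h1]

lemma Stone.exists_mem {a : A} (ha : a ≠ ⊥) : ∃ u : Stone A, a ∈ u.carrier := by
  have h1 : (Order.Ideal.principal aᶜ).IsProper := by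
    refine Order.Ideal.isProper_of_notMem (p := ⊤) fun h => ha ?_
    have h2 : (⊤ : A) ≤ aᶜ := h
    simpa using h2
  obtain ⟨J, hJ, hJ'⟩ := h1.exists_le_maximal
  have hp := hJ'.isPrime
  refine ⟨⟨{x | xᶜ ∈ J}, by simp, by simpa using hp.toIsProper.top_notMem, fun x y => ?_,
    fun x => ?_⟩, hJ Order.Ideal.mem_principal_self⟩
  · simp only [mem_ofPred_eq, compl_inf]
    exact Order.Ideal.sup_mem_iff
  · simp only [mem_ofPred_eq, compl_compl]
    exact (hp.mem_or_compl_mem (x := x)).symm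

lemma Stone.infinite [Infinite A] : Infinite (Stone A) := by
  by_contra h
  rw [not_infinite_iff_finite] at h
  have h1 : ∀ a b : A, Stone.basic a = Stone.basic b → a ≤ b := by
    intro a b hab
    by_contra h2
    obtain ⟨u, hu⟩ := Stone.exists_mem (a := a ⊓ bᶜ) fun h3 => h2 (by
      rwa [← _root_.sdiff_eq, sdiff_eq_bot_iff] at h3)
    rw [u.inf_mem, u.compl_mem] at hu
    exact hu.2 (show u ∈ Stone.basic b from hab ▸ hu.1)
  exact not_injective_infinite_finite (Stone.basic (A := A))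
    fun a b hab => le_antisymm (h1 a b hab) (h1 b a hab.symm)

theorem exists_pairs (h : HBig) [Infinite A]
    (hA : MinimallyGenerated A) : ∃ x y : ℕ → Stone A, (∀ n, x n ≠ y n) ∧
      ∀ a, {n | ¬ (a ∈ (x n).carrier ↔ a ∈ (y n).carrier)}.Finite := by
  classical
  by_contra h0
  obtain ⟨I, _, _, g, hg, hmin⟩ := hA
  let φ : Stone A → I → Bool := fun u i => decide (g i ∈ u.carrier)
  have hφ : ∀ u v i, φ u i = φ v i ↔ (g i ∈ u.carrier ↔ g i ∈ v.carrier) := fun u v i => by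
    simp [φ]
  have hinj : Function.Injective φ := fun u v huv => Stone.ext' fun a =>
    Stone.agree (S := range g) (by rintro _ ⟨i, rfl⟩; exact (hφ u v i).1 (congrFun huv i))
      (by rw [hg]; trivial)
  have := Stone.infinite (A := A)
  refine no_closed h (K := range φ) ?_ ?_ ⟨subset_rfl, ?_, infinite_range_of_injective hinj⟩
  · rintro i _ ⟨u, rfl⟩ _ ⟨v, rfl⟩ _ ⟨u', rfl⟩ _ ⟨v', rfl⟩ h1 h2 h3 h4 j hj
    have key : ∀ u v u' v' : Stone A, (∀ j < i, φ u j = φ v j) → φ u i ≠ φ v i →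
        (∀ j < i, φ u' j = φ v' j) → φ u' i ≠ φ v' i →
        ∀ c ∈ BooleanSubalgebra.closure (g '' Iio i), c ∈ u.carrier → c ∈ u'.carrier := by
      intro u v u' v' h1 h2 h3 h4 c hc hu
      by_contra hu'
      have h5 : ∀ u v : Stone A, (∀ j < i, φ u j = φ v j) → ∀ a ∈ g '' Iio i,
          a ∈ u.carrier ↔ a ∈ v.carrier := by
        rintro u v h5 _ ⟨j, hj, rfl⟩
        exact (hφ u v j).1 (h5 j hj)
      have hle : BooleanSubalgebra.closure (g '' Iio i) ≤ BooleanSubalgebra.closure (g '' Iic i) :=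
        BooleanSubalgebra.closure_mono (image_mono Iio_subset_Iic_self)
      have hgi : g i ∈ BooleanSubalgebra.closure (g '' Iic i) :=
        BooleanSubalgebra.subset_closure ⟨i, self_mem_Iic, rfl⟩
      rcases hmin i (BooleanSubalgebra.closure (insert (g i ⊓ c) (g '' Iio i)))
        (BooleanSubalgebra.closure_mono (subset_insert _ _))
        (BooleanSubalgebra.closure_le.2 (insert_subset (BooleanSubalgebra.inf_mem hgi (hle hc))
          fun a ha => hle (BooleanSubalgebra.subset_closure ha))) with h6 | h6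
      · have h7 : g i ⊓ c ∈ BooleanSubalgebra.closure (g '' Iio i) :=
          h6 ▸ BooleanSubalgebra.subset_closure (mem_insert _ _)
        have h8 := Stone.agree (h5 u v h1) h7
        have h9 := (Stone.agree (h5 u v h1) hc).1 hu
        rw [u.inf_mem, v.inf_mem] at h8
        exact h2 ((hφ u v i).2 ⟨fun h => (h8.1 ⟨h, hu⟩).1, fun h => (h8.2 ⟨h, h9⟩).1⟩)
      · rw [← h6] at hgi
        refine h4 ((hφ u' v' i).2 (Stone.agree ?_ hgi))
        intro a ha
        rcases ha with ha | ha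
        · have h9 : c ∉ v'.carrier := fun h => hu' ((Stone.agree (h5 u' v' h3) hc).2 h)
          rw [ha, u'.inf_mem, v'.inf_mem]
          exact iff_of_false (fun h => hu' h.2) fun h => h9 h.2
        · exact h5 u' v' h3 a ha
    have hc : g j ∈ BooleanSubalgebra.closure (g '' Iio i) :=
      BooleanSubalgebra.subset_closure ⟨j, hj, rfl⟩
    exact (hφ u u' j).2 ⟨key u v u' v' h1 h2 h3 h4 _ hc, key u' v' u v h3 h4 h1 h2 _ hc⟩
  · intro y z hy hz hne
    choose x hx using hy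
    choose x' hx' using hz
    by_contra h1
    simp only [not_exists, not_infinite] at h1
    refine h0 ⟨x, x', fun n hn => hne n (by rw [← hx, ← hx', hn]), fun a => ?_⟩
    have ha : a ∈ BooleanSubalgebra.closure (range g) := by rw [hg]; trivial
    induction ha using BooleanSubalgebra.closure_bot_sup_induction with
    | mem a ha =>
      obtain ⟨i, rfl⟩ := ha
      refine (h1 i).subset fun n hn h2 => hn ((hφ _ _ i).1 ?_)
      rw [hx, hx']
      exact h2
    | bot =>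
      exact finite_empty.subset fun n hn =>
        hn (iff_of_false (x n).bot_notMem (x' n).bot_notMem)
    | sup a _ b _ h2 h3 =>
      refine (h2.union h3).subset fun n hn => ?_
      by_contra h4
      simp only [mem_union, mem_ofPred_eq, not_or, not_not] at h4
      exact hn (by rw [Stone.sup_mem, Stone.sup_mem, h4.1, h4.2])
    | compl a _ h2 =>
      refine h2.subset fun n hn h4 => hn ?_
      rw [Stone.compl_mem, Stone.compl_mem, h4]
  · rw [isClosed_iff_ultrafilter]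
    intro w 𝒰 hw hK
    let ψ := Function.invFun φ
    have hψ : ∀ᶠ w' in (𝒰 : Filter (I → Bool)), φ (ψ w') = w' :=
      mem_of_superset hK fun w' hw' => Function.invFun_eq hw'
    refine ⟨⟨{a | {w' | a ∈ (ψ w').carrier} ∈ 𝒰}, univ_mem' fun w' => (ψ w').top_mem, fun h1 => ?_,
      fun a b => ?_, fun a => ?_⟩, funext fun i => ?_⟩
    · obtain ⟨w', hw'⟩ := 𝒰.nonempty_of_mem h1
      exact (ψ w').bot_notMem hw'
    · have h1 : {w' | a ⊓ b ∈ (ψ w').carrier} =
          {w' | a ∈ (ψ w').carrier} ∩ {w' | b ∈ (ψ w').carrier} :=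
        Set.ext fun w' => (ψ w').inf_mem a b
      simp only [mem_ofPred_eq]
      rw [h1]
      exact inter_mem_iff
    · have h1 : {w' | aᶜ ∈ (ψ w').carrier} = {w' | a ∈ (ψ w').carrier}ᶜ :=
        Set.ext fun w' => (ψ w').compl_mem a
      simp only [mem_ofPred_eq]
      rw [h1]
      exact 𝒰.mem_or_compl_mem _
    · have h1 : {w' : I → Bool | w' i = w i} ∈ 𝒰 := by
        have h2 := ((continuous_apply i).tendsto w).mono_left hw
        rw [nhds_discrete, tendsto_pure] at h2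
        exact h2
      have h2 : ∀ᶠ w' in (𝒰 : Filter (I → Bool)), (g i ∈ (ψ w').carrier ↔ w i = true) := by
        filter_upwards [hψ, h1] with w' h3 h4
        rw [← h4, ← congrFun h3 i]
        simp [φ]
      cases hwi : w i
      · refine decide_eq_false fun h3 => ?_
        obtain ⟨w', h4, h5⟩ := 𝒰.nonempty_of_mem (inter_mem h3 h2)
        have h6 := h5.1 h4
        rw [hwi] at h6
        exact Bool.noConfusion h6
      · exact decide_eq_true (mem_of_superset h2 fun w' h3 => h3.2 hwi)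

theorem not_nikodym {x y : ℕ → Stone A} (h1 : ∀ n, x n ≠ y n)
    (h2 : ∀ a, {n | ¬ (a ∈ (x n).carrier ↔ a ∈ (y n).carrier)}.Finite) : ¬ Nikodym A := by
  classical
  intro hN
  let δ : Stone A → A → ℝ := fun u a => if a ∈ u.carrier then 1 else 0
  have hδ : ∀ u, IsAdditive (δ u) := by
    intro u a b hab
    have h3 : ¬ (a ∈ u.carrier ∧ b ∈ u.carrier) := by
      rw [← u.inf_mem, hab.eq_bot]; exact u.bot_notMem
    by_cases ha : a ∈ u.carrier <;> by_cases hb : b ∈ u.carrier <;>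
      simp [δ, u.sup_mem, ha, hb] at h3 ⊢
  let μ : ℕ → A → ℝ := fun n a => n * (δ (x n) a - δ (y n) a)
  have hμ : ∀ n, IsAdditive (μ n) := fun n a b hab => by
    simp only [μ]; rw [hδ _ a b hab, hδ _ a b hab]; ring
  have habs : ∀ n a, |μ n a| = if (a ∈ (x n).carrier ↔ a ∈ (y n).carrier) then 0 else (n : ℝ) := by
    intro n a
    by_cases ha : a ∈ (x n).carrier <;> by_cases hb : a ∈ (y n).carrier <;> simp [μ, δ, ha, hb]
  obtain ⟨C, hC⟩ := hN μ hμ (fun n => ⟨_, (hμ n).varLE (C := n) fun a => by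
      rw [habs]; split_ifs <;> simp⟩) fun a => by
    obtain ⟨b, hb⟩ := (h2 a).bddAbove
    refine ⟨b, fun n => ?_⟩
    rw [habs]
    split_ifs with h3
    · simp
    · exact_mod_cast hb h3
  obtain ⟨n, hn⟩ := exists_nat_gt C
  obtain ⟨a, ha⟩ := not_forall.1 fun h3 => h1 n (Stone.ext' h3)
  have h3 := hC n {a} (by simp)
  rw [Finset.sum_singleton, habs, if_neg ha] at h3
  exact absurd h3 (not_le.2 hn)

theorem not_hBig [Infinite A] (hA : MinimallyGenerated A) (hN : Nikodym A) : ¬ HBig := fun h =>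
  let ⟨_, _, h1, h2⟩ := exists_pairs h hA
  not_nikodym h1 h2 hN

theorem MA.ch_of_nikodym (h : MA) [Infinite A] (hA : MinimallyGenerated A) (hN : Nikodym A) :
    Cardinal.continuum.{0} = Cardinal.aleph 1 := by
  by_contra hCH
  exact not_hBig hA hN (h.hBig hCH)

end Pool.Agent.P.MP_0d6be8_lc
end
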