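import Pool.Agent.P.MP_0d6be8_lc.NKW.TW
import Pool.Agent.Lib.PosetForcing.CardDefs
import Pool.Agent.Lib.PosetForcing.Card

-- part Pool.Agent.P.MP_0d6be8_lc.NKW.Core1
section

set_option autoImplicit false
set_option linter.unusedSectionVars false
set_option synthInstance.maxSize 4000

/-! Almost inclusion, ultrafilters on the numbers, reaping families, accumulation of pairs. -/

noncomputable section

open Pool.Agent.P.MP_af1204_lc.Inn Filter

namespace Pool.Agent.P.MP_0d6be8_lc.NKW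

variable [Md] [Std]

/-- infinite set of numbers -/
def In (Y : PS ℕ) : Prop := ∃ᶠ i in atTop, i ∈ Y

/-- almost inclusion -/
def Sb (Y Z : PS ℕ) : Prop := ∀ᶠ i in atTop, i ∈ Y → i ∈ Z

/-- almost inside or almost outside -/
def Dc (Y e : PS ℕ) : Prop := Sb Y e ∨ Sb Y eᶜ

section
variable {Γ : Type} [MC Γ] (Y Z : Γ → PS ℕ) [DD Y] [DD Z]

instance dp_In : DP fun g => In (Y g) := by unfold In; infer_instance

instance dp_Sb : DP fun g => Sb (Y g) (Z g) := by unfold Sb; infer_instance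

instance dp_Dc : DP fun g => Dc (Y g) (Z g) := by unfold Dc; infer_instance

end

section
variable {Y Z W : PS ℕ}

theorem Sb.of_sub (h : ∀ i, i ∈ Y → i ∈ Z) : Sb Y Z := Eventually.of_forall h

theorem Sb.rfl : Sb Y Y := Sb.of_sub fun _ h => h

theorem Sb.trans (h : Sb Y Z) (h' : Sb Z W) : Sb Y W := by
  filter_upwards [h, h'] with i h1 h2 h3 using h2 (h1 h3)

theorem Sb.inter (h : Sb Y Z) (h' : Sb Y W) : Sb Y (Z ∩ W) := by
  filter_upwards [h, h'] with i h1 h2 h3 using ⟨h1 h3, h2 h3⟩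

theorem In.mono (h : In Y) (h' : Sb Y Z) : In Z :=
  (h.and_eventually h').mono fun _ k => k.2 k.1

theorem In.not_both (h : In Y) (h1 : Sb Y Z) (h2 : Sb Y Zᶜ) : False := by
  obtain ⟨i, k⟩ := (h.mono (h1.inter h2)).exists
  exact k.2 k.1

theorem In.split (h : In Y) (e : PS ℕ) : In (Y ∩ e) ∨ In (Y ∩ eᶜ) :=
  frequently_or_distrib.1 (Frequently.mono h fun i k => by
    by_cases c : i ∈ e
    exacts [Or.inl ⟨k, c⟩, Or.inr ⟨k, c⟩])

theorem In.ex_dc (h : In Y) (e : PS ℕ) : ∃ Z, In Z ∧ Sb Z Y ∧ Dc Z e := by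
  rcases h.split e with k | k
  · exact ⟨_, k, Sb.of_sub fun _ h => h.1, Or.inl (Sb.of_sub fun _ h => h.2)⟩
  · exact ⟨_, k, Sb.of_sub fun _ h => h.1, Or.inr (Sb.of_sub fun _ h => h.2)⟩

theorem Dc.mono {e : PS ℕ} (h : Dc Z e) (h' : Sb Y Z) : Dc Y e := h.imp h'.trans h'.trans

theorem in_univ : In univ := Frequently.of_forall fun _ => trivial

theorem In.seq (h : In Y) : ∃ m : Fn ℕ ℕ, ∀ n, n ≤ m n ∧ m n ∈ Y :=
  chs (R := fun n m => n ≤ m ∧ m ∈ Y) (frequently_atTop.1 h)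

theorem In.seq2 (h : In Y) :
    ∃ m m' : Fn ℕ ℕ, ∀ n, n ≤ m n ∧ m n < m' n ∧ m n ∈ Y ∧ m' n ∈ Y := by
  obtain ⟨m, hm⟩ := h.seq
  exact ⟨m, lm fun n => m (m n + 1), fun n => ⟨(hm n).1, (hm _).1, (hm n).2, (hm _).2⟩⟩

theorem freq_of_seq {p : ℕ → Prop} {m : ℕ → ℕ} (hm : ∀ n, n ≤ m n)
    (h : ∃ᶠ n in atTop, p (m n)) : ∃ᶠ n in atTop, p n :=
  (tendsto_atTop_mono hm tendsto_id).frequently h

end

/-- an ultrafilter of infinite sets through a given infinite set -/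
theorem exists_ult {J : PS ℕ} (hJ : In J) : ∃ u : PS (PS ℕ), J ∈ u ∧ (∀ Y ∈ u, In Y) ∧
    (∀ Y Z, Y ∩ Z ∈ u ↔ Y ∈ u ∧ Z ∈ u) ∧ ∀ Y, Yᶜ ∈ u ↔ Y ∉ u := by
  obtain ⟨u, h1, h2, h3⟩ := exists_max (fun l : List (PS ℕ) => ∃ᶠ i in atTop, ∀ Y ∈ l, i ∈ Y)
    (fun Y => Y = J) fun l hl => Frequently.mono hJ fun i k Y hY => hl Y hY ▸ k
  have key : ∀ c, (∀ l : List (PS ℕ), (∀ a ∈ l, a ∈ u) →
      ∃ᶠ i in atTop, i ∈ c ∧ ∀ Y ∈ l, i ∈ Y) → c ∈ u := fun c hc => by
    classical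
    refine h3 c fun l hl => (hc (l.filter (· ∈ u)) (by simp)).mono fun i k Y hY => ?_
    by_cases e : Y ∈ u
    · exact k.2 Y (by simp [hY, e])
    · exact (hl Y hY).resolve_right e ▸ k.1
  have up : ∀ Y Z, Y ∈ u → (∀ i, i ∈ Y → i ∈ Z) → Z ∈ u := fun Y Z hY e =>
    key Z fun l hl => (h2 (Y :: l) (by simpa [hY] using hl)).mono fun i k =>
      ⟨e i (k Y (by simp)), fun W hW => k W (by simp [hW])⟩
  refine ⟨u, h1 J rfl, fun Y hY => (h2 [Y] (by simpa)).mono fun i k => k Y (by simp),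
    fun Y Z => ⟨fun h => ⟨up _ _ h fun _ k => k.1, up _ _ h fun _ k => k.2⟩, fun h => ?_⟩,
    fun Y => ⟨fun h h' => ?_, fun h => ?_⟩⟩
  · exact key _ fun l hl => (h2 (Y :: Z :: l) (by simpa [h.1, h.2] using hl)).mono fun i k =>
      ⟨⟨k Y (by simp), k Z (by simp)⟩, fun W hW => k W (by simp [hW])⟩
  · obtain ⟨i, k⟩ := (h2 [Y, Yᶜ] (by simp [h, h'])).exists
    exact k Yᶜ (by simp) (k Y (by simp))
  · refine key _ fun l hl => ?_
    by_contra hc
    refine h (key _ fun l' hl' => ((h2 (l ++ l') fun a ha => (List.mem_append.1 ha).elim (hl a)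
      (hl' a)).and_eventually (not_frequently.1 hc)).mono fun i k => ⟨?_, fun W hW =>
        k.1 W (List.mem_append_right _ hW)⟩)
    by_contra c
    exact k.2 ⟨c, fun W hW => k.1 W (List.mem_append_left _ hW)⟩

/-- an algebra with its points -/
structure Sp (A P : Type) [MT A] [MT P] where
  /-- meet -/
  inf : A → A → A
  /-- complement -/
  cpl : A → A
  /-- membership of an element in a point -/
  el : P → A → Prop
  d_inf : DD2 (B := fun _ => A) inf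
  d_cpl : DD cpl
  d_el : DP2 (B := fun _ => A) el
  el_inf : ∀ p a b, el p (inf a b) ↔ el p a ∧ el p b
  el_cpl : ∀ p a, el p (cpl a) ↔ ¬ el p a
  ext : ∀ p q, (∀ a, el p a ↔ el q a) → p = q
  full : ∀ q : PS A, (∀ a b, inf a b ∈ q ↔ a ∈ q ∧ b ∈ q) → (∀ a, cpl a ∈ q ↔ a ∉ q) →
    ∃ p, ∀ a, el p a ↔ a ∈ q

attribute [instance] Sp.d_inf Sp.d_cpl Sp.d_el

variable {A P : Type} [MT A] [MT P] (S : Sp A P)

namespace Sp

/-- independent family -/
def Ind (I : PS A) : Prop :=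
  ∀ l : List A, (∀ a ∈ l, a ∈ I) → ∀ σ : A → Prop, ∃ p, ∀ a ∈ l, (S.el p a ↔ σ a)

/-- two-point Nikodym property -/
def P2 : Prop := ∀ y z : Fn ℕ P, (∀ n, y n ≠ z n) →
  ∃ a, ∃ᶠ n in atTop, S.el (y n) a ∧ ¬ S.el (z n) a

/-- no uncountable independent family -/
def Tame : Prop := ∀ I : PS A, S.Ind I → Cnt (· ∈ I)

/-- the trace of an element on a sequence of points -/
def tr (p : Fn ℕ P) (c : A) : PS ℕ := sb fun i => S.el (p i) c

instance dd_tr {Γ : Type} [MC Γ] (p : Γ → Fn ℕ P) (c : Γ → A) [DD p] [DD c] :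
    DD fun g => S.tr (p g) (c g) := by unfold tr; infer_instance

variable {S}

theorem tr_cpl (p : Fn ℕ P) (c : A) : S.tr p (S.cpl c) = (S.tr p c)ᶜ := PS.ext fun _ => S.el_cpl _ _

theorem tr_inf (p : Fn ℕ P) (c d : A) : S.tr p (S.inf c d) = S.tr p c ∩ S.tr p d :=
  PS.ext fun _ => S.el_inf _ _ _

theorem reap (hT : S.Tame) (p : Fn ℕ P) {L : PS ℕ} (hL : In L) :
    ∃ Z : Fn ℕ (PS ℕ), (∀ k, In (Z k) ∧ Sb (Z k) L) ∧ ∀ c, ∃ k, Dc (Z k) (S.tr p c) := by
  classical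
  obtain ⟨I, -, h2, h3⟩ := exists_max (fun l : List A => ∀ l' : List A,
      ∃ᶠ i in atTop, i ∈ L ∧ ∀ a ∈ l, (S.el (p i) a ↔ a ∈ l')) (fun _ => False)
    fun l hl l' => Frequently.mono hL fun i k => ⟨k, fun a ha => (hl a ha).elim⟩
  have h4 : Cnt (· ∈ I) := hT I fun l hl σ => by
    obtain ⟨i, k⟩ := (h2 l hl (l.filter σ)).exists
    exact ⟨p i, fun a ha => (k.2 a ha).trans (by simp [ha])⟩
  obtain ⟨e, he⟩ := (h4.list.prod h4.list).enum
  let Z : Fn ℕ (PS ℕ) := lm fun k => sb fun i => i ∈ L ∧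
    ((∀ a ∈ (e k).1, a ∈ I) → ∀ a ∈ (e k).1, (S.el (p i) a ↔ a ∈ (e k).2))
  refine ⟨Z, fun k => ⟨?_, Sb.of_sub fun _ h => h.1⟩, fun c => ?_⟩
  · by_cases h : ∀ a ∈ (e k).1, a ∈ I
    · exact (h2 _ h (e k).2).mono fun i k => ⟨k.1, fun _ => k.2⟩
    · exact Frequently.mono hL fun i k => ⟨k, fun k' => (h k').elim⟩
  · by_cases hc : c ∈ I
    · obtain ⟨k, hk⟩ := he ([c], [c]) (by simpa)
      refine ⟨k, Or.inl (Sb.of_sub fun i h => ?_)⟩
      have := h.2
      rw [hk] at this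
      simpa [hc, tr] using this
    · obtain ⟨l, h5, h6⟩ : ∃ l : List A, (∀ a ∈ l, a = c ∨ a ∈ I) ∧ ∃ l' : List A,
          ∀ᶠ i in atTop, ¬ (i ∈ L ∧ ∀ a ∈ l, (S.el (p i) a ↔ a ∈ l')) := by
        by_contra k
        refine hc (h3 c fun l hl l' => ?_)
        by_contra k'
        exact k ⟨l, hl, l', not_frequently.1 k'⟩
      obtain ⟨l', h6⟩ := h6
      obtain ⟨k, hk⟩ := he (l.filter (· ∈ I), l'.filter (· ∈ I)) (by simp)
      have h7 : ∀ᶠ i in atTop, i ∈ Z k → ¬ (S.el (p i) c ↔ c ∈ l') := h6.mono fun i h8 h9 h10 => by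
        have := h9.2
        rw [hk] at this
        refine h8 ⟨h9.1, fun a ha => ?_⟩
        by_cases k : a ∈ I
        · simpa [k] using this (by simp) a (by simp [ha, k])
        · exact (h5 a ha).resolve_right k ▸ h10
      refine ⟨k, ?_⟩
      by_cases k : c ∈ l'
      · exact Or.inr (h7.mono fun i h h' h'' => h h' (iff_of_true h'' k))
      · exact Or.inl (h7.mono fun i h h' => not_not.1 fun h'' => h h' (iff_of_false h'' k))

theorem P2.on (h : S.P2) (y z : Fn ℕ P) (hne : ∀ n, y n ≠ z n) {J : PS ℕ} (hJ : In J) :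
    ∃ a, ∃ᶠ n in atTop, n ∈ J ∧ S.el (y n) a ∧ ¬ S.el (z n) a := by
  obtain ⟨m, hm⟩ := hJ.seq
  obtain ⟨a, ha⟩ := h (y.comp m) (z.comp m) fun n => hne _
  exact ⟨a, freq_of_seq (fun n => (hm n).1) (ha.mono fun n k => ⟨(hm n).2, k⟩)⟩

theorem exists_lim (u : PS (PS ℕ)) (h1 : ∀ Y Z, Y ∩ Z ∈ u ↔ Y ∈ u ∧ Z ∈ u)
    (h2 : ∀ Y, Yᶜ ∈ u ↔ Y ∉ u) (y : Fn ℕ P) : ∃ p, ∀ a, S.el p a ↔ S.tr y a ∈ u :=
  S.full (sb fun a => S.tr y a ∈ u) (fun a b => by simp [tr_inf, h1]) fun a => by simp [tr_cpl, h2]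

theorem P2.acc (h : S.P2) (y z : Fn ℕ P) (hne : ∀ n, y n ≠ z n) {J : PS ℕ} (hJ : In J) :
    ∃ p q, p ≠ q ∧ ∀ a, S.el p a → ¬ S.el q a →
      ∃ᶠ n in atTop, n ∈ J ∧ S.el (y n) a ∧ ¬ S.el (z n) a := by
  obtain ⟨c, hc⟩ := h.on y z hne hJ
  obtain ⟨u, h0, h1, h2, h3⟩ := exists_ult (J := J ∩ (S.tr y c ∩ (S.tr z c)ᶜ)) hc
  obtain ⟨p, hp⟩ := exists_lim (S := S) u h2 h3 y
  obtain ⟨q, hq⟩ := exists_lim (S := S) u h2 h3 z
  rw [h2, h2, h3, ← hp, ← hq] at h0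
  refine ⟨p, q, fun e => h0.2.2 (e ▸ h0.2.1), fun a k1 k2 =>
    h1 (J ∩ (S.tr y a ∩ (S.tr z a)ᶜ)) ?_⟩
  rw [h2, h2, h3, ← hp, ← hq]
  exact ⟨h0.1, k1, k2⟩

theorem sep {p q : P} (h : p ≠ q) : ∃ a, S.el p a ∧ ¬ S.el q a := by
  by_contra k
  push Not at k
  refine h (S.ext p q fun a => ⟨k a, fun k' => not_not.1 fun k'' => ?_⟩)
  exact (S.el_cpl _ _).1 (k _ ((S.el_cpl _ _).2 k'')) k'

/-- a tree of disjoint elements with points -/
theorem P2.tree (h : S.P2) (y : Fn ℕ P) (hy : Function.Injective y) :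
    ∃ (O : List ℕ → A) (z : Fn (List ℕ) P), (∀ s, S.el (z s) (O s)) ∧
      (∀ s i p, S.el p (O (i :: s)) → S.el p (O s)) ∧
      ∀ s i j p, S.el p (O (i :: s)) → S.el p (O (j :: s)) → i = j := by
  have h1 : ∀ a, In (S.tr y a) → ∃ c, In (S.tr y (S.inf a c)) ∧
      In (S.tr y (S.inf a (S.cpl c))) := fun a ha => by
    obtain ⟨m, m', hm⟩ := ha.seq2
    obtain ⟨c, hc⟩ := h (y.comp m) (y.comp m') fun n e => (hm n).2.1.ne (hy e)
    exact ⟨c, freq_of_seq (fun n => (hm n).1) (hc.mono fun n k => (S.el_inf _ _ _).2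
      ⟨(hm n).2.2.1, k.1⟩), freq_of_seq (m := m') (fun n => (hm n).1.trans (hm n).2.1.le)
      (hc.mono fun n k => (S.el_inf _ _ _).2 ⟨(hm n).2.2.2, (S.el_cpl _ _).2 k.2⟩)⟩
  obtain ⟨a0, h0⟩ : ∃ a, In (S.tr y a) := by
    obtain ⟨a, ha⟩ := h y (lm fun n => y (n + 1)) fun n e => by have := hy e; omega
    exact ⟨a, ha.mono fun n k => k.1⟩
  have : Nonempty A := ⟨a0⟩
  obtain ⟨sp, hsp⟩ := chsH h1
  let rest : A → ℕ → A := fun a i =>
    Nat.rec (motive := fun _ => A) a (fun _ r => S.inf r (S.cpl (sp r))) i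
  have r1 : ∀ a i, In (S.tr y a) → In (S.tr y (rest a i)) := fun a i ha => by
    induction i with
    | zero => exact ha
    | succ i ih => exact (hsp _ ih).2
  have r2 : ∀ a p i j, i ≤ j → S.el p (rest a j) → S.el p (rest a i) := fun a p i j hij => by
    induction j, hij using Nat.le_induction with
    | base => exact id
    | succ j _ ih => exact fun k => ih ((S.el_inf _ _ _).1 k).1
  let O : Fn (List ℕ) A := lm fun s => s.foldr (fun i a => S.inf
    (Nat.rec (motive := fun _ => A) a (fun _ r => S.inf r (S.cpl (sp r))) i)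
    (sp (Nat.rec (motive := fun _ => A) a (fun _ r => S.inf r (S.cpl (sp r))) i))) a0
  have e : ∀ i s, O (i :: s) = S.inf (rest (O s) i) (sp (rest (O s) i)) := fun _ _ => rfl
  have o1 : ∀ s, In (S.tr y (O s)) := fun s => by
    induction s with
    | nil => exact h0
    | cons i s ih => exact (hsp _ (r1 _ i ih)).1
  obtain ⟨z, hz⟩ := chs (R := fun s p => S.el p (O s)) fun s => ⟨_, (o1 s).exists.choose_spec⟩
  have o2 : ∀ s i j p, i < j → S.el p (O (i :: s)) → ¬ S.el p (O (j :: s)) := fun s i j p k h1 h2 =>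
    (S.el_cpl _ _).1 ((S.el_inf _ _ _).1 (r2 _ p (i + 1) j k ((S.el_inf _ _ _).1 h2).1)).2
      ((S.el_inf _ _ _).1 h1).2
  refine ⟨O, z, hz, fun s i p k => r2 _ p 0 i (by omega) ((S.el_inf _ _ _).1 k).1,
    fun s i j p h1 h2 => ?_⟩
  rcases lt_trichotomy i j with k | k | k
  exacts [(o2 s i j p k h1 h2).elim, k, (o2 s j i p k h2 h1).elim]

end Sp

end Pool.Agent.P.MP_0d6be8_lc.NKW
end
end

-- part Pool.Agent.P.MP_0d6be8_lc.NKW.Core2
section

set_option autoImplicit false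
set_option linter.unusedSectionVars false
set_option synthInstance.maxSize 4000

/-! The principles in typed form and their first consequences. -/

noncomputable section

open Pool.Agent.P.MP_af1204_lc.Inn Filter

namespace Pool.Agent.P.MP_0d6be8_lc.NKW

variable [Md] [Std] {K : Type} [MT K] [LinearOrder K] [WFL K]

/-- sequences below `g` are bounded below `g` -/
def BdB (g : K) : Prop := ∀ s : Fn ℕ K, (∀ n, s n < g) → ∃ b, b < g ∧ ∀ n, s n < b

/-- the infinite sets listed before `g` -/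
def W (X : Fn K (PS ℕ)) (g : K) (Y : PS ℕ) : Prop := In Y ∧ ∃ ξ, ξ < g ∧ X ξ = Y

/-- no infinite set listed before `g` is almost inside `V` and `e` -/
def No (X : Fn K (PS ℕ)) (g : K) (V e : PS ℕ) : Prop := ∀ Y, W X g Y → Sb Y V → ¬ Sb Y e

section
variable {Γ : Type} [MC Γ] (X : Fn K (PS ℕ)) (g : Γ → K) (Y : Γ → PS ℕ) [DD g] [DD Y]

instance dp_BdB : DP fun x => BdB (g x) := by unfold BdB; infer_instance

instance dp_W : DP fun x => W X (g x) (Y x) := by unfold W; infer_instance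

end

/-- the principles forced by the iteration -/
structure Pr (X : Fn K (PS ℕ)) : Prop where
  onto : ∀ Y, ∃ ξ, X ξ = Y
  bd : ∀ s : Fn ℕ K, ∃ b, ∀ n, s n < b
  reg : ∀ (g : K) (s : Fn K K), ∃ b, ∀ a, a < g → s a < b
  ps : ∀ (g : K) (B : Fn (K × ℕ) (PS ℕ)), (∀ b n, b < g → In (B (b, n))) →
    (∀ b n b' n', b < g → b' < g →
      ∃ c k, c < g ∧ Sb (B (c, k)) (B (b, n)) ∧ Sb (B (c, k)) (B (b', n'))) →
    ∃ Y, In Y ∧ ∀ b n, b < g → Sb Y (B (b, n))
  pl : ∀ (U : Fn (K × K) (PS ℕ)) (Z : Fn ((K × K) × ℕ) (PS ℕ)) (F : Fn K K),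
    (∀ j x y, y < x → Sb (U (j, x)) (U (j, y))) → (∀ j e, ∃ x, Dc (U (j, x)) e) →
    (∀ j x k, In (Z ((j, x), k)) ∧ Sb (Z ((j, x), k)) (U (j, x))) →
    ∃ g, (∃ a, a < g) ∧ (∀ a, a < g → F a < g) ∧ BdB g ∧
      ∀ j, j < g → ∀ e, (∀ x, ∃ k, Dc (Z ((j, x), k)) e) →
        ∃ d, d < g ∧ (No X g (U (j, d)) e ∨ No X g (U (j, d)) eᶜ)

variable {X : Fn K (PS ℕ)}

theorem W.mono {g g' : K} {Y : PS ℕ} (h : W X g Y) (e : g ≤ g') : W X g' Y :=
  let ⟨h1, ξ, h2, h3⟩ := h; ⟨h1, ξ, h2.trans_le e, h3⟩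

theorem BdB.exists_gt {g : K} (h : BdB g) {a b : K} (ha : a < g) (hb : b < g) :
    ∃ c, c < g ∧ a < c ∧ b < c := by
  obtain ⟨c, h1, h2⟩ := h (Fn.const ℕ (max a b)) fun _ => max_lt ha hb
  exact ⟨c, h1, max_lt_iff.1 (h2 0)⟩

theorem BdB.rel {g : K} (h : BdB g) {ι : Type} [MT ι] [Nonempty ι] (hι : Cnt fun _ : ι => True)
    (R : ι → K → Prop) [DP2 (B := fun _ => K) R] (hR : ∀ i, ∃ d, d < g ∧ R i d) :
    ∃ b, b < g ∧ ∀ i, ∃ d, d < b ∧ R i d := by
  obtain ⟨e, he⟩ := hι.enum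
  obtain ⟨d, hd⟩ := chs hR
  obtain ⟨b, h1, h2⟩ := h (d.comp e) fun n => (hd _).1
  refine ⟨b, h1, fun i => ?_⟩
  obtain ⟨n, rfl⟩ := he i trivial
  exact ⟨_, h2 n, (hd _).2⟩

namespace Pr

theorem ne (h : Pr X) : Nonempty K := ⟨(h.onto univ).choose⟩

theorem bd' (h : Pr X) {ι : Type} [MT ι] [Nonempty ι] (hι : Cnt fun _ : ι => True) (f : ι → K)
    [DD f] : ∃ b, ∀ i, f i < b := by
  obtain ⟨e, he⟩ := hι.enum
  obtain ⟨b, hb⟩ := h.bd (lm fun n => f (e n))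
  refine ⟨b, fun i => ?_⟩
  obtain ⟨n, rfl⟩ := he i trivial
  exact hb n

theorem cnt (h : Pr X) {I : K → Prop} [DP I] (hI : Cnt I) : ∃ b, ∀ a, I a → a < b := by
  have := h.ne
  obtain ⟨s, hs⟩ := hI.enum
  obtain ⟨b, hb⟩ := h.bd s
  refine ⟨b, fun a ha => ?_⟩
  obtain ⟨n, rfl⟩ := hs a ha
  exact hb n

theorem exists_gt (h : Pr X) (a : K) : ∃ b, a < b := (h.bd (Fn.const ℕ a)).imp fun _ k => k 0

theorem reg2 (h : Pr X) {ι : Type} [MT ι] [Nonempty ι] (hι : Cnt fun _ : ι => True) (g : K)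
    (f : K × ι → K) [DD f] : ∃ b, ∀ a i, a ≤ g → f (a, i) < b := by
  obtain ⟨u, hu⟩ := chs (R := fun a b => ∀ i, f (a, i) < b) fun a => h.bd' hι fun i => f (a, i)
  obtain ⟨c, hc⟩ := h.exists_gt g
  obtain ⟨b, hb⟩ := h.reg c u
  exact ⟨b, fun a i k => (hu a i).trans (hb a (k.trans_lt hc))⟩

theorem code (h : Pr X) : ∃ c : Fn (K × ℕ) K, Function.Injective c := by
  have := h.ne
  obtain ⟨c, hc⟩ := exists_rec (T := Lex (K × ℕ)) (S := K) (fun t f s => ∀ q, q < t → f q < s)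
    (fun t f g s e k q hq => e q hq ▸ k q hq) fun t f _ => by
      obtain ⟨b, hb⟩ := h.reg2 cnt_nat (ofLex t).1 fun p => f (toLex p)
      exact ⟨b, fun q hq => hb (ofLex q).1 (ofLex q).2 (Prod.Lex.monotone_fst _ _ hq.le)⟩
  exact ⟨lm fun p => c (toLex p), fun p q e =>
    toLex.injective (StrictMono.injective (fun a b k => hc b a k) e)⟩

theorem pl' (h : Pr X) {T : Type} [MT T] [Nonempty T] (hT : Cnt fun _ : T => True)
    (U : Fn (T × K) (PS ℕ)) (Z : Fn ((T × K) × K × ℕ) (PS ℕ)) (F : Fn (K × K) K)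
    (h1 : ∀ t x y, y < x → Sb (U (t, x)) (U (t, y))) (h2 : ∀ t e, ∃ x, Dc (U (t, x)) e)
    (h3 : ∀ t b x k, In (Z ((t, b), x, k)) ∧ Sb (Z ((t, b), x, k)) (U (t, x))) :
    ∃ g, (∃ a, a < g) ∧ (∀ a b, a < g → b < g → F (a, b) < g) ∧ BdB g ∧
      ∀ t b, b < g → ∀ e, (∀ x, ∃ k, Dc (Z ((t, b), x, k)) e) →
        ∃ d, d < g ∧ (No X g (U (t, d)) e ∨ No X g (U (t, d)) eᶜ) := by
  have := h.ne
  obtain ⟨c, hc⟩ := h.code
  obtain ⟨i, hi⟩ := id hT
  obtain ⟨dec, hdec⟩ := exists_inv (f := fun p : T × K => c (p.2, i p.1)) fun p q e => by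
    have := hc e
    exact Prod.ext (hi _ _ trivial trivial (congrArg Prod.snd this)) (congrArg Prod.fst this)
  have hF : ∀ a, ∃ d, (∀ n, c (a, n) < d) ∧ ∀ x y, x ≤ a → y ≤ a → F (x, y) < d := fun a => by
    obtain ⟨a', ha⟩ := h.exists_gt a
    obtain ⟨u, hu⟩ := chs (R := fun x b => ∀ y, y < a' → F (x, y) < b)
      fun x => h.reg a' (lm fun y => F (x, y))
    obtain ⟨d1, hd1⟩ := h.reg a' u
    obtain ⟨d2, hd2⟩ := h.bd (lm fun n => c (a, n))
    exact ⟨max d1 d2, fun n => lt_max_of_lt_right (hd2 n), fun x y hx hy =>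
      lt_max_of_lt_left ((hu x y (hy.trans_lt ha)).trans (hd1 x (hx.trans_lt ha)))⟩
  obtain ⟨F', hF'⟩ := chs hF
  obtain ⟨g, g1, g2, g3, g4⟩ := h.pl (lm fun p => U ((dec p.1).1, p.2))
    (lm fun p => Z (dec p.1.1, p.1.2, p.2)) F' (fun j x y e => h1 _ x y e)
    (fun j e => h2 (dec j).1 e)
    fun j x k => h3 _ _ x k
  refine ⟨g, g1, fun a b ha hb => ((hF' (max a b)).2 a b (le_max_left _ _)
    (le_max_right _ _)).trans (g2 _ (max_lt ha hb)), g3, fun t b hb e he => ?_⟩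
  have := g4 (c (b, i t)) (((hF' b).1 _).trans (g2 b hb)) e
  simp only [lm_apply, hdec (t, b)] at this
  exact this he

theorem tower (h : Pr X) (g : K) (B : K → PS ℕ) [DD B] (hB : ∀ b, b < g → In (B b))
    (hc : ∀ b c, b < c → c < g → Sb (B c) (B b)) : ∃ Y, In Y ∧ ∀ b, b < g → Sb Y (B b) := by
  have key : ∀ b c, b ≤ c → c < g → Sb (B c) (B b) := fun b c e k =>
    e.eq_or_lt.elim (fun e => e ▸ Sb.rfl) fun e => hc b c e k
  obtain ⟨Y, h1, h2⟩ := h.ps g (lm fun p => B p.1) (fun b _ => hB b) fun b _ b' _ hb hb' =>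
    ⟨max b b', 0, max_lt hb hb', key _ _ (le_max_left _ _) (max_lt hb hb'),
      key _ _ (le_max_right _ _) (max_lt hb hb')⟩
  exact ⟨Y, h1, fun b => h2 b 0⟩

theorem ev_pair {p : ℕ → Prop} (h : ∀ᶠ m in atTop, p m) :
    ∀ᶠ k in atTop, (Nat.unpair k).2 ≤ (Nat.unpair k).1 → p (Nat.unpair k).1 := by
  obtain ⟨n, hn⟩ := eventually_atTop.1 h
  refine eventually_atTop.2 ⟨n ^ 2, fun k hk e => hn _ ?_⟩
  have := Nat.pair_lt_max_add_one_sq (Nat.unpair k).1 (Nat.unpair k).2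
  rw [Nat.pair_unpair, max_eq_left e] at this
  have := lt_of_pow_lt_pow_left₀ 2 (Nat.zero_le _) (hk.trans_lt this)
  omega

theorem heights (h : Pr X) (g : K) (M : K → PS ℕ) [DD M] (η : K → Fn ℕ ℕ) [DD η]
    (h1 : ∀ b, b < g → In (M b))
    (h2 : ∀ b c, b < c → c < g → ∀ᶠ m in atTop, m ∈ M c → m ∈ M b ∧ η b m < η c m)
    (h4 : ∀ b, b < g → ∀ n, ∀ᶠ m in atTop, m ∈ M b → η b m + n ≤ m) :
    ∃ (N : PS ℕ) (e : Fn ℕ ℕ), In N ∧ (∀ m, e m ≤ m) ∧
      (∀ b, b < g → ∀ᶠ m in atTop, m ∈ N → m ∈ M b ∧ η b m < e m) ∧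
      ∀ n, ∀ᶠ m in atTop, m ∈ N → e m + n ≤ m := by
  by_cases hg : ∃ b, b < g
  swap
  · exact ⟨univ, Fn.const ℕ 0, in_univ, fun _ => Nat.zero_le _, fun b hb => (hg ⟨b, hb⟩).elim,
      fun n => (eventually_ge_atTop n).mono fun m k _ => by simpa using k⟩
  obtain ⟨b0, hb0⟩ := hg
  let B : Fn (K × ℕ) (PS ℕ) := lm fun p => sb fun k => (Nat.unpair k).1 ∈ M p.1 ∧
    η p.1 (Nat.unpair k).1 < (Nat.unpair k).2 ∧ (Nat.unpair k).2 + p.2 ≤ (Nat.unpair k).1
  have key : ∀ b c n k, b ≤ c → c < g → n ≤ k → Sb (B (c, k)) (B (b, n)) := fun b c n k e hc e' => by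
    rcases e.eq_or_lt with rfl | e
    · exact Sb.of_sub fun i x => ⟨x.1, x.2.1, le_trans (by simpa using e') x.2.2⟩
    · exact (ev_pair (h2 b c e hc)).mono fun i x y => ⟨(x (le_trans (by simp) y.2.2) y.1).1,
        (x (le_trans (by simp) y.2.2) y.1).2.trans y.2.1, le_trans (by simpa using e') y.2.2⟩
  obtain ⟨Y, y1, y2⟩ := h.ps g B (fun b n hb => frequently_atTop.2 fun a => by
      obtain ⟨m, k1, k2, k3⟩ := frequently_atTop.1 ((h1 b hb).and_eventually (h4 b hb (n + 1))) a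
      refine ⟨Nat.pair m (η b m + 1), k1.trans (Nat.left_le_pair _ _), ?_⟩
      have := k3 k2
      simp only [B, lm_apply, mem_sb, Nat.unpair_pair]
      exact ⟨k2, by omega, by omega⟩)
    fun b n b' n' hb hb' => ⟨max b b', max n n', max_lt hb hb',
      key _ _ _ _ (le_max_left _ _) (max_lt hb hb') (le_max_left _ _),
      key _ _ _ _ (le_max_right _ _) (max_lt hb hb') (le_max_right _ _)⟩
  obtain ⟨e, he⟩ := chs (R := fun m x => x ≤ m ∧ ((∃ x ≤ m, Nat.pair m x ∈ Y) → Nat.pair m x ∈ Y))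
    fun m => by
      by_cases k : ∃ x ≤ m, Nat.pair m x ∈ Y
      · exact k.imp fun x k => ⟨k.1, fun _ => k.2⟩
      · exact ⟨0, Nat.zero_le _, fun k' => (k k').elim⟩
  have k2 : ∀ b n, b < g → ∀ᶠ m in atTop, (∃ x ≤ m, Nat.pair m x ∈ Y) →
      m ∈ M b ∧ η b m < e m ∧ e m + n ≤ m := fun b n hb => by
    obtain ⟨a, ha⟩ := eventually_atTop.1 (y2 b n hb)
    refine eventually_atTop.2 ⟨a, fun m hm k => ?_⟩
    simpa only [B, lm_apply, mem_sb, Nat.unpair_pair] using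
      ha _ (hm.trans (Nat.left_le_pair _ _)) ((he m).2 k)
  refine ⟨sb fun m => ∃ x ≤ m, Nat.pair m x ∈ Y, e, frequently_atTop.2 fun a => ?_,
    fun m => (he m).1, fun b hb => (k2 b 0 hb).mono fun m k x => ⟨(k x).1, (k x).2.1⟩,
    fun n => (k2 b0 n hb0).mono fun m k x => (k x).2.2⟩
  obtain ⟨k, k1, k3, k4⟩ := ((y1.and_eventually (y2 b0 0 hb0)).and_eventually
    (ev_pair (eventually_ge_atTop a))).exists.imp fun k x => And.intro x.1.1 (And.intro x.1.2 x.2)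
  have : (Nat.unpair k).2 ≤ (Nat.unpair k).1 := (k3 k1).2.2
  exact ⟨_, k4 this, _, this, by rwa [Nat.pair_unpair]⟩

end Pr

end Pool.Agent.P.MP_0d6be8_lc.NKW
end
end

-- part Pool.Agent.P.MP_0d6be8_lc.NKW.Core3
section

set_option autoImplicit false
set_option linter.unusedSectionVars false
set_option synthInstance.maxSize 4000

/-! Tops, trials and the recursion. -/

noncomputable section

open Pool.Agent.P.MP_af1204_lc.Inn Filter

namespace Pool.Agent.P.MP_0d6be8_lc.NKW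

variable [Md] [Std]

/-- nodes `(m, h, s)` -/
abbrev T : Type := ℕ × ℕ × List ℕ

theorem cnt_T : Cnt fun _ : T => True :=
  (cnt_nat.prod (cnt_nat.prod cnt_nat.list)).mono fun _ _ => ⟨trivial, trivial, fun _ _ => trivial⟩

variable {A P : Type} [MT A] [MT P] (S : Sp A P) (z : Fn (List ℕ) P)

/-- the sons of a node -/
def sons (r : Fn (List ℕ) P) (s : List ℕ) : Fn ℕ P := lm fun i => r (i :: s)

instance dd_sons {Γ : Type} [MC Γ] (r : Γ → Fn (List ℕ) P) (s : Γ → List ℕ) [DD r] [DD s] :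
    DD fun g => sons (r g) (s g) := by unfold sons; infer_instance

/-- the points of the tree number `m` -/
def top (D : PS (T × PS ℕ)) (m h : ℕ) : Fn (List ℕ) P :=
  Nat.rec (motive := fun _ => Fn (List ℕ) P) z (fun k r => lm fun s =>
    eps (fun p => ∀ c, S.el p c ↔ ((m, k, s), S.tr (sons r s) c) ∈ D) (r (0 :: s))) h

instance dd_top {Γ : Type} [MC Γ] (D : Γ → PS (T × PS ℕ)) (m h : Γ → ℕ) [DD D] [DD m] [DD h] :
    DD fun g => top S z (D g) (m g) (h g) := by unfold top; infer_instance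

theorem top_succ (D : PS (T × PS ℕ)) (m h : ℕ) (s : List ℕ) : top S z D m (h + 1) s =
    eps (fun p => ∀ c, S.el p c ↔ ((m, h, s), S.tr (sons (top S z D m h) s) c) ∈ D)
      (top S z D m h (0 :: s)) := rfl

/-- the trace of `c` at a node -/
def trc (D : PS (T × PS ℕ)) (t : T) (c : A) : PS ℕ := S.tr (sons (top S z D t.1 t.2.1) t.2.2) c

instance dd_trc {Γ : Type} [MC Γ] (D : Γ → PS (T × PS ℕ)) (t : Γ → T) (c : Γ → A) [DD D] [DD t]
    [DD c] : DD fun g => trc S z (D g) (t g) (c g) := by unfold trc; infer_instance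

/-- both sides of `a` are infinite at a node -/
def Split (U : Fn T (PS ℕ)) (D : PS (T × PS ℕ)) (a : A) (t : T) : Prop :=
  In (U t ∩ trc S z D t a) ∧ In (U t ∩ (trc S z D t a)ᶜ)

instance dp_Split {Γ : Type} [MC Γ] (U : Γ → Fn T (PS ℕ)) (D : Γ → PS (T × PS ℕ)) (a : Γ → A)
    (t : Γ → T) [DD U] [DD D] [DD a] [DD t] : DP fun g => Split S z (U g) (D g) (a g) (t g) := by
  unfold Split; infer_instance

/-- from a node of height `h + j` one can go down to nodes of height `h` where `a` splits -/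
def G (U : Fn T (PS ℕ)) (D : PS (T × PS ℕ)) (a : A) (m h j : ℕ) : PS (List ℕ) :=
  Nat.rec (motive := fun _ => PS (List ℕ)) (sb fun s => Split S z U D a (m, h, s))
    (fun k r => sb fun s => ∃ᶠ i in atTop, i ∈ U (m, h + k + 1, s) ∧ i :: s ∈ r) j

instance dd_G {Γ : Type} [MC Γ] (U : Γ → Fn T (PS ℕ)) (D : Γ → PS (T × PS ℕ)) (a : Γ → A)
    (m h j : Γ → ℕ) [DD U] [DD D] [DD a] [DD m] [DD h] [DD j] :
    DD fun g => G S z (U g) (D g) (a g) (m g) (h g) (j g) := by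
  unfold G; infer_instance

variable {S z}

theorem top_O {O : List ℕ → A} (h1 : ∀ s, S.el (z s) (O s))
    (h2 : ∀ s i p, S.el p (O (i :: s)) → S.el p (O s)) {D : PS (T × PS ℕ)}
    (hD : ∀ t e, (t, e) ∈ D → (t, univ) ∈ D) (m h : ℕ) : ∀ s, S.el (top S z D m h s) (O s) := by
  induction h with
  | zero => exact h1
  | succ h ih =>
    intro s
    rw [top_succ]
    by_cases hex : ∃ p, ∀ c, S.el p c ↔ ((m, h, s), S.tr (sons (top S z D m h) s) c) ∈ D
    · have hp := eps_spec (top S z D m h (0 :: s)) hex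
      refine by_contra fun hn => hn ((hp _).2 ?_)
      have e : S.tr (sons (top S z D m h) s) (O s) = univ :=
        eq_univ_of_forall fun i => h2 s i _ (ih (i :: s))
      exact e ▸ hD _ _ ((hp _).1 ((S.el_cpl _ _).2 hn))
    · rw [eps_neg _ hex]
      exact h2 s 0 _ (ih (0 :: s))

section trial
variable (h2 : S.P2) {U : Fn T (PS ℕ)} (hU : ∀ t, In (U t)) {D : PS (T × PS ℕ)}
  (hd : ∀ m h s i j, top S z D m h (i :: s) = top S z D m h (j :: s) → i = j)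
include h2 hU hd

theorem trial (m h j : ℕ) :
    ∀ s, ∃ p q, p ≠ q ∧ ∀ a, S.el p a → ¬ S.el q a → s ∈ G S z U D a m h j := by
  induction j with
  | zero =>
    intro s
    obtain ⟨f, f', hf⟩ := (hU (m, h, s)).seq2
    obtain ⟨p, q, h0, k⟩ := h2.acc ((sons (top S z D m h) s).comp f)
      ((sons (top S z D m h) s).comp f') (fun n e => (hf n).2.1.ne (hd _ _ _ _ _ e)) in_univ
    exact ⟨p, q, h0, fun a ha hb => ⟨freq_of_seq (fun n => (hf n).1) ((k a ha hb).mono fun n x =>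
      ⟨(hf n).2.2.1, x.2.1⟩), freq_of_seq (m := f') (fun n => (hf n).1.trans (hf n).2.1.le)
        ((k a ha hb).mono fun n x => ⟨(hf n).2.2.2, x.2.2⟩)⟩⟩
  | succ j ih =>
    intro s
    obtain ⟨y, w, hyw⟩ := chsP fun i : ℕ => ih (i :: s)
    obtain ⟨p, q, h0, k⟩ := h2.acc y w (fun n => (hyw n).1) (hU (m, h + j + 1, s))
    exact ⟨p, q, h0, fun a ha hb => (k a ha hb).mono fun i x => ⟨x.1, (hyw i).2 a x.2.1 x.2.2⟩⟩

theorem trial_all {M : PS ℕ} (hM : In M) (η : Fn ℕ ℕ) :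
    ∃ a, ∃ᶠ m in atTop, m ∈ M ∧ [] ∈ G S z U D a m (η m) (m - η m) := by
  obtain ⟨y, w, hyw⟩ := chsP fun m : ℕ => trial h2 hU hd m (η m) (m - η m) []
  obtain ⟨a, ha⟩ := h2.on y w (fun n => (hyw n).1) hM
  exact ⟨a, ha.mono fun n x => ⟨x.1, (hyw n).2 a x.2.1 x.2.2⟩⟩

end trial

/-- the data of one stage -/
abbrev St (A : Type) [MT A] : Type := Fn T (PS ℕ) × Fn T (PS ℕ) × PS ℕ × Fn ℕ ℕ × A

variable {K : Type} [MT K] [LinearOrder K] [WFL K] (X : Fn K (PS ℕ))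

/-- below `V` the members of `W X g` that are almost inside `e` are dense -/
def Dw (g : K) (V e : PS ℕ) : Prop :=
  ∀ Y, W X g Y → Sb Y V → ∃ Y', W X g Y' ∧ Sb Y' Y ∧ Sb Y' e

instance dp_Dw {Γ : Type} [MC Γ] (g : Γ → K) (V e : Γ → PS ℕ) [DD g] [DD V] [DD e] :
    DP fun x => Dw X (g x) (V x) (e x) := by unfold Dw; infer_instance

/-- density at the time `g` -/
def DO (f : Fn K (St A)) (g : K) : PS (T × PS ℕ) :=
  sb fun p => ∃ b, b < g ∧ Dw X g ((f b).1 p.1) p.2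

instance dd_DO {Γ : Type} [MC Γ] (f : Γ → Fn K (St A)) (g : Γ → K) [DD f] [DD g] :
    DD fun x => DO X (f x) (g x) := by unfold DO; infer_instance

variable (S z) in
/-- what the stage `g` does -/
def Stage (g : K) (f : Fn K (St A)) (s : St A) : Prop :=
  (∀ t, In (s.1 t) ∧ ∀ b, b < g → Sb (s.1 t) ((f b).2.1 t)) ∧
  (∀ t, In (s.2.1 t) ∧ Sb (s.2.1 t) (s.1 t) ∧ Dc (s.2.1 t) (X g)) ∧
  In s.2.2.1 ∧ (∀ m, s.2.2.2.1 m ≤ m) ∧
  (∀ b, b < g → ∀ᶠ m in atTop, m ∈ s.2.2.1 → m ∈ (f b).2.2.1 ∧ (f b).2.2.2.1 m < s.2.2.2.1 m) ∧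
  (∀ n, ∀ᶠ m in atTop, m ∈ s.2.2.1 → s.2.2.2.1 m + n ≤ m) ∧
  (∀ m, m ∈ s.2.2.1 → [] ∈ G S z s.1 (DO X f g) s.2.2.2.2 m (s.2.2.2.1 m) (m - s.2.2.2.1 m)) ∧
  ∀ m j l, l ∈ G S z s.1 (DO X f g) s.2.2.2.2 m (s.2.2.2.1 m) (j + 1) →
    ∀ᶠ i in atTop, i ∈ s.2.1 (m, s.2.2.2.1 m + j + 1, l) →
      i :: l ∈ G S z s.1 (DO X f g) s.2.2.2.2 m (s.2.2.2.1 m) j

instance : DP3 (Stage S z X) := by unfold Stage; infer_instance

variable {X}

theorem Dw.mono {g : K} {V V' e e' : PS ℕ} (h : Dw X g V e) (h1 : Sb V' V) (h2 : Sb e e') :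
    Dw X g V' e' := fun Y y1 y2 =>
  let ⟨Z, z1, z2, z3⟩ := h Y y1 (y2.trans h1); ⟨Z, z1, z2, z3.trans h2⟩

theorem Stage.congr {g : K} {f f' : Fn K (St A)} {s : St A} (h : ∀ b, b < g → f b = f' b)
    (hs : Stage S z X g f s) : Stage S z X g f' s := by
  have e : DO X f g = DO X f' g := PS.ext fun p => exists_congr fun b =>
    and_congr_right fun k => by rw [h b k]
  obtain ⟨h1, h2, h3, h4, h5, h6, h7, h8⟩ := hs
  exact ⟨fun t => ⟨(h1 t).1, fun b k => h b k ▸ (h1 t).2 b k⟩, h2, h3, h4,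
    fun b k => h b k ▸ h5 b k, h6, e ▸ h7, e ▸ h8⟩

theorem exists_run (hX : Pr X) (h2 : S.P2) {O : List ℕ → A} (o1 : ∀ s, S.el (z s) (O s))
    (o2 : ∀ s i p, S.el p (O (i :: s)) → S.el p (O s))
    (o3 : ∀ s i j p, S.el p (O (i :: s)) → S.el p (O (j :: s)) → i = j) :
    ∃ f : Fn K (St A), ∀ g, Stage S z X g f (f g) := by
  have : Nonempty A := ⟨O []⟩
  refine exists_rec (Stage S z X) (fun _ _ _ _ h hs => hs.congr h) fun g f hf => ?_
  obtain ⟨U, hU⟩ := chs fun t : T => hX.tower g (fun b => (f b).2.1 t)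
    (fun b hb => ((hf b hb).2.1 t).1) fun b c hb hc =>
      ((hf c hc).2.1 t).2.1.trans (((hf c hc).1 t).2 b hb)
  obtain ⟨M, e, m1, m2, m3, m4⟩ := hX.heights g (fun b => (f b).2.2.1) (fun b => (f b).2.2.2.1)
    (fun b hb => (hf b hb).2.2.1) (fun b c hb hc => (hf c hc).2.2.2.2.1 b hb)
    fun b hb => (hf b hb).2.2.2.2.2.1
  have hO := top_O o1 o2 (D := DO X f g) fun t e k => k.imp fun b k =>
    ⟨k.1, k.2.mono Sb.rfl (Sb.of_sub fun _ _ => trivial)⟩
  obtain ⟨a, ha⟩ := trial_all h2 (fun t => (hU t).1) (D := DO X f g)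
    (fun m h s i j q => o3 s i j _ (hO m h (i :: s)) (q ▸ hO m h (j :: s))) m1 e
  obtain ⟨V, hV⟩ := chs (R := fun (t : T) V => (In V ∧ Sb V (U t) ∧ Dc V (X g)) ∧
      ∀ j, t.2.1 = e t.1 + j + 1 → t.2.2 ∈ G S z U (DO X f g) a t.1 (e t.1) (j + 1) →
        ∀ᶠ i in atTop, i ∈ V → i :: t.2.2 ∈ G S z U (DO X f g) a t.1 (e t.1) j) fun t => by
    by_cases h : ∃ j, t.2.1 = e t.1 + j + 1 ∧ t.2.2 ∈ G S z U (DO X f g) a t.1 (e t.1) (j + 1)
    · obtain ⟨m, H, l⟩ := t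
      obtain ⟨j, h4, h3⟩ := h
      obtain rfl : H = e m + j + 1 := h4
      obtain ⟨V, v1, v2, v3⟩ := In.ex_dc (Y := U (m, e m + j + 1, l) ∩
        sb fun i => i :: l ∈ G S z U (DO X f g) a m (e m) j) h3 (X g)
      refine ⟨V, ⟨v1, v2.trans (Sb.of_sub fun _ k => k.1), v3⟩, fun j' k _ => ?_⟩
      obtain rfl : j = j' := by simpa using k
      exact Eventually.mono v2 fun i k k' => (k k').2
    · obtain ⟨V, v⟩ := (hU t).1.ex_dc (X g)
      exact ⟨V, v, fun j k k' => (h ⟨j, k, k'⟩).elim⟩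
  exact ⟨(U, V, M ∩ sb fun m => [] ∈ G S z U (DO X f g) a m (e m) (m - e m), e, a), hU,
    fun t => (hV t).1, ha, m2, fun b hb => (m3 b hb).mono fun m k k' => k k'.1,
    fun n => (m4 n).mono fun m k k' => k k'.1, fun m k => k.2,
    fun m j l => (hV (m, _, l)).2 j rfl⟩

end Pool.Agent.P.MP_0d6be8_lc.NKW
end
end

-- part Pool.Agent.P.MP_0d6be8_lc.NKW.Core4
section

set_option autoImplicit false
set_option linter.unusedSectionVars false
set_option synthInstance.maxSize 4000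

/-! Good times, the pressing-down argument, the walk and the combinatorial theorem. -/

noncomputable section

open Pool.Agent.P.MP_af1204_lc.Inn Filter

namespace Pool.Agent.P.MP_0d6be8_lc.NKW

variable [Md] [Std] {A P K : Type} [MT A] [MT P] [MT K] [LinearOrder K] [WFL K]
  (S : Sp A P) (z : Fn (List ℕ) P) (X : Fn K (PS ℕ)) (f : Fn K (St A))

/-- the trace of `c` at the node `t` at the time `g` -/
abbrev tq (g : K) (t : T) (c : A) : PS ℕ := trc S z (DO X f g) t c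

/-- closure points at which the earlier traces are decided -/
def Base (g : K) : Prop :=
  (∃ a, a < g) ∧ BdB g ∧ ∀ b, b < g → ∀ t, W X g ((f b).1 t) ∧ W X g ((f b).2.1 t) ∧
    (∀ Y, Y = tq S z X f b t (f b).2.2.2.2 ∨ Y = (tq S z X f b t (f b).2.2.2.2)ᶜ →
      In ((f b).1 t ∩ Y) → W X g ((f b).1 t ∩ Y)) ∧
    ∀ c, (t, tq S z X f b t c) ∈ DO X f g ∨ (t, (tq S z X f b t c)ᶜ) ∈ DO X f g

/-- the traces of the time `g` itself are decided below the height `h` -/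
def Good (h : ℕ) (g : K) : Prop :=
  Base S z X f g ∧ ∀ t : T, t.2.1 < h → ∀ c,
    (t, tq S z X f g t c) ∈ DO X f g ∨ (t, (tq S z X f g t c)ᶜ) ∈ DO X f g

/-- the good times whose witnesses are bounded by `x0` -/
def Fod (x0 b : K) : Prop :=
  (∀ h, Good S z X f h b) ∧ x0 < b ∧ ∀ t Y,
    Y = tq S z X f b t (f b).2.2.2.2 ∨ Y = (tq S z X f b t (f b).2.2.2.2)ᶜ →
      (t, Y) ∈ DO X f b → Dw X b ((f x0).1 t) Y

section
variable {Γ : Type} [MC Γ] (h : Γ → ℕ) (g b : Γ → K) [DD h] [DD g] [DD b]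

instance dp_Base : DP fun x => Base S z X f (g x) := by unfold Base; infer_instance

instance dp_Good : DP fun x => Good S z X f (h x) (g x) := by unfold Good; infer_instance

instance dp_Fod : DP fun x => Fod S z X f (g x) (b x) := by unfold Fod; infer_instance

end

variable {S z X f}

theorem ps_compl_compl {Y : Type} [MT Y] (e : PS Y) : eᶜᶜ = e := PS.ext fun _ => not_not

theorem Good.mono {h h' : ℕ} {g : K} (hg : Good S z X f h g) (e : h' ≤ h) : Good S z X f h' g :=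
  ⟨hg.1, fun t ht => hg.2 t (ht.trans_le e)⟩

variable (hf : ∀ g, Stage S z X g f (f g))
include hf

theorem U_mono (t : T) {x y : K} (h : y ≤ x) : Sb ((f x).1 t) ((f y).1 t) := by
  rcases h.eq_or_lt with rfl | e
  · exact Sb.rfl
  · exact (((hf x).1 t).2 y e).trans ((hf y).2.1 t).2.1

theorem exists_base (ht : S.Tame) (hX : Pr X) (F : K → K) [DD F] :
    ∃ g, Base S z X f g ∧ ∀ a, a < g → F a < g := by
  obtain ⟨ix, hix⟩ := chs hX.onto
  obtain ⟨Z, hZ⟩ := chsH (P := fun p : (T × K) × PS ℕ => In p.2)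
    (R := fun p (Z : Fn ℕ (PS ℕ)) => (∀ k, In (Z k) ∧ Sb (Z k) p.2) ∧
      ∀ c, ∃ k, Dc (Z k) (tq S z X f p.1.2 p.1.1 c)) fun p hp => Sp.reap ht _ hp
  obtain ⟨F', hF⟩ := chs (R := fun (p : K × K) d => F p.1 < d ∧ ∀ t, ix ((f p.1).1 t) < d ∧
      ix ((f p.1).2.1 t) < d ∧ ix ((f p.1).1 t ∩ tq S z X f p.1 t (f p.1).2.2.2.2) < d ∧
      ix ((f p.1).1 t ∩ (tq S z X f p.1 t (f p.1).2.2.2.2)ᶜ) < d ∧
      ∀ k, ix (Z ((t, p.1), X p.2) k) < d) fun p => by
    obtain ⟨d, hd⟩ := hX.bd' (cnt_T.prod cnt_nat |>.mono fun _ _ => ⟨trivial, trivial⟩)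
      fun q : T × ℕ => max (F p.1) (max (ix ((f p.1).1 q.1)) (max (ix ((f p.1).2.1 q.1))
        (max (ix ((f p.1).1 q.1 ∩ tq S z X f p.1 q.1 (f p.1).2.2.2.2))
        (max (ix ((f p.1).1 q.1 ∩ (tq S z X f p.1 q.1 (f p.1).2.2.2.2)ᶜ))
          (ix (Z ((q.1, p.1), X p.2) q.2))))))
    simp only [max_lt_iff] at hd
    exact ⟨d, (hd default).1, fun t => ⟨(hd (t, 0)).2.1, (hd (t, 0)).2.2.1, (hd (t, 0)).2.2.2.1,
      (hd (t, 0)).2.2.2.2.1, fun k => (hd (t, k)).2.2.2.2.2⟩⟩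
  obtain ⟨g, g1, g2, g3, g4⟩ := hX.pl' cnt_T (lm fun p => (f p.2).1 p.1)
    (lm fun p => Z (p.1, (f p.2.1).1 p.1.1) p.2.2) F' (fun t _ _ h => U_mono hf t h.le)
    (fun t e => by
      obtain ⟨x, hx⟩ := hX.exists_gt (ix e)
      exact ⟨x, (hix e ▸ ((hf (ix e)).2.1 t).2.2).mono (((hf x).1 t).2 _ hx)⟩)
    fun t b x k => (hZ ((t, b), _) ((hf x).1 t).1).1 k
  refine ⟨g, ⟨g1, g3, fun b hb t => ?_⟩, fun a ha => (hF (a, a)).1.trans (g2 a a ha ha)⟩
  obtain ⟨k1, k2, k3, k4, -⟩ := (hF (b, b)).2 t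
  have k0 := g2 b b hb hb
  refine ⟨⟨((hf b).1 t).1, _, k1.trans k0, hix _⟩, ⟨((hf b).2.1 t).1, _, k2.trans k0, hix _⟩,
    ?_, fun c => ?_⟩
  · rintro _ (rfl | rfl) k
    exacts [⟨k, _, k3.trans k0, hix _⟩, ⟨k, _, k4.trans k0, hix _⟩]
  · obtain ⟨d, hd, hno⟩ := g4 t b hb (tq S z X f b t c) fun x =>
      (hZ ((t, b), _) ((hf x).1 t).1).2 c
    have key : ∀ Y, W X g Y → ∃ Y', W X g Y' ∧ Sb Y' Y ∧ Dc Y' (tq S z X f b t c) := by
      rintro _ ⟨y1, ξ, y2, rfl⟩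
      obtain ⟨k, hk⟩ := (hZ ((t, b), _) y1).2 c
      exact ⟨_, ⟨((hZ ((t, b), _) y1).1 k).1, _,
        (((hF (b, ξ)).2 t).2.2.2.2 k).trans (g2 b ξ hb y2), hix _⟩, ((hZ ((t, b), _) y1).1 k).2, hk⟩
    refine hno.symm.imp (fun k => ⟨d, hd, fun Y y1 y2 => ?_⟩) fun k => ⟨d, hd, fun Y y1 y2 => ?_⟩
    · obtain ⟨Y', w1, w2, w3⟩ := key Y y1
      exact ⟨Y', w1, w2, w3.resolve_right (k Y' w1 (w2.trans y2))⟩
    · obtain ⟨Y', w1, w2, w3⟩ := key Y y1
      exact ⟨Y', w1, w2, w3.resolve_left (k Y' w1 (w2.trans y2))⟩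

theorem Dw.excl {b g x y : K} (hb : Base S z X f b) (hbg : b ≤ g) (hx : x < b) (hy : y < b)
    {t : T} {e : PS ℕ} (h1 : Dw X g ((f x).1 t) e) (h2 : Dw X b ((f y).1 t) eᶜ) : False := by
  obtain ⟨Y, y1, y2, y3⟩ := h2 _ (hb.2.2 _ (max_lt hx hy) t).1 (U_mono hf t (le_max_right _ _))
  obtain ⟨Z, z1, z2, z3⟩ := h1 Y (y1.mono hbg) (y2.trans (U_mono hf t (le_max_left _ _)))
  exact z1.1.not_both z3 (z2.trans y3)

theorem Good.top {h : ℕ} {g : K} (hg : Good S z X f (h + 1) g) (m : ℕ) (s : List ℕ) (c : A) :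
    S.el (top S z (DO X f g) m (h + 1) s) c ↔ ((m, h, s), tq S z X f g (m, h, s) c) ∈ DO X f g := by
  refine eps_spec (P := fun p => ∀ c, S.el p c ↔
    ((m, h, s), tq S z X f g (m, h, s) c) ∈ DO X f g) _
    (S.full (sb fun c => ((m, h, s), tq S z X f g (m, h, s) c) ∈ DO X f g) (fun a b => ?_)
      fun a => ?_) c
  · simp only [mem_sb, trc, Sp.tr_inf]
    refine ⟨fun ⟨x, x1, x2⟩ => ⟨⟨x, x1, x2.mono Sb.rfl (Sb.of_sub fun _ k => k.1)⟩,
      x, x1, x2.mono Sb.rfl (Sb.of_sub fun _ k => k.2)⟩,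
      fun ⟨⟨x, x1, x2⟩, y, y1, y2⟩ => ⟨max x y, max_lt x1 y1, fun Y u1 u2 => ?_⟩⟩
    obtain ⟨Z, z1, z2, z3⟩ := x2 Y u1 (u2.trans (U_mono hf _ (le_max_left _ _)))
    obtain ⟨Z', v1, v2, v3⟩ := y2 Z z1 (z2.trans (u2.trans (U_mono hf _ (le_max_right _ _))))
    exact ⟨Z', v1, v2.trans z2, (v2.trans z3).inter v3⟩
  · simp only [mem_sb, trc, Sp.tr_cpl]
    exact ⟨fun ⟨x, x1, x2⟩ ⟨y, y1, y2⟩ => Dw.excl hf hg.1 le_rfl y1 x1 y2 x2,
      (hg.2 (m, h, s) (Nat.lt_succ_self h) a).resolve_left⟩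

theorem same {g : K} (hg : Base S z X f g) (t : T) (c : A) {h : ℕ}
    (k : ∀ s, ∃ d, d < g ∧ ∀ b, d < b → b < g → Good S z X f h b →
      (S.el (top S z (DO X f b) t.1 t.2.1 s) c ↔ S.el (top S z (DO X f g) t.1 t.2.1 s) c)) :
    ∃ d, d < g ∧ ∀ b, d < b → b < g → Good S z X f h b → tq S z X f b t c = tq S z X f g t c := by
  obtain ⟨d, h0, h1⟩ := hg.2.1.rel cnt_nat _ fun i => k (i :: t.2.2)
  exact ⟨d, h0, fun b b1 b2 b3 => PS.ext fun i =>
    let ⟨_, k1, k2⟩ := h1 i; k2 b (k1.trans b1) b2 b3⟩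

theorem honest {g : K} (m : ℕ) (c : A) (h : ℕ) (hg : Good S z X f h g) :
    ∀ s, ∃ d, d < g ∧ ∀ b, d < b → b < g → Good S z X f h b →
      (S.el (top S z (DO X f b) m h s) c ↔ S.el (top S z (DO X f g) m h s) c) := by
  induction h with
  | zero => exact fun s => hg.1.1.imp fun a ha => ⟨ha, fun _ _ _ _ => Iff.rfl⟩
  | succ h ih =>
    intro s
    obtain ⟨d, h0, h1⟩ := same hf hg.1 (m, h, s) c (ih (hg.mono h.le_succ))
    rcases hg.2 (m, h, s) h.lt_succ_self c with ⟨x, x1, x2⟩ | ⟨x, x1, x2⟩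
    · refine ⟨max d x, max_lt h0 x1, fun b b1 b2 b3 => ?_⟩
      have e := h1 b (max_lt_iff.1 b1).1 b2 (b3.mono h.le_succ)
      have k' := b3.2 (m, h, s) h.lt_succ_self c
      rw [b3.top hf, hg.top hf, e]
      rw [e] at k'
      exact iff_of_true (k'.resolve_right fun ⟨y, y1, y2⟩ =>
        Dw.excl hf b3.1 b2.le (max_lt_iff.1 b1).2 y1 x2 y2) ⟨x, x1, x2⟩
    · refine ⟨max d x, max_lt h0 x1, fun b b1 b2 b3 => ?_⟩
      rw [b3.top hf, hg.top hf, h1 b (max_lt_iff.1 b1).1 b2 (b3.mono h.le_succ)]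
      exact iff_of_false (fun ⟨y, y1, y2⟩ => Dw.excl hf b3.1 b2.le (max_lt_iff.1 b1).2 y1 x2
        (by rw [ps_compl_compl]; exact y2)) fun ⟨y, y1, y2⟩ => Dw.excl hf hg.1 le_rfl y1 x1 y2 x2

theorem Good.step {h : ℕ} {g : K} (hg : Good S z X f h g)
    (hu : ∀ d, d < g → ∃ b, d < b ∧ b < g ∧ Good S z X f h b) : Good S z X f (h + 1) g := by
  refine ⟨hg.1, fun t ht c => ?_⟩
  rcases Nat.lt_succ_iff_lt_or_eq.1 ht with e | rfl
  · exact hg.2 t e c
  · obtain ⟨d, h0, h1⟩ := same hf hg.1 t c (honest hf t.1 c _ hg)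
    obtain ⟨b, b1, b2, b3⟩ := hu d h0
    exact h1 b b1 b2 b3 ▸ (hg.1.2.2 b b2 t).2.2.2 c

theorem exists_good (ht : S.Tame) (hX : Pr X) (F : K → K) [DD F] :
    ∃ g, (∀ h, Good S z X f h g) ∧ ∀ a, a < g → F a < g := by
  have key : ∀ (n : Fn (K × ℕ) K) (F : Fn K K), ∃ g, (∀ a, a < g → F a < g) ∧ ∀ h,
      (∀ k < h, ∀ d, d < n (d, k) ∧ Good S z X f k (n (d, k))) → Good S z X f h g := fun n F => by
    obtain ⟨u, hu⟩ := chs (R := fun a b => ∀ k, n (a, k) < b) fun a => hX.bd (lm fun k => n (a, k))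
    obtain ⟨g, g1, g2⟩ := exists_base hf ht hX fun a => max (F a) (u a)
    refine ⟨g, fun a ha => (max_lt_iff.1 (g2 a ha)).1, fun h hh => ?_⟩
    induction h with
    | zero => exact ⟨g1, fun _ k => absurd k (Nat.not_lt_zero _)⟩
    | succ h ih =>
      exact (ih fun k hk => hh k (by omega)).step hf fun d hd => ⟨_, (hh h (by omega) d).1,
        (hu d h).trans (max_lt_iff.1 (g2 d hd)).2, (hh h (by omega) d).2⟩
  have := hX.ne
  have h1 : ∀ h d, ∃ b, d < b ∧ Good S z X f h b := fun h => by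
    induction h using Nat.strong_induction_on with
    | _ h ih =>
      intro d
      obtain ⟨n, hn⟩ := chsH (P := fun p : K × ℕ => p.2 < h)
        (R := fun p b => p.1 < b ∧ Good S z X f p.2 b) fun p hp => ih p.2 hp p.1
      obtain ⟨g, g1, g2⟩ := key n (Fn.const K d)
      have := g2 h fun k hk d => hn (d, k) hk
      exact ⟨g, g1 _ this.1.1.choose_spec, this⟩
  obtain ⟨n, hn⟩ := chs fun p : K × ℕ => h1 p.2 p.1
  obtain ⟨g, g1, g2⟩ := key n (lm F)
  exact ⟨g, fun h => g2 h fun k _ d => hn (d, k), g1⟩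

theorem exists_fod (ht : S.Tame) (hX : Pr X) : ∃ x0, ¬ Cnt (Fod S z X f x0) := by
  by_contra hc
  obtain ⟨F, hF⟩ := chs (R := fun x0 b => ∀ a, Fod S z X f x0 a → a < b)
    fun x0 => hX.cnt (by_contra fun h => hc ⟨x0, h⟩)
  obtain ⟨g, g1, g2⟩ := exists_good hf ht hX F
  have hb := (g1 0).1
  have hw : ∀ (E : T → PS ℕ) [DD E], ∃ x, x < g ∧ ∀ t, (t, E t) ∈ DO X f g →
      Dw X g ((f x).1 t) (E t) := fun E _ => by
    obtain ⟨x, x1, x2⟩ := hb.2.1.rel cnt_T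
      (fun t w => (t, E t) ∈ DO X f g → Dw X g ((f w).1 t) (E t)) fun t => by
        by_cases h : (t, E t) ∈ DO X f g
        · exact h.imp fun w k => ⟨k.1, fun _ => k.2⟩
        · exact hb.1.imp fun a ha => ⟨ha, fun e => (h e).elim⟩
    exact ⟨x, x1, fun t h => let ⟨_, k1, k2⟩ := x2 t; (k2 h).mono (U_mono hf t k1.le) Sb.rfl⟩
  obtain ⟨x1, a1, a2⟩ := hw fun t => tq S z X f g t (f g).2.2.2.2
  obtain ⟨x2, b1, b2⟩ := hw fun t => (tq S z X f g t (f g).2.2.2.2)ᶜ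
  refine lt_irrefl g ((hF (max x1 x2) g ⟨g1, max_lt a1 b1, ?_⟩).trans (g2 _ (max_lt a1 b1)))
  rintro t _ (rfl | rfl) h
  · exact (a2 t h).mono (U_mono hf t (le_max_left _ _)) Sb.rfl
  · exact (b2 t h).mono (U_mono hf t (le_max_right _ _)) Sb.rfl

omit hf in
theorem shrink {V : PS ℕ} (E : K → PS ℕ) (B : Finset K) (hE : ∀ b ∈ B, Dw X b V (E b)) :
    ∀ Y0, In Y0 → Sb Y0 V → (∀ b ∈ B, W X b Y0) → ∃ Y, In Y ∧ Sb Y Y0 ∧ ∀ b ∈ B, Sb Y (E b) := by
  classical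
  induction B using Finset.induction_on_min with
  | empty => exact fun Y0 h _ _ => ⟨Y0, h, Sb.rfl, by simp⟩
  | insert a B ha ih =>
    intro Y0 _ h2 h3
    obtain ⟨Y1, y1, y2, y3⟩ := hE a (by simp) Y0 (h3 a (by simp)) h2
    obtain ⟨Y, w1, w2, w3⟩ := ih (fun b hb => hE b (by simp [hb])) Y1 y1.1 (y2.trans h2)
      fun b hb => y1.mono (ha b hb).le
    refine ⟨Y, w1, w2.trans y2, fun b hb => ?_⟩
    rcases Finset.mem_insert.1 hb with rfl | hb
    exacts [w2.trans y3, w3 b hb]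

variable (S z X f) in
/-- the time `b` is decided or pending at the point `(m, H, s)` -/
def OK (σ : K → Prop) (m : ℕ) (b : K) (H : ℕ) (s : List ℕ) : Prop :=
  (H ≤ (f b).2.2.2.1 m ∧ (S.el (top S z (DO X f b) m H s) (f b).2.2.2.2 ↔ σ b)) ∨
    ∃ j, H = (f b).2.2.2.1 m + j + 1 ∧
      s ∈ G S z (f b).1 (DO X f b) (f b).2.2.2.2 m ((f b).2.2.2.1 m) j

theorem walk_step {x0 : K} {B : Finset K} (hB : ∀ b ∈ B, Fod S z X f x0 b) {σ : K → Prop} {m : ℕ}
    (hm : ∀ b ∈ B, ∀ c ∈ B, b < c → (f b).2.2.2.1 m < (f c).2.2.2.1 m) {k : ℕ} {s : List ℕ}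
    (h : ∀ b ∈ B, OK S z X f σ m b (k + 1) s) : ∃ i, ∀ b ∈ B, OK S z X f σ m b k (i :: s) := by
  classical
  let E : K → PS ℕ := fun b => if σ b then tq S z X f b (m, k, s) (f b).2.2.2.2
    else (tq S z X f b (m, k, s) (f b).2.2.2.2)ᶜ
  have hE : ∀ b i, i ∈ E b → (S.el (top S z (DO X f b) m k (i :: s)) (f b).2.2.2.2 ↔ σ b) :=
    fun b i hi => by
      by_cases e : σ b
      · simp only [E, if_pos e] at hi; exact iff_of_true hi e
      · simp only [E, if_neg e] at hi; exact iff_of_false hi e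
  have hE' : ∀ b, E b = tq S z X f b (m, k, s) (f b).2.2.2.2 ∨
      E b = (tq S z X f b (m, k, s) (f b).2.2.2.2)ᶜ := fun b => by
    by_cases e : σ b
    exacts [Or.inl (if_pos e), Or.inr (if_neg e)]
  have hp : ∀ b ∈ B, ∀ j, k = (f b).2.2.2.1 m + j →
      s ∈ G S z (f b).1 (DO X f b) (f b).2.2.2.2 m ((f b).2.2.2.1 m) j := fun b hb j e => by
    rcases h b hb with g | ⟨j', g1, g2⟩
    · omega
    · rwa [show j = j' by omega]
  have hV : ∀ b ∈ B, (f b).2.2.2.1 m < k → ∀ᶠ i in atTop, i ∈ (f b).2.1 (m, k, s) →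
      OK S z X f σ m b k (i :: s) := fun b hb e => by
    obtain ⟨j, rfl⟩ := Nat.exists_eq_add_of_lt e
    exact ((hf b).2.2.2.2.2.2.2 m j s (hp b hb (j + 1) rfl)).mono fun i x y => Or.inr ⟨j, rfl, x y⟩
  have hd : ∀ b ∈ B, k < (f b).2.2.2.1 m → Dw X b ((f x0).1 (m, k, s)) (E b) := fun b hb e => by
    refine (hB b hb).2.2 _ _ (hE' b) ?_
    have h1 := ((hB b hb).1 (k + 1)).top hf m s (f b).2.2.2.2
    rcases h b hb with g | ⟨j, g, -⟩
    · by_cases c : σ b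
      · simp only [E, if_pos c]; exact h1.1 (g.2.2 c)
      · simp only [E, if_neg c]
        exact (((hB b hb).1 (k + 1)).2 (m, k, s) k.lt_succ_self _).resolve_left
          fun x => c (g.2.1 (h1.2 x))
    · omega
  obtain ⟨Y0, y1, y2, y3, y4⟩ : ∃ Y0, In Y0 ∧ Sb Y0 ((f x0).1 (m, k, s)) ∧
      (∀ b ∈ B, k < (f b).2.2.2.1 m → W X b Y0) ∧ ∀ b ∈ B, (f b).2.2.2.1 m ≤ k →
        ∀ᶠ i in atTop, i ∈ Y0 → OK S z X f σ m b k (i :: s) := by
    by_cases hb : (B.filter fun b => (f b).2.2.2.1 m ≤ k).Nonempty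
    · obtain ⟨c, c1, c3⟩ := Finset.exists_max_image _ id hb
      obtain ⟨c1, c2⟩ := Finset.mem_filter.1 c1
      obtain ⟨Y, u1, u2, u3, u4⟩ : ∃ Y, In Y ∧ Sb Y ((f c).1 (m, k, s)) ∧
          (∀ᶠ i in atTop, i ∈ Y → OK S z X f σ m c k (i :: s)) ∧
          ∀ g, Base S z X f g → c < g → W X g Y := by
        rcases c2.eq_or_lt with e | e
        · have h1 : Split S z (f c).1 (DO X f c) (f c).2.2.2.2 (m, k, s) := e ▸ hp c c1 0 e.symm
          have h2 : In ((f c).1 (m, k, s) ∩ E c) := by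
            rcases hE' c with x | x <;> rw [x]
            exacts [h1.1, h1.2]
          exact ⟨_, h2, Sb.of_sub fun _ x => x.1, Eventually.of_forall fun i x =>
            Or.inl ⟨e.ge, hE c i x.2⟩, fun g hg k => (hg.2.2 c k _).2.2.1 _ (hE' c) h2⟩
        · exact ⟨_, ((hf c).2.1 _).1, ((hf c).2.1 _).2.1, hV c c1 e,
            fun g hg k => (hg.2.2 c k _).2.1⟩
      refine ⟨Y, u1, u2.trans (U_mono hf _ (hB c c1).2.1.le), fun b b1 b2 =>
        u4 b ((hB b b1).1 0).1 (lt_of_not_ge fun e => ?_), fun b b1 b2 => ?_⟩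
      · rcases e.eq_or_lt with rfl | e
        · omega
        · have := hm b b1 c c1 e; omega
      · rcases (c3 b (Finset.mem_filter.2 ⟨b1, b2⟩)).eq_or_lt with rfl | e
        · exact u3
        · filter_upwards [u2.trans (((hf c).1 _).2 b e),
            hV b b1 ((hm b b1 c c1 e).trans_le c2)] with i k1 k2 k3 using k2 (k1 k3)
    · exact ⟨_, ((hf x0).1 _).1, Sb.rfl, fun b b1 _ => (((hB b b1).1 0).1.2.2 x0 (hB b b1).2.1 _).1,
        fun b b1 b2 => (hb ⟨b, Finset.mem_filter.2 ⟨b1, b2⟩⟩).elim⟩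
  obtain ⟨Y, w1, w2, w3⟩ := shrink E (B.filter fun b => k < (f b).2.2.2.1 m)
    (fun b hb => hd b (Finset.mem_filter.1 hb).1 (Finset.mem_filter.1 hb).2) Y0 y1 y2
    fun b hb => y3 b (Finset.mem_filter.1 hb).1 (Finset.mem_filter.1 hb).2
  refine (w1.and_eventually ((eventually_all_finset B).2 fun b hb =>
    (?_ : ∀ᶠ i in atTop, i ∈ Y → OK S z X f σ m b k (i :: s)))).exists.imp
      fun i x b hb => x.2 b hb x.1
  rcases le_or_gt ((f b).2.2.2.1 m) k with e | e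
  · filter_upwards [w2, y4 b hb e] with i k1 k2 k3 using k2 (k1 k3)
  · exact Eventually.mono (w3 b (Finset.mem_filter.2 ⟨hb, e⟩)) fun i k1 k2 =>
      Or.inl ⟨e.le, hE b i (k1 k2)⟩

theorem fod_ind {x0 : K} (B : Finset K) (hB : ∀ b ∈ B, Fod S z X f x0 b) (σ : K → Prop) :
    ∃ p, ∀ b ∈ B, (S.el p (f b).2.2.2.2 ↔ σ b) := by
  rcases B.eq_empty_or_nonempty with rfl | hne
  · exact ⟨z [], by simp⟩
  obtain ⟨c, -, c3⟩ := Finset.exists_max_image B id hne
  have h1 : ∀ b ∈ B, ∀ᶠ m in atTop, m ∈ (f c).2.2.1 → m ∈ (f b).2.2.1 := fun b hb => by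
    rcases (c3 b hb).eq_or_lt with rfl | e
    · exact Sb.rfl
    · exact ((hf c).2.2.2.2.1 b e).mono fun m k k' => (k k').1
  have h2 : ∀ b ∈ B, ∀ᶠ m in atTop, ∀ d ∈ B, b < d → m ∈ (f d).2.2.1 →
      (f b).2.2.2.1 m < (f d).2.2.2.1 m := fun b _ => (eventually_all_finset B).2 fun d _ => by
    by_cases e : b < d
    · exact ((hf d).2.2.2.2.1 b e).mono fun m k _ k' => (k k').2
    · exact Eventually.of_forall fun _ k => (e k).elim
  obtain ⟨m, m0, m1, m2⟩ := ((hf c).2.2.1.and_eventually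
    (((eventually_all_finset B).2 h1).and ((eventually_all_finset B).2 h2))).exists
  have key : ∀ H s, (∀ b ∈ B, OK S z X f σ m b H s) → ∃ s', ∀ b ∈ B, OK S z X f σ m b 0 s' :=
    fun H => by
      induction H with
      | zero => exact fun s x => ⟨s, x⟩
      | succ H ih =>
        intro s x
        obtain ⟨i, hi⟩ := walk_step hf hB (fun b b1 d d1 e => m2 b b1 d d1 e (m1 d d1 m0)) x
        exact ih _ hi
  obtain ⟨s, hs⟩ := key (m + 1) [] fun b hb => Or.inr ⟨_, by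
    have := (hf b).2.2.2.1 m; omega, (hf b).2.2.2.2.2.2.1 m (m1 b hb m0)⟩
  refine ⟨z s, fun b hb => ?_⟩
  rcases hs b hb with g | ⟨j, g, -⟩
  · exact g.2
  · omega

omit hf in
/-- the combinatorial theorem -/
theorem not_tame (hX : Pr X) (h2 : S.P2) (y : Fn ℕ P) (hy : Function.Injective y) : ¬ S.Tame := by
  classical
  intro ht
  obtain ⟨O, z, o1, o2, o3⟩ := h2.tree y hy
  obtain ⟨f, hf⟩ := exists_run hX h2 o1 o2 o3
  obtain ⟨x0, hx⟩ := exists_fod hf ht hX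
  obtain ⟨i, hi⟩ := ht (sb fun a => ∃ b, Fod S z X f x0 b ∧ (f b).2.2.2.2 = a) fun l hl σ => by
    have := hX.ne
    choose! r r1 r2 using hl
    obtain ⟨p, hp⟩ := fod_ind hf (x0 := x0) (l.toFinset.image r) (by simpa using r1)
      fun b => σ (f b).2.2.2.2
    exact ⟨p, fun a ha => r2 a ha ▸ hp (r a) (Finset.mem_image_of_mem r (List.mem_toFinset.2 ha))⟩
  refine hx ⟨lm fun b => i (f b).2.2.2.2, fun b c hb hc e => ?_⟩
  have e' := hi _ _ ⟨b, hb, rfl⟩ ⟨c, hc, rfl⟩ e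
  obtain ⟨p, hp⟩ := fod_ind hf (x0 := x0) {b, c} (by simp [hb, hc]) fun d => d = b
  exact ((hp c (by simp)).1 (e' ▸ (hp b (by simp)).2 rfl)).symm

end Pool.Agent.P.MP_0d6be8_lc.NKW
end
end

-- part Pool.Agent.P.MP_0d6be8_lc.FDefs
section

set_option autoImplicit false

/-! The combinatorial principles forced by the iteration, written inside `(M, mem)`. Families of
sets of numbers are relations; a set of numbers is given by a predicate. -/

open Pool.Agent.Lib.PosetForcing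

namespace Pool.Agent.P.MP_0d6be8_lc

universe v

variable {M : Type v} (mem : M → M → Prop)

/-- `((a, b), d) ∈ f` -/
def App2 (f a b d : M) : Prop := ∃ p, IsPair mem p a b ∧ App mem f p d

/-- `(((a, b), c), d) ∈ f` -/
def App3 (f a b c d : M) : Prop := ∃ p, IsPair mem p a b ∧ App2 mem f p c d

/-- infinitely many numbers satisfy `A` -/
def InfP (w : M) (A : M → Prop) : Prop := ∀ n, mem n w → ∃ m, mem m w ∧ ¬ mem m n ∧ A m

/-- almost all numbers with `A` satisfy `B` -/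
def SubP (w : M) (A B : M → Prop) : Prop :=
  ∃ n, mem n w ∧ ∀ m, mem m w → ¬ mem m n → A m → B m

/-- `A` is almost inside `e` or almost outside `e` -/
def Dec (w : M) (A : M → Prop) (e : M) : Prop :=
  SubP mem w A (fun m => mem m e) ∨ SubP mem w A (fun m => ¬ mem m e)

/-- `K` is a transitive set linearly ordered by membership -/
def IsOrd (K : M) : Prop :=
  (∀ x y, mem x K → mem y x → mem y K) ∧ (∀ x y z, mem x K → mem y x → mem z y → mem z x) ∧
    ∀ x y, mem x K → mem y K → mem x y ∨ x = y ∨ mem y x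

/-- sequences of length `ω` are bounded in `g` -/
def Bdd (w g : M) : Prop :=
  ∀ f, (∀ n, mem n w → ∃ a, mem a g ∧ App mem f n a) →
    ∃ d, mem d g ∧ ∀ n, mem n w → ∃ a, mem a d ∧ App mem f n a

/-- the sections of `X` over `K` list all sets of numbers -/
def Onto (w K X : M) : Prop :=
  ∀ e, ∃ x, mem x K ∧ ∀ m, mem m w → (App mem X x m ↔ mem m e)

/-- pseudo-intersections of directed families indexed by `g × ω` -/
def PI (w K : M) : Prop :=
  ∀ A g, mem g K → (∀ b n, mem b g → mem n w → InfP mem w (App2 mem A b n)) →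
    (∀ b n b' n', mem b g → mem n w → mem b' g → mem n' w → ∃ c k, mem c g ∧ mem k w ∧
      SubP mem w (App2 mem A c k) (App2 mem A b n) ∧
      SubP mem w (App2 mem A c k) (App2 mem A b' n')) →
    ∃ z, InfP mem w (fun m => mem m z) ∧
      ∀ b n, mem b g → mem n w → SubP mem w (fun m => mem m z) (App2 mem A b n)

/-- no infinite section of `X` over `g` is almost inside both `A` and `B` -/
def NoneIn (w g X : M) (A B : M → Prop) : Prop :=
  ∀ x, mem x g → InfP mem w (App mem X x) → SubP mem w (App mem X x) A →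
    ¬ SubP mem w (App mem X x) B

/-- the hypotheses of `PL` on the towers `T` and the sets `Z` -/
def Towers (w K T Z : M) : Prop :=
  (∀ j x y, mem j K → mem x K → mem y x → SubP mem w (App2 mem T j x) (App2 mem T j y)) ∧
  (∀ j e, mem j K → ∃ x, mem x K ∧ Dec mem w (App2 mem T j x) e) ∧
  ∀ j x k, mem j K → mem x K → mem k w →
    InfP mem w (App3 mem Z j x k) ∧ SubP mem w (App3 mem Z j x k) (App2 mem T j x)

/-- the Luzin property at `g` -/
def Luz (w K X T Z g : M) : Prop :=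
  ∀ j e, mem j g → (∀ x, mem x K → ∃ k, mem k w ∧ Dec mem w (App3 mem Z j x k) e) →
    ∃ d, mem d g ∧ (NoneIn mem w g X (App2 mem T j d) (fun m => mem m e) ∨
      NoneIn mem w g X (App2 mem T j d) (fun m => ¬ mem m e))

/-- the principle `PL` -/
def PL (w K X : M) : Prop :=
  ∀ T Z F, Towers mem w K T Z → (∀ a, mem a K → ∃ b, mem b K ∧ App mem F a b) →
    ∃ g, mem g K ∧ (∃ a, mem a g) ∧ (∀ a, mem a g → ∃ b, mem b g ∧ App mem F a b) ∧
      Bdd mem w g ∧ Luz mem w K X T Z g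

/-- everything the inside part may use -/
def Princ (w K X : M) : Prop :=
  IsOrd mem K ∧ Bdd mem w K ∧ (∀ a, mem a K → Bdd mem a K) ∧ Onto mem w K X ∧ PI mem w K ∧
    PL mem w K X

end Pool.Agent.P.MP_0d6be8_lc
end

-- part Pool.Agent.P.MP_0d6be8_lc.NKW.PrLink
section

set_option autoImplicit false
set_option linter.unusedSectionVars false
set_option synthInstance.maxSize 4000

/-! From the first-order principles to their typed form. -/

noncomputable section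

open Pool.Agent.Lib.PosetForcing (App)
open Pool.Agent.P.MP_5f3b23_lc.Zf (om op mm app_iff isPair_iff op_inj)
open Pool.Agent.P.MP_af1204_lc.Inn Filter

namespace Pool.Agent.P.MP_0d6be8_lc.NKW

variable [Md] [Std]

theorem all_om {p : MM → Prop} : (∀ n, mm n (om : MM) → p n) ↔ ∀ n, p (num n) :=
  ⟨fun h n => h _ (num_mem_om n), fun h x hx => let ⟨n, e⟩ := Std.std x hx; e ▸ h n⟩

theorem ex_om {p : MM → Prop} : (∃ n, mm n (om : MM) ∧ p n) ↔ ∃ n, p (num n) :=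
  ⟨fun ⟨x, hx, h⟩ => let ⟨n, e⟩ := Std.std x hx; ⟨n, e ▸ h⟩, fun ⟨n, h⟩ => ⟨_, num_mem_om n, h⟩⟩

theorem infP_iff {A : MM → Prop} : InfP mm om A ↔ ∃ᶠ n in atTop, A (num n) := by
  simp only [InfP, all_om, ex_om, frequently_atTop]
  simp only [mm, num_mem_num, not_lt]

theorem subP_iff {A B : MM → Prop} :
    SubP mm om A B ↔ ∀ᶠ n in atTop, A (num n) → B (num n) := by
  simp only [SubP, all_om, ex_om, eventually_atTop]
  simp only [mm, num_mem_num, not_lt]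

theorem app2_op {f a b d : MM} : App2 mm f a b d ↔ op (op a b) d ∈ f := by
  simp only [App2, isPair_iff, app_iff, exists_eq_left]

theorem app3_op {f a b c d : MM} : App3 mm f a b c d ↔ op (op (op a b) c) d ∈ f := by
  simp only [App3, isPair_iff, app2_op, exists_eq_left]

/-- a family of sets of numbers as a relation of the model -/
def rel {Y : Type} [MT Y] (U : Fn Y (PS ℕ)) : MM := (sb fun p : Y × ℕ => p.2 ∈ U p.1).code

theorem mem_rel {Y : Type} [MT Y] {U : Fn Y (PS ℕ)} {y : Y} {m : ℕ} :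
    op (enc y) (num m) ∈ rel U ↔ m ∈ U y := PS.enc_mem_code (x := (y, m))

/-- the graph of a function -/
theorem app_code {Y Z : Type} [MT Y] [MT Z] {f : Fn Y Z} {y : Y} {b : MM} :
    App mm f.code (enc y) b ↔ enc (f y) = b :=
  app_iff.trans (Fn.mem_code.trans ⟨fun ⟨_, e⟩ => MC.inj _ _ (op_inj e).1 ▸ (op_inj e).2,
    fun e => ⟨y, e ▸ rfl⟩⟩)

/-- a set of the model as a set of numbers -/
def nums (e : MM) : PS ℕ := sb fun m => enc m ∈ e

theorem nums_code (e : PS ℕ) : nums e.code = e := PS.ext fun _ => PS.enc_mem_code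

theorem dec_iff {A : MM → Prop} {Y : PS ℕ} (h : ∀ m, A (num m) ↔ m ∈ Y) {e : MM} :
    Dec mm om A e ↔ Dc Y (nums e) := by
  simp only [Dec, subP_iff, h]; rfl

theorem exists_pr {K X : MM} (h : Princ mm om K X) :
    ∃ (_ : IsOd K) (X' : Fn (El K) (PS ℕ)), Pr X' := by
  obtain ⟨h1, h2, h3, h4, h5, h6⟩ := h
  have i : IsOd K := ⟨fun x hx y hy => h1.1 x y hx hy, fun x y hx hy z hz => h1.2.1 x y z hx hy hz⟩
  let X' : Fn (El K) (PS ℕ) := lm fun x => sb fun m => enc (x, m) ∈ X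
  have hX : ∀ (x : El K) m, App mm X x.v (num m) ↔ m ∈ X' x := fun _ _ => app_iff
  have lo : ∀ {g : El K} {a : MM}, a ∈ g.v → a ∈ K := fun {g a} k => h1.1 _ _ g.mem k
  have bd : ∀ g : El K, Bdd mm om g.v → BdB g := fun g hg s hs => by
    obtain ⟨d, k1, k2⟩ := hg s.code (all_om.2 fun n => ⟨_, hs n, (app_code (y := n)).2 rfl⟩)
    refine ⟨El.mk d (lo k1), k1, fun n => ?_⟩
    obtain ⟨a, k3, k4⟩ := k2 _ (num_mem_om n)
    have e := (app_code (y := n)).1 k4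
    subst e; exact k3
  refine ⟨i, X', fun Y => ?_, fun s => ?_, fun g s => ?_, fun g B b1 b2 => ?_,
    fun U Z F u1 u2 u3 => ?_⟩
  · obtain ⟨x, k1, k2⟩ := h4 Y.code
    exact ⟨El.mk x k1, PS.ext fun m => (hX _ m).symm.trans
      ((k2 _ (num_mem_om m)).trans (PS.enc_mem_code (x := m)))⟩
  · obtain ⟨d, k1, k2⟩ := h2 s.code (all_om.2 fun n => ⟨_, (s n).mem, (app_code (y := n)).2 rfl⟩)
    refine ⟨El.mk d k1, fun n => ?_⟩
    obtain ⟨a, k3, k4⟩ := k2 _ (num_mem_om n)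
    have e := (app_code (y := n)).1 k4
    subst e; exact k3
  · obtain ⟨d, k1, k2⟩ := h3 g.v g.mem s.code fun n hn =>
      ⟨_, (s (El.mk n (lo hn))).mem, (app_code (y := El.mk n (lo hn))).2 rfl⟩
    refine ⟨El.mk d k1, fun a ha => ?_⟩
    obtain ⟨b, k3, k4⟩ := k2 _ ha
    have e := (app_code (y := a)).1 k4
    subst e; exact k3
  · have e : ∀ (b : El K) n m, App2 mm (rel B) b.v (num n) (num m) ↔ m ∈ B (b, n) :=
      fun b n m => app2_op.trans (mem_rel (y := (b, n)))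
    obtain ⟨z, z1, z2⟩ := h5 (rel B) g.v g.mem (fun b n hb hn => by
        obtain ⟨n, rfl⟩ := Std.std n hn
        exact infP_iff.2 (Frequently.mono (b1 (El.mk b (lo hb)) n hb)
          fun m => (e (El.mk b (lo hb)) n m).2))
      fun b n b' n' hb hn hb' hn' => by
        obtain ⟨n, rfl⟩ := Std.std n hn
        obtain ⟨n', rfl⟩ := Std.std n' hn'
        obtain ⟨c, k, c1, c2, c3⟩ := b2 (El.mk b (lo hb)) n (El.mk b' (lo hb')) n' hb hb'
        exact ⟨c.v, num k, c1, num_mem_om k,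
          subP_iff.2 (c2.mono fun m x y => (e _ n m).2 (x ((e c k m).1 y))),
          subP_iff.2 (c3.mono fun m x y => (e _ n' m).2 (x ((e c k m).1 y)))⟩
    exact ⟨nums z, infP_iff.1 z1, fun b n hb =>
      (subP_iff.1 (z2 b.v _ hb (num_mem_om n))).mono fun m x y => (e b n m).1 (x y)⟩
  · have eU : ∀ (j x : El K) m, App2 mm (rel U) j.v x.v (num m) ↔ m ∈ U (j, x) :=
      fun j x m => app2_op.trans (mem_rel (y := (j, x)))
    have eZ : ∀ (j x : El K) k m, App3 mm (rel Z) j.v x.v (num k) (num m) ↔ m ∈ Z ((j, x), k) :=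
      fun j x k m => app3_op.trans (mem_rel (y := ((j, x), k)))
    obtain ⟨g, g0, ⟨a, g1⟩, g2, g3, g4⟩ := h6 (rel U) (rel Z) F.code
      ⟨fun j x y hj hx hy => subP_iff.2 ((u1 (El.mk j hj) (El.mk x hx) (El.mk y (h1.1 _ _ hx hy))
          hy).mono fun m k k' => (eU _ _ m).2 (k ((eU _ _ m).1 k'))),
        fun j e hj => let ⟨x, hx⟩ := u2 (El.mk j hj) (nums e)
          ⟨x.v, x.mem, (dec_iff (eU (El.mk j hj) x)).2 hx⟩,
        fun j x k hj hx hk => by
          obtain ⟨k, rfl⟩ := Std.std k hk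
          obtain ⟨k1, k2⟩ := u3 (El.mk j hj) (El.mk x hx) k
          exact ⟨infP_iff.2 (Frequently.mono k1 fun m => (eZ (El.mk j hj) (El.mk x hx) k m).2),
            subP_iff.2 (k2.mono fun m x y => (eU _ _ m).2 (x ((eZ _ _ k m).1 y)))⟩⟩
      fun a ha => ⟨_, (F (El.mk a ha)).mem, (app_code (y := El.mk a ha)).2 rfl⟩
    have lo' : ∀ {a : MM}, a ∈ g → a ∈ K := fun k => h1.1 _ _ g0 k
    refine ⟨El.mk g g0, ⟨El.mk a (lo' g1), g1⟩, fun a ha => ?_, bd _ g3, fun j hj e he => ?_⟩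
    · obtain ⟨b, k1, k2⟩ := g2 a.v ha
      have e := (app_code (y := a)).1 k2
      subst e; exact k1
    · obtain ⟨d, d1, d2⟩ := g4 j.v e.code hj fun x hx =>
        let ⟨k, hk⟩ := he (El.mk x hx)
        ⟨num k, num_mem_om k, (dec_iff (eZ j (El.mk x hx) k)).2 ((nums_code e).symm ▸ hk)⟩
      have key : ∀ (B : MM → Prop) (e' : PS ℕ), (∀ m, m ∈ e' → B (num m)) →
          NoneIn mm om g X (App2 mm (rel U) j.v d) B →
          No X' (El.mk g g0) (U (j, El.mk d (lo' d1))) e' := by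
        rintro B e' hB hn _ ⟨y1, ξ, y2, rfl⟩ y3 y4
        exact hn ξ.v y2 (infP_iff.2 (Frequently.mono y1 fun m => (hX ξ m).2))
          (subP_iff.2 (y3.mono fun m x y => (eU _ _ m).2 (x ((hX ξ m).1 y))))
          (subP_iff.2 (y4.mono fun m x y => hB m (x ((hX ξ m).1 y))))
      exact ⟨El.mk d (lo' d1), d1, d2.imp (key _ _ fun m => (PS.enc_mem_code (x := m)).2)
        (key _ _ fun m k k' => k ((PS.enc_mem_code (x := m)).1 k'))⟩

theorem core_of_princ {K X : MM} (h : Princ mm om K X) (A P : Type) [MT A] [MT P] (S : Sp A P)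
    (h2 : S.P2) (y : Fn ℕ P) (hy : Function.Injective y) : ¬ S.Tame :=
  let ⟨_, _, k⟩ := exists_pr h; not_tame k h2 y hy

end Pool.Agent.P.MP_0d6be8_lc.NKW
end
end

-- part Pool.Agent.P.MP_0d6be8_lc.NKIter
section

set_option autoImplicit false

/-! Finite-support iterations with the sequence of iterands as a parameter. -/

open Pool.Agent.Lib.PosetForcing Cardinal

namespace Pool.Agent.P.MP_0d6be8_lc.NKIter

/-- stages -/
abbrev O : Type 1 := Ordinal.{0}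

/-- a well-ordered type of order type `ω₁` -/
abbrev W1 : Type 1 := (Cardinal.aleph.{1} 1).ord.ToType

theorem mk_W1 : Cardinal.mk W1 = ℵ₁ := by simp

instance : Uncountable W1 := by
  rw [← aleph0_lt_mk_iff, mk_W1]; exact aleph0_lt_aleph_one

instance : Small.{0} W1 := by
  rw [small_iff_lift_mk_lt_univ, mk_W1]
  have := lift_lt_univ (Cardinal.aleph.{0} 1)
  simpa using this

theorem countable_Iio (x : W1) : (Set.Iio x).Countable := by
  rw [← le_aleph0_iff_set_countable, ← Order.lt_succ_iff, succ_aleph0]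
  exact (mk_Iio_lt x (by simp)).trans_eq mk_W1

theorem countable_Iic (x : W1) : (Set.Iic x).Countable := by
  rw [← Set.Iio_insert]; exact (countable_Iio x).insert x

/-- countable subsets of `ω₁` are strictly bounded -/
theorem exists_gt_of_countable {S : Set W1} (hS : S.Countable) : ∃ x, ∀ y ∈ S, y < x := by
  obtain ⟨x, -, hx⟩ := nonempty_of_not_countable (not_countable_diff
    (Set.not_countable_univ (α := W1)) (hS.biUnion fun y _ => countable_Iic y))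
  exact ⟨x, fun y hy => not_le.1 fun h => hx (Set.mem_biUnion hy h)⟩

instance small_option {X : Type 1} [Small.{0} X] : Small.{0} (Option X) :=
  small_of_injective (Equiv.optionEquivSumPUnit.{0} X).injective

/-- raw conditions of the iteration -/
@[ext] structure C (Y : Type 1) : Type 1 where
  /-- values -/
  f : O → Option Y
  fin : {γ | f γ ≠ none}.Finite

variable {Y : Type 1}

/-- the empty condition -/
def C.one : C Y := ⟨fun _ => none, by simp⟩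

open Classical in
/-- restriction to an initial segment -/
noncomputable def C.restr (p : C Y) (α : O) : C Y :=
  ⟨fun γ => if γ < α then p.f γ else none, p.fin.subset fun γ h => by
    by_cases hγ : γ < α <;> simp_all⟩

/-- the support is below `α` -/
def Sup (α : O) (p : C Y) : Prop := ∀ γ, p.f γ ≠ none → γ < α

theorem restr_f_of_lt {p : C Y} {α γ : O} (h : γ < α) : (p.restr α).f γ = p.f γ := if_pos h

theorem restr_f_of_ge {p : C Y} {α γ : O} (h : α ≤ γ) : (p.restr α).f γ = none :=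
  if_neg (not_lt.2 h)

theorem restr_restr {p : C Y} {α γ : O} (h : γ ≤ α) : (p.restr α).restr γ = p.restr γ := by
  refine C.ext (funext fun δ => ?_)
  rcases lt_or_ge δ γ with h1 | h1
  · rw [restr_f_of_lt h1, restr_f_of_lt h1, restr_f_of_lt (h1.trans_le h)]
  · rw [restr_f_of_ge h1, restr_f_of_ge h1]

theorem sup_restr (p : C Y) (α : O) : Sup α (p.restr α) := fun γ h => by
  by_contra hγ
  exact h (restr_f_of_ge (not_lt.1 hγ))

theorem Sup.none {p : C Y} {α γ : O} (h : Sup α p) (hγ : α ≤ γ) : p.f γ = none := by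
  by_contra h1
  exact absurd (h γ h1) (not_lt.2 hγ)

theorem Sup.restr_eq {p : C Y} {α : O} (h : Sup α p) : p.restr α = p := by
  refine C.ext (funext fun δ => ?_)
  rcases lt_or_ge δ α with h1 | h1
  · exact restr_f_of_lt h1
  · rw [restr_f_of_ge h1, h.none h1]

theorem Sup.mono {p : C Y} {α β : O} (h : Sup α p) (hβ : α ≤ β) : Sup β p :=
  fun γ hγ => (h γ hγ).trans_le hβ

theorem sup_one (α : O) : Sup α (C.one : C Y) := fun _ h => absurd rfl h

open Classical in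
/-- changing one coordinate -/
noncomputable def C.upd (p : C Y) (α : O) (x : Option Y) : C Y :=
  ⟨Function.update p.f α x, (p.fin.insert α).subset fun γ h => by
    by_cases hγ : γ = α
    · exact Or.inl hγ
    · exact Or.inr (by simpa [hγ] using h)⟩

@[simp] theorem upd_self (p : C Y) (α : O) (x : Option Y) : (p.upd α x).f α = x := by
  simp [C.upd]

theorem upd_of_ne (p : C Y) {α γ : O} (x : Option Y) (h : γ ≠ α) : (p.upd α x).f γ = p.f γ := by
  simp [C.upd, h]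

theorem upd_restr (p : C Y) {α γ : O} (x : Option Y) (h : γ ≤ α) :
    (p.upd α x).restr γ = p.restr γ := by
  refine C.ext (funext fun δ => ?_)
  rcases lt_or_ge δ γ with h1 | h1
  · rw [restr_f_of_lt h1, restr_f_of_lt h1, upd_of_ne _ _ (h1.trans_le h).ne]
  · rw [restr_f_of_ge h1, restr_f_of_ge h1]

/-- forced order relations of iterands -/
abbrev Rel (Y : Type 1) : Type 1 := C Y → Option Y → Option Y → Prop

/-- the laws of an iterand -/
structure IsIt (le : C Y → C Y → Prop) (R : Rel Y) : Prop where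
  mono : ∀ r r' x y, le r' r → R r x y → R r' x y
  trans : ∀ r x y z, R r x y → R r y z → R r x z
  left : ∀ r x y, R r x y → R r x x
  top : ∀ r x, R r x x → R r x none
  nn : ∀ r, R r none none

/-- two-step iteration -/
def two (le : C Y → C Y → Prop) (R : Rel Y) (x y : C Y × Option Y) : Prop :=
  le x.1 y.1 ∧ R x.1 x.2 y.2

/-- the countable chain condition for a relation whose conditions are the `p` with `le p p` -/
def CCCR {D : Type 1} (le : D → D → Prop) : Prop :=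
  ∀ (ι : Type 1) (I : Set ι), ¬ I.Countable → ∀ p : ι → D, (∀ i ∈ I, le (p i) (p i)) →
    ∃ i ∈ I, ∃ j ∈ I, i ≠ j ∧ ∃ r, le r (p i) ∧ le r (p j)

/-- it is enough to treat families indexed by `ω₁` -/
theorem cccr_of_W1 {D : Type 1} {le : D → D → Prop}
    (h : ∀ p : W1 → D, (∀ i, le (p i) (p i)) → ∃ i j, i ≠ j ∧ ∃ r, le r (p i) ∧ le r (p j)) :
    CCCR le := by
  intro ι I hI p hp
  rw [← le_aleph0_iff_set_countable, not_le, ← Order.succ_le_iff, succ_aleph0, ← mk_W1] at hI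
  obtain ⟨e⟩ := (Cardinal.le_def _ _).1 hI
  obtain ⟨i, j, hne, h1⟩ := h (fun x => p (e x).1) fun x => hp _ (e x).2
  exact ⟨_, (e i).2, _, (e j).2, fun h2 => hne (e.injective (Subtype.ext h2)), h1⟩

/-- the order of the stage `α` -/
def leA (R : O → Rel Y) (α : O) (p q : C Y) : Prop :=
  Sup α p ∧ Sup α q ∧ ∀ γ, γ < α → R γ (p.restr γ) (p.f γ) (q.f γ)

theorem leA_congr {R R' : O → Rel Y} {α : O} (h : ∀ γ, γ < α → R' γ = R γ) :
    leA R' α = leA R α := by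
  funext p q
  exact propext (and_congr_right fun _ => and_congr_right fun _ =>
    forall₂_congr fun γ hγ => by rw [h γ hγ])

/-- a good sequence of iterands of length `a` -/
def Good (a : O) (R : O → Rel Y) : Prop :=
  ∀ b, b < a → IsIt (leA R b) (R b) ∧ CCCR (two (leA R b) (R b)) ∧
    Small.{0} {y : Y | ∃ p, R b p (some y) (some y)}

theorem Good.mono {a b : O} {R : O → Rel Y} (h : Good a R) (hb : b ≤ a) : Good b R :=
  fun c hc => h c (hc.trans_le hb)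

theorem Good.congr {a : O} {R R' : O → Rel Y} (h : Good a R) (e : ∀ γ, γ < a → R' γ = R γ) :
    Good a R' := fun b hb => by
  rw [leA_congr fun γ hγ => e γ (hγ.trans hb), e b hb]
  exact h b hb

section stage
variable {R : O → Rel Y} {a b : O} {p q r : C Y}

theorem leA.restr (h : leA R a p q) (hb : b ≤ a) : leA R b (p.restr b) (q.restr b) :=
  ⟨sup_restr _ _, sup_restr _ _, fun γ hγ => by
    rw [restr_restr hγ.le, restr_f_of_lt hγ, restr_f_of_lt hγ]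
    exact h.2.2 γ (hγ.trans_le hb)⟩

theorem leA.restr_le (h : leA R a p q) (hb : b ≤ a) (hq : Sup b q) : leA R b (p.restr b) q := by
  have := h.restr hb
  rwa [hq.restr_eq] at this

theorem leA.down (h : leA R a p q) (hb : b ≤ a) (hp : Sup b p) (hq : Sup b q) : leA R b p q :=
  ⟨hp, hq, fun γ hγ => h.2.2 γ (hγ.trans_le hb)⟩

theorem Good.trans (g : Good a R) (h : leA R a p q) (h' : leA R a q r) : leA R a p r :=
  ⟨h.1, h'.2.1, fun γ hγ => (g γ hγ).1.trans _ _ _ _ (h.2.2 γ hγ)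
    ((g γ hγ).1.mono _ _ _ _ (h.restr hγ.le) (h'.2.2 γ hγ))⟩

theorem Good.left (g : Good a R) (h : leA R a p q) : leA R a p p :=
  ⟨h.1, h.1, fun γ hγ => (g γ hγ).1.left _ _ _ (h.2.2 γ hγ)⟩

theorem Good.up (g : Good a R) (hb : b ≤ a) (h : leA R b p q) : leA R a p q :=
  ⟨h.1.mono hb, h.2.1.mono hb, fun γ hγ => by
    rcases lt_or_ge γ b with h1 | h1
    · exact h.2.2 γ h1
    · rw [h.1.none h1, h.2.1.none h1]
      exact (g γ hγ).1.nn _⟩

theorem Good.le_restr (g : Good a R) (h : leA R a p p) (b : O) : leA R a p (p.restr b) :=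
  ⟨h.1, fun γ hγ => h.1 γ fun e => hγ (by
    rcases lt_or_ge γ b with h1 | h1
    · rw [restr_f_of_lt h1, e]
    · exact restr_f_of_ge h1), fun γ hγ => by
    rcases lt_or_ge γ b with h1 | h1
    · rw [restr_f_of_lt h1]; exact h.2.2 γ hγ
    · rw [restr_f_of_ge h1]; exact (g γ hγ).1.top _ _ (h.2.2 γ hγ)⟩

theorem Good.le_one (g : Good a R) (h : leA R a p p) : leA R a p C.one :=
  ⟨h.1, sup_one _, fun γ hγ => (g γ hγ).1.top _ _ (h.2.2 γ hγ)⟩

theorem Good.one_le (g : Good a R) : leA R a C.one C.one :=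
  ⟨sup_one _, sup_one _, fun γ hγ => (g γ hγ).1.nn _⟩

theorem leA_of_forall {ι : Type} {s : C Y} {p : ι → C Y} (hs : Sup a s) (hp : ∀ i, Sup a (p i))
    (h : ∀ γ, γ < a → (∀ i, leA R γ (s.restr γ) ((p i).restr γ)) →
      ∀ i, R γ (s.restr γ) (s.f γ) ((p i).f γ)) : ∀ i, leA R a s (p i) := by
  have key : ∀ γ, γ < a → ∀ i, R γ (s.restr γ) (s.f γ) ((p i).f γ) := by
    intro γ
    induction γ using WellFoundedLT.induction with
    | ind γ ih =>
      refine fun hγ => h γ hγ fun i => ⟨sup_restr _ _, sup_restr _ _, fun δ hδ => ?_⟩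
      rw [restr_restr hδ.le, restr_f_of_lt hδ, restr_f_of_lt hδ]
      exact ih δ hδ (hδ.trans hγ) i
  exact fun i => ⟨hs, hp i, fun γ hγ => key γ hγ i⟩

theorem Good.amalg (g : Good a R) (hb : b ≤ a) (hp : leA R a p p) (hq : leA R a q q)
    (h1 : leA R b r (p.restr b)) (h2 : leA R b r (q.restr b))
    (hd : ∀ γ, b ≤ γ → p.f γ = none ∨ q.f γ = none) :
    ∃ s, leA R a s p ∧ leA R a s q ∧ s.restr b = r ∧ ∀ γ, b ≤ γ → s.f γ = (p.f γ).or (q.f γ) := by
  classical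
  let s : C Y := ⟨fun γ => if γ < b then r.f γ else (p.f γ).or (q.f γ),
    ((r.fin.union p.fin).union q.fin).subset fun γ h => by
      by_contra hcon
      simp only [Set.mem_union, Set.mem_ofPred_eq, not_or, not_not] at hcon
      simp [hcon] at h⟩
  have e1 : s.restr b = r := C.ext (funext fun γ => by
    rcases lt_or_ge γ b with h | h
    · rw [restr_f_of_lt h]; exact if_pos h
    · rw [restr_f_of_ge h, h1.1.none h])
  have e2 : ∀ γ, b ≤ γ → s.f γ = (p.f γ).or (q.f γ) := fun γ h => if_neg (not_lt.2 h)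
  have hs : Sup a s := fun γ hγ => by
    rcases lt_or_ge γ b with h | h
    · exact h.trans_le hb
    · rw [e2 γ h] at hγ
      by_cases h3 : p.f γ = none
      · exact hq.1 γ (by simpa [h3] using hγ)
      · exact hp.1 γ h3
  have key := leA_of_forall (R := R) (ι := Bool) (s := s) (p := fun c => if c then p else q) hs
    (by rintro (_ | _); exacts [hq.1, hp.1]) (by
      intro γ hγa h
      rcases lt_or_ge γ b with hγ | hγ
      · have e3 : s.restr γ = r.restr γ := by rw [← e1, restr_restr hγ.le]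
        have e4 : s.f γ = r.f γ := if_pos hγ
        rw [e3, e4]
        rintro (_ | _)
        · exact restr_f_of_lt (p := q) hγ ▸ h2.2.2 γ hγ
        · exact restr_f_of_lt (p := p) hγ ▸ h1.2.2 γ hγ
      · have g1 := (g γ hγa).1.mono _ _ _ _ (h true) (hp.2.2 γ hγa)
        have g2 := (g γ hγa).1.mono _ _ _ _ (h false) (hq.2.2 γ hγa)
        rw [e2 γ hγ]
        rcases hd γ hγ with h3 | h3
        · rintro (_ | _)
          · simpa [h3] using g2
          · simpa [h3] using (g γ hγa).1.top _ _ g2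
        · rintro (_ | _)
          · simpa [h3] using (g γ hγa).1.top _ _ g1
          · simpa [h3] using g1)
  exact ⟨s, key true, key false, e1, e2⟩

theorem Good.amalg1 (g : Good a R) (hb : b ≤ a) (hp : leA R a p p) (h1 : leA R b r (p.restr b)) :
    ∃ s, leA R a s p ∧ leA R a s r ∧ s.restr b = r ∧ ∀ γ, b ≤ γ → s.f γ = p.f γ := by
  have h2 := (g.mono hb).left h1
  obtain ⟨s, g1, g2, g3, g4⟩ := g.amalg hb hp (g.up hb h2) h1 (by rwa [h1.1.restr_eq])
    fun γ h => Or.inr (h1.1.none h)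
  exact ⟨s, g1, g2, g3, fun γ h => by rw [g4 γ h, h1.1.none h, Option.or_none]⟩

theorem Good.upd_le (g : Good a R) (hp : leA R a p p) (hb : b < a) {x : Option Y}
    (h : R b (p.restr b) x (p.f b)) : leA R a (p.upd b x) p := by
  refine leA_of_forall (ι := Unit) (p := fun _ => p) (fun γ hγ => ?_) (fun _ => hp.1)
    (fun γ hγ h1 _ => ?_) ()
  · by_cases e : γ = b
    · exact e ▸ hb
    · exact hp.1 γ (upd_of_ne p x e ▸ hγ)
  · by_cases e : γ = b
    · subst e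
      rwa [upd_self, upd_restr _ _ le_rfl]
    · rw [upd_of_ne _ _ e]
      exact (g γ hγ).1.mono _ _ _ _ (h1 ()) (hp.2.2 γ hγ)

theorem leA_succ_of_two {x : Option Y} (hp : Sup (Order.succ a) p)
    (h : two (leA R a) (R a) (r, x) (p.restr a, p.f a)) :
    leA R (Order.succ a) (r.upd a x) p := by
  refine ⟨fun γ hγ => ?_, hp, fun γ hγ => ?_⟩
  · by_cases e : γ = a
    · exact e ▸ Order.lt_succ a
    · rw [upd_of_ne _ _ e] at hγ
      exact (h.1.1 γ hγ).trans (Order.lt_succ a)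
  · rcases (Order.lt_succ_iff.1 hγ).lt_or_eq with e | rfl
    · rw [upd_restr _ _ e.le, upd_of_ne _ _ e.ne, ← restr_f_of_lt (p := p) e]
      exact h.1.2.2 γ e
    · rw [upd_restr _ _ le_rfl, upd_self, h.1.1.restr_eq]
      exact h.2

/-- a finite support below a nonzero ordinal without a largest element is bounded below it -/
theorem exists_lt_of_finite {S : Set O} (hS : S.Finite) (ha : Order.IsSuccLimit a)
    (h : ∀ γ ∈ S, γ < a) : ∃ β < a, ∀ γ ∈ S, γ < β := by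
  rcases S.eq_empty_or_nonempty with rfl | hne
  · exact ⟨0, ha.pos, by simp⟩
  · obtain ⟨m, hm, hm'⟩ := S.exists_max_image id hS hne
    exact ⟨Order.succ m, ha.succ_lt (h m hm), fun γ hγ => Order.lt_succ_iff.2 (hm' γ hγ)⟩

theorem Good.cccr (g : Good a R) : CCCR (leA R a) := by
  classical
  induction a using Ordinal.limitRecOn with
  | zero =>
    intro ι I hI p hp
    obtain ⟨i, hi, j, hj, hne⟩ := exists_ne_of_not_countable hI
    exact ⟨i, hi, j, hj, hne, C.one, ⟨sup_one _, (hp i hi).1, fun γ h => absurd h (by simp)⟩,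
      sup_one _, (hp j hj).1, fun γ h => absurd h (by simp)⟩
  | add_one a _ =>
    intro ι I hI p hp
    obtain ⟨i, hi, j, hj, hne, r, r1, r2⟩ := (g a (Order.lt_succ a)).2.1 ι I hI
      (fun i => ((p i).restr a, (p i).f a))
      fun i hi => ⟨(hp i hi).restr (Order.le_succ a), (hp i hi).2.2 a (Order.lt_succ a)⟩
    exact ⟨i, hi, j, hj, hne, r.1.upd a r.2, leA_succ_of_two (hp i hi).1 r1,
      leA_succ_of_two (hp j hj).1 r2⟩
  | limit a ha ih =>
    intro ι I0 hI0 p hp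
    obtain ⟨D, I, hsub, hI, hD, hD'⟩ := exists_delta (fun ξ => (p ξ).fin.toFinset) hI0
    obtain ⟨ξ0, hξ0⟩ := nonempty_of_not_countable hI
    obtain ⟨β, hβ, hβ'⟩ := exists_lt_of_finite D.finite_toSet ha fun γ hγ =>
      (hp ξ0 (hsub hξ0)).1 γ ((p ξ0).fin.mem_toFinset.1 (hD ξ0 hξ0 hγ))
    obtain ⟨ξ, hξ, η, hη, hne, r, r1, r2⟩ := ih β hβ (g.mono hβ.le) ι I hI
      (fun ξ => (p ξ).restr β) fun ξ hξ => (hp ξ (hsub hξ)).restr hβ.le
    obtain ⟨u, u1, u2, -⟩ := g.amalg hβ.le (hp ξ (hsub hξ)) (hp η (hsub hη)) r1 r2 fun γ hγ => by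
      by_contra hcon
      push Not at hcon
      exact absurd (hβ' γ (hD' ξ hξ η hη hne γ ((p ξ).fin.mem_toFinset.2 hcon.1)
        ((p η).fin.mem_toFinset.2 hcon.2))) (not_lt.2 hγ)
    exact ⟨ξ, hsub hξ, η, hsub hη, hne, u, u1, u2⟩

theorem Good.small (g : Good a R) : Small.{0} {p : C Y // leA R a p p} := by
  have h1 : ∀ b : Set.Iio a, Small.{0} {y : Y | ∃ p, R b.1 p (some y) (some y)} :=
    fun b => (g b.1 b.2).2.2
  have h2 : ∀ (p : {p : C Y // leA R a p p}) (b : Set.Iio a),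
      ∃ z : Option {y : Y | ∃ p, R b.1 p (some y) (some y)}, z.map Subtype.val = p.1.f b.1 := by
    intro p b
    have h3 := p.2.2.2 b.1 b.2
    rcases e : p.1.f b.1 with _ | y
    · exact ⟨none, rfl⟩
    · rw [e] at h3
      exact ⟨some ⟨y, _, h3⟩, rfl⟩
  choose z hz using h2
  refine small_of_injective (f := z) fun p q h => Subtype.ext (C.ext (funext fun γ => ?_))
  rcases lt_or_ge γ a with hγ | hγ
  · rw [← hz p ⟨γ, hγ⟩, ← hz q ⟨γ, hγ⟩, h]
  · rw [p.2.1.none hγ, q.2.1.none hγ]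

end stage

end Pool.Agent.P.MP_0d6be8_lc.NKIter
end

-- part Pool.Agent.P.MP_0d6be8_lc.MQ
section

set_option autoImplicit false

/-! The iterand with items and promises, and the chain condition of the two-step iteration. -/

open Pool.Agent.Lib.PosetForcing

namespace Pool.Agent.P.MP_0d6be8_lc.MQ

universe u

variable {D : Type u} [Preorder D]

/-- `x p d` reads: `p` forces `d ∈ x` -/
def Mon (x : D → ℕ → Prop) : Prop := ∀ p q d, q ≤ p → x p d → x q d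

/-- `p` forces that `x` is infinite -/
def Inf (p : D) (x : D → ℕ → Prop) : Prop := ∀ q ≤ p, ∀ n, ∃ r ≤ q, ∃ d, n ≤ d ∧ x r d

/-- `p` forces that `x` is almost contained in `y` -/
def Sub (p : D) (x y : D → ℕ → Prop) : Prop :=
  ∀ q ≤ p, ∃ r ≤ q, ∃ N, ∀ d, N ≤ d → ∀ s ≤ r, x s d → ∃ t ≤ s, y t d

/-- `p` forces that `x` and `y` are almost disjoint -/
def Dis (p : D) (x y : D → ℕ → Prop) : Prop :=
  ∀ q ≤ p, ∃ r ≤ q, ∃ N, ∀ d, N ≤ d → ∀ s ≤ r, x s d → ¬ y s d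

section
variable {p q : D} {x y z : D → ℕ → Prop}

theorem Inf.mono (h : Inf p x) (hq : q ≤ p) : Inf q x := fun r hr => h r (hr.trans hq)
theorem Sub.mono (h : Sub p x y) (hq : q ≤ p) : Sub q x y := fun r hr => h r (hr.trans hq)
theorem Dis.mono (h : Dis p x y) (hq : q ≤ p) : Dis q x y := fun r hr => h r (hr.trans hq)

theorem Sub.trans (h : Sub p x y) (h' : Sub p y z) : Sub p x z := fun q hq => by
  obtain ⟨r, hr, N, hN⟩ := h q hq
  obtain ⟨r', hr', N', hN'⟩ := h' r (hr.trans hq)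
  refine ⟨r', hr'.trans hr, max N N', fun d hd s hs hx => ?_⟩
  obtain ⟨t, ht, hy⟩ := hN d (le_of_max_le_left hd) s (hs.trans hr') hx
  obtain ⟨t', ht', hz⟩ := hN' d (le_of_max_le_right hd) t (ht.trans hs) hy
  exact ⟨t', ht'.trans ht, hz⟩

theorem Inf.meet (h : Inf p x) (hx : Mon x) (h' : Sub p x y) (n : ℕ) :
    ∃ q ≤ p, ∃ d, n ≤ d ∧ x q d ∧ y q d := by
  obtain ⟨r, hr, N, hN⟩ := h' p le_rfl
  obtain ⟨s, hs, d, hd, h1⟩ := h r hr (max n N)
  obtain ⟨t, ht, h2⟩ := hN d (le_of_max_le_right hd) s hs h1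
  exact ⟨t, (ht.trans hs).trans hr, d, le_of_max_le_left hd, hx _ _ _ ht h1, h2⟩

end

theorem exists_above {W : Type*} [LinearOrder W] [Uncountable W] (hW : ∀ i : W, (Set.Iic i).Countable)
    {T : Set W} (hT : T.Countable) : ∃ i, ∀ x ∈ T, x < i := by
  obtain ⟨i, -, hi⟩ := nonempty_of_not_countable
    (not_countable_diff Set.not_countable_univ (hT.biUnion fun x _ => hW x))
  exact ⟨i, fun x hx => lt_of_not_ge fun h => hi (Set.mem_biUnion hx h)⟩

theorem exists_enum {ι X Y : Type*} [Countable Y] (N : ι → Finset X) (c : X → Y) {I : Set ι}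
    (hI : ¬ I.Countable) : ∃ (n : ℕ) (e : ι → Fin n → X) (t : Fin n → Y), ∃ I' ⊆ I,
      ¬ I'.Countable ∧ ∀ a ∈ I', (∀ x, x ∈ N a ↔ ∃ v, e a v = x) ∧ ∀ v, c (e a v) = t v := by
  obtain ⟨n, hn⟩ := exists_fiber (fun a => (N a).card) hI
  have h1 : ∀ a, (N a).card = n → ∃ e : Fin n → X, ∀ x, x ∈ N a ↔ ∃ v, e v = x := fun a h =>
    ⟨fun v => ((N a).equivFinOfCardEq h).symm v, fun x =>
      ⟨fun hx => ⟨(N a).equivFinOfCardEq h ⟨x, hx⟩, by simp⟩, fun ⟨_, hv⟩ => hv ▸ Subtype.prop _⟩⟩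
  obtain ⟨a0, h0⟩ := nonempty_of_not_countable hn
  have : Nonempty (Fin n → X) := ⟨(h1 a0 h0.2).choose⟩
  choose! e he using h1
  obtain ⟨t, ht⟩ := exists_fiber (fun a v => c (e a v)) hn
  exact ⟨n, e, t, _, fun a ha => ha.1.1, ht, fun a ha => ⟨he a ha.1.2, congrFun ha.2⟩⟩

section core
variable {W : Type*} [LinearOrder W] [Uncountable W]

theorem core (hD : CCC D) (hW : ∀ i : W, (Set.Iic i).Countable) {ι V : Type*} [Countable V]
    {I : Set ι} (p : ι → D) (U : V → W → D → ℕ → Prop) (z : ι → V → D → ℕ → Prop) (lv : ι → V → W)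
    (hU : ∀ a ∈ I, ∀ v i i', i ≤ i' → Sub (p a) (U v i') (U v i))
    (hdec : ∀ a ∈ I, ∀ v y, Mon y → ∀ q ≤ p a, ∃ r ≤ q, ∃ i, Sub r (U v i) y ∨ Dis r (U v i) y)
    (hz : ∀ a ∈ I, ∀ v, Mon (z a v) ∧ Inf (p a) (z a v) ∧ Sub (p a) (z a v) (U v (lv a v)))
    (hlv : ∀ i, {a | a ∈ I ∧ ∃ v, lv a v ≤ i}.Countable) :
    ∃ (E T : Set ι) (i : W), E.Countable ∧ T.Countable ∧ T ⊆ I ∧ ∀ b ∈ I, b ∉ E →
      ∀ L : List (V × (D → ℕ → Prop) × ℕ),
        (∀ t ∈ L, Mon t.2.1 ∧ Inf (p b) t.2.1 ∧ Sub (p b) t.2.1 (U t.1 i)) →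
        ∃ a ∈ T, ∃ q, q ≤ p a ∧ q ≤ p b ∧ ∀ t ∈ L, ∃ d, t.2.2 ≤ d ∧ z a t.1 q d ∧ t.2.1 q d := by
  let M : List (V × ℕ) → ι → D → Prop := fun s a q =>
    a ∈ I ∧ q ≤ p a ∧ ∀ x ∈ s, z a x.1 q x.2
  have hM : ∀ s a q r, r ≤ q → M s a q → M s a r := fun s a q r hr h =>
    ⟨h.1, hr.trans h.2.1, fun x hx => (hz a h.1 _).1 _ _ _ hr (h.2.2 x hx)⟩
  let K : List (V × ℕ) → D → Set ι := fun s q => {a | ∃ r ≤ q, M s a r}
  choose A hA1 hA2 hA3 using fun s => hD.exists_antichain {q | (K s q).Countable}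
  let E : Set ι := ⋃ s, ⋃ q ∈ A s, K s q
  have hE : E.Countable := Set.countable_iUnion fun s => (hA2 s).biUnion fun q hq => hA1 s hq
  let Lg : List (V × ℕ) → D → Prop := fun s q => ∀ r ≤ q, ¬ (K s r).Countable
  have h1 : ∀ s a q, M s a q → a ∉ E → Lg s q := fun s a q h ha r hr hc => by
    obtain ⟨q0, h0, t, t1, t2⟩ := hA3 s r hc
    exact ha (Set.mem_iUnion.2 ⟨s, Set.mem_biUnion h0 ⟨t, t1, hM _ _ _ _ (t2.trans hr) h⟩⟩)
  let y : List (V × ℕ) × V → D → ℕ → Prop := fun s q d => Lg ((s.2, d) :: s.1) q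
  have hy : ∀ s, Mon (y s) := fun s q r d hr h t ht => h t (ht.trans hr)
  choose B hB1 hB2 hB3 using fun s : List (V × ℕ) × V =>
    hD.exists_antichain {r | ∃ i, Sub r (U s.2 i) (y s) ∨ Dis r (U s.2 i) (y s)}
  have : Nonempty W := inferInstance
  choose! f hf using hB1
  obtain ⟨i, hi⟩ := exists_above hW
    (Set.countable_iUnion fun s => (hB2 s).image fun q => f s (a := q))
  have h2 : ∀ s q, Lg s.1 q → Sub q (U s.2 i) (y s) := fun s q h q1 hq1 => by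
    obtain ⟨a1, r1, e1, e2⟩ := nonempty_of_not_countable (h q1 hq1)
    obtain ⟨r, e3, hr'⟩ := hdec a1 e2.1 s.2 _ (hy s) r1 e2.2.1
    have hr := e3.trans e1
    obtain ⟨q0, h0, q2, g1, g2⟩ := hB3 s r hr'
    have hlt := hi _ (Set.mem_iUnion.2 ⟨s, q0, h0, rfl⟩)
    rcases hf s h0 with h3 | h3
    · obtain ⟨t, ht, h4⟩ := ((hU a1 e2.1 _ _ _ hlt.le).mono ((g2.trans e3).trans e2.2.1)).trans
        (h3.mono g1) q2 le_rfl
      exact ⟨t, (ht.trans g2).trans hr, h4⟩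
    · obtain ⟨q3, g3, N, hN⟩ := h3 q2 g1
      obtain ⟨a, ⟨q4, g4, ha⟩, ha'⟩ := nonempty_of_not_countable (not_countable_diff
        (h q3 (((g3.trans g2).trans hr).trans hq1)) (hE.union (hlv i)))
      have h5 : i ≤ lv a s.2 := le_of_not_ge fun h => ha' (Or.inr ⟨ha.1, _, h⟩)
      obtain ⟨q5, g5, d, hd, k1, k2⟩ := ((hz a ha.1 s.2).2.1.mono ha.2.1).meet (hz a ha.1 s.2).1
        (((hz a ha.1 s.2).2.2.trans (hU a ha.1 _ _ _ (hlt.le.trans h5))).mono ha.2.1) N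
      refine (hN d hd q5 (g5.trans g4) k2 (h1 _ a _ ?_ fun h => ha' (Or.inl h))).elim
      have := hM _ _ _ _ g5 ha
      exact ⟨ha.1, this.2.1, List.forall_mem_cons.2 ⟨k1, this.2.2⟩⟩
  choose C hC1 hC2 hC3 using fun s => hD.exists_antichain {q | ∃ a, M s a q}
  choose w hw using hC1
  refine ⟨E, ⋃ s, ⋃ q ∈ C s, {a | ∃ h : q ∈ C s, w s h = a}, i, hE, Set.countable_iUnion fun s =>
    (hC2 s).biUnion fun q _ => Set.Subsingleton.countable ?_, fun a ha => ?_, fun b hb hbE L hL => ?_⟩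
  · rintro _ ⟨_, rfl⟩ _ ⟨_, rfl⟩
    rfl
  · simp only [Set.mem_iUnion] at ha
    obtain ⟨s, q, -, h, rfl⟩ := ha
    exact (hw s h).1
  have h3 : ∃ s, ∃ q ≤ p b, Lg s q ∧ ∀ t ∈ L, ∃ d, t.2.2 ≤ d ∧ (t.1, d) ∈ s ∧ t.2.1 q d := by
    induction L with
    | nil => exact ⟨[], _, le_rfl, h1 _ b _ ⟨hb, le_rfl, by simp⟩ hbE, by simp⟩
    | cons t L ih =>
      obtain ⟨s, q, hq, g1, g2⟩ := ih fun t ht => hL t (List.mem_cons_of_mem _ ht)
      obtain ⟨k1, k2, k3⟩ := hL t List.mem_cons_self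
      obtain ⟨r, hr, d, hd, k4, k5⟩ := (k2.mono hq).meet k1
        ((k3.mono hq).trans (h2 (s, t.1) q g1)) t.2.2
      refine ⟨_, r, hr.trans hq, k5, List.forall_mem_cons.2 ⟨⟨d, hd, List.mem_cons_self, k4⟩,
        fun t' ht' => ?_⟩⟩
      obtain ⟨d', k6, k7, k8⟩ := g2 t' ht'
      exact ⟨d', k6, List.mem_cons_of_mem _ k7, (hL t' (List.mem_cons_of_mem _ ht')).1 _ _ _ hr k8⟩
  obtain ⟨s, q, hq, g1, g2⟩ := h3
  obtain ⟨a1, q1, k1, k2⟩ := nonempty_of_not_countable (g1 q le_rfl)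
  obtain ⟨q0, h0, r, r1, r2⟩ := hC3 s q1 ⟨a1, k2⟩
  have k3 := hM _ _ _ _ r1 (hw s h0)
  refine ⟨w s h0, Set.mem_iUnion.2 ⟨s, Set.mem_biUnion h0 ⟨h0, rfl⟩⟩, r, k3.2.1,
    (r2.trans k1).trans hq, fun t ht => ?_⟩
  obtain ⟨d, k4, k5, k6⟩ := g2 t ht
  exact ⟨d, k4, k3.2.2 _ k5, (hL t ht).1 _ _ _ (r2.trans k1) k6⟩

end core

/-- `p` forces that `U` is a tower deciding every real and that `Z i k` is an infinite set almost
contained in `U i` -/
structure Job {W : Type*} [LE W] (p : D) (U : W → D → ℕ → Prop) (Z : W → ℕ → D → ℕ → Prop) :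
    Prop where
  dec : ∀ i i', i ≤ i' → Sub p (U i') (U i)
  ult : ∀ y, Mon y → ∀ q ≤ p, ∃ r ≤ q, ∃ i, Sub r (U i) y ∨ Dis r (U i) y
  inf : ∀ i k, Inf p (Z i k)
  sub : ∀ i k, Sub p (Z i k) (U i)

theorem Job.mono {W : Type*} [LE W] {p q : D} {U : W → D → ℕ → Prop} {Z : W → ℕ → D → ℕ → Prop}
    (h : Job p U Z) (hq : q ≤ p) : Job q U Z :=
  ⟨fun i i' e => (h.dec i i' e).mono hq, fun y hy r hr => h.ult y hy r (hr.trans hq),
    fun i k => (h.inf i k).mono hq, fun i k => (h.sub i k).mono hq⟩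

/-- finite sets of items `(j, i, k, m)` and of promises `(j, ξ, n, i)` -/
abbrev Cd (J W Ξ : Type*) := Finset (J × W × ℕ × ℕ) × Finset (J × Ξ × ℕ × W)

section main
variable {J W Ξ : Type*} [LinearOrder W] (U : J → W → D → ℕ → Prop)
  (Z : J → W → ℕ → D → ℕ → Prop) (X : Ξ → D → ℕ → Prop)

/-- `p` forces that `c` is a condition -/
def QV (p : D) (c : Cd J W Ξ) : Prop :=
  (∀ x ∈ c.1, Job p (U x.1) (Z x.1)) ∧
    ∀ y ∈ c.2, Inf p (X y.2.1) ∧ Sub p (X y.2.1) (U y.1 y.2.2.2)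

/-- `p` forces that `c` is a condition below `c0` -/
def QR (p : D) (c c0 : Cd J W Ξ) : Prop :=
  QV U Z X p c ∧ c0.1 ⊆ c.1 ∧ c0.2 ⊆ c.2 ∧ ∀ x ∈ c.1, x ∉ c0.1 → ∀ y ∈ c0.2, y.1 = x.1 →
    x.2.1 < y.2.2.2 → y.2.2.1 < x.2.2.2 ∨
      ∃ d, y.2.2.1 ≤ d ∧ Z x.1 x.2.1 x.2.2.1 p d ∧ X y.2.1 p d

variable {U Z X} {p q : D} {c c' c'' : Cd J W Ξ}

theorem QV.mono (h : QV U Z X p c) (hq : q ≤ p) : QV U Z X q c :=
  ⟨fun x hx => (h.1 x hx).mono hq, fun y hy => ⟨(h.2 y hy).1.mono hq, (h.2 y hy).2.mono hq⟩⟩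

theorem QV.refl (h : QV U Z X p c) : QR U Z X p c c :=
  ⟨h, subset_rfl, subset_rfl, fun _ h1 h2 => absurd h1 h2⟩

theorem QV.empty : QV U Z X p (∅, ∅) :=
  ⟨fun _ h => absurd h (Finset.notMem_empty _), fun _ h => absurd h (Finset.notMem_empty _)⟩

theorem QV.top (h : QV U Z X p c) : QR U Z X p c (∅, ∅) :=
  ⟨h, Finset.empty_subset _, Finset.empty_subset _,
    fun _ _ _ _ h => absurd h (Finset.notMem_empty _)⟩

theorem QR.right (h : QR U Z X p c c') : QV U Z X p c' :=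
  ⟨fun x hx => h.1.1 x (h.2.1 hx), fun y hy => h.1.2 y (h.2.2.1 hy)⟩

theorem QR.mono (hZ : ∀ j i k, Mon (Z j i k)) (hX : ∀ ξ, Mon (X ξ)) (h : QR U Z X p c c')
    (hq : q ≤ p) : QR U Z X q c c' :=
  ⟨h.1.mono hq, h.2.1, h.2.2.1, fun x h1 h2 y h3 h4 h5 => (h.2.2.2 x h1 h2 y h3 h4 h5).imp_right
    fun ⟨d, g1, g2, g3⟩ => ⟨d, g1, hZ _ _ _ _ _ _ hq g2, hX _ _ _ _ hq g3⟩⟩

theorem QR.trans (h : QR U Z X p c c') (h' : QR U Z X p c' c'') : QR U Z X p c c'' :=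
  ⟨h.1, h'.2.1.trans h.2.1, h'.2.2.1.trans h.2.2.1, fun x h1 h2 y h3 => by
    by_cases h4 : x ∈ c'.1
    · exact h'.2.2.2 x h4 h2 y h3
    · exact h.2.2.2 x h1 h4 y (h'.2.2.1 h3)⟩

theorem QV.add_item (h : QV U Z X p c) {j : J} (hj : Job p (U j) (Z j)) (i : W) (k : ℕ) :
    ∃ m c', (j, i, k, m) ∈ c'.1 ∧ QR U Z X p c' c := by
  classical
  refine ⟨c.2.sup (fun y => y.2.2.1) + 1, (insert _ c.1, c.2), Finset.mem_insert_self _ _,
    ⟨Finset.forall_mem_insert _ _ _ |>.2 ⟨hj, h.1⟩, h.2⟩, Finset.subset_insert _ _, subset_rfl,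
    fun x h1 h2 y h3 _ _ => Or.inl ?_⟩
  obtain rfl := (Finset.mem_insert.1 h1).resolve_right h2
  exact Nat.lt_succ_of_le (Finset.le_sup (f := fun y : J × Ξ × ℕ × W => y.2.2.1) h3)

theorem QV.add_prom (h : QV U Z X p c) {j : J} {ξ : Ξ} {i : W} (h1 : Inf p (X ξ))
    (h2 : Sub p (X ξ) (U j i)) (n : ℕ) : ∃ c', (j, ξ, n, i) ∈ c'.2 ∧ QR U Z X p c' c := by
  classical
  exact ⟨(c.1, insert _ c.2), Finset.mem_insert_self _ _,
    ⟨h.1, Finset.forall_mem_insert _ _ _ |>.2 ⟨⟨h1, h2⟩, h.2⟩⟩, subset_rfl,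
    Finset.subset_insert _ _, fun _ g1 g2 => absurd g1 g2⟩

theorem ccc [Uncountable W] (hD : CCC D) (hW : ∀ i : W, (Set.Iic i).Countable)
    (hZ : ∀ j i k, Mon (Z j i k)) (hX : ∀ ξ, Mon (X ξ)) {ι : Type*} {I : Set ι}
    (hI : ¬ I.Countable) (p : ι → D) (c : ι → Cd J W Ξ) (h : ∀ a ∈ I, QV U Z X (p a) (c a)) :
    ∃ a ∈ I, ∃ b ∈ I, a ≠ b ∧ ∃ q c', (q ≤ p a ∧ QR U Z X q c' (c a)) ∧
      q ≤ p b ∧ QR U Z X q c' (c b) := by
  classical
  obtain ⟨J0, I1, s1, n1, -, hJ⟩ := exists_delta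
    (fun a => (c a).1.image Prod.fst ∪ (c a).2.image Prod.fst) hI
  let lev : ι → Finset W := fun a => (c a).1.image (·.2.1) ∪ (c a).2.image (·.2.2.2)
  have l1 : ∀ a, ∀ x ∈ (c a).1, x.2.1 ∈ lev a := fun a x hx =>
    Finset.mem_union_left _ (Finset.mem_image_of_mem _ hx)
  have l2 : ∀ a, ∀ y ∈ (c a).2, y.2.2.2 ∈ lev a := fun a x hx =>
    Finset.mem_union_right _ (Finset.mem_image_of_mem _ hx)
  obtain ⟨L0, -, I2, s2, n2, -, hL⟩ := exists_root lev n1
  let av : W → Set ι := fun i => {a | a ∈ I2 ∧ ∃ x ∈ lev a, x ∉ L0 ∧ x ≤ i}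
  have hav : ∀ i, (av i).Countable := fun i => ((hW i).biUnion fun x _ => hL x).mono
    fun a ⟨g1, x, g2, g3, g4⟩ => Set.mem_biUnion g4 (And.intro g1 (Finset.mem_sdiff.2 ⟨g2, g3⟩))
  obtain ⟨i0, hi0⟩ := exists_above hW L0.countable_toSet
  have n3 := not_countable_diff n2 (hav i0)
  obtain ⟨O, n4⟩ : ∃ O : Set (J × W × ℕ × ℕ), ¬ {a | a ∈ I2 \ av i0 ∧
      {x | x ∈ (c a).1 ∧ x.1 ∈ J0 ∧ x.2.1 ∈ L0} = O}.Countable := by
    by_contra hcon
    push Not at hcon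
    refine n3 (((Set.countable_ofPred_finite_subset (J0.countable_toSet.prod
      (L0.countable_toSet.prod (Set.countable_univ (α := ℕ × ℕ))))).biUnion
        fun O _ => hcon O).mono fun a ha => Set.mem_biUnion (x := _) ?_ (And.intro ha rfl))
    exact ⟨(c a).1.finite_toSet.subset fun x hx => hx.1, fun x hx => ⟨hx.2.1, hx.2.2, trivial⟩⟩
  obtain ⟨g, hg⟩ := Set.countable_iff_exists_injOn.1 J0.countable_toSet
  obtain ⟨n, e, t, I5, s5, n5, he⟩ := exists_enum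
    (fun a => (c a).1.filter fun x => x.1 ∈ J0 ∧ x.2.1 ∉ L0) (fun x => g x.1) n4
  have m2 : ∀ a ∈ I5, a ∈ I2 := fun a ha => (s5 ha).1.1
  have m0 : ∀ a ∈ I5, a ∈ I := fun a ha => s1 (s2 (m2 a ha))
  have e1 : ∀ a ∈ I5, ∀ v, e a v ∈ (c a).1 ∧ (e a v).1 ∈ J0 ∧ (e a v).2.1 ∉ L0 := fun a ha v =>
    Finset.mem_filter.1 (((he a ha).1 _).2 ⟨v, rfl⟩)
  obtain ⟨a0, h0⟩ := nonempty_of_not_countable n5
  have e2 : ∀ a ∈ I5, ∀ v, (e a v).1 = (e a0 v).1 := fun a ha v =>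
    hg (e1 a ha v).2.1 (e1 a0 h0 v).2.1 (((he a ha).2 v).trans ((he a0 h0).2 v).symm)
  have e3 : ∀ a ∈ I5, ∀ v, Job (p a) (U (e a0 v).1) (Z (e a0 v).1) := fun a ha v =>
    e2 a ha v ▸ (h a (m0 a ha)).1 _ (e1 a ha v).1
  obtain ⟨E, T, i, hE, hT, sT, key⟩ := core hD hW (I := I5) p (fun v => U (e a0 v).1)
    (fun a v => Z (e a0 v).1 (e a v).2.1 (e a v).2.2.1) (fun a v => (e a v).2.1)
    (fun a ha v => (e3 a ha v).dec) (fun a ha v => (e3 a ha v).ult)
    (fun a ha v => ⟨hZ _ _ _, (e3 a ha v).inf _ _, (e3 a ha v).sub _ _⟩)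
    fun i => (hav i).mono fun a ⟨ha, v, hv⟩ =>
      And.intro (m2 a ha) ⟨_, l1 a _ (e1 a ha v).1, (e1 a ha v).2.2, hv⟩
  obtain ⟨i2, hi2⟩ := exists_above hW
    ((hT.biUnion fun a _ => (lev a).countable_toSet).insert i)
  obtain ⟨b, hb, hb'⟩ := nonempty_of_not_countable
    (not_countable_diff n5 ((hE.union hT).union (hav i2)))
  have b1 : ∀ x ∈ lev b, x ∉ L0 → i2 < x := fun x g1 g2 =>
    lt_of_not_ge fun g3 => hb' (Or.inr ⟨m2 b hb, x, g1, g2, g3⟩)
  obtain ⟨a, ha, q, q1, q2, hq⟩ := key b hb (fun g => hb' (Or.inl (Or.inl g)))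
    ((((Finset.univ : Finset (Fin n)) ×ˢ (c b).2).filter
      fun t => t.2.1 = (e a0 t.1).1 ∧ t.2.2.2.2 ∉ L0).toList.map
        fun t => (t.1, X t.2.2.1, t.2.2.2.1)) (by
      simp only [List.mem_map, Finset.mem_toList, Finset.mem_filter, Finset.mem_product]
      rintro _ ⟨⟨v, y⟩, ⟨⟨-, g1⟩, g2, g3⟩, rfl⟩
      obtain ⟨g4, g5⟩ := (h b (m0 b hb)).2 y g1
      exact ⟨hX _, g4, (g2 ▸ g5 :).trans ((e3 b hb v).dec _ _
        ((hi2 i (Or.inl rfl)).trans (b1 _ (l2 b y g1) g3)).le)⟩)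
  have ha5 := sT ha
  have hne : a ≠ b := fun g => hb' (Or.inl (Or.inr (g ▸ ha)))
  have hV : QV U Z X q ((c a).1 ∪ (c b).1, (c a).2 ∪ (c b).2) :=
    ⟨fun x hx => (Finset.mem_union.1 hx).elim (((h a (m0 a ha5)).mono q1).1 x)
      (((h b (m0 b hb)).mono q2).1 x), fun x hx => (Finset.mem_union.1 hx).elim
      (((h a (m0 a ha5)).mono q1).2 x) (((h b (m0 b hb)).mono q2).2 x)⟩
  have old : ∀ a ∈ I5, ∀ b ∈ I5, a ≠ b → ∀ x ∈ (c a).1, x ∉ (c b).1 → ∀ y ∈ (c b).2, y.1 = x.1 →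
      x.1 ∈ J0 ∧ x.2.1 ∉ L0 := fun a ha b hb hne x g1 g2 y g3 g4 => by
    have g5 := hJ a (s2 (m2 a ha)) b (s2 (m2 b hb)) hne x.1
      (Finset.mem_union_left _ (Finset.mem_image_of_mem _ g1))
      (Finset.mem_union_right _ (g4 ▸ Finset.mem_image_of_mem _ g3))
    refine ⟨g5, fun g6 => g2 ?_⟩
    exact (Set.ext_iff.1 ((s5 ha).2.trans (s5 hb).2.symm) x).1 ⟨g1, g5, g6⟩ |>.1
  refine ⟨a, m0 a ha5, b, m0 b hb, hne, q, _, ⟨q1, hV, Finset.subset_union_left,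
    Finset.subset_union_left, fun x g1 g2 y g3 g4 g5 => ?_⟩, q2, hV, Finset.subset_union_right,
    Finset.subset_union_right, fun x g1 g2 y g3 g4 g5 => Or.inr ?_⟩
  · have g6 := (Finset.mem_union.1 g1).resolve_left g2
    exact absurd (((hi2 _ (Or.inr (Set.mem_biUnion ha (l2 a y g3)))).trans
      (b1 _ (l1 b x g6) (old b hb a ha5 hne.symm x g6 g2 y g3 g4).2)).trans g5) (lt_irrefl _)
  · have g6 := (Finset.mem_union.1 g1).resolve_right g2
    have g7 := old a ha5 b hb hne x g6 g2 y g3 g4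
    obtain ⟨v, rfl⟩ := ((he a ha5).1 x).1 (Finset.mem_filter.2 ⟨g6, g7⟩)
    have g8 : y.2.2.2 ∉ L0 := fun g => (s5 ha5).1.2
      ⟨m2 a ha5, _, l1 a _ g6, g7.2, (g5.trans (hi0 _ g)).le⟩
    rw [e2 a ha5 v] at g4 ⊢
    exact hq (v, X y.2.1, y.2.2.1) (List.mem_map.2 ⟨(v, y), Finset.mem_toList.2
      (Finset.mem_filter.2 ⟨Finset.mem_product.2 ⟨Finset.mem_univ _, g3⟩, g4, g8⟩), rfl⟩)

end main

end Pool.Agent.P.MP_0d6be8_lc.MQ
end

-- part Pool.Agent.P.MP_0d6be8_lc.NKGMA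
section

set_option autoImplicit false

/-! Ground form of MA. -/

open Pool.Agent.Lib.PosetForcing

namespace Pool.Agent.P.MP_0d6be8_lc

/-- `ρ r x y` reads: `r` forces `x ≤ y`; below `p0` this is a preorder on its domain and the
two-step iteration is ccc. -/
structure Task {P : Type 1} [Preorder P] (p0 : P) {X : Type} (ρ : P → X → X → Prop) : Prop where
  mono : ∀ r r' x y, r' ≤ r → ρ r x y → ρ r' x y
  reg : ∀ r x y, Dn (fun s => ρ s x y) r → ρ r x y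
  trans : ∀ r x y z, r ≤ p0 → ρ r x y → ρ r y z → ρ r x z
  left : ∀ r x y, r ≤ p0 → ρ r x y → ρ r x x
  ccc : ∀ (ι : Type 1) (I : Set ι), ¬ I.Countable → ∀ (p : ι → P) (x : ι → X),
    (∀ i ∈ I, p i ≤ p0 ∧ ρ (p i) (x i) (x i)) →
    ∃ i ∈ I, ∃ j ∈ I, i ≠ j ∧ ∃ r z, r ≤ p i ∧ r ≤ p j ∧ ρ r z (x i) ∧ ρ r z (x j)

/-- `v s` is the value of `s` at a coordinate that is generic for `ρ`. -/
structure Coord {P : Type 1} [Preorder P] (p0 : P) {X : Type} (ρ : P → X → X → Prop)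
    (v : P → Option X) : Prop where
  le : ∀ s s1 x, s ≤ s1 → v s1 = some x → ∃ x', v s = some x' ∧ ρ s x' x
  ext : ∀ s ≤ p0, ∀ r ≤ s, ∀ y, ρ r y y → (∀ x, v s = some x → ρ r y x) →
    ∃ s' ≤ s, v s' = some y

/-- Every small task has a generic coordinate. -/
def GMA (P : Type 1) [Preorder P] : Prop :=
  ∀ (p0 : P) (X : Type) (ρ : P → X → X → Prop), Task p0 ρ → ∃ v, Coord p0 ρ v

end Pool.Agent.P.MP_0d6be8_lc
end

-- part Pool.Agent.P.MP_0d6be8_lc.GDefs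
section

set_option autoImplicit false

/-! Ground forms of the principles, for an arbitrary preorder. -/

open Pool.Agent.Lib.PosetForcing

namespace Pool.Agent.P.MP_0d6be8_lc

open NKIter MQ

variable (P : Type 1) [Preorder P]

/-- Ground form of `PL`. -/
def GPL : Prop :=
  ∀ (p0 : P) (X : O → P → ℕ → Prop) (T : O → O → P → ℕ → Prop) (Z : O → O → ℕ → P → ℕ → Prop)
    (F : O → O), (∀ x, Mon (X x)) → (∀ j x, Mon (T j x)) → (∀ j x k, Mon (Z j x k)) →
    (∀ j x y, y < x → Sub p0 (T j x) (T j y)) →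
    (∀ j e, Mon e → ∀ q ≤ p0, ∃ r ≤ q, ∃ x, Sub r (T j x) e ∨ Dis r (T j x) e) →
    (∀ j x k, Inf p0 (Z j x k) ∧ Sub p0 (Z j x k) (T j x)) →
    ∃ g : O, 0 < g ∧ (∀ a < g, F a < g) ∧
      (∀ f : ℕ → O, (∀ n, f n < g) → ∃ d < g, ∀ n, f n < d) ∧
      ∀ j < g, ∀ e, Mon e → ∀ p ≤ p0,
        (∀ x, ∀ q ≤ p, ∃ r ≤ q, ∃ k, Sub r (Z j x k) e ∨ Dis r (Z j x k) e) →
        ∃ q ≤ p, ∃ d < g,
          (∀ x < g, ∀ r ≤ q, Inf r (X x) → Sub r (X x) (T j d) → ¬ Sub r (X x) e) ∨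
          (∀ x < g, ∀ r ≤ q, Inf r (X x) → Sub r (X x) (T j d) → ¬ Dis r (X x) e)

/-- What the iteration provides. -/
structure GP : Prop where
  ccc : CCC P
  card : Cardinal.mk P ≤ Cardinal.univ.{0, 1}
  gma : GMA P
  gpl : GPL P

end Pool.Agent.P.MP_0d6be8_lc
end

-- part Pool.Agent.P.MP_0d6be8_lc.BBr
section

set_option autoImplicit false

/-! Bridge between forced statements about sets of numbers and their ground forms. -/

open Pool.Agent.Lib.PosetForcing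

namespace Pool.Agent.P.MP_0d6be8_lc

open NKIter MQ

variable {P : Type 1} [Preorder P] [OrderTop P]

/-- the ground form of a set of numbers -/
def gr (A : ∀ U : Gen P, Mod U → Prop) (p : P) (n : ℕ) : Prop :=
  Forces p fun U => A U ((natName n).val U)

theorem gr_mon (A : ∀ U : Gen P, Mod U → Prop) : Mon (gr A) := fun _ _ _ hq h => h.mono hq

omit [OrderTop P] in
instance clopen_app2 (f a b d : Name P) :
    Clopen fun U : Gen P => App2 Mod.mem (f.val U) (a.val U) (b.val U) (d.val U) := by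
  unfold App2; infer_instance

omit [OrderTop P] in
instance clopen_app3 (f a b c d : Name P) :
    Clopen fun U : Gen P => App3 Mod.mem (f.val U) (a.val U) (b.val U) (c.val U) (d.val U) := by
  unfold App3; infer_instance

variable (A B : ∀ U : Gen P, Mod U → Prop) [∀ a : Name P, Clopen fun U => A U (a.val U)]
  [∀ a : Name P, Clopen fun U => B U (a.val U)]

omit [OrderTop P] in
instance clopen_infP (w : Name P) : Clopen fun U : Gen P => InfP Mod.mem (w.val U) (A U) := by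
  unfold InfP; infer_instance

omit [OrderTop P] in
instance clopen_subP (w : Name P) :
    Clopen fun U : Gen P => SubP Mod.mem (w.val U) (A U) (B U) := by
  unfold SubP; infer_instance

omit [OrderTop P] in
instance clopen_dec (w e : Name P) :
    Clopen fun U : Gen P => Dec Mod.mem (w.val U) (A U) (e.val U) := by
  unfold Dec; infer_instance

theorem forces_exists_omega {p : P}
    (h : Forces p fun U => ∃ m, Mod.mem m (omegaName.val U) ∧ A U m) : ∃ q ≤ p, ∃ n, gr A q n := by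
  obtain ⟨m, hm⟩ := Forces.exists_name (Φ := fun U m => Mod.mem m (omegaName.val U) ∧ A U m) h
  obtain ⟨q, hq, n, hn⟩ := Forces.exists_fam (hm.imp fun _ h => h.1)
  exact ⟨q, hq, n.down, ((hm.mono hq).and hn).imp fun U h => h.2 ▸ h.1.2⟩

theorem forces_infP {p : P} :
    (Forces p fun U => InfP Mod.mem (omegaName.val U) (A U)) ↔ Inf p (gr A) := by
  constructor
  · intro h q hq n
    obtain ⟨r, hr, d, hd⟩ := forces_exists_omega
      (fun U m => ¬ Mod.mem m ((natName n).val U) ∧ A U m)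
      ((h.mono hq).imp fun U h => h _ (natName_mem_omega n U))
    obtain ⟨U, hU⟩ := hd.exists
    exact ⟨r, hr, d, not_lt.1 fun e => hU.1 (natName_mem e U), hd.imp fun _ h => h.2⟩
  · intro h
    refine forces_forall_mem_omega (Φ := fun U n => ∃ m, Mod.mem m (omegaName.val U) ∧
      ¬ Mod.mem m n ∧ A U m) fun n q hq => ?_
    obtain ⟨r, hr, d, hd, h1⟩ := h q hq n
    exact ⟨r, hr, h1.imp fun U h => ⟨_, natName_mem_omega d U,
      fun e => absurd (natName_mem_iff.1 e) (not_lt.2 hd), h⟩⟩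

theorem forces_subP {p : P} :
    (Forces p fun U => SubP Mod.mem (omegaName.val U) (A U) (B U)) ↔ Sub p (gr A) (gr B) := by
  constructor
  · intro h q hq
    obtain ⟨r, hr, N, hN⟩ := forces_exists_omega (fun U n => ∀ m, Mod.mem m (omegaName.val U) →
      ¬ Mod.mem m n → A U m → B U m) (h.mono hq)
    exact ⟨r, hr, N, fun d hd s hs h1 => ⟨s, le_rfl, ((Forces.mono hN hs).and h1).imp fun U h =>
      h.1 _ (natName_mem_omega d U) (fun e => absurd (natName_mem_iff.1 e) (not_lt.2 hd)) h.2⟩⟩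
  · intro h
    refine Forces.of_dn fun q hq => ?_
    obtain ⟨r, hr, N, hN⟩ := h q hq
    have : ∀ a : Name P, Clopen fun U => ¬ Mod.mem (a.val U) ((natName N).val U) →
        A U (a.val U) → B U (a.val U) := fun a => clopen_imp _ _
    refine ⟨r, hr, (forces_forall_mem_omega (Φ := fun U m => ¬ Mod.mem m ((natName N).val U) →
      A U m → B U m) fun d s hs => ⟨s, le_rfl, ?_⟩).imp fun U h => ⟨_, natName_mem_omega N U, h⟩⟩
    by_cases hd : d < N
    · exact Forces.of_forall (fun U h => absurd (natName_mem hd U) h) s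
    · exact (forces_imp fun t ht h1 => hN d (not_lt.1 hd) t (ht.trans hs) h1).imp fun U h _ => h

theorem forces_subP_not {p : P} :
    (Forces p fun U => SubP Mod.mem (omegaName.val U) (A U) fun m => ¬ B U m) ↔
      Dis p (gr A) (gr B) := by
  rw [forces_subP A fun U m => ¬ B U m]
  refine forall₂_congr fun q _ => exists_congr fun r => and_congr_right fun _ =>
    exists_congr fun N => forall₂_congr fun d _ => ⟨fun h s hs h1 h2 => ?_, fun h s hs h1 => ?_⟩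
  · obtain ⟨t, ht, h3⟩ := h s hs h1
    exact forces_not_iff.1 h3 t le_rfl (Forces.mono h2 ht)
  · exact ⟨s, le_rfl, forces_not_iff.2 fun t ht => h t (ht.trans hs) (Forces.mono h1 ht)⟩

theorem forces_dec {p : P} {e : Name P}
    (h : Forces p fun U => Dec Mod.mem (omegaName.val U) (A U) (e.val U)) :
    ∃ q ≤ p, Sub q (gr A) (gr fun U m => Mod.mem m (e.val U)) ∨
      Dis q (gr A) (gr fun U m => Mod.mem m (e.val U)) := by
  by_cases h1 : Forces p fun U =>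
      SubP Mod.mem (omegaName.val U) (A U) fun m => Mod.mem m (e.val U)
  · exact ⟨p, le_rfl, Or.inl ((forces_subP A _).1 h1)⟩
  · obtain ⟨q, hq, h2⟩ := exists_forces_not h1
    exact ⟨q, hq, Or.inr ((forces_subP_not A _).1
      (((h.mono hq).and h2).imp fun U h => h.1.resolve_left h.2))⟩

/-- the name of a ground form -/
def realName (e : P → ℕ → Prop) : Name P := niceReal {x | e x.1 x.2.down}

theorem gr_realName {e : P → ℕ → Prop} (he : Mon e) {p : P} {n : ℕ} :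
    gr (fun U m => Mod.mem m ((realName e).val U)) p n ↔ ∀ q ≤ p, ∃ r ≤ q, e r n := by
  constructor
  · intro h q hq
    obtain ⟨r, hr, ⟨⟨s, m⟩, hs⟩, h1, h2⟩ := (Forces.mono h hq).exists_el
    obtain rfl : n = m.down := h2.natName_inj
    exact ⟨r, hr, he _ _ _ h1 hs⟩
  · intro h
    refine Forces.of_dn fun q hq => ?_
    obtain ⟨r, hr, h1⟩ := h q hq
    exact ⟨r, hr, forces_el_mem (b := realName e) ⟨(r, ⟨n⟩), h1⟩ le_rfl⟩

theorem forces_exists_K {p : P}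
    (h : Forces p fun U => ∃ m, Mod.mem m ((typeName O).val U) ∧ A U m) :
    ∃ q ≤ p, ∃ x : O, Forces q fun U => A U ((ordName x).val U) := by
  obtain ⟨m, hm⟩ := Forces.exists_name (Φ := fun U m => Mod.mem m ((typeName O).val U) ∧ A U m) h
  obtain ⟨q, hq, n, hn⟩ := Forces.exists_fam (hm.imp fun _ h => h.1)
  exact ⟨q, hq, n, ((hm.mono hq).and hn).imp fun U h => h.2 ▸ h.1.2⟩

theorem forces_forall_mem_ord {p : P} {g : O}
    (h : ∀ x < g, ∀ q ≤ p, ∃ r ≤ q, Forces r fun U => A U ((ordName x).val U)) :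
    Forces p fun U => ∀ z, Mod.mem z ((ordName g).val U) → A U z := by
  rw [ordName_eq g]
  exact forces_forall_mem_fam fun x => h x.1 x.2

end Pool.Agent.P.MP_0d6be8_lc
end
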