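import Pool.Agent.K.MP_0d6be8_lc.C2
import Pool.Agent.K.MP_0d6be8_lc.C3
import Pool.Agent.P.MP_93aff1_lc.Defs

-- part Pool.Agent.P.MP_0d6be8_lc.BPL
section

set_option autoImplicit false

/-! The principle `PL` in the quotient models. -/

open Pool.Agent.Lib.PosetForcing

namespace Pool.Agent.P.MP_0d6be8_lc

open NKIter MQ

variable {P : Type 1} [Preorder P]

instance clopen_noneIn (A B : ∀ U : Gen P, Mod U → Prop)
    [∀ a : Name P, Clopen fun U => A U (a.val U)] [∀ a : Name P, Clopen fun U => B U (a.val U)]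
    (w g X : Name P) :
    Clopen fun U : Gen P => NoneIn Mod.mem (w.val U) (g.val U) (X.val U) (A U) (B U) := by
  unfold NoneIn; infer_instance

instance clopen_towers (w K T Z : Name P) :
    Clopen fun U : Gen P => Towers Mod.mem (w.val U) (K.val U) (T.val U) (Z.val U) := by
  unfold Towers; infer_instance

instance clopen_luz (w K X T Z g : Name P) : Clopen fun U : Gen P =>
    Luz Mod.mem (w.val U) (K.val U) (X.val U) (T.val U) (Z.val U) (g.val U) := by
  unfold Luz; infer_instance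

instance clopen_pl (w K X : Name P) :
    Clopen fun U : Gen P => PL Mod.mem (w.val U) (K.val U) (X.val U) := by
  unfold PL; infer_instance

variable [OrderTop P]

theorem forces_noneIn (A B : ∀ U : Gen P, Mod U → Prop)
    [∀ a : Name P, Clopen fun U => A U (a.val U)] [∀ a : Name P, Clopen fun U => B U (a.val U)]
    {X : Name P} {g : O} {q : P}
    (h : ∀ x < g, ∀ r ≤ q, Inf r (gr fun U => App Mod.mem (X.val U) ((ordName x).val U)) →
      Sub r (gr fun U => App Mod.mem (X.val U) ((ordName x).val U)) (gr A) →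
      ¬ Forces r fun U => SubP Mod.mem (omegaName.val U)
        (App Mod.mem (X.val U) ((ordName x).val U)) (B U)) :
    Forces q fun U =>
      NoneIn Mod.mem (omegaName.val U) ((ordName g).val U) (X.val U) (A U) (B U) := by
  refine forces_forall_mem_ord (fun U x => InfP Mod.mem (omegaName.val U) (App Mod.mem (X.val U) x) →
    SubP Mod.mem (omegaName.val U) (App Mod.mem (X.val U) x) (A U) →
    ¬ SubP Mod.mem (omegaName.val U) (App Mod.mem (X.val U) x) (B U)) fun x hx r hr =>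
    ⟨r, le_rfl, forces_imp fun s hs h1 => ⟨s, le_rfl, forces_imp fun t ht h2 => ⟨t, le_rfl,
      forces_not_iff.2 fun u hu => h x hx u (hu.trans (ht.trans (hs.trans hr))) ?_ ?_⟩⟩⟩
  · exact (forces_infP _).1 (h1.mono (hu.trans ht))
  · exact (forces_subP _ _).1 (h2.mono hu)

theorem pl_holds (h : GP P) (X : Name P) (U : Gen P) :
    PL Mod.mem (omegaName.val U) ((typeName O).val U) (X.val U) := by
  refine of_forces_all (Φ := fun U => PL Mod.mem (omegaName.val U) ((typeName O).val U) (X.val U))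
    (fun p => ⟨p, le_rfl, ?_⟩) U
  refine forces_forall fun T => forces_forall fun Z => forces_forall fun F =>
    forces_imp fun q1 _ hT => ⟨q1, le_rfl, forces_imp fun p0 h0 hF => ⟨p0, le_rfl, ?_⟩⟩
  replace hT := hT.mono h0
  obtain ⟨f, hf⟩ := exists_bound h.ccc F
  have hK := fun (x : O) (U : Gen P) => ordName_mem_typeName x U
  obtain ⟨g, g0, g1, g2, g3⟩ := h.gpl p0
    (fun x => gr fun U => App Mod.mem (X.val U) ((ordName x).val U))
    (fun j x => gr fun U => App2 Mod.mem (T.val U) ((ordName j).val U) ((ordName x).val U))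
    (fun j x k => gr fun U =>
      App3 Mod.mem (Z.val U) ((ordName j).val U) ((ordName x).val U) ((natName k).val U))
    f (fun _ => gr_mon _) (fun _ _ => gr_mon _) (fun _ _ _ => gr_mon _)
    (fun j x y hy => (forces_subP _ _).1
      (hT.imp fun U h => h.1 _ _ _ (hK j U) (hK x U) (ordName_mem hy U)))
    (fun j e he q hq => by
      obtain ⟨r, hr, x, hx⟩ := forces_exists_K (fun U x => Dec Mod.mem (omegaName.val U)
        (App2 Mod.mem (T.val U) ((ordName j).val U) x) ((realName e).val U))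
        ((hT.mono hq).imp fun U h => h.2.1 _ _ (hK j U))
      obtain ⟨s, hs, h1⟩ := forces_dec _ hx
      refine ⟨s, hs.trans hr, x, h1.imp (fun h1 t ht => ?_) fun h1 t ht => ?_⟩
      · obtain ⟨u, hu, N, hN⟩ := h1 t ht
        refine ⟨u, hu, N, fun d hd v hv h2 => ?_⟩
        obtain ⟨v1, k1, k2⟩ := hN d hd v hv h2
        obtain ⟨v2, k3, k4⟩ := (gr_realName he).1 k2 v1 le_rfl
        exact ⟨v2, k3.trans k1, k4⟩
      · obtain ⟨u, hu, N, hN⟩ := h1 t ht
        exact ⟨u, hu, N, fun d hd v hv h2 h3 => hN d hd v hv h2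
          ((gr_realName he).2 fun w hw => ⟨w, le_rfl, he _ _ _ hw h3⟩)⟩)
    (fun j x k =>
      have e := hT.imp fun U h => h.2.2 _ _ _ (hK j U) (hK x U) (natName_mem_omega k U)
      ⟨(forces_infP _).1 (e.imp fun _ h => h.1), (forces_subP _ _).1 (e.imp fun _ h => h.2)⟩)
  have e1 : Forces p0 fun U => ∀ a, Mod.mem a ((ordName g).val U) →
      ∃ b, Mod.mem b ((ordName g).val U) ∧ App Mod.mem (F.val U) a b :=
    forces_forall_mem_ord (fun U a => ∃ b, Mod.mem b ((ordName g).val U) ∧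
      App Mod.mem (F.val U) a b) fun a ha q hq => ⟨q, le_rfl, (hF.mono hq).imp fun U h => by
        obtain ⟨b, h1, h2⟩ := hf a U (h _ (hK a U))
        exact ⟨b, (isOrd_K U).2.1 _ _ _ (hK g U) (ordName_mem (g1 a ha) U) h1, h2⟩⟩
  have e2 : Forces p0 fun U => ∀ j, Mod.mem j ((ordName g).val U) → ∀ e,
      (∀ x, Mod.mem x ((typeName O).val U) → ∃ k, Mod.mem k (omegaName.val U) ∧
        Dec Mod.mem (omegaName.val U) (App3 Mod.mem (Z.val U) j x k) e) →
      ∃ d, Mod.mem d ((ordName g).val U) ∧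
        (NoneIn Mod.mem (omegaName.val U) ((ordName g).val U) (X.val U)
            (App2 Mod.mem (T.val U) j d) (fun m => Mod.mem m e) ∨
          NoneIn Mod.mem (omegaName.val U) ((ordName g).val U) (X.val U)
            (App2 Mod.mem (T.val U) j d) fun m => ¬ Mod.mem m e) := by
    refine forces_forall_mem_ord _ fun j hj q hq => ⟨q, le_rfl, forces_forall fun e =>
      forces_imp fun r hr h1 => ?_⟩
    obtain ⟨s, hs, d, hd, h2⟩ := g3 j hj (gr fun U m => Mod.mem m (e.val U)) (gr_mon _) r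
      (hr.trans hq) fun x s hs => by
        obtain ⟨t, ht, k, hk⟩ := forces_exists_omega (fun U k => Dec Mod.mem (omegaName.val U)
          (App3 Mod.mem (Z.val U) ((ordName j).val U) ((ordName x).val U) k) (e.val U))
          ((h1.mono hs).imp fun U h => h _ (hK x U))
        obtain ⟨u, hu, h3⟩ := forces_dec _ hk
        exact ⟨u, hu.trans ht, k, h3⟩
    refine ⟨s, hs, ?_⟩
    rcases h2 with h2 | h2
    · exact (forces_noneIn _ (fun U m => Mod.mem m (e.val U)) fun x hx t ht k1 k2 k3 =>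
        h2 x hx t ht k1 k2 ((forces_subP _ _).1 k3)).imp
        fun U h => ⟨_, ordName_mem hd U, Or.inl h⟩
    · exact (forces_noneIn _ (fun U m => ¬ Mod.mem m (e.val U)) fun x hx t ht k1 k2 k3 =>
        h2 x hx t ht k1 k2 ((forces_subP_not _ _).1 k3)).imp
        fun U h => ⟨_, ordName_mem hd U, Or.inr h⟩
  exact (e1.and e2).imp fun U e => ⟨_, hK g U, ⟨_, ordName_mem g0 U⟩, e.1,
    bdd_ord h.ccc g2 g0 U, fun j x hj => e.2 j hj x⟩

end Pool.Agent.P.MP_0d6be8_lc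
end

-- part Pool.Agent.P.MP_0d6be8_lc.NKPI
section

set_option autoImplicit false

/-! Pseudo-intersections of small centred families of names. -/

open Pool.Agent.Lib.PosetForcing

namespace Pool.Agent.P.MP_0d6be8_lc

variable {P : Type 1} [Preorder P]

/-- Mathias pairs: the stem grows inside the sets of the old side condition. -/
def nkpi_rho {Z : Type} (a : P → Z → ℕ → Prop) (r : P) (x y : Finset ℕ × Finset Z) : Prop :=
  y.1 ⊆ x.1 ∧ y.2 ⊆ x.2 ∧ ∀ n ∈ x.1, n ∉ y.1 → ∀ i ∈ y.2, Dn (fun s => a s i n) r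

theorem nkpi_refl {Z : Type} (a : P → Z → ℕ → Prop) (r : P) (x : Finset ℕ × Finset Z) :
    nkpi_rho a r x x := ⟨subset_rfl, subset_rfl, fun _ h h' => absurd h h'⟩

theorem nkpi_task (hC : CCC P) (p0 : P) {Z : Type} (a : P → Z → ℕ → Prop) :
    Task p0 (nkpi_rho a) where
  mono r r' x y h h1 := ⟨h1.1, h1.2.1, fun n g1 g2 i g3 => (h1.2.2 n g1 g2 i g3).mono h⟩
  reg r x y h := by
    obtain ⟨s, -, hs⟩ := h r le_rfl
    exact ⟨hs.1, hs.2.1, fun n g1 g2 i g3 => Dn.dn fun q hq =>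
      (h q hq).imp fun t ht => ⟨ht.1, ht.2.2.2 n g1 g2 i g3⟩⟩
  trans r x y z _ h h' := ⟨h'.1.trans h.1, h'.2.1.trans h.2.1, fun n g1 g2 i g3 => by
    by_cases g : n ∈ y.1
    · exact h'.2.2 n g g2 i g3
    · exact h.2.2 n g1 g i (h'.2.1 g3)⟩
  left r x _ _ _ := nkpi_refl a r x
  ccc ι I hI p x _ := by
    classical
    obtain ⟨s, hs⟩ := exists_fiber (fun i => (x i).1) hI
    obtain ⟨i, hi, j, hj, hne, r, r1, r2⟩ := hC ι _ hs p
    exact ⟨i, hi.1, j, hj.1, hne, r, (s, (x i).2 ∪ (x j).2), r1, r2,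
      ⟨hi.2.le, Finset.subset_union_left, fun n g1 g2 => absurd (hi.2 ▸ g1) g2⟩,
      hj.2.le, Finset.subset_union_right, fun n g1 g2 => absurd (hj.2 ▸ g1) g2⟩

/-- Ground form: `a s i n` reads `s` forces `n ∈ A i`, and `y s n` reads `s` puts `n` into the
pseudo-intersection. -/
theorem pi_comb (hC : CCC P) (hG : GMA P) (p0 : P) {Z : Type 1} [Small.{0} Z]
    (a : P → Z → ℕ → Prop) (ha : ∀ s s' i n, s' ≤ s → a s i n → a s' i n)
    (hc : ∀ (F : Finset Z) (n : ℕ), ∀ q ≤ p0, ∃ r ≤ q, ∃ k, n ≤ k ∧ ∀ i ∈ F, a r i k) :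
    ∃ y : P → ℕ → Prop, (∀ s s' n, s' ≤ s → y s n → y s' n) ∧
      (∀ n, ∀ q ≤ p0, ∃ r ≤ q, ∃ k, n ≤ k ∧ y r k) ∧
      ∀ i, ∀ q ≤ p0, ∃ r ≤ q, ∃ n, ∀ k, n ≤ k → ∀ s ≤ r, y s k → Dn (fun t => a t i k) s := by
  classical
  let e := equivShrink.{0} Z
  let a' : P → Shrink.{0} Z → ℕ → Prop := fun s i n => a s (e.symm i) n
  obtain ⟨v, hv⟩ := hG p0 _ _ (nkpi_task hC p0 a')
  have h0 : ∀ q ≤ p0, ∃ s ≤ q, ∃ x, v s = some x := fun q hq => by
    rcases h : v q with _ | x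
    · obtain ⟨s, hs, h1⟩ := hv.ext q hq q le_rfl (∅, ∅) (nkpi_refl _ _ _)
        (fun x hx => by simp [h] at hx)
      exact ⟨s, hs, _, h1⟩
    · exact ⟨q, le_rfl, x, h⟩
  refine ⟨fun s n => ∃ x, v s = some x ∧ n ∈ x.1, ?_, fun n q hq => ?_, fun i q hq => ?_⟩
  · rintro s s' n h ⟨x, h1, h2⟩
    obtain ⟨x', h3, h4⟩ := hv.le s' s x h h1
    exact ⟨x', h3, h4.1 h2⟩
  · obtain ⟨s, hs, x, hx⟩ := h0 q hq
    obtain ⟨r, hr, k, hk, h1⟩ := hc (x.2.map e.symm.toEmbedding) n s (hs.trans hq)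
    obtain ⟨t, ht, h2⟩ := hv.ext s (hs.trans hq) r hr (insert k x.1, x.2) (nkpi_refl _ _ _)
      (fun x' hx' => by
        obtain rfl : x = x' := by simpa [hx] using hx'
        refine ⟨Finset.subset_insert _ _, subset_rfl, fun m g1 g2 i g3 u hu => ⟨u, le_rfl, ?_⟩⟩
        obtain rfl := (Finset.mem_insert.1 g1).resolve_right g2
        exact ha _ _ _ _ hu (h1 _ (Finset.mem_map_of_mem _ g3)))
    exact ⟨t, ht.trans hs, k, hk, _, h2, Finset.mem_insert_self _ _⟩
  · obtain ⟨s, hs, x, hx⟩ := h0 q hq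
    obtain ⟨t, ht, h2⟩ := hv.ext s (hs.trans hq) s le_rfl (x.1, insert (e i) x.2) (nkpi_refl _ _ _)
      (fun x' hx' => by
        obtain rfl : x = x' := by simpa [hx] using hx'
        exact ⟨subset_rfl, Finset.subset_insert _ _, fun m g1 g2 => absurd g1 g2⟩)
    refine ⟨t, ht.trans hs, x.1.sup id + 1, fun k hk u hu ⟨x1, h3, h4⟩ => ?_⟩
    obtain ⟨x', h5, h6⟩ := hv.le u t _ hu h2
    obtain rfl : x1 = x' := by simpa [h3] using h5
    have := h6.2.2 k h4 (fun h => by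
      have := Finset.le_sup (f := id) h
      simp only [id] at this
      omega) (e i) (Finset.mem_insert_self _ _)
    simpa only [a', e.symm_apply_apply] using this

instance nkpi_clopen_app2 (f a b d : Name P) :
    Clopen fun U : Gen P => App2 Mod.mem (f.val U) (a.val U) (b.val U) (d.val U) := by
  unfold App2; infer_instance

instance nkpi_clopen_infP (w : Name P) (A : ∀ U : Gen P, Mod U → Prop)
    [∀ a : Name P, Clopen fun U => A U (a.val U)] :
    Clopen fun U : Gen P => InfP Mod.mem (w.val U) (A U) := by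
  unfold InfP; infer_instance

instance nkpi_clopen_subP (w : Name P) (A B : ∀ U : Gen P, Mod U → Prop)
    [∀ a : Name P, Clopen fun U => A U (a.val U)] [∀ a : Name P, Clopen fun U => B U (a.val U)] :
    Clopen fun U : Gen P => SubP Mod.mem (w.val U) (A U) (B U) := by
  unfold SubP; infer_instance

variable [OrderTop P]

section bridge
variable {A B : ∀ U : Gen P, Mod U → Prop} [∀ a : Name P, Clopen fun U => A U (a.val U)]
  [∀ a : Name P, Clopen fun U => B U (a.val U)] {p : P}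

theorem nkpi_infP : (Forces p fun U => InfP Mod.mem (omegaName.val U) (A U)) ↔
    ∀ n, ∀ q ≤ p, ∃ r ≤ q, ∃ k, n ≤ k ∧ Forces r fun U => A U ((natName k).val U) := by
  refine ⟨fun h n q hq => ?_, fun h => forces_forall_mem_omega fun n q hq => ?_⟩
  · obtain ⟨m, hm⟩ := Forces.exists_name (Φ := fun U m => Mod.mem m (omegaName.val U) ∧
      ¬ Mod.mem m ((natName n).val U) ∧ A U m)
      ((h.mono hq).imp fun U h => h _ (natName_mem_omega n U))
    obtain ⟨r, hr, k, hk⟩ := Forces.exists_fam (hm.imp fun U h => h.1)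
    have h1 := ((hm.mono hr).and hk).imp fun U h => h.2 ▸ h.1.2
    obtain ⟨U, hU⟩ := h1.exists
    exact ⟨r, hr, k.down, not_lt.1 fun h => hU.1 (natName_mem h U), h1.imp fun U h => h.2⟩
  · obtain ⟨r, hr, k, hk, h1⟩ := h n q hq
    exact ⟨r, hr, h1.imp fun U h => ⟨_, natName_mem_omega k U,
      fun h' => absurd (natName_mem_iff.1 h') (not_lt.2 hk), h⟩⟩

theorem nkpi_subP : (Forces p fun U => SubP Mod.mem (omegaName.val U) (A U) (B U)) ↔
    ∀ q ≤ p, ∃ r ≤ q, ∃ n, ∀ k, n ≤ k →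
      Forces r fun U => A U ((natName k).val U) → B U ((natName k).val U) := by
  refine ⟨fun h q hq => ?_, fun h => Forces.of_dn fun q hq => ?_⟩
  · obtain ⟨m, hm⟩ := Forces.exists_name (Φ := fun U n => Mod.mem n (omegaName.val U) ∧
      ∀ m, Mod.mem m (omegaName.val U) → ¬ Mod.mem m n → A U m → B U m) (h.mono hq)
    obtain ⟨r, hr, n, hn⟩ := Forces.exists_fam (hm.imp fun U h => h.1)
    exact ⟨r, hr, n.down, fun k hk => ((hm.mono hr).and hn).imp fun U h =>
      h.1.2 _ (natName_mem_omega k U) fun h' =>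
        absurd (natName_mem_iff.1 (h.2 ▸ h')) (not_lt.2 hk)⟩
  · obtain ⟨r, hr, n, h1⟩ := h q hq
    have : ∀ a : Name P, Clopen fun U => ¬ Mod.mem (a.val U) ((natName n).val U) →
        A U (a.val U) → B U (a.val U) := fun a =>
      @clopen_imp _ _ _ _ (clopen_not _) (clopen_imp _ _)
    refine ⟨r, hr, (forces_forall_mem_omega (Φ := fun U m =>
      ¬ Mod.mem m ((natName n).val U) → A U m → B U m) fun k s hs => ⟨s, le_rfl, ?_⟩).imp
      fun U h => ⟨_, natName_mem_omega n U, h⟩⟩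
    rcases lt_or_ge k n with h2 | h2
    · exact Forces.of_forall (fun U h => absurd (natName_mem h2 U) h) s
    · exact ((h1 k h2).mono hs).imp fun U h _ => h

end bridge

/-- The same with a name for the pseudo-intersection. -/
theorem pi_name (hC : CCC P) (hG : GMA P) (p0 : P) {Z : Type 1} [Small.{0} Z]
    (A : Z → ∀ U : Gen P, Mod U → Prop) [∀ i, ∀ a : Name P, Clopen fun U => A i U (a.val U)]
    (hc : ∀ (F : Finset Z) (n : ℕ), ∀ q ≤ p0, ∃ r ≤ q, ∃ k, n ≤ k ∧ ∀ i ∈ F,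
      Forces r fun U => A i U ((natName k).val U)) :
    ∃ Y : Name P, (∀ U, IsSub Mod.mem (Y.val U) (omegaName.val U)) ∧
      (Forces p0 fun U => InfP Mod.mem (omegaName.val U) fun m => Mod.mem m (Y.val U)) ∧
      ∀ i, Forces p0 fun U =>
        SubP Mod.mem (omegaName.val U) (fun m => Mod.mem m (Y.val U)) (A i U) := by
  obtain ⟨y, h1, h2, h3⟩ := pi_comb hC hG p0
    (fun s i k => Forces s fun U => A i U ((natName k).val U))
    (fun _ _ _ _ h h' => h'.mono h) hc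
  let Y : Name P := niceReal {z | y z.1 z.2.down}
  refine ⟨Y, forall_mem (b := Y) (Φ := fun U z => Mod.mem z (omegaName.val U))
    fun i q _ => ⟨q, le_rfl, Forces.of_forall (natName_mem_omega _) q⟩,
    (nkpi_infP (A := fun U m => Mod.mem m (Y.val U))).2 fun n q hq => ?_,
    fun i => (nkpi_subP (A := fun U m => Mod.mem m (Y.val U))).2 fun q hq => ?_⟩
  · obtain ⟨r, hr, k, hk, h⟩ := h2 n q hq
    exact ⟨r, hr, k, hk, forces_el_mem (b := Y) ⟨(r, ⟨k⟩), h⟩ le_rfl⟩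
  · obtain ⟨r, hr, n, h⟩ := h3 i q hq
    refine ⟨r, hr, n, fun k hk => forces_imp fun s hs g => ?_⟩
    obtain ⟨t, ht, ⟨⟨u, m⟩, hu⟩, g1, g2⟩ := g.exists_el
    obtain rfl : k = m.down := g2.natName_inj
    obtain ⟨t', ht', g3⟩ := h _ hk t (ht.trans hs) (h1 _ _ _ g1 hu) t le_rfl
    exact ⟨t', ht'.trans ht, g3⟩

/-- Directed families are centred. -/
theorem pi_directed (hC : CCC P) (hG : GMA P) (p0 : P) {Z : Type 1} [Small.{0} Z]
    (A : Z → ∀ U : Gen P, Mod U → Prop) [∀ i, ∀ a : Name P, Clopen fun U => A i U (a.val U)]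
    (hi : ∀ i, Forces p0 fun U => InfP Mod.mem (omegaName.val U) (A i U))
    (hd : ∀ i j, ∀ q ≤ p0, ∃ r ≤ q, ∃ c, Forces r fun U =>
      SubP Mod.mem (omegaName.val U) (A c U) (A i U) ∧
        SubP Mod.mem (omegaName.val U) (A c U) (A j U)) :
    ∃ Y : Name P, (∀ U, IsSub Mod.mem (Y.val U) (omegaName.val U)) ∧
      (Forces p0 fun U => InfP Mod.mem (omegaName.val U) fun m => Mod.mem m (Y.val U)) ∧
      ∀ i, Forces p0 fun U =>
        SubP Mod.mem (omegaName.val U) (fun m => Mod.mem m (Y.val U)) (A i U) := by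
  classical
  have key : ∀ (F : Finset Z) (j : Z), ∀ q ≤ p0, ∃ r ≤ q, ∃ c N, ∀ i ∈ insert j F, ∀ k, N ≤ k →
      Forces r fun U => A c U ((natName k).val U) → A i U ((natName k).val U) := by
    intro F
    induction F using Finset.induction_on with
    | empty => exact fun j q _ => ⟨q, le_rfl, j, 0, fun i hi k _ => by
        obtain rfl : i = j := by simpa using hi
        exact Forces.of_forall (fun _ => id) q⟩
    | insert l F _ ih =>
      intro j q hq
      obtain ⟨r, hr, c, N, h⟩ := ih l q hq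
      obtain ⟨s, hs, c', h1⟩ := hd c j r (hr.trans hq)
      obtain ⟨t, ht, N1, h2⟩ := nkpi_subP.1 (h1.imp fun U h => h.1) s le_rfl
      obtain ⟨u, hu, N2, h3⟩ := nkpi_subP.1 (h1.imp fun U h => h.2) t ht
      refine ⟨u, hu.trans (ht.trans (hs.trans hr)), c', max N (max N1 N2), fun i hi k hk => ?_⟩
      rcases Finset.mem_insert.1 hi with rfl | hi
      · exact h3 k (by omega)
      · exact (((h2 k (by omega)).mono hu).and
          ((h i hi k (by omega)).mono (hu.trans (ht.trans hs)))).imp fun U h g => h.2 (h.1 g)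
  refine pi_name hC hG p0 A fun F n q hq => ?_
  rcases F.eq_empty_or_nonempty with rfl | ⟨j, -⟩
  · exact ⟨q, le_rfl, n, le_rfl, fun i hi => absurd hi (Finset.notMem_empty i)⟩
  obtain ⟨r, hr, c, N, h⟩ := key F j q hq
  obtain ⟨s, hs, k, hk, h1⟩ := nkpi_infP.1 (hi c) (max n N) r (hr.trans hq)
  exact ⟨s, hs.trans hr, k, by omega, fun i hi =>
    (((h i (Finset.mem_insert_of_mem hi) k (by omega)).mono hs).and h1).imp fun U h => h.1 h.2⟩

/-- `PI` holds in every quotient model. -/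
theorem pi_holds (hC : CCC P) (hG : GMA P) {W : Type 1} [LinearOrder W] [WellFoundedLT W]
    (hW : ∀ x : W, Small.{0} {y // y < x}) (U : Gen P) :
    PI Mod.mem (omegaName.val U) ((typeName W).val U) := by
  intro A g hg
  obtain ⟨A, rfl⟩ := A.exists_name
  revert g
  refine forall_mem_fam (Φ := fun U g =>
    (∀ b n, Mod.mem b g → Mod.mem n (omegaName.val U) →
      InfP Mod.mem (omegaName.val U) (App2 Mod.mem (A.val U) b n)) →
    (∀ b n b' n', Mod.mem b g → Mod.mem n (omegaName.val U) → Mod.mem b' g →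
      Mod.mem n' (omegaName.val U) → ∃ c k, Mod.mem c g ∧ Mod.mem k (omegaName.val U) ∧
      SubP Mod.mem (omegaName.val U) (App2 Mod.mem (A.val U) c k) (App2 Mod.mem (A.val U) b n) ∧
      SubP Mod.mem (omegaName.val U) (App2 Mod.mem (A.val U) c k) (App2 Mod.mem (A.val U) b' n')) →
    ∃ z, InfP Mod.mem (omegaName.val U) (fun m => Mod.mem m z) ∧
      ∀ b n, Mod.mem b g → Mod.mem n (omegaName.val U) →
        SubP Mod.mem (omegaName.val U) (fun m => Mod.mem m z) (App2 Mod.mem (A.val U) b n))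
    (fun g => of_forces_all fun p => ⟨p, le_rfl, forces_imp fun q1 _ h1 => ⟨q1, le_rfl,
      forces_imp fun p0 hp h2 => ⟨p0, le_rfl, ?_⟩⟩⟩) U
  have := hW g
  obtain ⟨Y, -, g1, g2⟩ := pi_directed hC hG p0 (Z := {y // y < g} × ℕ)
    (fun i U => App2 Mod.mem (A.val U) ((ordName i.1.1).val U) ((natName i.2).val U))
    (fun i => (h1.mono hp).imp fun U h => h _ _ (ordName_mem i.1.2 U) (natName_mem_omega _ U))
    fun i j q hq => by
      have h3 := (h2.mono hq).imp fun U h => h _ _ _ _ (ordName_mem i.1.2 U)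
        (natName_mem_omega i.2 U) (ordName_mem j.1.2 U) (natName_mem_omega j.2 U)
      obtain ⟨c, h4⟩ := Forces.exists_name h3
      obtain ⟨k, h5⟩ := Forces.exists_name h4
      have h6 := h5.imp fun U h => h.1
      rw [ordName_eq g] at h6
      obtain ⟨r, hr, c', h7⟩ := h6.exists_fam
      obtain ⟨s, hs, k', h8⟩ := Forces.exists_fam ((h5.mono hr).imp fun U h => h.2.1)
      exact ⟨s, hs.trans hr, (c', k'.down), ((h5.mono (hs.trans hr)).and
        ((h7.mono hs).and h8)).imp fun U h => h.2.1 ▸ h.2.2 ▸ h.1.2.2⟩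
  have g3 : Forces p0 fun U => ∀ b, Mod.mem b ((ordName g).val U) → ∀ n,
      Mod.mem n (omegaName.val U) → SubP Mod.mem (omegaName.val U)
        (fun m => Mod.mem m (Y.val U)) (App2 Mod.mem (A.val U) b n) := by
    rw [ordName_eq g]
    exact forces_forall_mem_fam fun b q hq => ⟨q, le_rfl,
      forces_forall_mem_omega fun n r hr => ⟨r, le_rfl, (g2 (b, n)).mono (hr.trans hq)⟩⟩
  exact (g1.and g3).imp fun U h => ⟨_, h.1, fun b n hb hn => h.2 b hb n hn⟩

/-- The case of all small ordinals. -/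
theorem pi_ordinal (hC : CCC P) (hG : GMA P) (U : Gen P) :
    PI Mod.mem (omegaName.val U) ((typeName Ordinal.{0}).val U) :=
  pi_holds hC hG (fun x => Ordinal.small_Iio x) U

end Pool.Agent.P.MP_0d6be8_lc
end

-- part Pool.Agent.P.MP_0d6be8_lc.NKStep
section

set_option autoImplicit false

/-! The fixed iteration: tasks at successor stages, the product over all jobs at limit stages. -/

open Pool.Agent.Lib.PosetForcing Cardinal

namespace Pool.Agent.P.MP_0d6be8_lc.NKStep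

open NKIter

/-- values of conditions of the iterands -/
abbrev Y : Type 1 := O ⊕ MQ.Cd O W1 O

/-- raw conditions -/
abbrev CC : Type 1 := C Y

/-- labels of the components of a job -/
abbrev Lab : Type 1 := W1 × Option ℕ

theorem mk_le_univ_of_small (X : Type 1) [h : Small.{0} X] : #X ≤ Cardinal.univ.{0, 1} := by
  rw [small_iff_lift_mk_lt_univ] at h
  simpa using h.le

theorem mk_finset_le {X : Type 1} (h : #X ≤ Cardinal.univ.{0, 1}) :
    #(Finset X) ≤ Cardinal.univ.{0, 1} := by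
  rcases finite_or_infinite X with h1 | h1
  · exact mk_le_univ_of_small _
  · rwa [mk_finset_of_infinite]

theorem mk_prod_le {X Z : Type 1} (h : #X ≤ Cardinal.univ.{0, 1}) (h' : #Z ≤ Cardinal.univ.{0, 1}) :
    #(X × Z) ≤ Cardinal.univ.{0, 1} := by
  rw [mk_prod, lift_id, lift_id]
  exact mul_le_of_le aleph0_lt_univ.le h h'

theorem mk_prod_small_le {X : Type 1} (Z : Type) (h : #X ≤ Cardinal.univ.{0, 1}) :
    #(X × Z) ≤ Cardinal.univ.{0, 1} :=
  (mk_congr (Equiv.prodCongr (Equiv.refl X) Equiv.ulift.{1}.symm)).le.trans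
    (mk_prod_le h (mk_le_univ_of_small _))

theorem mk_O_le : #O ≤ Cardinal.univ.{0, 1} := mk_ordinal.le

theorem mk_Y_le : #(Option Y) ≤ Cardinal.univ.{0, 1} := by
  rw [mk_option, mk_sum, lift_id, lift_id]
  exact add_le_of_le aleph0_lt_univ.le (add_le_of_le aleph0_lt_univ.le mk_O_le
    (mk_prod_le (mk_finset_le (mk_prod_le mk_O_le (mk_le_univ_of_small _)))
      (mk_finset_le (mk_prod_le mk_O_le (mk_prod_le mk_O_le (mk_le_univ_of_small _))))))
    (one_le_aleph0.trans aleph0_lt_univ.le)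

theorem mk_C_le : #CC ≤ Cardinal.univ.{0, 1} := by
  classical
  refine le_trans (mk_le_of_injective (f := fun p : CC =>
    p.fin.toFinset.image fun γ => (γ, p.f γ)) ?_) (mk_finset_le (mk_prod_le mk_O_le mk_Y_le))
  have key : ∀ p q : CC, (p.fin.toFinset.image fun γ => (γ, p.f γ)) =
      (q.fin.toFinset.image fun γ => (γ, q.f γ)) → ∀ γ, p.f γ ≠ none → p.f γ = q.f γ := by
    intro p q h γ hγ
    have : (γ, p.f γ) ∈ q.fin.toFinset.image fun γ => (γ, q.f γ) :=
      h ▸ Finset.mem_image.2 ⟨γ, p.fin.mem_toFinset.2 hγ, rfl⟩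
    obtain ⟨δ, -, h1⟩ := Finset.mem_image.1 this
    obtain ⟨rfl, h2⟩ := Prod.ext_iff.1 h1
    exact h2.symm
  intro p q e2
  refine C.ext (funext fun γ => ?_)
  by_cases h1 : p.f γ = none
  · by_cases h2 : q.f γ = none
    · rw [h1, h2]
    · exact (key q p e2.symm γ h2).symm
  · exact key p q e2 γ h1

theorem mk_small_le {X : Type 1} (h : #X ≤ Cardinal.univ.{0, 1}) :
    #{t : Set X // Small.{0} t} ≤ Cardinal.univ.{0, 1} := by
  obtain ⟨e⟩ : Nonempty (X ↪ O) := by rwa [← Cardinal.le_def, mk_ordinal]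
  have h1 := mk_subset_mk_lt_cof (α := O)
    (by rw [mk_ordinal]; exact IsStrongLimit.univ.isStrongPrelimit)
  rw [mk_ordinal, IsInaccessible.univ.isRegular.cof_ord] at h1
  rw [← h1]
  refine mk_le_of_injective (f := fun t => ⟨e '' t.1, ?_⟩) fun t t' h => ?_
  · have := t.2
    have h2 : Small.{0} (e '' t.1) := inferInstance
    rw [small_iff_lift_mk_lt_univ] at h2
    simpa using h2
  · exact Subtype.ext (e.injective.image_injective (congrArg Subtype.val h))

/-- every small subset is listed cofinally often -/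
theorem exists_listing {X : Type 1} (h : #X ≤ Cardinal.univ.{0, 1}) : ∃ task : O → Set X,
    ∀ t : Set X, Small.{0} t → ∀ α, ∃ β, α ≤ β ∧ task β = t := by
  obtain ⟨e⟩ : Nonempty ({t : Set X // Small.{0} t} × O ↪ O) := by
    rw [← Cardinal.le_def, mk_ordinal]
    exact mk_prod_le (mk_small_le h) mk_O_le
  have : Nonempty ({t : Set X // Small.{0} t} × O) := ⟨(⟨∅, inferInstance⟩, 0)⟩
  refine ⟨fun γ => (Function.invFun e γ).1.1, fun t ht α => ?_⟩
  obtain ⟨δ, hδ⟩ : ∃ δ, α ≤ e (⟨t, ht⟩, δ) := by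
    by_contra hcon
    push Not at hcon
    exact not_small_ordinal.{0, 0} (small_of_injective
      (f := fun δ => (⟨e (⟨t, ht⟩, δ), hcon δ⟩ : Set.Iio α)) fun δ δ' h =>
        congrArg Prod.snd (e.injective (congrArg Subtype.val h)))
  exact ⟨_, hδ, by simp only [Function.leftInverse_invFun e.injective _]⟩

/-- the bookkeeping function -/
noncomputable def task : O → Set (CC × O × O) :=
  (exists_listing (mk_prod_le mk_C_le (mk_prod_le mk_O_le mk_O_le))).choose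

theorem task_spec (t : Set (CC × O × O)) (ht : Small.{0} t) (α : O) : ∃ β, α ≤ β ∧ task β = t :=
  (exists_listing (mk_prod_le mk_C_le (mk_prod_le mk_O_le mk_O_le))).choose_spec t ht α

/-- codes of families of names of reals -/
noncomputable def code : O → Set (CC × Lab × ℕ) :=
  (exists_listing (mk_prod_le mk_C_le (mk_le_univ_of_small (Lab × ℕ)))).choose

theorem code_spec (t : Set (CC × Lab × ℕ)) (ht : Small.{0} t) : ∃ j, code j = t :=
  ((exists_listing (mk_prod_le mk_C_le (mk_le_univ_of_small (Lab × ℕ)))).choose_spec t ht 0).imp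
    fun _ h => h.2

/-- transitivity -/
def Tr (le : CC → CC → Prop) : Prop := ∀ a b c, le a b → le b c → le a c

/-- the conditions of a relation -/
def St (le : CC → CC → Prop) : Type 1 := {p : CC // le p p}

instance (le : CC → CC → Prop) [h : Fact (Tr le)] : Preorder (St le) where
  le p q := le p.1 q.1
  le_refl p := p.2
  le_trans _ _ _ := h.out _ _ _

/-- least codes of sets of conditions -/
def Canon (le : CC → CC → Prop) (j : O) : Prop :=
  (∀ z ∈ code j, le z.1 z.1) ∧ ∀ j', code j' = code j → j ≤ j'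

theorem exists_canon {le : CC → CC → Prop} (t : Set (CC × Lab × ℕ)) (ht : Small.{0} t)
    (h : ∀ z ∈ t, le z.1 z.1) : ∃ j, Canon le j ∧ code j = t := by
  obtain ⟨j, hj, hmin⟩ := (wellFounded_lt (α := O)).has_min {j | code j = t} (code_spec t ht)
  exact ⟨j, ⟨fun z hz => h z (hj ▸ hz), fun j' e => not_lt.1 (hmin j' (e.trans hj))⟩, hj⟩

theorem small_canon {le : CC → CC → Prop} (h : Small.{0} (St le)) : Small.{0} {j | Canon le j} := by
  refine small_of_injective (β := Set (St le × Lab × ℕ))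
    (f := fun j => {z | (z.1.1, z.2) ∈ code j.1}) fun j j' e => Subtype.ext ?_
  have key : code j.1 = code j'.1 := Set.ext fun z =>
    ⟨fun hz => (Set.ext_iff.1 e (⟨z.1, j.2.1 z hz⟩, z.2)).1 hz,
      fun hz => (Set.ext_iff.1 e (⟨z.1, j'.2.1 z hz⟩, z.2)).2 hz⟩
  exact le_antisymm (j.2.2 _ key.symm) (j'.2.2 _ key)

/-- the component `z` of the family coded by `j` -/
def nm (le : CC → CC → Prop) (j : O) (z : Lab) (r : St le) (d : ℕ) : Prop :=
  Canon le j ∧ ∃ r', le r.1 r' ∧ (r', z, d) ∈ code j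

/-- towers -/
def UU (le : CC → CC → Prop) (j : O) (i : W1) : St le → ℕ → Prop := nm le j (i, none)

/-- the sets of the items -/
def ZZ (le : CC → CC → Prop) (j : O) (i : W1) (k : ℕ) : St le → ℕ → Prop := nm le j (i, some k)

/-- a fixed label -/
noncomputable def lab0 : Lab := (Classical.arbitrary W1, none)

/-- the reals of the promises -/
def XX (le : CC → CC → Prop) (ξ : O) : St le → ℕ → Prop := nm le ξ lab0

theorem mon_nm (le : CC → CC → Prop) [h : Fact (Tr le)] (j : O) (z : Lab) : MQ.Mon (nm le j z) :=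
  fun _ _ _ hq ⟨h1, r', h2, h3⟩ => ⟨h1, r', h.out _ _ _ hq h2, h3⟩

/-- the pair of finite sets given by a value -/
def vl : Option Y → MQ.Cd O W1 O
  | some (Sum.inr c) => c
  | _ => (∅, ∅)

/-- values of the limit iterands -/
def IsL (x : Option Y) : Prop := ∀ a, x ≠ some (Sum.inl a)

theorem isL_none : IsL none := fun _ h => by simp at h

theorem isL_inr (c : MQ.Cd O W1 O) : IsL (some (Sum.inr c)) := fun _ h => by simp at h

/-- the iterand of the limit stages -/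
def RL (le : CC → CC → Prop) : Rel Y := fun r x y => (x = none ∧ y = none) ∨
  ∃ (_ : Fact (Tr le)) (hr : le r r), IsL x ∧ IsL y ∧
    MQ.QR (UU le) (ZZ le) (XX le) (⟨r, hr⟩ : St le) (vl x) (vl y)

theorem RL.qr {le : CC → CC → Prop} [Fact (Tr le)] {r : St le} {x y : Option Y}
    (h : RL le r.1 x y) : IsL x ∧ IsL y ∧ MQ.QR (UU le) (ZZ le) (XX le) r (vl x) (vl y) := by
  rcases h with ⟨rfl, rfl⟩ | ⟨_, _, h⟩
  · exact ⟨isL_none, isL_none, MQ.QV.empty.refl⟩
  · exact h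

theorem RL.of_qr {le : CC → CC → Prop} [h : Fact (Tr le)] {r : St le} {x y : Option Y}
    (hx : IsL x) (hy : IsL y) (h1 : MQ.QR (UU le) (ZZ le) (XX le) r (vl x) (vl y)) :
    RL le r.1 x y := Or.inr ⟨h, r.2, hx, hy, h1⟩

theorem isIt_RL {le : CC → CC → Prop} (hl : ∀ a b, le a b → le a a) : IsIt le (RL le) := by
  refine ⟨?_, ?_, ?_, ?_, fun _ => Or.inl ⟨rfl, rfl⟩⟩
  · rintro r r' x y h (h1 | ⟨_, hr, h1, h2, h3⟩)
    · exact Or.inl h1
    · exact RL.of_qr (r := ⟨r', hl _ _ h⟩) h1 h2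
        (h3.mono (fun _ _ _ => mon_nm _ _ _) (fun _ => mon_nm _ _ _) h)
  · rintro r x y z (⟨rfl, rfl⟩ | ⟨_, hr, h1, h2, h3⟩) h
    · exact h
    · obtain ⟨-, g2, g3⟩ := RL.qr (r := ⟨r, hr⟩) h
      exact RL.of_qr (r := ⟨r, hr⟩) h1 g2 (h3.trans g3)
  · rintro r x y (⟨rfl, rfl⟩ | ⟨_, hr, h1, -, h3⟩)
    · exact Or.inl ⟨rfl, rfl⟩
    · exact RL.of_qr (r := ⟨r, hr⟩) h1 h1 h3.1.refl
  · rintro r x (⟨rfl, -⟩ | ⟨_, hr, h1, -, h3⟩)
    · exact Or.inl ⟨rfl, rfl⟩
    · exact RL.of_qr (r := ⟨r, hr⟩) h1 isL_none h3.1.top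

theorem ccc_St {le : CC → CC → Prop} [Fact (Tr le)] (hl : ∀ a b, le a b → le a a) (hc : CCCR le) :
    CCC (St le) := fun ι I hI p => by
  obtain ⟨i, hi, j, hj, hne, r, r1, r2⟩ := hc ι I hI (fun i => (p i).1) fun i _ => (p i).2
  exact ⟨i, hi, j, hj, hne, ⟨r, hl _ _ r1⟩, r1, r2⟩

theorem cccr_RL {le : CC → CC → Prop} (ht : Tr le) (hl : ∀ a b, le a b → le a a) (hc : CCCR le) :
    CCCR (two le (RL le)) := by
  have : Fact (Tr le) := ⟨ht⟩
  refine cccr_of_W1 fun p hp => ?_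
  have h1 := fun i => RL.qr (r := ⟨(p i).1, (hp i).1⟩) (hp i).2
  obtain ⟨a, -, b, -, hne, q, c, g1, g2⟩ := MQ.ccc (ccc_St hl hc) countable_Iic
    (fun _ _ _ => mon_nm _ _ _) (fun _ => mon_nm _ _ _) Set.not_countable_univ
    (fun i => (⟨(p i).1, (hp i).1⟩ : St le)) (fun i => vl (p i).2) fun i _ => (h1 i).2.2.1
  exact ⟨a, b, hne, (q.1, some (Sum.inr c)), ⟨g1.1, RL.of_qr (isL_inr c) (h1 a).1 g1.2⟩,
    g2.1, RL.of_qr (isL_inr c) (h1 b).1 g2.2⟩

theorem small_RL {le : CC → CC → Prop} (h : Small.{0} (St le)) :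
    Small.{0} {y : Y | ∃ p, RL le p (some y) (some y)} := by
  have := small_canon h
  let S : Set O := {j | Canon le j}
  let φ : Set (S × W1 × ℕ × ℕ) × Set (S × S × ℕ × W1) → Y → Prop := fun z y =>
    ∃ c, y = Sum.inr c ∧ (∀ x, x ∈ c.1 ↔ ∃ u ∈ z.1, x = (u.1.1, u.2)) ∧
      ∀ x, x ∈ c.2 ↔ ∃ u ∈ z.2, x = (u.1.1, u.2.1.1, u.2.2)
  have h1 : ∀ y : {y : Y | ∃ p, RL le p (some y) (some y)}, ∃ z, φ z y.1 := by
    rintro ⟨y, p, ⟨e, -⟩ | ⟨_, hr, g1, -, g2⟩⟩
    · simp at e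
    · rcases y with a | c
      · exact absurd rfl (g1 a)
      · refine ⟨({u | (u.1.1, u.2) ∈ c.1}, {u | (u.1.1, u.2.1.1, u.2.2) ∈ c.2}), c, rfl,
          fun x => ⟨fun hx => ?_, ?_⟩, fun x => ⟨fun hx => ?_, ?_⟩⟩
        · obtain ⟨_, -, _, -, g3⟩ := (g2.1.1 x hx).inf x.2.1 0 _ le_rfl 0
          exact ⟨(⟨x.1, g3.1⟩, x.2), hx, rfl⟩
        · rintro ⟨u, hu, rfl⟩; exact hu
        · obtain ⟨_, -, _, -, g3, g4⟩ := (g2.1.2 x hx).1.meet (mon_nm _ _ _) (g2.1.2 x hx).2 0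
          exact ⟨(⟨x.1, g4.1⟩, ⟨x.2.1, g3.1⟩, x.2.2), hx, rfl⟩
        · rintro ⟨u, hu, rfl⟩; exact hu
  choose z hz using h1
  refine small_of_injective (f := z) fun y y' e => Subtype.ext ?_
  obtain ⟨c, e1, g1, g2⟩ := hz y
  obtain ⟨c', e2, g3, g4⟩ := hz y'
  rw [e1, e2, Prod.ext (Finset.ext fun x => (g1 x).trans (e ▸ (g3 x).symm))
    (Finset.ext fun x => (g2 x).trans (e ▸ (g4 x).symm))]

/-- densely below `r` the pair `(a, b)` is listed in `t` -/
def Below (le : CC → CC → Prop) (t : Set (CC × O × O)) (r : CC) (a b : O) : Prop :=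
  ∀ r1, le r1 r → ∃ r2, le r2 r1 ∧ ∃ r', le r2 r' ∧ (r', a, b) ∈ t

/-- the iterand coded by a task -/
def RT (le : CC → CC → Prop) (t : Set (CC × O × O)) : Rel Y := fun r x y =>
  (x = none ∧ y = none) ∨ le r r ∧ ∃ a, x = some (Sum.inl a) ∧
    ((y = none ∧ Below le t r a a) ∨ ∃ b, y = some (Sum.inl b) ∧ Below le t r a b)

theorem small_RT {le : CC → CC → Prop} {t : Set (CC × O × O)} (ht : Small.{0} t) :
    Small.{0} {y : Y | ∃ p, RT le t p (some y) (some y)} := by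
  refine small_subset (s := Set.range fun z : t => (Sum.inl z.1.2.1 : Y)) ?_
  rintro y ⟨p, ⟨e, -⟩ | ⟨hp, a, e, ⟨e', -⟩ | ⟨b, -, h⟩⟩⟩
  · simp at e
  · simp at e'
  · obtain ⟨_, -, r', -, h1⟩ := h p hp
    exact ⟨⟨_, h1⟩, (Option.some.inj e).symm⟩

/-- what is asked of an iterand -/
def Ok (le : CC → CC → Prop) (S : Rel Y) : Prop :=
  IsIt le S ∧ CCCR (two le S) ∧ Small.{0} {y : Y | ∃ p, S p (some y) (some y)}

open Classical in
/-- the iterand chosen at the stage `α` -/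
noncomputable def step (α : O) (le : CC → CC → Prop) : Rel Y :=
  if Order.IsSuccLimit α then RL le
  else if Ok le (RT le (task α.pred)) then RT le (task α.pred) else fun _ x y => x = none ∧ y = none

open Classical in
/-- the iterands -/
noncomputable def R : O → Rel Y :=
  (wellFounded_lt (α := O)).fix fun α R' =>
    step α (leA (fun γ => if h : γ < α then R' γ h else fun _ _ _ => True) α)

theorem R_eq (α : O) : R α = step α (leA R α) := by
  classical
  rw [R, WellFounded.fix_eq]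
  congr 1
  exact leA_congr fun γ hγ => dif_pos hγ

theorem good (a : O) : Good a R := by
  intro b hb
  clear hb
  induction b using WellFoundedLT.induction with
  | ind b ih =>
    have g : Good b R := ih
    change Ok _ _
    rw [R_eq, step]
    split_ifs with h1 h2
    · exact ⟨isIt_RL fun _ _ => g.left, cccr_RL (fun _ _ _ => g.trans) (fun _ _ => g.left) g.cccr,
        small_RL g.small⟩
    · exact h2
    · refine ⟨⟨fun _ _ _ _ _ h => h, fun _ _ _ _ h h' => ⟨h.1, h'.2⟩, fun _ _ _ h => ⟨h.1, h.1⟩,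
        fun _ _ h => ⟨h.1, rfl⟩, fun _ => ⟨rfl, rfl⟩⟩, fun ι I hI p hp => ?_, ?_⟩
      · obtain ⟨i, hi, j, hj, hne, r, r1, r2⟩ := g.cccr ι I hI (fun i => (p i).1)
          fun i hi => (hp i hi).1
        exact ⟨i, hi, j, hj, hne, (r, none), ⟨r1, rfl, (hp i hi).2.1⟩, r2, rfl, (hp j hj).2.1⟩
      · have : IsEmpty {y : Y | ∃ _ : CC, some y = none ∧ some y = none} :=
          ⟨fun ⟨_, _, h, _⟩ => by simp at h⟩
        infer_instance

theorem isIt (α : O) : IsIt (leA R α) (R α) := (good _ α (Order.lt_succ α)).1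

theorem R_limit {α : O} (h : Order.IsSuccLimit α) : R α = RL (leA R α) := by
  rw [R_eq, step, if_pos h]

/-- ground form of Martin's principle: a small task that is a ccc iterand at all late stages is used -/
theorem exists_R_eq_RT (t : Set (CC × O × O)) (ht : Small.{0} t) (α0 : O)
    (h : ∀ α, α0 ≤ α → IsIt (leA R α) (RT (leA R α) t) ∧ CCCR (two (leA R α) (RT (leA R α) t))) :
    ∃ α, α0 ≤ α ∧ R α = RT (leA R α) t := by
  obtain ⟨β, hβ, e⟩ := task_spec t ht α0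
  have h1 := h (Order.succ β) (hβ.trans (Order.le_succ β))
  refine ⟨Order.succ β, hβ.trans (Order.le_succ β), ?_⟩
  rw [R_eq, step, if_neg (Order.not_isSuccLimit_succ β), show (Order.succ β).pred = β from Ordinal.pred_add_one β, e,
    if_pos ⟨h1.1, h1.2, small_RT ht⟩]

theorem exists_sup (p : CC) : ∃ α, Sup α p := by
  obtain ⟨α, hα⟩ := p.fin.bddAbove
  exact ⟨Order.succ α, fun γ h => Order.lt_succ_iff.2 (hα h)⟩

theorem exists_sup_small {ι : Type 1} [Small.{0} ι] (p : ι → CC) : ∃ α, ∀ i, Sup α (p i) := by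
  choose a ha using fun i => exists_sup (p i)
  obtain ⟨α, hα⟩ := Ordinal.bddAbove_of_small (s := Set.range a)
  exact ⟨α, fun i => (ha i).mono (hα ⟨i, rfl⟩)⟩

theorem exists_sup_two (p q : CC) (β : O) : ∃ α, β < α ∧ Sup α p ∧ Sup α q := by
  obtain ⟨a, ha⟩ := exists_sup p
  obtain ⟨b, hb⟩ := exists_sup q
  exact ⟨max (Order.succ β) (max a b), lt_max_of_lt_left (Order.lt_succ β),
    ha.mono (le_max_of_le_right (le_max_left _ _)), hb.mono (le_max_of_le_right (le_max_right _ _))⟩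

/-- the order of the whole iteration -/
def le (p q : CC) : Prop := ∀ γ, R γ (p.restr γ) (p.f γ) (q.f γ)

theorem leA_iff {α : O} {p q : CC} : leA R α p q ↔ Sup α p ∧ Sup α q ∧ le p q := by
  refine ⟨fun h => ⟨h.1, h.2.1, fun γ => ?_⟩, fun h => ⟨h.1, h.2.1, fun γ _ => h.2.2 γ⟩⟩
  rcases lt_or_ge γ α with h1 | h1
  · exact h.2.2 γ h1
  · rw [h.1.none h1, h.2.1.none h1]
    exact (isIt γ).nn _

theorem leA_le {α : O} {p q : CC} (h : leA R α p q) : le p q := (leA_iff.1 h).2.2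

theorem le.restr {p q : CC} (h : le p q) (α : O) : leA R α (p.restr α) (q.restr α) := by
  obtain ⟨a, h0, h1, h2⟩ := exists_sup_two p q α
  exact (leA_iff.2 ⟨h1, h2, h⟩).restr h0.le

theorem le.trans {p q r : CC} (h : le p q) (h' : le q r) : le p r :=
  fun γ => (isIt γ).trans _ _ _ _ (h γ) ((isIt γ).mono _ _ _ _ (h.restr γ) (h' γ))

theorem le.left {p q : CC} (h : le p q) : le p p := fun γ => (isIt γ).left _ _ _ (h γ)

theorem le.restr' {p q : CC} (h : le p q) (α : O) : le (p.restr α) (q.restr α) :=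
  leA_le (h.restr α)

theorem le.le_restr {p : CC} (h : le p p) (α : O) : le p (p.restr α) := by
  obtain ⟨a, ha⟩ := exists_sup p
  exact leA_le ((good a).le_restr (leA_iff.2 ⟨ha, ha, h⟩) α)

theorem le.restr_le {p q : CC} {α : O} (h : le p q) (hq : Sup α q) : le (p.restr α) q := by
  have := h.restr' α
  rwa [hq.restr_eq] at this

theorem amalg1 {p r : CC} {β : O} (hp : le p p) (hr : Sup β r) (h1 : le r (p.restr β)) :
    ∃ s, le s p ∧ le s r ∧ s.restr β = r := by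
  obtain ⟨a, h0, ha, -⟩ := exists_sup_two p p β
  obtain ⟨s, g1, g2, g3, -⟩ := (good a).amalg1 h0.le (leA_iff.2 ⟨ha, ha, hp⟩)
    (leA_iff.2 ⟨hr, sup_restr _ _, h1⟩)
  exact ⟨s, leA_le g1, leA_le g2, g3⟩

theorem upd_le {p : CC} (hp : le p p) {α : O} {x : Option Y} (h : R α (p.restr α) x (p.f α)) :
    le (p.upd α x) p := by
  obtain ⟨a, h0, ha, -⟩ := exists_sup_two p p α
  exact leA_le ((good a).upd_le (leA_iff.2 ⟨ha, ha, hp⟩) h0 h)

/-- the forcing -/
def PP : Type 1 := {p : CC // le p p}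

instance : Preorder PP where
  le p q := le p.1 q.1
  le_refl p := p.2
  le_trans _ _ _ h h' := le.trans h h'

instance : OrderTop PP where
  top := ⟨C.one, fun γ => (isIt γ).nn _⟩
  le_top p := fun γ => (isIt γ).top _ _ (p.2 γ)

theorem PP.le_def {p q : PP} : p ≤ q ↔ le p.1 q.1 := Iff.rfl

theorem cccr_le : CCCR le := cccr_of_W1 fun p hp => by
  obtain ⟨α, hα⟩ := exists_sup_small p
  obtain ⟨i, -, j, -, hne, r, r1, r2⟩ := (good α).cccr W1 Set.univ Set.not_countable_univ p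
    fun i _ => leA_iff.2 ⟨hα i, hα i, hp i⟩
  exact ⟨i, j, hne, r, leA_le r1, leA_le r2⟩

theorem ccc_PP : CCC PP := fun ι I hI p => by
  obtain ⟨i, hi, j, hj, hne, r, r1, r2⟩ := cccr_le ι I hI (fun i => (p i).1) fun i _ => (p i).2
  exact ⟨i, hi, j, hj, hne, ⟨r, r1.left⟩, r1, r2⟩

theorem mk_PP_le : #PP ≤ Cardinal.univ.{0, 1} := (mk_subtype_le _).trans mk_C_le

instance (g : O) : Fact (Tr (leA R g)) := ⟨fun _ _ _ => (good g).trans⟩

/-- the conditions of the stage `g` -/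
abbrev Sg (g : O) : Type 1 := St (leA R g)

instance (g : O) : Small.{0} (Sg g) := (good g).small

theorem small_stage (g : O) : Small.{0} {p : PP | Sup g p.1} :=
  small_of_injective (β := Sg g) (f := fun p => ⟨p.1.1, leA_iff.2 ⟨p.2, p.2, p.1.2⟩⟩)
    fun _ _ h => Subtype.ext (Subtype.ext (congrArg (fun z : Sg g => z.1) h))

/-- a stage condition as a condition of the forcing -/
def emb {g : O} (q : Sg g) : PP := ⟨q.1, leA_le q.2⟩

/-- the restriction to a stage -/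
noncomputable def proj (g : O) (p : PP) : Sg g := ⟨p.1.restr g, p.2.restr g⟩

theorem emb_le_emb {g : O} {q q' : Sg g} : emb q ≤ emb q' ↔ q ≤ q' :=
  ⟨fun h => leA_iff.2 ⟨q.2.1, q'.2.1, h⟩, fun h => leA_le h⟩

theorem sup_emb {g : O} (q : Sg g) : Sup g (emb q).1 := q.2.1

theorem proj_emb {g : O} (q : Sg g) : proj g (emb q) = q := Subtype.ext q.2.1.restr_eq

theorem emb_proj {g : O} {p : PP} (h : Sup g p.1) : emb (proj g p) = p := Subtype.ext h.restr_eq

theorem le_emb_proj (g : O) (p : PP) : p ≤ emb (proj g p) := p.2.le_restr g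

theorem proj_mono (g : O) {p q : PP} (h : p ≤ q) : proj g p ≤ proj g q := le.restr h g

theorem proj_le_iff {g : O} {p : PP} {q : Sg g} : proj g p ≤ q ↔ p ≤ emb q :=
  ⟨fun h => (le_emb_proj g p).trans (emb_le_emb.2 h), fun h => proj_emb q ▸ proj_mono g h⟩

/-- everything below the restriction amalgamates with the condition -/
theorem exists_amalg {g : O} (p : PP) {q : Sg g} (h : q ≤ proj g p) :
    ∃ s ≤ p, proj g s = q := by
  obtain ⟨s, s1, -, s3⟩ := amalg1 p.2 q.2.1 (leA_le h)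
  exact ⟨⟨s, s1.left⟩, s1, Subtype.ext s3⟩

end Pool.Agent.P.MP_0d6be8_lc.NKStep
end

-- part Pool.Agent.P.MP_0d6be8_lc.NKMA
section

set_option autoImplicit false

/-! Martin's principle for ccc posets holds in the extension by the fixed iteration. -/

open Pool.Agent.Lib.PosetForcing Cardinal
open Pool.Agent.P.MP_93aff1_lc (IsPoset Compat IsCCC IsDense IsFilter MA)

namespace Pool.Agent.P.MP_0d6be8_lc.NKMA

open NKIter NKStep

section inst
universe u
variable {P : Type u} [Preorder P]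

instance clopen_isPoset (a b : Name P) :
    Clopen fun U : Gen P => IsPoset Mod.mem (a.val U) (b.val U) := by
  unfold IsPoset; infer_instance

instance clopen_compat (a b c d : Name P) :
    Clopen fun U : Gen P => Compat Mod.mem (a.val U) (b.val U) (c.val U) (d.val U) := by
  unfold Compat; infer_instance

instance clopen_isCCC (a b c : Name P) :
    Clopen fun U : Gen P => IsCCC Mod.mem (a.val U) (b.val U) (c.val U) := by
  unfold IsCCC; infer_instance

instance clopen_isDense (a b c : Name P) :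
    Clopen fun U : Gen P => IsDense Mod.mem (a.val U) (b.val U) (c.val U) := by
  unfold IsDense; infer_instance

instance clopen_isFilter (a b c : Name P) :
    Clopen fun U : Gen P => IsFilter Mod.mem (a.val U) (b.val U) (c.val U) := by
  unfold IsFilter; infer_instance

instance clopen_ma (a b : Name P) : Clopen fun U : Gen P => MA Mod.mem (a.val U) (b.val U) := by
  unfold MA; infer_instance

end inst

/-- `ω` -/
noncomputable def wN : Name PP := omegaName

/-- the power set of `ω` -/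
noncomputable def cN : Name PP := powName omegaName

theorem mem_cN {U : Gen PP} {x : Mod U} : Mod.mem x (cN.val U) ↔ IsSub Mod.mem x (wN.val U) :=
  mem_powName _ U x

theorem exists_small_cover {p : PP} {F : Name PP}
    (h : Forces p fun U => ¬ LeCard Mod.mem (cN.val U) (F.val U)) :
    ∃ q ≤ p, ∃ (Z : Type 1) (_ : Small.{0} Z) (d : Z → Name PP),
      Forces q fun U => ∀ D, Mod.mem D (F.val U) → Mod.mem D ((fam d).val U) := by
  by_contra hcon
  push Not at hcon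
  have h1 : ∀ (Z : Type 1) (_ : Small.{0} Z) (d : Z → Name PP), ∃ g : Name PP,
      Forces p fun U => Mod.mem (g.val U) (F.val U) ∧ ¬ Mod.mem (g.val U) ((fam d).val U) := by
    intro Z hZ d
    refine Forces.exists_name
      (Φ := fun U g => Mod.mem g (F.val U) ∧ ¬ Mod.mem g ((fam d).val U)) ?_
    by_contra h2
    obtain ⟨q, hq, h3⟩ := exists_forces_not h2
    exact hcon q hq Z hZ d (h3.imp fun U h D hD => by_contra fun h4 => h ⟨D, hD, h4⟩)
  choose g hg using h1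
  obtain ⟨e⟩ : Nonempty ({S : Set (PP × ULift.{1} ℕ) // Small.{0} S} ↪ O) := by
    rw [← Cardinal.le_def, mk_ordinal]
    exact mk_small_le (mk_prod_le mk_PP_le (mk_le_univ_of_small _))
  have hr : WellFounded fun μ ν => e μ < e ν := InvImage.wf e wellFounded_lt
  have hsm : ∀ ν, Small.{0} {μ // e μ < e ν} := fun ν => small_of_injective
    (f := fun μ => (⟨e μ.1, μ.2⟩ : Set.Iio (e ν)))
    fun μ μ' h => Subtype.ext (e.injective (congrArg Subtype.val h))
  let dn : {S : Set (PP × ULift.{1} ℕ) // Small.{0} S} → Name PP :=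
    hr.fix fun ν ih => g {μ // e μ < e ν} (hsm ν) fun μ => ih μ.1 μ.2
  have hdn : ∀ ν, dn ν = g {μ // e μ < e ν} (hsm ν) fun μ => dn μ.1 := fun ν => hr.fix_eq _ ν
  have hlt : ∀ μ ν, e μ < e ν → ∀ q ≤ p, ¬ Forces q fun U => (dn μ).val U = (dn ν).val U := by
    intro μ ν hμ q hq h2
    refine Forces.not_false (p := q) fun U hU => ?_
    have h3 := ((hg _ (hsm ν) fun μ => dn μ.1).mono hq U hU).2
    rw [← hdn ν, ← h2 U hU] at h3
    exact h3 (mem_fam (fun μ : {μ // e μ < e ν} => dn μ.1) ⟨μ, hμ⟩ U)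
  have h2 : Forces p fun U => LeCard Mod.mem (cN.val U) (F.val U) := by
    refine forces_leCard (fun S => niceReal S.1) dn (fun x q _ hx => ?_)
      (fun ν => hdn ν ▸ (hg _ (hsm ν) _).imp fun U h => h.1) fun μ ν hne q hq h => ?_
    · obtain ⟨S, hS, hS'⟩ := ccc_PP.exists_niceReal x
      have := hS.to_subtype
      exact ⟨q, le_rfl, ⟨S, inferInstance⟩, hx.imp fun U h => hS' U (mem_cN.1 h)⟩
    · rcases lt_trichotomy (e μ) (e ν) with h1 | h1 | h1
      · exact hlt μ ν h1 q hq h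
      · exact hne (e.injective h1)
      · exact hlt ν μ h1 q hq (h.imp fun _ h => h.symm)
  exact Forces.not_false ((h.and h2).imp fun _ h => h.1 h.2)

/-- terms generating a small subposet -/
inductive Tm (Z : Type) : Type
  | base : Tm Z
  | e : Tm Z → Z → Tm Z
  | m : Tm Z → Tm Z → Tm Z

/-- the names of the terms -/
def Tm.nm {Z : Type} (b : Name PP) (eN : Name PP → Z → Name PP) (mN : Name PP → Name PP → Name PP) :
    Tm Z → Name PP
  | .base => b
  | .e x y => eN (x.nm b eN mN) y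
  | .m x x' => mN (x.nm b eN mN) (x'.nm b eN mN)

theorem exists_sub {p0 : PP} {Q le F : Name PP} {Z : Type} (d : Z → Name PP)
    (h : Forces p0 fun U => IsPoset Mod.mem (Q.val U) (le.val U) ∧
      ∀ D, Mod.mem D (F.val U) → IsDense Mod.mem D (Q.val U) (le.val U)) :
    ∃ qn : Tm Z → Name PP, (∀ x, Forces p0 fun U => Mod.mem ((qn x).val U) (Q.val U)) ∧
      (∀ x y, Forces p0 fun U => App Mod.mem (le.val U) ((qn (.e x y)).val U) ((qn x).val U) ∧
        (Mod.mem ((d y).val U) (F.val U) → Mod.mem ((qn (.e x y)).val U) ((d y).val U))) ∧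
      ∀ x x', Forces p0 fun U =>
        Compat Mod.mem (Q.val U) (le.val U) ((qn x).val U) ((qn x').val U) →
        App Mod.mem (le.val U) ((qn (.m x x')).val U) ((qn x).val U) ∧
        App Mod.mem (le.val U) ((qn (.m x x')).val U) ((qn x').val U) := by
  obtain ⟨b, hb⟩ := max_principle fun U x => Mod.mem x (Q.val U)
  choose eN heN using fun (x : Name PP) (y : Z) => max_principle fun U z =>
    Mod.mem z (Q.val U) ∧ App Mod.mem (le.val U) z (x.val U) ∧
      (Mod.mem ((d y).val U) (F.val U) → Mod.mem z ((d y).val U))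
  choose mN hmN using fun (x x' : Name PP) => max_principle fun U z =>
    Mod.mem z (Q.val U) ∧ (Compat Mod.mem (Q.val U) (le.val U) (x.val U) (x'.val U) →
      App Mod.mem (le.val U) z (x.val U) ∧ App Mod.mem (le.val U) z (x'.val U))
  have h1 : ∀ (x : Name PP) y U, Set.Iic p0 ∈ U.1 → Mod.mem (x.val U) (Q.val U) → _ :=
    fun x y U hU hx => heN x y U (by
      by_cases hd : Mod.mem ((d y).val U) (F.val U)
      · obtain ⟨z, hz, hz'⟩ := ((h U hU).2 _ hd).2 _ hx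
        exact ⟨z, ((h U hU).2 _ hd).1 z hz, hz', fun _ => hz⟩
      · exact ⟨_, hx, (h U hU).1.2.1 _ hx, fun h => absurd h hd⟩)
  have h2 : ∀ (x x' : Name PP) (U : Gen PP), Set.Iic p0 ∈ U.1 → _ := fun x x' U hU => hmN x x' U (by
    by_cases hc : Compat Mod.mem (Q.val U) (le.val U) (x.val U) (x'.val U)
    · obtain ⟨z, hz, hz'⟩ := hc
      exact ⟨z, hz, fun _ => hz'⟩
    · obtain ⟨z, hz⟩ := (h U hU).1.1
      exact ⟨z, hz, fun h => absurd h hc⟩)
  have h3 : ∀ x : Tm Z, Forces p0 fun U => Mod.mem ((x.nm b eN mN).val U) (Q.val U) := by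
    intro x U hU
    induction x with
    | base => exact hb U (h U hU).1.1
    | e x y ih => exact (h1 _ y U hU ih).1
    | m x x' _ _ => exact (h2 _ _ U hU).1
  exact ⟨Tm.nm b eN mN, h3, fun x y U hU => (h1 _ y U hU (h3 x U hU)).2,
    fun x x' U hU => (h2 _ _ U hU).2⟩

section main
variable {p0 : PP} {Q lq : Name PP} {X : Type} {qn : X → Name PP} {ι : X ↪ O} {α : O}
  {A : X → X → Set PP}

/-- the task coding the forced order of the names `qn` -/
def tk (ι : X ↪ O) (A : X → X → Set PP) : Set (CC × O × O) :=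
  {z | ∃ x y, ∃ r ∈ A x y, z = (r.1, ι x, ι y)}

variable (p0 lq qn) in
/-- densely below `r`, conditions extend `p0` and force `qn x ≤ qn y` -/
def Fo (r : CC) (x y : X) : Prop := ∀ s : PP, le s.1 r → ∃ s' ≤ s, s' ≤ p0 ∧
  Forces s' fun U => App Mod.mem (lq.val U) ((qn x).val U) ((qn y).val U)

variable (p0 lq qn α A) in
/-- the antichains capture the forced order and live below the stage `α` -/
structure Cap : Prop where
  sub : ∀ x y, ∀ r ∈ A x y, r ≤ p0 ∧
    Forces r fun U => App Mod.mem (lq.val U) ((qn x).val U) ((qn y).val U)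
  max : ∀ x y, ∀ q ≤ p0, (Forces q fun U => App Mod.mem (lq.val U) ((qn x).val U) ((qn y).val U)) →
    ∃ r ∈ A x y, ∃ u, u ≤ r ∧ u ≤ q
  sup : ∀ x y, ∀ r ∈ A x y, Sup α r.1
  sup0 : Sup α p0.1

theorem below_mono {t : Set (CC × O × O)} {r r' : CC} {a b : O} (h : Below (leA R α) t r a b)
    (hr : leA R α r' r) : Below (leA R α) t r' a b := fun r1 h1 =>
  h r1 (leA_iff.2 ⟨h1.1, hr.2.1, (leA_iff.1 h1).2.2.trans (leA_iff.1 hr).2.2⟩)

theorem Cap.fo (h : Cap p0 lq qn α A) {r : CC} {a b : O} (hb : Below (leA R α) (tk ι A) r a b)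
    (hr : leA R α r r) : ∃ x y, a = ι x ∧ b = ι y ∧ Fo p0 lq qn r x y := by
  obtain ⟨_, -, _, -, x, y, _, -, e⟩ := hb r hr
  simp only [Prod.mk.injEq] at e
  obtain ⟨-, rfl, rfl⟩ := e
  refine ⟨x, y, rfl, rfl, fun s hs => ?_⟩
  obtain ⟨r2, h2, r', h3, x', y', r'', h4, e⟩ := hb (s.1.restr α)
    (leA_iff.2 ⟨sup_restr _ _, hr.1, hs.restr_le hr.1⟩)
  simp only [Prod.mk.injEq, EmbeddingLike.apply_eq_iff_eq] at e
  obtain ⟨rfl, rfl, rfl⟩ := e
  obtain ⟨u, u1, u2, -⟩ := amalg1 s.2 h2.1 (leA_iff.1 h2).2.2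
  let u' : PP := ⟨u, u1.left⟩
  have u3 : u' ≤ r'' := u2.trans (leA_iff.1 h3).2.2
  exact ⟨u', u1, u3.trans (h.sub _ _ _ h4).1, (h.sub _ _ _ h4).2.mono u3⟩

theorem Cap.below (h : Cap p0 lq qn α A) {r : CC} {x y : X} (hf : Fo p0 lq qn r x y) :
    Below (leA R α) (tk ι A) r (ι x) (ι y) := by
  intro r1 h1
  obtain ⟨s, s1, s2, s3⟩ := hf ⟨r1, (leA_iff.1 h1).2.2.left⟩ (leA_iff.1 h1).2.2
  obtain ⟨a, ha, u, u1, u2⟩ := h.max x y s s2 s3
  exact ⟨u.1.restr α, leA_iff.2 ⟨sup_restr _ _, h1.1, le.restr_le (u2.trans s1) h1.1⟩, a.1,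
    leA_iff.2 ⟨sup_restr _ _, h.sup _ _ _ ha, le.restr_le u1 (h.sup _ _ _ ha)⟩, x, y, a, ha, rfl⟩

theorem Fo.forces {r : CC} {x y : X} (h : Fo p0 lq qn r x y) {s : PP} (hs : le s.1 r) :
    Forces s fun U => App Mod.mem (lq.val U) ((qn x).val U) ((qn y).val U) :=
  Forces.of_dn fun q hq => by
    obtain ⟨s', h1, -, h2⟩ := h q (le.trans hq hs)
    exact ⟨s', h1, h2⟩

theorem Cap.fo_of_forces (h : Cap p0 lq qn α A) {s : PP} (hs : s ≤ p0) {x y : X}
    (hf : Forces p0 fun U => App Mod.mem (lq.val U) ((qn x).val U) ((qn y).val U)) :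
    Fo p0 lq qn (s.1.restr α) x y := fun s' h1 =>
  have h2 : s' ≤ p0 := le.trans h1 (le.restr_le hs h.sup0)
  ⟨s', le_rfl, h2, hf.mono h2⟩

theorem Cap.isIt (h : Cap p0 lq qn α A)
    (hP : Forces p0 fun U => IsPoset Mod.mem (Q.val U) (lq.val U))
    (hq : ∀ x, Forces p0 fun U => Mod.mem ((qn x).val U) (Q.val U)) :
    IsIt (leA R α) (RT (leA R α) (tk ι A)) := by
  have hl : ∀ {r r1 : CC}, leA R α r1 r → leA R α r1 r1 := fun h1 =>
    leA_iff.2 ⟨h1.1, h1.1, (leA_iff.1 h1).2.2.left⟩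
  have left : ∀ r a b, Below (leA R α) (tk ι A) r a b → Below (leA R α) (tk ι A) r a a := by
    intro r a b hb r1 h1
    obtain ⟨x, y, rfl, rfl, hf⟩ := h.fo (below_mono hb h1) (hl h1)
    refine h.below (fun s hs => ?_) r1 (hl h1)
    obtain ⟨s', s1, s2, -⟩ := hf s hs
    exact ⟨s', s1, s2, ((hP.and (hq x)).mono s2).imp fun U h => h.1.2.1 _ h.2⟩
  have trans : ∀ r a b c, Below (leA R α) (tk ι A) r a b → Below (leA R α) (tk ι A) r b c →
      Below (leA R α) (tk ι A) r a c := by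
    intro r a b c hb hc r1 h1
    obtain ⟨x, y, rfl, rfl, hf⟩ := h.fo (below_mono hb h1) (hl h1)
    obtain ⟨y', z, e, rfl, hf'⟩ := h.fo (below_mono hc h1) (hl h1)
    obtain rfl := ι.injective e
    refine h.below (fun s hs => ?_) r1 (hl h1)
    obtain ⟨s', s1, s2, s3⟩ := hf s hs
    exact ⟨s', s1, s2, fun U hU => (hP.mono s2 U hU).2.2 _ _ _ ((hq x).mono s2 U hU)
      ((hq y).mono s2 U hU) ((hq z).mono s2 U hU) (s3 U hU) (hf'.forces (le.trans s1 hs) U hU)⟩
  refine ⟨?_, ?_, ?_, ?_, fun r => Or.inl ⟨rfl, rfl⟩⟩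
  · rintro r r' x y hr (h1 | ⟨-, a, rfl, ⟨rfl, h1⟩ | ⟨b, rfl, h1⟩⟩)
    · exact Or.inl h1
    · exact Or.inr ⟨hl hr, a, rfl, Or.inl ⟨rfl, below_mono h1 hr⟩⟩
    · exact Or.inr ⟨hl hr, a, rfl, Or.inr ⟨b, rfl, below_mono h1 hr⟩⟩
  · rintro r x y z (⟨rfl, rfl⟩ | ⟨h0, a, rfl, ⟨rfl, h1⟩ | ⟨b, rfl, h1⟩⟩) h2
    · exact h2
    · rcases h2 with ⟨-, rfl⟩ | ⟨-, b, e, -⟩
      · exact Or.inr ⟨h0, a, rfl, Or.inl ⟨rfl, h1⟩⟩
      · simp at e
    · rcases h2 with ⟨e, -⟩ | ⟨-, b', e, ⟨rfl, -⟩ | ⟨c, rfl, h2⟩⟩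
      · simp at e
      · exact Or.inr ⟨h0, a, rfl, Or.inl ⟨rfl, left _ _ _ h1⟩⟩
      · obtain rfl : b = b' := by simpa using e
        exact Or.inr ⟨h0, a, rfl, Or.inr ⟨c, rfl, trans _ _ _ _ h1 h2⟩⟩
  · rintro r x y (⟨rfl, rfl⟩ | ⟨h0, a, rfl, ⟨rfl, h1⟩ | ⟨b, rfl, h1⟩⟩)
    · exact Or.inl ⟨rfl, rfl⟩
    · exact Or.inr ⟨h0, a, rfl, Or.inr ⟨a, rfl, h1⟩⟩
    · exact Or.inr ⟨h0, a, rfl, Or.inr ⟨a, rfl, left _ _ _ h1⟩⟩
  · rintro r x (⟨rfl, -⟩ | ⟨h0, a, rfl, ⟨-, h1⟩ | ⟨b, -, h1⟩⟩)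
    · exact Or.inl ⟨rfl, rfl⟩
    · exact Or.inr ⟨h0, a, rfl, Or.inl ⟨rfl, h1⟩⟩
    · exact Or.inr ⟨h0, a, rfl, Or.inl ⟨rfl, left _ _ _ h1⟩⟩

theorem Cap.of_RT (h : Cap p0 lq qn α A) {r : CC} (hr : leA R α r r) {v : Option Y} {x : X}
    (hv : RT (leA R α) (tk ι A) r v (some (Sum.inl (ι x)))) :
    ∃ x', v = some (Sum.inl (ι x')) ∧ Fo p0 lq qn r x' x := by
  rcases hv with ⟨-, e⟩ | ⟨-, a, rfl, ⟨e, -⟩ | ⟨b, e, h1⟩⟩
  · simp at e
  · simp at e
  · obtain ⟨x', y, rfl, rfl, hf⟩ := h.fo h1 hr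
    obtain rfl : x = y := by simpa using e
    exact ⟨x', rfl, hf⟩

theorem Cap.of_RT_self (h : Cap p0 lq qn α A) {r : CC} (hr : leA R α r r) {v : Option Y}
    (hv : RT (leA R α) (tk ι A) r v v) (hn : v ≠ none) :
    ∃ x, v = some (Sum.inl (ι x)) ∧ Fo p0 lq qn r x x := by
  rcases hv with ⟨e, -⟩ | ⟨-, a, rfl, ⟨e, -⟩ | ⟨b, e, h1⟩⟩
  · exact absurd e hn
  · exact absurd e hn
  · obtain ⟨x', y, rfl, rfl, hf⟩ := h.fo h1 hr
    obtain rfl : x' = y := by simpa using e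
    exact ⟨x', rfl, hf⟩

theorem generic_case {Z : Type} {qn : Tm Z → Name PP} {ι : Tm Z ↪ O} {A : Tm Z → Tm Z → Set PP}
    {F : Name PP} {Z1 : Type 1} {d : Z1 → Name PP} (u : Z1 ≃ Z)
    (h : Cap p0 lq qn α A) (hR : R α = RT (leA R α) (tk ι A))
    (hP : Forces p0 fun U => IsPoset Mod.mem (Q.val U) (lq.val U))
    (hq : ∀ x, Forces p0 fun U => Mod.mem ((qn x).val U) (Q.val U))
    (he : ∀ x y, Forces p0 fun U => App Mod.mem (lq.val U) ((qn (.e x y)).val U) ((qn x).val U) ∧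
      (Mod.mem ((d (u.symm y)).val U) (F.val U) →
        Mod.mem ((qn (.e x y)).val U) ((d (u.symm y)).val U)))
    (hd : Forces p0 fun U => ∀ D, Mod.mem D (F.val U) → Mod.mem D ((fam d).val U)) :
    Forces p0 fun U => ∃ G, IsFilter Mod.mem G (Q.val U) (lq.val U) ∧
      ∀ D, Mod.mem D (F.val U) → ∃ x, Mod.mem x G ∧ Mod.mem x D := by
  let H : Name PP := .mk {z : PP × ULift.{1} (Tm Z) // z.1.1.f α = some (Sum.inl (ι z.2.down))}
    (fun z => qn z.1.2.down) fun z => z.1.1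
  have hH : ∀ (s : PP) x, s.1.f α = some (Sum.inl (ι x)) →
      Forces s fun U => Mod.mem ((qn x).val U) (H.val U) := fun s x hs =>
    forces_el_mem (b := H) ⟨(s, ⟨x⟩), hs⟩ le_rfl
  have L1 : ∀ s ≤ p0, ∃ s' ≤ s, ∃ x, s'.1.f α = some (Sum.inl (ι x)) := by
    intro s hs
    by_cases hn : s.1.f α = none
    · have : le (s.1.upd α (some (Sum.inl (ι .base)))) s.1 := upd_le s.2 (by
        rw [hR, hn]
        exact Or.inr ⟨s.2.restr α, _, rfl, Or.inl ⟨rfl, h.below (h.fo_of_forces hs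
          ((hP.and (hq _)).imp fun U h => h.1.2.1 _ h.2))⟩⟩)
      exact ⟨⟨_, this.left⟩, this, .base, upd_self _ _ _⟩
    · obtain ⟨x, hx, -⟩ := h.of_RT_self (s.2.restr α) (hR ▸ s.2 α) hn
      exact ⟨s, le_rfl, x, hx⟩
  have L2 : ∀ s s1 : PP, s ≤ s1 → ∀ x, s1.1.f α = some (Sum.inl (ι x)) →
      ∃ x', s.1.f α = some (Sum.inl (ι x')) ∧
        Forces s fun U => App Mod.mem (lq.val U) ((qn x').val U) ((qn x).val U) := by
    intro s s1 hs x hx
    obtain ⟨x', h1, h2⟩ := h.of_RT (s.2.restr α) (hR ▸ hx ▸ hs α)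
    exact ⟨x', h1, h2.forces (s.2.le_restr α)⟩
  have L3 : ∀ s ≤ p0, ∀ y, ∃ s' ≤ s, ∃ x, s'.1.f α = some (Sum.inl (ι (.e x y))) := by
    intro s hs y
    obtain ⟨s1, h1, x, hx⟩ := L1 s hs
    have : le (s1.1.upd α (some (Sum.inl (ι (.e x y))))) s1.1 := upd_le s1.2 (by
      rw [hR, hx]
      exact Or.inr ⟨s1.2.restr α, _, rfl, Or.inr ⟨_, rfl, h.below (h.fo_of_forces (h1.trans hs)
        ((he x y).imp fun U h => h.1))⟩⟩)
    exact ⟨⟨_, this.left⟩, le.trans this h1, x, upd_self _ _ _⟩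
  have f1 : Forces p0 fun U => ∀ z, Mod.mem z (H.val U) → Mod.mem z (Q.val U) :=
    forces_forall_mem (b := H) fun i q hq' _ => ⟨q, le_rfl, (hq _).mono hq'⟩
  have f2 : Forces p0 fun U => ∃ z, Mod.mem z (H.val U) := Forces.of_dn fun s hs => by
    obtain ⟨s', h1, x, hx⟩ := L1 s hs
    exact ⟨s', h1, (hH s' x hx).imp fun U h => ⟨_, h⟩⟩
  have f3 : Forces p0 fun U => ∀ z, Mod.mem z (H.val U) → ∀ z', Mod.mem z' (H.val U) →
      ∃ w, Mod.mem w (H.val U) ∧ App Mod.mem (lq.val U) w z ∧ App Mod.mem (lq.val U) w z' := by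
    refine forces_forall_mem (b := H) fun i q _ hi => ⟨q, le_rfl,
      forces_forall_mem (b := H) fun j s hs hj => ⟨s, le_rfl, ?_⟩⟩
    obtain ⟨x, h1, h2⟩ := L2 s _ (hs.trans hi) _ i.2
    obtain ⟨x', h3, h4⟩ := L2 s _ hj _ j.2
    obtain rfl : x = x' := by simpa using h1.symm.trans h3
    exact ((hH s x h1).and (h2.and h4)).imp fun U h => ⟨_, h⟩
  have f4 : Forces p0 fun U => ∀ D, Mod.mem D ((fam d).val U) → Mod.mem D (F.val U) →
      ∃ z, Mod.mem z (H.val U) ∧ Mod.mem z D := by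
    refine forces_forall_mem_fam fun y s hs => ?_
    obtain ⟨s', h1, x, hx⟩ := L3 s hs (u y)
    refine ⟨s', h1, ((hH s' _ hx).and ((he x (u y)).mono (h1.trans hs))).imp fun U h hD => ?_⟩
    rw [u.symm_apply_apply] at h
    exact ⟨_, h.1, h.2.2 hD⟩
  intro U hU
  obtain ⟨G, hG⟩ := Mod.sep (fun U z => ∃ w, Mod.mem w (H.val U) ∧ App Mod.mem (lq.val U) w z) U
    (Q.val U)
  have g1 : ∀ z, Mod.mem z (H.val U) → Mod.mem z G := fun z hz =>
    (hG z).2 ⟨f1 U hU z hz, z, hz, (hP U hU).2.1 z (f1 U hU z hz)⟩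
  refine ⟨G, ⟨fun z hz => ((hG z).1 hz).1, (f2 U hU).imp g1, fun x y hx hy hxy => ?_,
    fun x y hx hy => ?_⟩, fun D hD => ?_⟩
  · obtain ⟨hx1, w, hw, hw'⟩ := (hG x).1 hx
    exact (hG y).2 ⟨hy, w, hw, (hP U hU).2.2 _ _ _ (f1 U hU w hw) hx1 hy hw' hxy⟩
  · obtain ⟨hx1, w, hw, hw'⟩ := (hG x).1 hx
    obtain ⟨hy1, v, hv, hv'⟩ := (hG y).1 hy
    obtain ⟨z, hz, z1, z2⟩ := f3 U hU w hw v hv
    exact ⟨z, g1 z hz, (hP U hU).2.2 _ _ _ (f1 U hU z hz) (f1 U hU w hw) hx1 z1 hw',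
      (hP U hU).2.2 _ _ _ (f1 U hU z hz) (f1 U hU v hv) hy1 z2 hv'⟩
  · obtain ⟨z, hz, hz'⟩ := f4 U hU D (hd U hU D hD) hD
    exact ⟨z, g1 z hz, hz'⟩

theorem ccc_case {Z : Type} {qn : Tm Z → Name PP} {ι : Tm Z ↪ O} {A : Tm Z → Tm Z → Set PP}
    (h : Cap p0 lq qn α A)
    (hP : Forces p0 fun U => IsPoset Mod.mem (Q.val U) (lq.val U))
    (hC : Forces p0 fun U => IsCCC Mod.mem (Q.val U) (lq.val U) (wN.val U))
    (hq : ∀ x, Forces p0 fun U => Mod.mem ((qn x).val U) (Q.val U))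
    (hm : ∀ x x', Forces p0 fun U =>
        Compat Mod.mem (Q.val U) (lq.val U) ((qn x).val U) ((qn x').val U) →
        App Mod.mem (lq.val U) ((qn (.m x x')).val U) ((qn x).val U) ∧
        App Mod.mem (lq.val U) ((qn (.m x x')).val U) ((qn x').val U)) :
    CCCR (two (leA R α) (RT (leA R α) (tk ι A))) := by
  refine cccr_of_W1 fun F0 hv => ?_
  by_contra hno
  have hnn : ∀ {ξ}, ¬ (F0 ξ).2 ≠ none → ∀ r, RT (leA R α) (tk ι A) r none (F0 ξ).2 :=
    fun h _ => Or.inl ⟨rfl, not_not.1 h⟩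
  have hI0 : ¬ {ξ | (F0 ξ).2 ≠ none}.Countable := by
    intro hc
    obtain ⟨ξ, hξ, η, hη, hne, r, r1, r2⟩ := (good α).cccr _ _
      (not_countable_diff Set.not_countable_univ hc) (fun ξ => (F0 ξ).1) fun ξ _ => (hv ξ).1
    exact hno ⟨ξ, η, hne, (r, none), ⟨r1, hnn hξ.2 r⟩, ⟨r2, hnn hη.2 r⟩⟩
  have h1 : ∀ ξ, ∃ x, (F0 ξ).2 ≠ none →
      (F0 ξ).2 = some (Sum.inl (ι x)) ∧ Fo p0 lq qn (F0 ξ).1 x x := fun ξ => by
    by_cases hn : (F0 ξ).2 = none
    · exact ⟨.base, fun h => absurd hn h⟩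
    · exact (h.of_RT_self (hv ξ).1 (hv ξ).2 hn).imp fun x hx _ => hx
  choose xx hxx using h1
  let k : W1 → PP := fun ξ => ⟨_, leA_le (hv ξ).1⟩
  have anti : ∀ ξ η, (F0 ξ).2 ≠ none → (F0 η).2 ≠ none → ξ ≠ η → ∀ s ≤ p0, s ≤ k ξ → s ≤ k η →
      Forces s fun U =>
        ¬ Compat Mod.mem (Q.val U) (lq.val U) ((qn (xx ξ)).val U) ((qn (xx η)).val U) := by
    intro ξ η hξ hη hne s hs s1 s2
    refine forces_not_iff.2 fun s' hs' hc => ?_
    have g1 := (((hm (xx ξ) (xx η)).mono (hs'.trans hs)).and hc).imp fun U h => h.1 h.2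
    obtain ⟨a1, ha1, u1, u11, u12⟩ := h.max _ _ s' (hs'.trans hs) (g1.imp fun _ h => h.1)
    obtain ⟨a2, ha2, u2, u21, u22⟩ := h.max _ _ u1 (u12.trans (hs'.trans hs))
      ((g1.mono u12).imp fun _ h => h.2)
    have key : ∀ ζ, (F0 ζ).2 ≠ none → u2 ≤ k ζ → ∀ a ∈ A (.m (xx ξ) (xx η)) (xx ζ), u2 ≤ a →
        two (leA R α) (RT (leA R α) (tk ι A))
          (u2.1.restr α, some (Sum.inl (ι (.m (xx ξ) (xx η))))) (F0 ζ) := by
      intro ζ hζ g2 a ha g3
      refine ⟨leA_iff.2 ⟨sup_restr _ _, (hv ζ).1.1, le.restr_le g2 (hv ζ).1.1⟩,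
        Or.inr ⟨u2.2.restr α, _, rfl, Or.inr ⟨_, (hxx ζ hζ).1,
          fun r1 g4 => ⟨r1, ?_, a.1, ?_, _, _, a, ha, rfl⟩⟩⟩⟩
      · exact leA_iff.2 ⟨g4.1, g4.1, (leA_iff.1 g4).2.2.left⟩
      · exact leA_iff.2 ⟨g4.1, h.sup _ _ _ ha,
          (leA_iff.1 g4).2.2.trans (le.restr_le g3 (h.sup _ _ _ ha))⟩
    have k1 : u2 ≤ k ξ := u22.trans (u12.trans (hs'.trans s1))
    have k2 : u2 ≤ k η := u22.trans (u12.trans (hs'.trans s2))
    exact hno ⟨ξ, η, hne, _, key ξ hξ k1 a1 ha1 (u22.trans u11), key η hη k2 a2 ha2 u21⟩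
  obtain ⟨ξ0, hξ0, p1, hp1, hmany⟩ := ccc_PP.exists_many hI0 k
  obtain ⟨p2, hp2, hp20, -⟩ := (hxx ξ0 hξ0).2 p1 hp1
  let An : Name PP := .mk {ξ | (F0 ξ).2 ≠ none} (fun ξ => qn (xx ξ)) fun ξ => k ξ
  have f1 : Forces p2 fun U => IsSub Mod.mem (An.val U) (Q.val U) :=
    forces_forall_mem (b := An) (Φ := fun U z => Mod.mem z (Q.val U))
      fun i q hq' _ => ⟨q, le_rfl, (hq _).mono (hq'.trans hp20)⟩
  have f2 : Forces p2 fun U => ∀ x, Mod.mem x (An.val U) → ∀ y, Mod.mem y (An.val U) → x ≠ y →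
      ¬ Compat Mod.mem (Q.val U) (lq.val U) x y := by
    refine forces_forall_mem (b := An) fun i q hq' hi => ⟨q, le_rfl,
      forces_forall_mem (b := An) fun j s hs hj => ⟨s, le_rfl, ?_⟩⟩
    by_cases e : i = j
    · subst e
      exact Forces.of_forall (fun U h => absurd rfl h) s
    · exact (anti i.1 j.1 i.2 j.2 (fun h => e (Subtype.ext h)) s (hs.trans (hq'.trans hp20))
        (hs.trans hi) hj).imp fun U h _ => h
  obtain ⟨j, hj⟩ := Forces.exists_name (Φ := fun U j => IsInj Mod.mem j (An.val U) (wN.val U))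
    (((hC.mono hp20).and (f1.and f2)).imp fun U h => h.1 _ h.2.1 fun x y hx hy => h.2.2 x hx y hy)
  have h3 : ∀ ξ, ∃ r : PP, (∃ r, r ≤ p2 ∧ r ≤ k ξ) → r ≤ p2 ∧ r ≤ k ξ := fun ξ => by
    by_cases hr : ∃ r, r ≤ p2 ∧ r ≤ k ξ
    · exact hr.imp fun r h _ => h
    · exact ⟨p2, fun h => absurd h hr⟩
  choose c hc using h3
  refine ccc_PP.not_forces_inj (fun f => exists_fiber f (hmany p2 hp2)) (fun ξ => qn (xx ξ))
    (fun n : ULift.{1} ℕ => natName n.down) (j := j) (A := An) c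
    (fun ξ hξ => (hj.mono (hc ξ hξ.2).1).and (forces_el_mem (b := An) ⟨ξ, hξ.1⟩ (hc ξ hξ.2).2))
    fun ξ hξ η hη hne r r1 r2 e => Forces.not_false (p := r) fun U hU => ?_
  have r0 : r ≤ p0 := r1.trans ((hc ξ hξ.2).1.trans hp20)
  have g := anti ξ η hξ.1 hη.1 hne r r0 (r1.trans (hc ξ hξ.2).2) (r2.trans (hc η hη.2).2) U hU
  have g2 := (hq (xx η)).mono r0 U hU
  simp only [e U hU] at g
  exact g ⟨_, g2, (hP.mono r0 U hU).2.1 _ g2, (hP.mono r0 U hU).2.1 _ g2⟩

end main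

theorem ma_holds (U : Gen PP) : MA Mod.mem (wN.val U) (cN.val U) := by
  refine of_forces_all (Φ := fun U => MA Mod.mem (wN.val U) (cN.val U)) (fun p => ⟨p, le_rfl, ?_⟩) U
  refine forces_forall fun Q => forces_forall fun lq => forces_forall fun F =>
    forces_imp fun q1 _ hP => ⟨q1, le_rfl, forces_imp fun q2 h2 hC => ⟨q2, le_rfl,
      forces_imp fun q3 h3 hD => ⟨q3, le_rfl, forces_imp fun q4 h4 hF => ?_⟩⟩⟩
  obtain ⟨p0, h0, Z1, hZ, d, hd⟩ := exists_small_cover hF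
  replace hP := hP.mono (h0.trans (h4.trans (h3.trans h2)))
  replace hC := hC.mono (h0.trans (h4.trans h3))
  replace hD := hD.mono (h0.trans h4)
  obtain ⟨qn, hq, he, hm⟩ := exists_sub (fun y => d ((equivShrink.{0} Z1).symm y)) (hP.and hD)
  obtain ⟨ι⟩ : Nonempty (Tm (Shrink.{0} Z1) ↪ O) :=
    nonempty_embedding_to_cardinal.map fun e => e.trans ⟨_, ord_injective⟩
  choose A hA1 hA2 hA3 using fun x y => ccc_PP.exists_antichain {r | r ≤ p0 ∧
    Forces r fun U => App Mod.mem (lq.val U) ((qn x).val U) ((qn y).val U)}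
  have : ∀ x y, Countable (A x y) := fun x y => (hA2 x y).to_subtype
  obtain ⟨α1, hα1⟩ := exists_sup_small fun z : Σ x y, A x y => z.2.2.1.1
  obtain ⟨α2, hα2⟩ := exists_sup p0.1
  have hsm : Small.{0} (tk ι A) := small_of_surjective
    (f := fun z : Σ x y, A x y => (⟨(z.2.2.1.1, ι z.1, ι z.2.1), _, _, _, z.2.2.2, rfl⟩ : tk ι A))
    fun ⟨_, x, y, r, hr, e⟩ => ⟨⟨x, y, r, hr⟩, Subtype.ext e.symm⟩
  have hcap : ∀ α, max α1 α2 ≤ α → Cap p0 lq qn α A := fun α hα =>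
    ⟨fun x y r hr => hA1 x y hr, fun x y q hq h => hA3 x y q ⟨hq, h⟩,
      fun x y r hr => (hα1 ⟨x, y, r, hr⟩).mono ((le_max_left _ _).trans hα),
      hα2.mono ((le_max_right _ _).trans hα)⟩
  obtain ⟨α, hα, hR⟩ := exists_R_eq_RT (tk ι A) hsm (max α1 α2) fun α hα =>
    ⟨(hcap α hα).isIt hP hq, ccc_case (hcap α hα) hP hC hq hm⟩
  exact ⟨p0, h0, generic_case (equivShrink.{0} Z1) (hcap α hα) hR hP hq he hd⟩

end Pool.Agent.P.MP_0d6be8_lc.NKMA
end
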