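import Pool.Agent.K.MP_0d6be8_lc.C2

set_option autoImplicit false

/-! The whole iteration for a sequence of iterands that is good at every stage. -/

open Pool.Agent.Lib.PosetForcing Cardinal

namespace Pool.Agent.P.MP_0d6be8_lc.NKIter

variable {Y : Type 1}

theorem exists_sup (p : C Y) : ∃ α, Sup α p := by
  obtain ⟨α, hα⟩ := p.fin.bddAbove
  exact ⟨Order.succ α, fun γ h => Order.lt_succ_iff.2 (hα h)⟩

theorem exists_sup_small {ι : Type 1} [Small.{0} ι] (p : ι → C Y) : ∃ α, ∀ i, Sup α (p i) := by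
  choose a ha using fun i => exists_sup (p i)
  obtain ⟨α, hα⟩ := Ordinal.bddAbove_of_small (s := Set.range a)
  exact ⟨α, fun i => (ha i).mono (hα ⟨i, rfl⟩)⟩

/-- strong induction for goodness: the stage `a` may use everything known below `a` -/
theorem good_of_step {R : O → Rel Y} (h : ∀ a, Good a R → IsIt (leA R a) (R a) ∧
    CCCR (two (leA R a) (R a)) ∧ Small.{0} {y : Y | ∃ p, R a p (some y) (some y)}) (a : O) :
    Good a R := by
  induction a using WellFoundedLT.induction with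
  | ind a ih => exact fun b hb => h b (ih b hb)

/-- a sequence of iterands defined by recursion on the stage -/
theorem exists_rec (F : O → (C Y → C Y → Prop) → Rel Y) :
    ∃ R : O → Rel Y, ∀ a, R a = F a (leA R a) :=
  ⟨(wellFounded_lt (α := O)).fix fun α R' => F α fun p q =>
    Sup α p ∧ Sup α q ∧ ∀ γ (h : γ < α), R' γ h (p.restr γ) (p.f γ) (q.f γ),
    fun _ => WellFounded.fix_eq _ _ _⟩

/-- all stages are good -/
class AllGood (R : O → Rel Y) : Prop where
  good : ∀ a, Good a R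

/-- the order of the whole iteration -/
def le (R : O → Rel Y) (p q : C Y) : Prop := ∀ γ, R γ (p.restr γ) (p.f γ) (q.f γ)

variable {R : O → Rel Y}

theorem le.restr {p q : C Y} (h : le R p q) (α : O) : leA R α (p.restr α) (q.restr α) :=
  ⟨sup_restr _ _, sup_restr _ _, fun γ hγ => by
    rw [restr_restr hγ.le, restr_f_of_lt hγ, restr_f_of_lt hγ]
    exact h γ⟩

theorem le.leA {p q : C Y} {α : O} (h : le R p q) (hp : Sup α p) (hq : Sup α q) : leA R α p q :=
  ⟨hp, hq, fun γ _ => h γ⟩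

variable [g : AllGood R]

theorem good (a : O) : Good a R := g.good a

theorem isIt (a : O) : IsIt (leA R a) (R a) := (g.good _ a (Order.lt_succ a)).1

theorem cccr_two (a : O) : CCCR (two (leA R a) (R a)) := (g.good _ a (Order.lt_succ a)).2.1

theorem cccr_leA (a : O) : CCCR (leA R a) := (g.good a).cccr

instance small_leA (a : O) : Small.{0} {p : C Y // leA R a p p} := (g.good a).small

theorem leA.le {α : O} {p q : C Y} (h : leA R α p q) : le R p q := fun γ => by
  rcases lt_or_ge γ α with h1 | h1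
  · exact h.2.2 γ h1
  · rw [h.1.none h1, h.2.1.none h1]
    exact (isIt γ).nn _

theorem leA_iff {α : O} {p q : C Y} : leA R α p q ↔ Sup α p ∧ Sup α q ∧ le R p q :=
  ⟨fun h => ⟨h.1, h.2.1, h.le⟩, fun h => h.2.2.leA h.1 h.2.1⟩

theorem leA.trans {α : O} {p q r : C Y} (h : leA R α p q) (h' : leA R α q r) : leA R α p r :=
  (g.good α).trans h h'

theorem leA.left {α : O} {p q : C Y} (h : leA R α p q) : leA R α p p := (g.good α).left h

theorem le.trans {p q r : C Y} (h : le R p q) (h' : le R q r) : le R p r := fun γ =>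
  (isIt γ).trans _ _ _ _ (h γ) ((isIt γ).mono _ _ _ _ (h.restr γ) (h' γ))

theorem le.left {p q : C Y} (h : le R p q) : le R p p := fun γ => (isIt γ).left _ _ _ (h γ)

theorem le.restr' {p q : C Y} (h : le R p q) (α : O) : le R (p.restr α) (q.restr α) :=
  (h.restr α).le

theorem le.le_restr {p : C Y} (h : le R p p) (α : O) : le R p (p.restr α) := fun γ => by
  rcases lt_or_ge γ α with h1 | h1
  · rw [restr_f_of_lt h1]; exact h γ
  · rw [restr_f_of_ge h1]; exact (isIt γ).top _ _ (h γ)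

theorem le.restr_le {p q : C Y} {α : O} (h : le R p q) (hq : Sup α q) : le R (p.restr α) q := by
  have := h.restr' α
  rwa [hq.restr_eq] at this

theorem amalg {p q r : C Y} {β : O} (hp : le R p p) (hq : le R q q) (hr : Sup β r)
    (h1 : le R r (p.restr β)) (h2 : le R r (q.restr β))
    (hd : ∀ γ, β ≤ γ → p.f γ = none ∨ q.f γ = none) :
    ∃ s, le R s p ∧ le R s q ∧ s.restr β = r ∧ ∀ γ, β ≤ γ → s.f γ = (p.f γ).or (q.f γ) := by
  obtain ⟨a, ha⟩ := exists_sup p
  obtain ⟨b, hb⟩ := exists_sup q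
  have ha' : Sup (max β (max a b)) p := ha.mono ((le_max_left _ _).trans (le_max_right _ _))
  have hb' : Sup (max β (max a b)) q := hb.mono ((le_max_right _ _).trans (le_max_right _ _))
  obtain ⟨s, s1, s2, s3⟩ := (g.good _).amalg (le_max_left β (max a b)) (hp.leA ha' ha')
    (hq.leA hb' hb') (h1.leA hr (sup_restr _ _)) (h2.leA hr (sup_restr _ _)) hd
  exact ⟨s, s1.le, s2.le, s3⟩

theorem amalg1 {p r : C Y} {β : O} (hp : le R p p) (hr : Sup β r) (h1 : le R r (p.restr β)) :
    ∃ s, le R s p ∧ le R s r ∧ s.restr β = r := by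
  obtain ⟨s, g1, g2, g3, -⟩ := amalg hp h1.left hr h1 (by rw [hr.restr_eq]; exact h1.left)
    fun γ h => Or.inr (hr.none h)
  exact ⟨s, g1, g2, g3⟩

theorem upd_le {p : C Y} (hp : le R p p) {α : O} {x : Option Y}
    (h : R α (p.restr α) x (p.f α)) : le R (p.upd α x) p := by
  obtain ⟨a, ha⟩ := exists_sup p
  have ha' : Sup (max a (Order.succ α)) p := ha.mono (le_max_left _ _)
  exact ((g.good _).upd_le (hp.leA ha' ha')
    ((Order.lt_succ α).trans_le (le_max_right _ _)) h).le

variable (R) in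
/-- the forcing -/
def PP : Type 1 := {p : C Y // le R p p}

instance : Preorder (PP R) where
  le p q := le R p.1 q.1
  le_refl p := p.2
  le_trans _ _ _ h h' := le.trans h h'

instance : OrderTop (PP R) where
  top := ⟨C.one, fun γ => (isIt γ).nn _⟩
  le_top p := fun γ => (isIt γ).top _ _ (p.2 γ)

theorem PP.le_def {p q : PP R} : p ≤ q ↔ le R p.1 q.1 := Iff.rfl

theorem PP.ccc : CCC (PP R) := by
  intro ι I hI p
  have h : CCCR (le R) := cccr_of_W1 fun p hp => by
    obtain ⟨α, hα⟩ := exists_sup_small p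
    obtain ⟨i, -, j, -, hne, r, r1, r2⟩ := cccr_leA (R := R) α W1 Set.univ Set.not_countable_univ p
      fun i _ => (hp i).leA (hα i) (hα i)
    exact ⟨i, j, hne, r, r1.le, r2.le⟩
  obtain ⟨i, hi, j, hj, hne, r, r1, r2⟩ := h ι I hI (fun i => (p i).1) fun i _ => (p i).2
  exact ⟨i, hi, j, hj, hne, ⟨r, r1.left⟩, r1, r2⟩

/-- restriction of a condition of the forcing -/
noncomputable def PP.restr (p : PP R) (α : O) : PP R := ⟨p.1.restr α, p.2.restr' α⟩

theorem PP.le_restr (p : PP R) (α : O) : p ≤ p.restr α := p.2.le_restr α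

theorem PP.restr_le {p q : PP R} {α : O} (h : p ≤ q) (hq : Sup α q.1) : p.restr α ≤ q :=
  le.restr_le h hq

theorem PP.amalg1 (p : PP R) {r : PP R} {β : O} (hr : Sup β r.1) (h : r ≤ p.restr β) :
    ∃ s ≤ p, s ≤ r ∧ s.1.restr β = r.1 := by
  obtain ⟨s, s1, s2, s3⟩ := NKIter.amalg1 p.2 hr h
  exact ⟨⟨s, s1.left⟩, s1, s2, s3⟩

theorem PP.exists_upd (p : PP R) {α : O} {x : Option Y} (h : R α (p.1.restr α) x (p.1.f α)) :
    ∃ q ≤ p, q.1 = p.1.upd α x := ⟨⟨_, (upd_le p.2 h).left⟩, upd_le p.2 h, rfl⟩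

/-- a statement that is dense below `p` in the whole forcing and is witnessed by conditions of the
stage `α` is dense below `p` in the stage `α` -/
theorem PP.dense_stage {α : O} {p : PP R} {A : Set (PP R)} (hA : ∀ a ∈ A, Sup α a.1)
    (h : ∀ q ≤ p, ∃ a ∈ A, ∃ r, r ≤ a ∧ r ≤ q) {q : C Y} (hq : Sup α q) (hp : le R q p.1) :
    ∃ a ∈ A, ∃ r, leA R α r a.1 ∧ leA R α r q := by
  obtain ⟨a, ha, r, r1, r2⟩ := h ⟨q, hp.left⟩ hp
  exact ⟨a, ha, r.1.restr α, (le.restr_le r1 (hA a ha)).leA (sup_restr _ _) (hA a ha),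
    (le.restr_le r2 hq).leA (sup_restr _ _) hq⟩

instance small_stage (α : O) : Small.{0} {p : PP R // Sup α p.1} :=
  small_of_injective (f := fun p => (⟨p.1.1, p.1.2.leA p.2 p.2⟩ : {p : C Y // leA R α p p}))
    fun _ _ h => Subtype.ext (Subtype.ext (Subtype.mk.inj h))

end Pool.Agent.P.MP_0d6be8_lc.NKIter
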