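import Pool.Agent.K.MP_0d6be8_lc.C4
import Pool.Agent.K.MP_0d6be8_lc.C6
import Pool.Agent.K.MP_0d6be8_lc.C8
import Pool.Agent.P.MP_0d6be8_lc.NKW.Omega
import Pool.Agent.K.MP_0d6be8_lc.C2
import Pool.Agent.P.MP_0d6be8_lc.NKStmt
import Mathlib

-- part Pool.Agent.P.MP_0d6be8_lc.FMain
section

set_option autoImplicit false

/-! The forcing side: MA and the principles hold in every quotient model. -/

open Pool.Agent.Lib.PosetForcing

namespace Pool.Agent.P.MP_0d6be8_lc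

open NKIter

theorem GP.princ {P : Type 1} [Preorder P] [OrderTop P] (h : GP P) : ∃ X : Name P, ∀ U : Gen P,
    Princ Mod.mem (omegaName.val U) ((typeName O).val U) (X.val U) := by
  obtain ⟨X, hX⟩ := exists_onto h.ccc h.card
  exact ⟨X, fun U => ⟨isOrd_K U, bdd_K h.ccc U, reg_K h.ccc U, hX U,
    pi_ordinal h.ccc h.gma U, pl_holds h X U⟩⟩

theorem gp_PP : GP NKStep.PP := ⟨NKStep.ccc_PP, NKStep.mk_PP_le, NKStep.gma, NKStep.gpl_PP⟩

theorem forcing_side : ∃ K X : Name NKStep.PP, ∀ U : Gen NKStep.PP,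
    MP_93aff1_lc.MA Mod.mem (omegaName.val U) ((powName omegaName).val U) ∧
      Princ Mod.mem (omegaName.val U) (K.val U) (X.val U) := by
  obtain ⟨X, hX⟩ := gp_PP.princ
  exact ⟨_, X, fun U => ⟨NKMA.ma_holds U, hX U⟩⟩

end Pool.Agent.P.MP_0d6be8_lc
end

-- part Pool.Agent.P.MP_0d6be8_lc.NKW.Trans
section

set_option autoImplicit false
set_option synthInstance.maxSize 40000

/-! The forced principles hold in a countable model with standard natural numbers. -/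

open Pool.Agent.Lib.PosetForcing Pool.Agent.P.MP_5f3b23_lc.Zf
open Pool.Agent.P.MP_af1204_lc.Inn (Md MT Fn num num_succ)
open Pool.Agent.P.MP_93aff1_lc (MA IsPoset IsCCC IsDense IsFilter Compat)

namespace Pool.Agent.P.MP_0d6be8_lc.NKW

universe v

instance ud_isPow (i j : ℕ) : UD.{v} fun _ mem v => IsPow mem (v i) (v j) := by
  unfold IsPow; infer_instance

instance ud_ma (i j : ℕ) : UD.{v} fun _ mem v => MA mem (v i) (v j) := by
  unfold MA IsPoset IsCCC IsDense IsFilter Compat Ne; infer_instance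

instance ud_app2 (i j k l : ℕ) : UD.{v} fun _ mem v => App2 mem (v i) (v j) (v k) (v l) := by
  unfold App2; infer_instance

instance ud_app3 (i j k l n : ℕ) :
    UD.{v} fun _ mem v => App3 mem (v i) (v j) (v k) (v l) (v n) := by
  unfold App3; infer_instance

instance ud_isOrd (i : ℕ) : UD.{v} fun _ mem v => IsOrd mem (v i) := by
  unfold IsOrd; infer_instance

instance ud_bdd (i j : ℕ) : UD.{v} fun _ mem v => Bdd mem (v i) (v j) := by
  unfold Bdd; infer_instance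

instance ud_onto (i j k : ℕ) : UD.{v} fun _ mem v => Onto mem (v i) (v j) (v k) := by
  unfold Onto; infer_instance

instance ud_pi (i j : ℕ) : UD.{v} fun _ mem v => PI mem (v i) (v j) := by
  unfold PI InfP SubP; infer_instance

instance ud_towers (i j k l : ℕ) :
    UD.{v} fun _ mem v => Towers mem (v i) (v j) (v k) (v l) := by
  unfold Towers Dec InfP SubP; infer_instance

instance ud_luz (i j k l n r : ℕ) :
    UD.{v} fun _ mem v => Luz mem (v i) (v j) (v k) (v l) (v n) (v r) := by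
  unfold Luz NoneIn Dec InfP SubP; infer_instance

instance ud_princ (i j k : ℕ) : UD.{v} fun _ mem v => Princ mem (v i) (v j) (v k) := by
  unfold Princ PL; infer_instance

section maps
variable {S : Type v} {N : Type} (m : S → S → Prop) (e : N ≃ S)

theorem app_map (f x y : N) :
    App m (e f) (e x) (e y) ↔ App (fun a b => m (e a) (e b)) f x y := by
  simp only [App, IsPair, IsUPair, e.surjective.forall, e.surjective.exists, e.apply_eq_iff_eq]

theorem isPair_map (f x y : N) :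
    IsPair m (e f) (e x) (e y) ↔ IsPair (fun a b => m (e a) (e b)) f x y := by
  simp only [IsPair, IsUPair, e.surjective.forall, e.apply_eq_iff_eq]

theorem leCard_map (x y : N) :
    LeCard m (e x) (e y) ↔ LeCard (fun a b => m (e a) (e b)) x y := by
  simp only [LeCard, IsInj, IsFun, IsFunOn, e.surjective.forall, e.surjective.exists,
    e.apply_eq_iff_eq, app_map, isPair_map]

theorem isOmega_map (x : N) : IsOmega m (e x) ↔ IsOmega (fun a b => m (e a) (e b)) x := by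
  simp only [IsOmega, IsInductive, IsSucc, e.surjective.forall, e.surjective.exists,
    e.apply_eq_iff_eq]

theorem isPow_map (x y : N) : IsPow m (e x) (e y) ↔ IsPow (fun a b => m (e a) (e b)) x y := by
  simp only [IsPow, IsSub, e.surjective.forall]

theorem ma_map (x y : N) : MA m (e x) (e y) ↔ MA (fun a b => m (e a) (e b)) x y := by
  simp only [MA, IsPoset, IsCCC, IsDense, IsFilter, Compat, IsSub, Ne, e.surjective.forall,
    e.surjective.exists, e.apply_eq_iff_eq, app_map, leCard_map]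

theorem princ_map (x y z : N) :
    Princ m (e x) (e y) (e z) ↔ Princ (fun a b => m (e a) (e b)) x y z := by
  simp only [Princ, IsOrd, Bdd, Onto, PI, PL, Towers, Luz, NoneIn, Dec, InfP, SubP, App3, App2,
    e.surjective.forall, e.surjective.exists, e.apply_eq_iff_eq, app_map, isPair_map]

end maps

theorem exists_model : ∃ (N : Type) (m : N → N → Prop) (w c K X : N), IsZFC m ∧ IsOmega m w ∧
    IsPow m c w ∧ MA m w c ∧ Princ m w K X ∧ ∀ T : N → Prop, (∀ e, (∀ x, ¬ m x e) → T e) →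
      (∀ x y, IsSucc m y x → T x → T y) → ∀ x, m x w → T x := by
  obtain ⟨K, X, h⟩ := forcing_side
  obtain ⟨U, S, m, v, N, e, h1, h2, h3⟩ := exists_omega_model
    fun i => Nat.casesOn i omegaName fun i => Nat.casesOn i (powName omegaName)
      fun i => Nat.casesOn i K fun _ => X
  have k1 := h2 (fun _ mem v => IsOmega mem (v 0)) (isOmega_omega U)
  have k2 := h2 (fun _ mem v => IsPow mem (v 1) (v 0)) (isPow_powName _ U)
  have k3 := h2 (fun _ mem v => MA mem (v 0) (v 1)) (h U).1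
  have k4 := h2 (fun _ mem v => Princ mem (v 0) (v 2) (v 3)) (h U).2
  obtain ⟨w, hw⟩ := e.surjective (v 0)
  obtain ⟨c, hc⟩ := e.surjective (v 1)
  obtain ⟨k, hk⟩ := e.surjective (v 2)
  obtain ⟨x, hx⟩ := e.surjective (v 3)
  simp only [← hw, ← hc, ← hk, ← hx] at k1 k2 k3 k4
  refine ⟨N, _, w, c, k, x, zfc_map m e h1, (isOmega_map m e w).1 k1, (isPow_map m e c w).1 k2,
    (ma_map m e w c).1 k3, (princ_map m e w k x).1 k4, fun T t0 t1 y hy => ?_⟩
  have := h3 (fun s => T (e.symm s)) (fun s hs => t0 _ fun z => hs _ ∘ fun q => by simpa using q)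
    (fun a b hs => t1 _ _ fun z => by
      simpa only [e.apply_symm_apply, e.eq_symm_apply] using hs (e z)) _ k1 _ hy
  simpa using this

theorem final_of (goal : ∀ [Md] [Std], (∀ (A P : Type) [MT A] [MT P] (S : Sp A P), S.P2 →
      ∀ y : Fn ℕ P, Function.Injective y → ¬ S.Tame) → NK.Goal mm (om : Md.MM)) :
    ∃ (M : Type) (mem : M → M → Prop), IsZFC mem ∧ ∃ w c, IsOmega mem w ∧ IsPow mem c w ∧
      MA mem w c ∧ NK.Goal mem w := by
  obtain ⟨N, m, w, c, K, X, h1, h2, h3, h4, h5, h6⟩ := exists_model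
  let z : Zm N := { mem := fun a x => m x a, zfc := h1 }
  let md : Md := ⟨N⟩
  obtain rfl : w = om := isOmega_iff.1 h2
  have st : Std := ⟨h6 (fun x => ∃ n, num n = x) (fun e he => ⟨0, (eq_emp he).symm⟩)
    fun x y hs ⟨n, hn⟩ => ⟨n + 1, zfc.ext _ _ fun z => by
      rw [num_succ, hn]; exact mem_suc.trans (hs z).symm⟩⟩
  exact ⟨N, m, h1, _, c, h2, h3, h4, goal (core_of_princ h5)⟩

end Pool.Agent.P.MP_0d6be8_lc.NKW
end

-- part Pool.Agent.P.MP_0d6be8_lc.NKLib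
section

set_option autoImplicit false
set_option linter.unusedSectionVars false

/-! First-order part of the construction of a Radon measure from a finitely additive one.
All sorts and operations are parameters; nothing here builds a set or a function. -/

namespace Pool.Agent.P.MP_0d6be8_lc.NL

/-- ordered fields -/
structure OFld {R : Type} (add mul : R → R → R) (zero one : R) (le : R → R → Prop) : Prop where
  add_assoc : ∀ a b c, add (add a b) c = add a (add b c)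
  zero_add : ∀ a, add zero a = a
  neg : ∀ a, ∃ b, add b a = zero
  mul_assoc : ∀ a b c, mul (mul a b) c = mul a (mul b c)
  mul_comm : ∀ a b, mul a b = mul b a
  one_mul : ∀ a, mul one a = a
  inv : ∀ a, a ≠ zero → ∃ b, mul a b = one
  distrib : ∀ a b c, mul a (add b c) = add (mul a b) (mul a c)
  ne : zero ≠ one
  refl : ∀ a, le a a
  trans : ∀ a b c, le a b → le b c → le a c
  antisymm : ∀ a b, le a b → le b a → a = b
  total : ∀ a b, le a b ∨ le b a
  add_le : ∀ a b c, le a b → le (add a c) (add b c)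
  mul_nonneg : ∀ a b, le zero a → le zero b → le zero (mul a b)

section inst
variable {R : Type} {add mul : R → R → R} {zero one : R} {le : R → R → Prop}

open Classical in
/-- the field -/
@[reducible] noncomputable def OFld.field (h : OFld add mul zero one le) : Field R :=
  @Field.ofMinimalAxioms R ⟨add⟩ ⟨mul⟩ ⟨fun a => (h.neg a).choose⟩
    ⟨fun a => if e : a = zero then zero else (h.inv a e).choose⟩ ⟨zero⟩ ⟨one⟩
    h.add_assoc h.zero_add (fun a => (h.neg a).choose_spec) h.mul_assoc h.mul_comm h.one_mul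
    (fun a e => by
      have e' : ¬ a = zero := e
      show mul a (if e : a = zero then zero else (h.inv a e).choose) = one
      rw [dif_neg e']
      exact (h.inv a e').choose_spec)
    (dif_pos rfl) h.distrib ⟨zero, one, h.ne⟩

/-- the order -/
@[reducible] noncomputable def OFld.order (h : OFld add mul zero one le) : LinearOrder R where
  le := le
  lt := fun a b => le a b ∧ ¬ le b a
  le_refl := h.refl
  le_trans := h.trans
  lt_iff_le_not_ge := fun _ _ => Iff.rfl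
  le_antisymm := h.antisymm
  le_total := h.total
  toDecidableLE := fun _ _ => Classical.propDecidable _

theorem OFld.strict (h : OFld add mul zero one le) :
    @IsStrictOrderedRing R h.field.toSemifield.toDivisionSemiring.toSemiring
      h.order.toPartialOrder := by
  let _ := h.field
  let _ := h.order
  have h1 : IsOrderedAddMonoid R := { add_le_add_left := fun a b e c => h.add_le a b c e }
  have h2 : ∀ a b : R, 0 ≤ a → 0 ≤ b → 0 ≤ a * b := h.mul_nonneg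
  have h3 : ZeroLEOneClass R := ⟨by
    rcases le_total (0 : R) 1 with e | e
    · exact e
    · have := h2 (-1) (-1) (neg_nonneg.2 e) (neg_nonneg.2 e)
      simpa using this⟩
  have h4 : IsOrderedRing R := IsOrderedRing.of_mul_nonneg h2
  infer_instance

end inst

variable {R : Type} [Field R] [LinearOrder R] [IsStrictOrderedRing R]

/-- least upper bound -/
structure Lub (G : R → Prop) (x : R) : Prop where
  ub : ∀ r, G r → r ≤ x
  le : ∀ y, (∀ r, G r → r ≤ y) → x ≤ y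

/-- greatest lower bound -/
structure Glb (G : R → Prop) (x : R) : Prop where
  lb : ∀ r, G r → x ≤ r
  le : ∀ y, (∀ r, G r → y ≤ r) → y ≤ x

theorem Lub.glb {G L : R → Prop} {x : R} (hL : ∀ y, L y ↔ ∀ r, G r → y ≤ r) (h : Lub L x) :
    Glb G x :=
  ⟨fun r hr => h.le r fun y hy => (hL y).1 hy r hr, fun y hy => h.ub y ((hL y).2 hy)⟩

theorem Lub.ex {G : R → Prop} {x y : R} (h : Lub G x) (e : y < x) : ∃ r, G r ∧ y < r := by
  by_contra hn
  exact absurd (h.le y fun r hr => not_lt.1 fun e' => hn ⟨r, hr, e'⟩) (not_le.2 e)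

theorem Glb.ex {G : R → Prop} {x y : R} (h : Glb G x) (e : x < y) : ∃ r, G r ∧ r < y := by
  by_contra hn
  exact absurd (h.le y fun r hr => not_lt.1 fun e' => hn ⟨r, hr, e'⟩) (not_le.2 e)

theorem lub_eq {G : R → Prop} {x y : R} (h : Lub G x) (e : ∀ r, G r ↔ r ≤ y) : x = y :=
  le_antisymm (h.le y fun r hr => (e r).1 hr) (h.ub y ((e y).2 le_rfl))

theorem lub_add {G H K : R → Prop} {x y z : R} (hG : Lub G x) (hH : Lub H y) (hK : Lub K z)
    (hd : ∀ r s, s ≤ r → K r → K s)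
    (h1 : ∀ r s, G r → H s → K (r + s)) (h2 : ∀ r s, ¬ G r → ¬ H s → ¬ K (r + s)) :
    z = x + y := by
  refine le_antisymm (le_of_forall_pos_le_add fun ε hε => hK.le _ fun r hr => ?_)
    (le_of_forall_pos_le_add fun ε hε => ?_)
  · by_contra hn
    refine h2 (x + ε / 2) (y + ε / 2) (fun e => ?_) (fun e => ?_) (hd r _ (by linarith) hr)
    · have := hG.ub _ e; linarith
    · have := hH.ub _ e; linarith
  · obtain ⟨r, hr, e⟩ := hG.ex (y := x - ε / 2) (by linarith)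
    obtain ⟨s, hs, e'⟩ := hH.ex (y := y - ε / 2) (by linarith)
    have := hK.ub _ (h1 r s hr hs)
    linarith

theorem exists_half : ∃ h : R, h + h = 1 := ⟨1 / 2, by ring⟩
theorem exists_neg_one : ∃ m : R, m + 1 = 0 := ⟨-1, by ring⟩
theorem half_add {h a b c d : R} : h * (a + c + (b + d)) = h * (a + b) + h * (c + d) := by ring
theorem half_same {h c : R} (e : h + h = 1) : h * (c + c) = c := by linear_combination c * e
theorem half_nonneg {h a b : R} (e : h + h = 1) (ha : 0 ≤ a) (hb : 0 ≤ b) : 0 ≤ h * (a + b) :=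
  mul_nonneg (by linarith) (add_nonneg ha hb)
theorem half_one {h a b : R} (e : a + b = 1) : h * (a + b) = h := by rw [e, mul_one]
theorem le_one_of_add {a b : R} (e : 1 = a + b) (hb : 0 ≤ b) : a ≤ 1 := by linarith
theorem add_le_of_eq {a b c r s : R} (e : c = a + b) (h1 : r ≤ a) (h2 : s ≤ b) : r + s ≤ c := by
  linarith
theorem not_add_le_of_eq {a b c r s : R} (e : c = a + b) (h1 : ¬ r ≤ a) (h2 : ¬ s ≤ b) :
    ¬ r + s ≤ c := fun h => by
  have := not_le.1 h1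
  have := not_le.1 h2
  linarith
theorem no_step {x : R} : ¬ x + 1 ≤ x := fun h => by linarith
theorem unb {G : R → Prop} {x : R} (h : Lub G x) (hs : ∀ r, G r → G (r + 1)) : False := by
  obtain ⟨r, hr, e⟩ := h.ex (y := x - 1) (by linarith)
  have := h.ub _ (hs r hr)
  linarith

theorem succ_ge {x y : R} (h : x ≤ y) : x ≤ y + 1 := by linarith
theorem neg_step {c d m : R} (h : c + d = 0) (e : m + 1 = 0) : c + 1 + (d + m) = 0 := by linarith
theorem le_of_inner {x b : R} (h : ∀ ε : R, 0 < ε → ∃ y, y ≤ b ∧ x < y + ε) : x ≤ b :=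
  le_of_forall_pos_le_add fun ε hε => by
    obtain ⟨y, h1, h2⟩ := h ε hε
    linarith

/-- the value of a two-point measure -/
structure Two (c d : R) (y z : Prop) (x : R) : Prop where
  both : y → z → x = 0
  pos : y → ¬ z → x = c
  neg : ¬ y → z → x = d
  none : ¬ y → ¬ z → x = 0

theorem Two.add {c d a b x : R} {y z y' z' y'' z'' : Prop} (e : c + d = 0) (h : Two c d y z a)
    (h' : Two c d y' z' b) (h'' : Two c d y'' z'' x) (hy : y'' ↔ y ∨ y') (hz : z'' ↔ z ∨ z')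
    (dy : y → ¬ y') (dz : z → ¬ z') : x = a + b := by
  obtain ⟨a1, a2, a3, a4⟩ := h
  obtain ⟨b1, b2, b3, b4⟩ := h'
  obtain ⟨c1, c2, c3, c4⟩ := h''
  by_cases y <;> by_cases z <;> by_cases y' <;> by_cases z' <;> simp_all <;> linarith

theorem Two.abs {c d x t : R} {y z : Prop} (e : c + d = 0) (hc : 0 ≤ c) (h : Two c d y z x)
    (h0 : 0 ≤ t) (ht : t = x ∨ x + t = 0) :
    ((y ↔ z) → t = 0) ∧ (¬ (y ↔ z) → t = c) := by
  obtain ⟨a1, a2, a3, a4⟩ := h
  by_cases y <;> by_cases z <;> simp_all <;> rcases ht with ht | ht <;> linarith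

theorem le_of_cases {c t : R} {p : Prop} (hc : 0 ≤ c) (h : (p → t = 0) ∧ (¬ p → t = c)) :
    t ≤ c := by
  by_cases e : p
  · rw [h.1 e]; exact hc
  · exact (h.2 e).le

/-- the bound for the finite sums of a two-point measure -/
def Inv (c : R) (Y Z : Prop) (s : R) : Prop :=
  (¬ Y → ¬ Z → s ≤ 0) ∧ (¬ Y → s ≤ c) ∧ (¬ Z → s ≤ c) ∧ s ≤ c + c

theorem Inv.zero {c : R} (hc : 0 ≤ c) (Y Z : Prop) : Inv c Y Z 0 :=
  ⟨fun _ _ => le_rfl, fun _ => hc, fun _ => hc, add_nonneg hc hc⟩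

theorem Inv.step {c s t : R} {Y Z y z Y' Z' : Prop} (h : Inv c Y Z s) (hy : y → ¬ Y)
    (hz : z → ¬ Z) (ht : ((y ↔ z) → t = 0) ∧ (¬ (y ↔ z) → t = c)) (hY : Y ∨ y → Y')
    (hZ : Z ∨ z → Z') : Inv c Y' Z' (s + t) := by
  obtain ⟨h1, h2, h3, h4⟩ := h
  by_cases e : (y ↔ z)
  · rw [ht.1 e, add_zero]
    exact ⟨fun a b => h1 (fun e => a (hY (Or.inl e))) fun e => b (hZ (Or.inl e)),
      fun a => h2 fun e => a (hY (Or.inl e)), fun b => h3 fun e => b (hZ (Or.inl e)), h4⟩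
  · rw [ht.2 e]
    by_cases e1 : y
    · have := h2 (hy e1)
      refine ⟨fun a _ => (a (hY (Or.inr e1))).elim, fun a => (a (hY (Or.inr e1))).elim,
        fun b => ?_, by linarith⟩
      have := h1 (hy e1) fun e => b (hZ (Or.inl e))
      linarith
    · have e2 : z := by tauto
      have := h3 (hz e2)
      refine ⟨fun _ b => (b (hZ (Or.inr e2))).elim, fun a => ?_,
        fun b => (b (hZ (Or.inr e2))).elim, by linarith⟩
      have := h1 (fun e => a (hY (Or.inl e))) (hz e2)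
      linarith

theorem exists_abs (x : R) : ∃ t : R, 0 ≤ t ∧ (t = x ∨ x + t = 0) := by
  rcases le_total 0 x with e | e
  · exact ⟨x, e, Or.inl rfl⟩
  · exact ⟨-x, neg_nonneg.2 e, Or.inr (add_neg_cancel x)⟩

/-- Boolean algebras -/
structure BAx {A : Type} (le : A → A → Prop) (inf sup : A → A → A) (cpl : A → A) : Prop where
  ne : Nonempty A
  refl : ∀ a, le a a
  antisymm : ∀ a b, le a b → le b a → a = b
  trans : ∀ a b c, le a b → le b c → le a c
  le_inf : ∀ a b x, le x (inf a b) ↔ le x a ∧ le x b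
  sup_le : ∀ a b x, le (sup a b) x ↔ le a x ∧ le b x
  distrib : ∀ a b c x, le (inf a b) x → le (inf a c) x → le (inf a (sup b c)) x
  cpl_bot : ∀ a x y, le x a → le x (cpl a) → le x y
  cpl_top : ∀ a x y, le a x → le (cpl a) x → le y x

section ba
variable {A : Type} {le : A → A → Prop} {inf sup : A → A → A} {cpl : A → A}

theorem BAx.split (h : BAx le inf sup cpl) {a c x : A} (h1 : le (inf c a) x)
    (h2 : le (inf c (cpl a)) x) : le c x :=
  h.trans _ _ _ ((h.le_inf _ _ _).2 ⟨h.refl c, h.cpl_top a _ _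
    ((h.sup_le a (cpl a) _).1 (h.refl _)).1 ((h.sup_le a (cpl a) _).1 (h.refl _)).2⟩)
    (h.distrib c a (cpl a) x h1 h2)

theorem BAx.inf_l (h : BAx le inf sup cpl) (a b : A) : le (inf a b) a :=
  ((h.le_inf a b _).1 (h.refl _)).1

theorem BAx.inf_r (h : BAx le inf sup cpl) (a b : A) : le (inf a b) b :=
  ((h.le_inf a b _).1 (h.refl _)).2

theorem BAx.inf_eq (h : BAx le inf sup cpl) {a b : A} (e : le a b) : inf a b = a :=
  h.antisymm _ _ (h.inf_l a b) ((h.le_inf _ _ _).2 ⟨h.refl a, e⟩)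

variable {P : Type} {el : P → A → Prop}

theorem BAx.el_mono (h : BAx le inf sup cpl) (hi : ∀ p a b, el p (inf a b) ↔ el p a ∧ el p b)
    {p : P} {a b : A} (e : le a b) (ha : el p a) : el p b :=
  ((hi p a b).1 ((h.inf_eq e).symm ▸ ha)).2

theorem BAx.el_bot (h : BAx le inf sup cpl) (hi : ∀ p a b, el p (inf a b) ↔ el p a ∧ el p b)
    (hc : ∀ p a, el p (cpl a) ↔ ¬ el p a) {p : P} {a : A} (e : ∀ y, le a y) : ¬ el p a :=
  fun ha => (hc p a).1 (h.el_mono hi (e _) ha) ha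

theorem BAx.el_disj (h : BAx le inf sup cpl) (hi : ∀ p a b, el p (inf a b) ↔ el p a ∧ el p b)
    (hc : ∀ p a, el p (cpl a) ↔ ¬ el p a) {p : P} {a b : A}
    (e : ∀ x y, le x a → le x b → le x y) (ha : el p a) : ¬ el p b := fun hb =>
  h.el_bot hi hc (fun y => e _ y (h.inf_l a b) (h.inf_r a b)) ((hi p a b).2 ⟨ha, hb⟩)

theorem BAx.el_sup (h : BAx le inf sup cpl) (hi : ∀ p a b, el p (inf a b) ↔ el p a ∧ el p b)
    (hc : ∀ p a, el p (cpl a) ↔ ¬ el p a) (p : P) (a b : A) :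
    el p (sup a b) ↔ el p a ∨ el p b := by
  refine ⟨fun e => by_contra fun hn => ?_, fun e => e.elim
    (h.el_mono hi ((h.sup_le a b _).1 (h.refl _)).1)
    (h.el_mono hi ((h.sup_le a b _).1 (h.refl _)).2)⟩
  refine h.el_bot hi hc (a := inf (inf (cpl a) (cpl b)) (sup a b)) (fun y => ?_)
    ((hi _ _ _).2 ⟨(hi _ _ _).2 ⟨(hc _ _).2 fun e => hn (Or.inl e),
      (hc _ _).2 fun e => hn (Or.inr e)⟩, e⟩)
  exact h.distrib _ a b y
    (h.cpl_bot a _ _ (h.inf_r _ _) (h.trans _ _ _ (h.inf_l _ _) (h.inf_l _ _)))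
    (h.cpl_bot b _ _ (h.inf_r _ _) (h.trans _ _ _ (h.inf_l _ _) (h.inf_r _ _)))

end ba

section measure
variable {A P C : Type}

/-- an algebra acting on points, and coded sets of points -/
structure Sp (inf : A → A → A) (cpl : A → A) (el : P → A → Prop) (mem : C → P → Prop)
    (un it : C → C → C) (co : C → C) (bs : A → C) : Prop where
  ne : Nonempty A
  el_inf : ∀ p a b, el p (inf a b) ↔ el p a ∧ el p b
  el_cpl : ∀ p a, el p (cpl a) ↔ ¬ el p a
  un : ∀ S T p, mem (un S T) p ↔ mem S p ∨ mem T p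
  it : ∀ S T p, mem (it S T) p ↔ mem S p ∧ mem T p
  co : ∀ S p, mem (co S) p ↔ ¬ mem S p
  bs : ∀ a p, mem (bs a) p ↔ el p a

/-- finitely additive probability -/
structure FA (el : P → A → Prop) (ν : A → R) : Prop where
  nonneg : ∀ a, 0 ≤ ν a
  add : ∀ a b c, (∀ p, el p c ↔ el p a ∨ el p b) → (∀ p, el p a → ¬ el p b) → ν c = ν a + ν b
  one : ∀ a, (∀ p, el p a) → ν a = 1

/-- open sets -/
def Opn (el : P → A → Prop) (U : P → Prop) : Prop :=
  ∀ p, U p → ∃ a, el p a ∧ ∀ q, el q a → U q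

/-- inner content, outer measure and compactness for two open sets -/
structure Out (el : P → A → Prop) (mem : C → P → Prop) (ν : A → R) (lam μ : C → R) : Prop where
  hl : ∀ U, Lub (fun r => ∃ a, (∀ p, el p a → mem U p) ∧ ν a = r) (lam U)
  hm : ∀ S, Glb (fun r => ∃ U, Opn el (mem U) ∧ (∀ p, mem S p → mem U p) ∧ lam U = r) (μ S)
  cpt : ∀ U V a, Opn el (mem U) → Opn el (mem V) → (∀ p, el p a → mem U p ∨ mem V p) →
    ∃ b c, (∀ p, el p b → mem U p) ∧ (∀ p, el p c → mem V p) ∧ ∀ p, el p a → el p b ∨ el p c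

variable {inf : A → A → A} {cpl : A → A} {el : P → A → Prop} {mem : C → P → Prop}
  {un it : C → C → C} {co : C → C} {bs : A → C} {ν : A → R} {lam μ : C → R}

theorem Sp.sup (s : Sp inf cpl el mem un it co bs) (a b : A) :
    ∃ c, ∀ p, el p c ↔ el p a ∨ el p b :=
  ⟨cpl (inf (cpl a) (cpl b)), fun p => by rw [s.el_cpl, s.el_inf, s.el_cpl, s.el_cpl]; tauto⟩

theorem Sp.bot (s : Sp inf cpl el mem un it co bs) : ∃ c, ∀ p, ¬ el p c := by
  obtain ⟨a⟩ := s.ne
  exact ⟨inf a (cpl a), fun p => by rw [s.el_inf, s.el_cpl]; tauto⟩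

theorem Sp.top (s : Sp inf cpl el mem un it co bs) : ∃ c, ∀ p, el p c := by
  obtain ⟨a, ha⟩ := s.bot
  exact ⟨cpl a, fun p => (s.el_cpl p a).2 (ha p)⟩

theorem FA.zero (f : FA el ν) {a : A} (h : ∀ p, ¬ el p a) : ν a = 0 := by
  have := f.add a a a (fun p => by tauto) (fun p e => (h p e).elim)
  linarith

theorem FA.mono (s : Sp inf cpl el mem un it co bs) (f : FA el ν) {a b : A}
    (h : ∀ p, el p a → el p b) : ν a ≤ ν b := by
  have h1 := f.add a (inf b (cpl a)) b (fun p => by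
    have := h p
    rw [s.el_inf, s.el_cpl]; tauto) (fun p => by rw [s.el_inf, s.el_cpl]; tauto)
  have := f.nonneg (inf b (cpl a))
  linarith

theorem FA.le_one (s : Sp inf cpl el mem un it co bs) (f : FA el ν) (a : A) : ν a ≤ 1 := by
  obtain ⟨t, ht⟩ := s.top
  exact (f.mono s fun p _ => ht p).trans (f.one t ht).le

theorem FA.compl (s : Sp inf cpl el mem un it co bs) (f : FA el ν) (a : A) :
    ν a + ν (cpl a) = 1 := by
  obtain ⟨t, ht⟩ := s.top
  rw [← f.one t ht]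
  exact (f.add a (cpl a) t (fun p => by have := ht p; rw [s.el_cpl]; tauto)
    (fun p => by rw [s.el_cpl]; tauto)).symm

theorem FA.modular (s : Sp inf cpl el mem un it co bs) (f : FA el ν) {a b c : A}
    (h : ∀ p, el p c ↔ el p a ∨ el p b) : ν c + ν (inf a b) = ν a + ν b := by
  have h1 := f.add a (inf b (cpl a)) c (fun p => by rw [h, s.el_inf, s.el_cpl]; tauto)
    (fun p => by rw [s.el_inf, s.el_cpl]; tauto)
  have h2 := f.add (inf a b) (inf b (cpl a)) b (fun p => by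
    rw [s.el_inf, s.el_inf, s.el_cpl]; tauto) (fun p => by rw [s.el_inf, s.el_inf, s.el_cpl]; tauto)
  linarith

theorem Sp.opn_bs (s : Sp inf cpl el mem un it co bs) (a : A) : Opn el (mem (bs a)) :=
  fun p h => ⟨a, (s.bs a p).1 h, fun q e => (s.bs a q).2 e⟩

theorem Sp.opn_un (s : Sp inf cpl el mem un it co bs) {U V : C} (hU : Opn el (mem U))
    (hV : Opn el (mem V)) : Opn el (mem (un U V)) := fun p h => by
  rcases (s.un U V p).1 h with e | e
  · obtain ⟨a, h1, h2⟩ := hU p e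
    exact ⟨a, h1, fun q e => (s.un U V q).2 (Or.inl (h2 q e))⟩
  · obtain ⟨a, h1, h2⟩ := hV p e
    exact ⟨a, h1, fun q e => (s.un U V q).2 (Or.inr (h2 q e))⟩

theorem Sp.opn_it (s : Sp inf cpl el mem un it co bs) {U V : C} (hU : Opn el (mem U))
    (hV : Opn el (mem V)) : Opn el (mem (it U V)) := fun p h => by
  obtain ⟨a, h1, h2⟩ := hU p ((s.it U V p).1 h).1
  obtain ⟨b, h3, h4⟩ := hV p ((s.it U V p).1 h).2
  exact ⟨inf a b, (s.el_inf p a b).2 ⟨h1, h3⟩, fun q e =>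
    (s.it U V q).2 ⟨h2 q ((s.el_inf q a b).1 e).1, h4 q ((s.el_inf q a b).1 e).2⟩⟩

variable (s : Sp inf cpl el mem un it co bs) (f : FA el ν) (o : Out el mem ν lam μ)
include s f o

theorem lam_ge {U : C} {a : A} (h : ∀ p, el p a → mem U p) : ν a ≤ lam U :=
  (o.hl U).ub _ ⟨a, h, rfl⟩

theorem lam_le {U : C} {r : R} (h : ∀ a, (∀ p, el p a → mem U p) → ν a ≤ r) : lam U ≤ r :=
  (o.hl U).le r fun _ ⟨a, h1, h2⟩ => h2 ▸ h a h1

theorem lam_mono {U V : C} (h : ∀ p, mem U p → mem V p) : lam U ≤ lam V :=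
  lam_le s f o fun _ ha => lam_ge s f o fun p e => h p (ha p e)

theorem lam_bs (a : A) : lam (bs a) = ν a :=
  le_antisymm (lam_le s f o fun _ hb => f.mono s fun p e => (s.bs a p).1 (hb p e))
    (lam_ge s f o fun p e => (s.bs a p).2 e)

theorem lam_sub {U V : C} (hU : Opn el (mem U)) (hV : Opn el (mem V)) :
    lam (un U V) + lam (it U V) ≤ lam U + lam V := by
  have key : ∀ a d, (∀ p, el p a → mem (un U V) p) → (∀ p, el p d → mem (it U V) p) →
      ν a + ν d ≤ lam U + lam V := by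
    intro a d ha hd
    obtain ⟨b, c, hb, hc, h⟩ := o.cpt U V a hU hV fun p e => (s.un U V p).1 (ha p e)
    obtain ⟨b', hb'⟩ := s.sup b d
    obtain ⟨c', hc'⟩ := s.sup c d
    obtain ⟨u, hu⟩ := s.sup b' c'
    have h1 := f.modular s hu
    have h2 : ν a ≤ ν u := f.mono s fun p e => by
      have := h p e
      rw [hu, hb', hc']; tauto
    have h3 : ν d ≤ ν (inf b' c') := f.mono s fun p e => by rw [s.el_inf, hb', hc']; tauto
    have h4 : ν b' ≤ lam U := lam_ge s f o fun p e =>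
      ((hb' p).1 e).elim (hb p) fun e => ((s.it U V p).1 (hd p e)).1
    have h5 : ν c' ≤ lam V := lam_ge s f o fun p e =>
      ((hc' p).1 e).elim (hc p) fun e => ((s.it U V p).1 (hd p e)).2
    linarith
  have h1 : lam (un U V) ≤ lam U + lam V - lam (it U V) := lam_le s f o fun a ha => by
    have : lam (it U V) ≤ lam U + lam V - ν a := lam_le s f o fun d hd => by
      have := key a d ha hd; linarith
    linarith
  linarith

theorem mu_le {S U : C} (hU : Opn el (mem U)) (h : ∀ p, mem S p → mem U p) : μ S ≤ lam U :=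
  (o.hm S).lb _ ⟨U, hU, h, rfl⟩

theorem mu_ge {S : C} {r : R} (h : ∀ U, Opn el (mem U) → (∀ p, mem S p → mem U p) → r ≤ lam U) :
    r ≤ μ S :=
  (o.hm S).le r fun _ ⟨U, h1, h2, h3⟩ => h3 ▸ h U h1 h2

theorem mu_mono {S T : C} (h : ∀ p, mem S p → mem T p) : μ S ≤ μ T :=
  mu_ge s f o fun _ hU hT => mu_le s f o hU fun p e => hT p (h p e)

theorem mu_congr {S T : C} (h : ∀ p, mem S p ↔ mem T p) : μ S = μ T :=
  le_antisymm (mu_mono s f o fun p => (h p).1) (mu_mono s f o fun p => (h p).2)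

theorem mu_opn {U : C} (hU : Opn el (mem U)) : μ U = lam U :=
  le_antisymm (mu_le s f o hU fun _ e => e) (mu_ge s f o fun _ _ h => lam_mono s f o h)

theorem mu_bs {S : C} {a : A} (h : ∀ p, mem S p ↔ el p a) : μ S = ν a := by
  rw [mu_congr s f o (T := bs a) fun p => (h p).trans (s.bs a p).symm,
    mu_opn s f o (s.opn_bs a), lam_bs s f o]

theorem mu_empty {S : C} (h : ∀ p, ¬ mem S p) : μ S = 0 := by
  obtain ⟨a, ha⟩ := s.bot
  rw [mu_bs s f o fun p => iff_of_false (h p) (ha p), f.zero ha]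

theorem mu_univ {S : C} (h : ∀ p, mem S p) : μ S = 1 := by
  obtain ⟨a, ha⟩ := s.top
  rw [mu_bs s f o fun p => iff_of_true (h p) (ha p), f.one a ha]

theorem mu_nonneg (S : C) : 0 ≤ μ S := by
  obtain ⟨a, ha⟩ := s.bot
  rw [← mu_empty s f o (S := bs a) fun p e => ha p ((s.bs a p).1 e)]
  exact mu_mono s f o fun p e => (ha p ((s.bs a p).1 e)).elim

theorem mu_sub (S T : C) : μ (un S T) + μ (it S T) ≤ μ S + μ T := by
  have key : ∀ U V, Opn el (mem U) → Opn el (mem V) → (∀ p, mem S p → mem U p) →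
      (∀ p, mem T p → mem V p) → μ (un S T) + μ (it S T) ≤ lam U + lam V := by
    intro U V hU hV h1 h2
    have h3 := lam_sub s f o hU hV
    have h4 : μ (un S T) ≤ lam (un U V) := mu_le s f o (s.opn_un hU hV) fun p e =>
      (s.un U V p).2 (((s.un S T p).1 e).imp (h1 p) (h2 p))
    have h5 : μ (it S T) ≤ lam (it U V) := mu_le s f o (s.opn_it hU hV) fun p e =>
      (s.it U V p).2 (((s.it S T p).1 e).imp (h1 p) (h2 p))
    linarith
  have h1 : μ (un S T) + μ (it S T) - μ T ≤ μ S := mu_ge s f o fun U hU h1 => by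
    have : μ (un S T) + μ (it S T) - lam U ≤ μ T := mu_ge s f o fun V hV h2 => by
      have := key U V hU hV h1 h2; linarith
    linarith
  linarith

theorem mu_cover {S T W : C} (h : ∀ p, mem W p → mem S p ∨ mem T p) : μ W ≤ μ S + μ T := by
  have h1 := mu_sub s f o S T
  have h2 := mu_nonneg s f o (it S T)
  have h3 : μ W ≤ μ (un S T) := mu_mono s f o fun p e => (s.un S T p).2 (h p e)
  linarith

theorem mu_co (S : C) : 1 ≤ μ S + μ (co S) := by
  obtain ⟨a, ha⟩ := s.top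
  rw [← mu_univ s f o (S := bs a) fun p => (s.bs a p).2 (ha p)]
  exact mu_cover s f o fun p _ => by rw [s.co]; tauto

theorem ms_congr {S T : C} (h : ∀ p, mem S p ↔ mem T p) (e : μ S + μ (co S) ≤ 1) :
    μ T + μ (co T) ≤ 1 := by
  rwa [← mu_congr s f o h, ← mu_congr s f o (S := co S) (T := co T) fun p => by
    rw [s.co, s.co, h]]

theorem ms_co {S : C} (e : μ S + μ (co S) ≤ 1) : μ (co S) + μ (co (co S)) ≤ 1 := by
  rw [mu_congr s f o (S := co (co S)) (T := S) fun p => by rw [s.co, s.co, not_not]]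
  linarith

theorem ms_aux {S T : C} (e : μ S + μ (co S) ≤ 1) (e' : μ T + μ (co T) ≤ 1) :
    μ (un S T) + μ (co (un S T)) ≤ 1 ∧ μ (un S T) + μ (it S T) = μ S + μ T := by
  have h1 := mu_sub s f o S T
  have h2 := mu_sub s f o (co S) (co T)
  have h3 : μ (un (co S) (co T)) = μ (co (it S T)) := mu_congr s f o fun p => by
    rw [s.un, s.co, s.co, s.co, s.it]; tauto
  have h4 : μ (it (co S) (co T)) = μ (co (un S T)) := mu_congr s f o fun p => by
    rw [s.it, s.co, s.co, s.co, s.un]; tauto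
  have h5 := mu_co s f o (un S T)
  have h6 := mu_co s f o (it S T)
  have h7 := mu_co s f o S
  have h8 := mu_co s f o T
  constructor <;> linarith

theorem ms_un {S T W : C} (e : μ S + μ (co S) ≤ 1) (e' : μ T + μ (co T) ≤ 1)
    (h : ∀ p, mem W p ↔ mem S p ∨ mem T p) : μ W + μ (co W) ≤ 1 :=
  ms_congr s f o (fun p => (s.un S T p).trans (h p).symm) (ms_aux s f o e e').1

theorem mu_add {S T W : C} (e : μ S + μ (co S) ≤ 1) (e' : μ T + μ (co T) ≤ 1)
    (h : ∀ p, mem W p ↔ mem S p ∨ mem T p) (hd : ∀ p, mem S p → ¬ mem T p) :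
    μ W = μ S + μ T := by
  have h1 := (ms_aux s f o e e').2
  rw [mu_empty s f o (S := it S T) fun p e => hd p ((s.it S T p).1 e).1 ((s.it S T p).1 e).2,
    mu_congr s f o (S := un S T) (T := W) fun p => (s.un S T p).trans (h p).symm] at h1
  linarith

theorem ms_opn {U : C} (hU : Opn el (mem U)) : μ U + μ (co U) ≤ 1 := by
  have : lam U ≤ 1 - μ (co U) := lam_le s f o fun a ha => by
    have h1 : μ (co U) ≤ μ (bs (cpl a)) := mu_mono s f o fun p e =>
      (s.bs _ p).2 ((s.el_cpl p a).2 fun e' => (s.co U p).1 e (ha p e'))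
    rw [mu_bs s f o (s.bs (cpl a))] at h1
    have := f.compl s a
    linarith
  rw [mu_opn s f o hU]
  linarith

theorem start {S : C} {ε : R} (hε : 0 < ε) :
    ∃ V, Opn el (mem V) ∧ (∀ p, mem S p → mem V p) ∧ lam V < μ S + ε := by
  obtain ⟨_, ⟨V, h1, h2, rfl⟩, h3⟩ := (o.hm S).ex (y := μ S + ε) (by linarith)
  exact ⟨V, h1, h2, h3⟩

theorem step {S T V : C} {ε : R} (hST : ∀ p, mem S p → mem T p) (hV : Opn el (mem V))
    (h1 : ∀ p, mem S p → mem V p) (h2 : lam V < μ S + ε) :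
    ∃ W, (∀ p, mem V p → mem W p) ∧ Opn el (mem W) ∧ (∀ p, mem T p → mem W p) ∧
      lam W < μ T + ε := by
  obtain ⟨U, hU, h3, h4⟩ := start s f o (S := T) (ε := μ S + ε - lam V) (by linarith)
  refine ⟨un V U, fun p e => (s.un V U p).2 (Or.inl e), s.opn_un hV hU,
    fun p e => (s.un V U p).2 (Or.inr (h3 p e)), ?_⟩
  have h5 := lam_sub s f o hV hU
  have h6 : μ S ≤ lam (it V U) := mu_le s f o (s.opn_it hV hU) fun p e =>
    (s.it V U p).2 ⟨h1 p e, h3 p (hST p e)⟩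
  linarith

/-- continuity from below, given the open covers -/
theorem cont {J : Type} {S : J → C} {T : C} {r : R} (hr : ∀ n, μ (S n) ≤ r)
    (h : ∀ ε : R, 0 < ε → ∃ W, Opn el (mem W) ∧ (∀ p, mem T p → mem W p) ∧
      ∀ a, (∀ p, el p a → mem W p) → ∃ n V, (∀ p, el p a → mem V p) ∧ lam V < μ (S n) + ε) :
    μ T ≤ r := by
  refine le_of_forall_pos_le_add fun ε hε => ?_
  obtain ⟨W, h1, h2, h3⟩ := h ε hε
  refine (mu_le s f o h1 h2).trans (lam_le s f o fun a ha => ?_)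
  obtain ⟨n, V, h4, h5⟩ := h3 a ha
  have := lam_ge s f o h4
  have := hr n
  linarith

theorem ms_lim {J : Type} {S : J → C} {T : C} (hS : ∀ n, μ (S n) + μ (co (S n)) ≤ 1)
    (h : ∀ n p, mem (S n) p → mem T p) (hc : ∀ r, (∀ n, μ (S n) ≤ r) → μ T ≤ r) :
    μ T + μ (co T) ≤ 1 := by
  have := hc (1 - μ (co T)) fun n => by
    have h1 : μ (co T) ≤ μ (co (S n)) := mu_mono s f o fun p e =>
      (s.co _ p).2 fun e' => (s.co _ p).1 e (h n p e')
    have := hS n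
    linarith
  linarith

theorem inner {S : C} (e : μ S + μ (co S) ≤ 1) {ε : R} (hε : 0 < ε) :
    ∃ U, Opn el (mem U) ∧ (∀ p, mem (co U) p → mem S p) ∧ μ S < μ (co U) + ε := by
  obtain ⟨U, h1, h2, h3⟩ := start s f o (S := co S) hε
  refine ⟨U, h1, fun p hp => by_contra fun hn => (s.co U p).1 hp (h2 p ((s.co S p).2 hn)), ?_⟩
  have h4 := mu_co s f o U
  rw [mu_opn s f o h1] at h4
  linarith

theorem far {h : R} (e : h + h = 1) : ∃ q : R, 0 < q ∧ ∀ (c : A) (S T : C), ν c = h →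
    (∀ p, el p c → mem S p ∨ mem T p) → μ S < q → μ T < q → False := by
  refine ⟨h / 2, by linarith, fun c S T h1 h2 h3 h4 => ?_⟩
  have h5 := mu_cover s f o (W := bs c) fun p e => h2 p ((s.bs c p).1 e)
  rw [mu_bs s f o (s.bs c)] at h5
  linarith

end measure

end Pool.Agent.P.MP_0d6be8_lc.NL
end

-- part Pool.Agent.P.MP_0d6be8_lc.NKW.GDef
section

set_option autoImplicit false
set_option linter.unusedSectionVars false
set_option synthInstance.maxSize 4000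

/-! Typed reals, charges, the Nikodym property, Radon measures, and their codes. -/

noncomputable section

open Pool.Agent.Lib.PosetForcing (App IsFun IsFunOn)
open Pool.Agent.P.MP_5f3b23_lc.Zf (mm om op app_iff isPair_iff op_inj)
open Pool.Agent.P.MP_af1204_lc.Inn Filter

namespace Pool.Agent.P.MP_0d6be8_lc.NKW

variable [Md] [Std]

/-- a complete ordered field of the model -/
class RF (Q : Type) [MT Q] [Field Q] [LinearOrder Q] : Prop extends OD Q where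
  add : DP3 fun a b c : Q => a + b = c
  mul : DP3 fun a b c : Q => a * b = c
  cpl : ∀ G : PS Q, (∃ x, x ∈ G) → (∃ b, ∀ x ∈ G, x ≤ b) → ∃ c, ∀ b, c ≤ b ↔ ∀ x ∈ G, x ≤ b

section rf
variable {Q : Type} [MT Q] [Field Q] [LinearOrder Q] [IsStrictOrderedRing Q] [h : RF Q]
  {Γ : Type} [MC Γ] (a b : Γ → Q) [DD a] [DD b]

instance dd_radd : DD fun g => a g + b g :=
  have : DP fun p : Cx fun _ : Γ => Q => a p.1 + b p.1 = p.2 :=
    h.add.out.comp fun p : Cx fun _ : Γ => Q => ⟨⟨a p.1, b p.1⟩, p.2⟩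
  DD.of_spec (fun g t => a g + b g = t) fun _ _ => eq_comm

instance dd_rmul : DD fun g => a g * b g :=
  have : DP fun p : Cx fun _ : Γ => Q => a p.1 * b p.1 = p.2 :=
    h.mul.out.comp fun p : Cx fun _ : Γ => Q => ⟨⟨a p.1, b p.1⟩, p.2⟩
  DD.of_spec (fun g t => a g * b g = t) fun _ _ => eq_comm

instance dd_rneg : DD fun g => - a g :=
  DD.of_spec (fun g t => t + a g = 0) fun _ _ => add_eq_zero_iff_eq_neg

instance dd_rsub : DD fun g => a g - b g :=
  DD.of_spec (fun g t => t + b g = a g) fun _ _ => eq_sub_iff_add_eq.symm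

instance dd_rinv : DD fun g => (a g)⁻¹ :=
  DD.of_spec (fun g t => (a g = 0 ∧ t = 0) ∨ a g * t = 1) fun g t => by
    by_cases e : a g = 0
    · simp [e]
    · simp only [e, false_and, false_or]
      exact ⟨fun k => eq_inv_of_mul_eq_one_right k, fun k => k ▸ mul_inv_cancel₀ e⟩

instance dd_rdiv : DD fun g => a g / b g :=
  (inferInstance : DD fun g => a g * (b g)⁻¹).congr fun _ => div_eq_mul_inv _ _

instance dd_rabs : DD fun g => |a g| := (inferInstance : DD fun g => max (a g) (- a g))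

instance dd_rsum (n : Γ → ℕ) [DD n] (f : Γ → ℕ → Q)
    [hf : DD fun p : Cx fun _ : Γ => ℕ => f p.1 p.2] :
    DD fun g => ∑ i ∈ Finset.range (n g), f g i :=
  have : DD fun p : Cx fun _ : (Cx fun _ : Γ => ℕ) => Q => f p.1.1 p.1.2 := hf.comp Cx.fst
  (inferInstance : DD fun g =>
    Nat.rec (motive := fun _ => Q) 0 (fun k x => x + f g k) (n g)).congr fun g => by
      induction n g with
      | zero => rfl
      | succ n ih => rw [Finset.sum_range_succ, ih]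

instance dd_rcast (n : Γ → ℕ) [DD n] : DD fun g => (n g : Q) :=
  (inferInstance : DD fun g => ∑ _i ∈ Finset.range (n g), (1 : Q)).congr fun g => by simp

instance dd_rpow (n : Γ → ℕ) [DD n] : DD fun g => a g ^ n g :=
  (inferInstance : DD fun g =>
    Nat.rec (motive := fun _ => Q) 1 (fun _ x => x * a g) (n g)).congr fun g => by
      induction n g with
      | zero => exact pow_zero _
      | succ n ih => rw [pow_succ, ih]

theorem exists_lub (G : Q → Prop) [DP G] (h0 : ∃ x, G x) (h1 : ∃ b, ∀ x, G x → x ≤ b) :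
    ∃ c, NL.Lub G c :=
  let ⟨c, hc⟩ := h.cpl (sb G) h0 h1
  ⟨c, (hc c).1 le_rfl, fun y => (hc y).2⟩

end rf

section nik
variable {A : Type} [MT A] (le : A → A → Prop) (sup : A → A → A)

/-- disjoint elements -/
def Dj (a b : A) : Prop := ∀ x y, le x a → le x b → le x y

variable {Q : Type} [MT Q] [Field Q] [LinearOrder Q]

/-- the variation is at most `c` -/
def Var (m : A → Q) (c : Q) : Prop :=
  ∀ d : Fn ℕ A, (∀ i j, i ≠ j → Dj le (d i) (d j)) → ∀ n, ∑ i ∈ Finset.range n, |m (d i)| ≤ c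

/-- finitely additive and of bounded variation -/
def Chg (m : A → Q) : Prop := (∀ a b, Dj le a b → m (sup a b) = m a + m b) ∧ ∃ c, Var le m c

variable (Q) in
/-- the Nikodym property -/
def Nik : Prop :=
  ∀ m : Fn ℕ (Fn A Q), (∀ n, Chg le sup (m n)) → (∀ a, ∃ c, ∀ n, |m n a| ≤ c) →
    ∃ c, ∀ n, Var le (m n) c

end nik

section rad
variable {A P : Type} [MT A] [MT P] (S : Sp A P)

/-- open sets of points -/
def Sp.Opn (U : PS P) : Prop := ∀ p, p ∈ U → ∃ a, S.el p a ∧ ∀ q, S.el q a → q ∈ U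

instance dp_Opn {Γ : Type} [MC Γ] (U : Γ → PS P) [DD U] : DP fun g => S.Opn (U g) := by
  unfold Sp.Opn; infer_instance

/-- the basic set of an element -/
def Sp.bs (a : A) : PS P := sb fun p => S.el p a

instance dd_bs {Γ : Type} [MC Γ] (a : Γ → A) [DD a] : DD fun g => S.bs (a g) := by
  unfold Sp.bs; infer_instance

theorem Sp.lib (ne : Nonempty A) : NL.Sp S.inf S.cpl S.el (fun (U : PS P) p => p ∈ U)
    (fun U V => U ∪ V) (fun U V => U ∩ V) (fun U => Uᶜ) S.bs :=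
  ⟨ne, S.el_inf, S.el_cpl, fun _ _ _ => Iff.rfl, fun _ _ _ => Iff.rfl, fun _ _ => Iff.rfl,
    fun _ _ => Iff.rfl⟩

variable {Q : Type} [MT Q] [Field Q] [LinearOrder Q]

/-- `μ` is a Radon measure of uncountable type on the σ-algebra `M` -/
structure Rad (M : PS (PS P)) (μ : Fn (PS P) Q) : Prop where
  opn : ∀ U, S.Opn U → U ∈ M
  co : ∀ B ∈ M, Bᶜ ∈ M
  un : ∀ B : Fn ℕ (PS P), (∀ n, B n ∈ M) → iU B ∈ M
  nonneg : ∀ B, 0 ≤ μ B
  empty : μ ∅ = 0
  mono : ∀ B C, B ⊆ C → μ B ≤ μ C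
  sum : ∀ B : Fn ℕ (PS P), (∀ n, B n ∈ M) → (∀ i j p, p ∈ B i → p ∈ B j → i = j) →
    ∀ b, μ (iU B) ≤ b ↔ ∀ n, ∑ i ∈ Finset.range n, μ (B i) ≤ b
  inner : ∀ B ∈ M, ∀ b, (∀ U, S.Opn U → Uᶜ ⊆ B → μ Uᶜ ≤ b) → μ B ≤ b
  far : ∃ q, 0 < q ∧ ∀ D : PS (PS P), Cnt (· ∈ D) →
    ∃ a, ∀ F ∈ D, q ≤ μ ((S.bs a \ F) ∪ (F \ S.bs a))

end rad

/-! ### codes -/

/-- `Q` is coded by the field `(R, add, le, o)` -/
structure CR (Q : Type) [MT Q] [Field Q] [LinearOrder Q] (R add rle o : MM) : Prop where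
  car : car Q = R
  add : ∀ (x y : Q) (z : MM), NK.App2 mm add (enc x) (enc y) z ↔ z = enc (x + y)
  le : ∀ x y : Q, App mm rle (enc x) (enc y) ↔ x ≤ y
  zero : enc (0 : Q) = o

/-- the order `le` on `A` is coded by `(a, r)` -/
structure CA {A : Type} [MT A] (le : A → A → Prop) (a r : MM) : Prop where
  car : car A = a
  le : ∀ x y : A, App mm r (enc x) (enc y) ↔ le x y

/-- the points of `S` are coded by the elements of `X` -/
structure CP {A P : Type} [MT A] [MT P] (S : Sp A P) (X : MM) : Prop where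
  car : car P = X
  el : ∀ (p : P) (y : MM), y ∈ enc p ↔ ∃ x : A, S.el p x ∧ enc x = y

section code
variable {X Y : Type} [MT X] [MT Y]

theorem app_enc {f : Fn X Y} {x y : MM} : App mm (enc f) x y ↔ ∃ t, enc t = x ∧ enc (f t) = y :=
  app_iff.trans (Fn.mem_code.trans (exists_congr fun _ =>
    ⟨op_inj, fun h => by rw [h.1, h.2]⟩))

theorem app_enc' {f : Fn X Y} {x : X} {y : MM} : App mm (enc f) (enc x) y ↔ y = enc (f x) :=
  app_enc.trans ⟨fun ⟨_, h, e⟩ => enc_inj.1 h ▸ e.symm, fun h => ⟨x, rfl, h.symm⟩⟩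

theorem isFunOn_enc (f : Fn X Y) {V : MM → Prop} (h : ∀ x, V (enc (f x))) :
    IsFunOn mm (enc f) (car X) V := by
  refine ⟨fun p hp => ?_, fun x hx => ?_, fun x y y' h1 h2 => ?_⟩
  · obtain ⟨x, rfl⟩ := Fn.mem_code.1 hp
    exact ⟨_, _, isPair_iff.2 rfl, enc_mem x, h x⟩
  · obtain ⟨t, rfl⟩ := mem_car.1 hx
    exact ⟨_, app_enc'.2 rfl⟩
  · obtain ⟨t, rfl, rfl⟩ := app_enc.1 h1
    exact (app_enc'.1 h2).symm

instance dd_op {Γ : Type} [MC Γ] (a b : Γ → MM) [ha : DD a] [hb : DD b] :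
    DD fun g => op (a g) (b g) := by
  obtain ⟨A, _, h1⟩ := ha.out
  obtain ⟨B, _, h2⟩ := hb.out
  exact DD.of (fun x => op (A x) (B x)) fun g => by rw [h1, h2]; rfl

instance dp_App {Γ : Type} [MC Γ] (f a b : Γ → MM) [DD f] [DD a] [DD b] :
    DP fun g => App mm (f g) (a g) (b g) :=
  (inferInstance : DP fun g => op (a g) (b g) ∈ f g).congr fun _ => app_iff

theorem app2_iff {f x y z : MM} : NK.App2 mm f x y z ↔ op (op x y) z ∈ f := by
  simp only [NK.App2, isPair_iff, app_iff, exists_eq_left]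

instance dp_App2 {Γ : Type} [MC Γ] (f a b c : Γ → MM) [DD f] [DD a] [DD b] [DD c] :
    DP fun g => NK.App2 mm (f g) (a g) (b g) (c g) :=
  (inferInstance : DP fun g => op (op (a g) (b g)) (c g) ∈ f g).congr fun _ => app2_iff

theorem isFun_iff {f : MM} : IsFun mm f (car X) (car Y) ↔ ∃ t : Fn X Y, enc t = f := by
  refine ⟨fun h => ?_, fun ⟨t, e⟩ => e ▸ isFunOn_enc t fun x => enc_mem _⟩
  obtain ⟨t, ht⟩ := chs (R := fun (x : X) (y : Y) => App mm f (enc x) (enc y)) fun x => by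
    obtain ⟨y, hy⟩ := h.2.1 _ (enc_mem x)
    obtain ⟨x', y', e, -, k⟩ := h.1 _ (app_iff.1 hy)
    obtain ⟨t, rfl⟩ := mem_car.1 k
    obtain ⟨-, rfl⟩ := op_inj (isPair_iff.1 e)
    exact ⟨t, hy⟩
  refine ⟨t, zext fun p => Fn.mem_code.trans
    ⟨fun ⟨x, e⟩ => e ▸ app_iff.1 (ht x), fun hp => ?_⟩⟩
  obtain ⟨x, y, e, k, -⟩ := h.1 _ hp
  obtain ⟨x, rfl⟩ := mem_car.1 k
  obtain rfl := isPair_iff.1 e
  exact ⟨x, by rw [h.2.2 _ _ _ (ht x) (app_iff.2 hp)]⟩

theorem sub_iff {a : MM} : (∀ y, y ∈ a → y ∈ car X) ↔ ∃ t : PS X, enc t = a :=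
  MP_5f3b23_lc.Zf.mem_pow.symm.trans (ps_car a)

theorem mem_enc {B : PS X} {y : MM} : y ∈ enc B ↔ ∃ x, x ∈ B ∧ enc x = y := PS.mem_code

theorem enc_mem_enc {B : PS X} {x : X} : enc x ∈ enc B ↔ x ∈ B := PS.enc_mem_code

end code

end Pool.Agent.P.MP_0d6be8_lc.NKW
end
end

-- part Pool.Agent.P.MP_0d6be8_lc.NKW.GM1
section

set_option autoImplicit false
set_option linter.unusedSectionVars false
set_option synthInstance.maxSize 4000

/-! Ultrafilters, compactness of the space of points, two-point measures. -/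

noncomputable section

open Pool.Agent.P.MP_af1204_lc.Inn Filter

namespace Pool.Agent.P.MP_0d6be8_lc.NKW

variable [Md] [Std]

/-- what the ultrafilter lemma needs of a Boolean algebra; `z` are the null elements -/
structure PB {B : Type} (le : B → B → Prop) (inf : B → B → B) (cpl : B → B) (z : B → Prop) :
    Prop where
  refl : ∀ a, le a a
  trans : ∀ a b c, le a b → le b c → le a c
  inf_l : ∀ a b, le (inf a b) a
  inf_r : ∀ a b, le (inf a b) b
  le_inf : ∀ a b c, le c a → le c b → le c (inf a b)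
  z_mono : ∀ a b, le a b → z b → z a
  z_cpl : ∀ a, z (inf a (cpl a))
  z_split : ∀ a c, z (inf c a) → z (inf c (cpl a)) → z c

theorem ultra_ext {B : Type} [MT B] {le : B → B → Prop} {inf : B → B → B} {cpl : B → B}
    {z : B → Prop} [DP2 (B := fun _ => B) le] [DP z] (h : PB le inf cpl z) (F : B → Prop) [DP F]
    (hF : ∀ l : List B, (∀ a ∈ l, F a) → ∃ c, ¬ z c ∧ ∀ a ∈ l, le c a) :
    ∃ q : PS B, (∀ a, F a → a ∈ q) ∧ (∀ a b, inf a b ∈ q ↔ a ∈ q ∧ b ∈ q) ∧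
      (∀ a, cpl a ∈ q ↔ a ∉ q) ∧ (∀ a b, le a b → a ∈ q → b ∈ q) ∧ ∀ a, a ∈ q → ¬ z a := by
  obtain ⟨u, h1, h2, h3⟩ := exists_max (fun l : List B => ∃ c, ¬ z c ∧ ∀ a ∈ l, le c a) F hF
  have key : ∀ x, (∀ l : List B, (∀ a ∈ l, a ∈ u) →
      ∃ c, ¬ z c ∧ le c x ∧ ∀ a ∈ l, le c a) → x ∈ u := fun x hx => by
    classical
    refine h3 x fun l hl => ?_
    obtain ⟨c, c1, c2, c3⟩ := hx (l.filter (· ∈ u)) (by simp)
    refine ⟨c, c1, fun a ha => ?_⟩
    by_cases e : a ∈ u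
    · exact c3 a (by simp [ha, e])
    · exact (hl a ha).resolve_right e ▸ c2
  have up : ∀ a b, le a b → a ∈ u → b ∈ u := fun a b e ha => key b fun l hl => by
    obtain ⟨c, c1, c2⟩ := h2 (a :: l) (by simpa [ha] using hl)
    exact ⟨c, c1, h.trans _ _ _ (c2 a (by simp)) e, fun w hw => c2 w (by simp [hw])⟩
  refine ⟨u, h1, fun a b => ⟨fun e => ⟨up _ _ (h.inf_l _ _) e, up _ _ (h.inf_r _ _) e⟩,
    fun e => key _ fun l hl => ?_⟩, fun a => ⟨fun e e' => ?_, fun e => key _ fun l hl => ?_⟩, up,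
    fun a ha hz => ?_⟩
  · obtain ⟨c, c1, c2⟩ := h2 (a :: b :: l) (by simpa [e.1, e.2] using hl)
    exact ⟨c, c1, h.le_inf _ _ _ (c2 a (by simp)) (c2 b (by simp)), fun w hw => c2 w (by simp [hw])⟩
  · obtain ⟨c, c1, c2⟩ := h2 [a, cpl a] (by simp [e, e'])
    exact c1 (h.z_mono _ _ (h.le_inf _ _ _ (c2 a (by simp)) (c2 (cpl a) (by simp))) (h.z_cpl a))
  · by_contra hc
    refine e (key _ fun l' hl' => ?_)
    obtain ⟨c, c1, c2⟩ := h2 (l ++ l') fun a ha => (List.mem_append.1 ha).elim (hl a) (hl' a)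
    refine ⟨inf c a, fun k => c1 (h.z_split a c k (by_contra fun k' => hc
      ⟨_, k', h.inf_r _ _, fun w hw => h.trans _ _ _ (h.inf_l _ _)
        (c2 w (List.mem_append_left _ hw))⟩)), h.inf_r _ _, fun w hw =>
      h.trans _ _ _ (h.inf_l _ _) (c2 w (List.mem_append_right _ hw))⟩
  · obtain ⟨c, c1, c2⟩ := h2 [a] (by simpa)
    exact c1 (h.z_mono _ _ (c2 a (by simp)) hz)

theorem pb_set (J : Type) [MT J] : PB (B := PS J) (fun X Y => ∀ j, j ∈ X → j ∈ Y)
    (fun X Y => X ∩ Y) (fun X => Xᶜ) (fun X => ∀ j, j ∉ X) where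
  refl := fun _ _ h => h
  trans := fun _ _ _ h h' j e => h' j (h j e)
  inf_l := fun _ _ _ h => h.1
  inf_r := fun _ _ _ h => h.2
  le_inf := fun _ _ _ h h' j e => ⟨h j e, h' j e⟩
  z_mono := fun _ _ h h' j e => h' j (h j e)
  z_cpl := fun _ _ h => h.2 h.1
  z_split := fun _ _ h h' j e => h' j ⟨e, fun e' => h j ⟨e, e'⟩⟩

variable {A P : Type} [MT A] [MT P]

theorem pb_ba {le : A → A → Prop} {inf sup : A → A → A} {cpl : A → A}
    (b : NL.BAx le inf sup cpl) : PB le inf cpl fun a => ∀ y, le a y where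
  refl := b.refl
  trans := b.trans
  inf_l := b.inf_l
  inf_r := b.inf_r
  le_inf := fun _ _ _ h h' => (b.le_inf _ _ _).2 ⟨h, h'⟩
  z_mono := fun _ _ h h' y => b.trans _ _ _ h (h' y)
  z_cpl := fun a y => b.cpl_bot a _ y (b.inf_l _ _) (b.inf_r _ _)
  z_split := fun _ _ h h' y => b.split (h y) (h' y)

variable {S : Sp A P} {le : A → A → Prop} {sup : A → A → A}

theorem le_of_el [DP2 (B := fun _ => A) le] (b : NL.BAx le S.inf sup S.cpl) {x y : A}
    (h : ∀ p, S.el p x → S.el p y) : le x y := by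
  by_contra hn
  obtain ⟨q, q0, q1, q2, -, -⟩ := ultra_ext (pb_ba b) (fun a => a = S.inf x (S.cpl y))
    fun l hl => ⟨_, fun e => hn (b.split (b.inf_r x y) (e y)), fun a ha => hl a ha ▸ b.refl a⟩
  obtain ⟨p, hp⟩ := S.full q q1 q2
  obtain ⟨h1, h2⟩ := (S.el_inf _ _ _).1 ((hp _).2 (q0 _ rfl))
  exact (S.el_cpl _ _).1 h2 (h p h1)

/-- an infinite algebra has infinitely many points -/
theorem exists_points [DP2 (B := fun _ => A) le] (b : NL.BAx le S.inf sup S.cpl) (e : Fn ℕ A)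
    (he : Function.Injective e) : ∃ y : Fn ℕ P, Function.Injective y := by
  have : Infinite P := by
    by_contra k
    rw [not_infinite_iff_finite] at k
    exact Finite.not_infinite (Finite.of_injective (fun n => {p | S.el p (e n)})
      fun i j h => he (b.antisymm _ _ (le_of_el b fun p => (Set.ext_iff.1 h p).1)
        (le_of_el b fun p => (Set.ext_iff.1 h p).2))) inferInstance
  obtain ⟨nw, hnw⟩ := chs (R := fun (l : List P) q => q ∉ l) fun l =>
    l.finite_toSet.exists_notMem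
  let L : Fn ℕ (List P) := lm fun n =>
    Nat.rec (motive := fun _ => List P) [] (fun _ r => nw r :: r) n
  have hm : ∀ j i, i < j → nw (L i) ∈ L j := fun j => by
    induction j with
    | zero => exact fun i h => absurd h (by omega)
    | succ j ih =>
      intro i h
      show _ ∈ nw (L j) :: L j
      rcases Nat.lt_succ_iff_lt_or_eq.1 h with g | g
      · exact List.mem_cons_of_mem _ (ih i g)
      · rw [g]; exact List.mem_cons_self
  refine ⟨lm fun n => nw (L n), fun i j h => ?_⟩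
  have h' : nw (L i) = nw (L j) := h
  rcases lt_trichotomy i j with g | g | g
  exacts [absurd (h' ▸ hm j i g) (hnw _), g, absurd (h'.symm ▸ hm i j g) (hnw _)]

theorem Sp.pb_el (S : Sp A P) :
    PB (fun a b => ∀ p, S.el p a → S.el p b) S.inf S.cpl fun a => ∀ p, ¬ S.el p a where
  refl := fun _ _ h => h
  trans := fun _ _ _ h h' p e => h' p (h p e)
  inf_l := fun _ _ _ h => ((S.el_inf _ _ _).1 h).1
  inf_r := fun _ _ _ h => ((S.el_inf _ _ _).1 h).2
  le_inf := fun _ _ _ h h' p e => (S.el_inf _ _ _).2 ⟨h p e, h' p e⟩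
  z_mono := fun _ _ h h' p e => h' p (h p e)
  z_cpl := fun _ _ h => (S.el_cpl _ _).1 ((S.el_inf _ _ _).1 h).2 ((S.el_inf _ _ _).1 h).1
  z_split := fun _ _ h h' p e => h' p ((S.el_inf _ _ _).2
    ⟨e, (S.el_cpl _ _).2 fun e' => h p ((S.el_inf _ _ _).2 ⟨e, e'⟩)⟩)

/-- compactness: an ideal that contains a neighbourhood of every point of `a` contains `a` -/
theorem cover (G : A → Prop) [DP G] (h0 : ∀ a, (∀ p, ¬ S.el p a) → G a)
    (h1 : ∀ a b c, G a → G b → (∀ p, S.el p c → S.el p a ∨ S.el p b) → G c) (a : A)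
    (h : ∀ p, S.el p a → ∃ b, S.el p b ∧ G b) : G a := by
  by_contra hn
  have hi : ∀ p b, S.el p (S.inf a (S.cpl b)) ↔ S.el p a ∧ ¬ S.el p b := fun p b =>
    (S.el_inf _ _ _).trans (and_congr Iff.rfl (S.el_cpl _ _))
  have g0 : G (S.inf a (S.cpl a)) := h0 _ fun p e => ((hi p a).1 e).2 ((hi p a).1 e).1
  obtain ⟨q, q0, q1, q2, -, -⟩ := ultra_ext S.pb_el (fun x => ∃ b, G b ∧ x = S.inf a (S.cpl b))
    fun l hl => by
      obtain ⟨b, hb, k⟩ : ∃ b, G b ∧ ∀ x ∈ l, ∀ p, S.el p (S.inf a (S.cpl b)) → S.el p x := by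
        induction l with
        | nil => exact ⟨_, g0, by simp⟩
        | cons x l ih =>
          obtain ⟨b, hb, k⟩ := ih fun y hy => hl y (by simp [hy])
          obtain ⟨c, hc, rfl⟩ := hl x (by simp)
          obtain ⟨d, hd⟩ := (S.lib ⟨a⟩).sup b c
          refine ⟨d, h1 b c d hb hc fun p => (hd p).1, fun y hy p e => ?_⟩
          rw [hi, hd, not_or] at e
          rcases List.mem_cons.1 hy with rfl | hy
          exacts [(hi _ _).2 ⟨e.1, e.2.2⟩, k y hy p ((hi _ _).2 ⟨e.1, e.2.1⟩)]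
      exact ⟨_, fun hz => hn (h1 b b a hb hb fun p e =>
        Or.inl (by_contra fun g => hz p ((hi p b).2 ⟨e, g⟩))), k⟩
  obtain ⟨p, hp⟩ := S.full q q1 q2
  obtain ⟨b, hb, hG⟩ := h p ((hi p _).1 ((hp _).2 (q0 _ ⟨_, g0, rfl⟩))).1
  exact ((hi p b).1 ((hp _).2 (q0 _ ⟨b, hG, rfl⟩))).2 hb

/-- closed sets of points are compact -/
theorem finite_subcover (ne : Nonempty A) {U : PS P} (hU : S.Opn U) (C : PS (PS P))
    (hC : ∀ O ∈ C, S.Opn O) (h : ∀ p, p ∉ U → ∃ O ∈ C, p ∈ O) :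
    ∃ l : List (PS P), (∀ O ∈ l, O ∈ C) ∧ ∀ p, p ∉ U → ∃ O ∈ l, p ∈ O := by
  obtain ⟨a, ha⟩ := (S.lib ne).top
  obtain ⟨l, hl, k⟩ := cover (S := S) (fun d => ∃ l : List (PS P), (∀ O ∈ l, O ∈ C) ∧
      ∀ p, S.el p d → p ∉ U → ∃ O ∈ l, p ∈ O)
    (fun d hd => ⟨[], by simp, fun p e => (hd p e).elim⟩)
    (fun b c d ⟨l, l0, hl⟩ ⟨m, m0, hm⟩ hd => ⟨l ++ m,
      fun O e => (List.mem_append.1 e).elim (l0 O) (m0 O), fun p e g => (hd p e).elim
      (fun r => (hl p r g).imp fun t ht => ⟨List.mem_append_left _ ht.1, ht.2⟩)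
      fun r => (hm p r g).imp fun t ht => ⟨List.mem_append_right _ ht.1, ht.2⟩⟩) a fun p _ => by
      by_cases g : p ∈ U
      · obtain ⟨b, h1, h2⟩ := hU p g
        exact ⟨b, h1, [], by simp, fun q e g' => (g' (h2 q e)).elim⟩
      · obtain ⟨t, ht, ht'⟩ := h p g
        obtain ⟨b, h1, h2⟩ := hC t ht p ht'
        exact ⟨b, h1, [t], by simpa, fun q e _ => ⟨t, by simp, h2 q e⟩⟩
  exact ⟨l, hl, fun p => k p (ha p)⟩

variable {Q : Type} [MT Q] [Field Q] [LinearOrder Q] [IsStrictOrderedRing Q] [RF Q]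

open Classical in
/-- the indicator -/
def ind (Q : Type) [Field Q] (p : Prop) : Q := if p then 1 else 0

theorem ind_pos {p : Prop} (h : p) : ind Q p = 1 := if_pos h

theorem ind_neg {p : Prop} (h : ¬ p) : ind Q p = 0 := if_neg h

theorem ind_nonneg (p : Prop) : 0 ≤ ind Q p := by
  by_cases h : p <;> simp [ind, h]

instance dd_ind {Γ : Type} [MC Γ] (c : Γ → Prop) [DP c] : DD fun g => ind Q (c g) := by
  unfold ind; infer_instance

theorem not_bdd : ¬ ∃ b : Q, ∀ n : ℕ, (n : Q) ≤ b := fun ⟨b, hb⟩ => by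
  obtain ⟨x, h1, h2⟩ := exists_lub (fun r : Q => ∃ n : ℕ, (n : Q) = r) ⟨_, 0, rfl⟩
    ⟨b, fun _ ⟨n, e⟩ => e ▸ hb n⟩
  exact NL.unb ⟨h1, h2⟩ fun r ⟨n, e⟩ => ⟨n + 1, by rw [Nat.cast_succ, e]⟩

theorem sum_ind_le (p : ℕ → Prop) (h : ∀ i j, p i → p j → i = j) (n : ℕ) :
    ∑ i ∈ Finset.range n, ind Q (p i) ≤ 1 := by
  classical
  have : ∑ i ∈ Finset.range n, ind Q (p i) = ((Finset.range n).filter p).card := by
    rw [← Finset.sum_boole]
    exact Finset.sum_congr rfl fun i _ => by unfold ind; congr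
  rw [this, Nat.cast_le_one]
  exact Finset.card_le_one.2 fun i hi j hj =>
    h i j (Finset.mem_filter.1 hi).2 (Finset.mem_filter.1 hj).2

theorem p2_of_nik (b : NL.BAx le S.inf sup S.cpl) (h : Nik le sup Q) : S.P2 := by
  intro y z hyz
  by_contra hn
  have fin : ∀ a, ∀ᶠ n in atTop, S.el (y n) a → S.el (z n) a := fun a =>
    (not_frequently.1 fun k => hn ⟨a, k⟩).mono fun n k k' => by_contra fun r => k ⟨k', r⟩
  have bd : ∀ (n : ℕ) (u v : Prop), |(n : Q) * (ind Q u - ind Q v)| ≤ n * (ind Q u + ind Q v) :=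
    fun n u v => by
      rw [abs_mul, Nat.abs_cast]
      refine mul_le_mul_of_nonneg_left ((abs_sub _ _).trans_eq ?_) n.cast_nonneg
      rw [abs_of_nonneg (ind_nonneg u), abs_of_nonneg (ind_nonneg v)]
  obtain ⟨C, hC⟩ := h
    (lm fun n => lm fun a => (n : Q) * (ind Q (S.el (y n) a) - ind Q (S.el (z n) a)))
    (fun n => ⟨fun a c d => by
      have k : ∀ p, ind Q (S.el p (sup a c)) = ind Q (S.el p a) + ind Q (S.el p c) := fun p => by
        have h1 := b.el_sup S.el_inf S.el_cpl p a c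
        have h2 := b.el_disj S.el_inf S.el_cpl (p := p) d
        by_cases S.el p a <;> by_cases S.el p c <;> simp_all [ind]
      simp only [lm_apply, k]
      ring, n * 2, fun d hd k => by
      refine (Finset.sum_le_sum fun i _ => bd n _ _).trans ?_
      rw [← Finset.mul_sum, Finset.sum_add_distrib]
      refine mul_le_mul_of_nonneg_left ?_ n.cast_nonneg
      have h0 : ∀ p i j, S.el p (d i) → S.el p (d j) → i = j := fun p i j u v =>
        by_contra fun e => b.el_disj S.el_inf S.el_cpl (hd i j e) u v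
      have h1 := sum_ind_le (Q := Q) (fun i => S.el (y n) (d i)) (h0 _) k
      have h2 := sum_ind_le (Q := Q) (fun i => S.el (z n) (d i)) (h0 _) k
      linarith⟩) fun a => by
      obtain ⟨k, hk⟩ := eventually_atTop.1 ((fin a).and (fin (S.cpl a)))
      refine ⟨k * 2, fun n => ?_⟩
      rcases le_total k n with g | g
      · have e : S.el (y n) a ↔ S.el (z n) a := ⟨(hk n g).1, fun w => by_contra fun v =>
          (S.el_cpl _ _).1 ((hk n g).2 ((S.el_cpl _ _).2 v)) w⟩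
        simp only [lm_apply, e, sub_self, mul_zero, abs_zero]
        positivity
      · refine (bd n _ _).trans (mul_le_mul (Nat.cast_le.2 g) ?_
          (add_nonneg (ind_nonneg _) (ind_nonneg _)) k.cast_nonneg)
        by_cases S.el (y n) a <;> by_cases S.el (z n) a <;> simp [ind, *] <;> norm_num
  refine not_bdd ⟨C, fun n => ?_⟩
  obtain ⟨a, h1, h2⟩ := Sp.sep (S := S) (hyz n)
  have h3 := (pb_ba b).z_cpl a
  simpa [ind_pos h1, ind_neg h2] using hC n
    (lm fun i => if i = 0 then a else S.inf a (S.cpl a)) (fun i j e x w u v => by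
      by_cases g : i = 0
      · have g' : ¬ j = 0 := fun k => e (g.trans k.symm)
        exact b.trans _ _ _ (by simpa [g'] using v) (h3 w)
      · exact b.trans _ _ _ (by simpa [g] using u) (h3 w)) 1

end Pool.Agent.P.MP_0d6be8_lc.NKW
end
end

-- part Pool.Agent.P.MP_0d6be8_lc.NKW.GM2
section

set_option autoImplicit false
set_option linter.unusedSectionVars false
set_option synthInstance.maxSize 4000

/-! A Radon measure that keeps the members of an independent family apart. -/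

noncomputable section

open Pool.Agent.P.MP_af1204_lc.Inn Filter

namespace Pool.Agent.P.MP_0d6be8_lc.NKW

variable [Md] [Std] {A P : Type} [MT A] [MT P]
  {Q : Type} [MT Q] [Field Q] [LinearOrder Q] [IsStrictOrderedRing Q] [RF Q]

/-- the average of `g` over all patterns on the list -/
def avg (h : Q) : List A → ((A → Prop) → Q) → Q
  | [], g => g fun _ => False
  | i :: l, g => h * (avg h l (fun s => g fun a => a = i ∨ s a) +
      avg h l fun s => g fun a => a ≠ i ∧ s a)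

theorem dd_avg {Γ : Type} [MC Γ] (h : Q) (l : List A) : ∀ G : (A → Prop) → Γ → Q,
    (∀ s, DD (G s)) → DD fun x => avg h l fun s => G s x := by
  induction l with
  | nil => exact fun G k => k _
  | cons i t ih =>
    intro G k
    have h1 := ih (fun s => G fun a => a = i ∨ s a) fun _ => k _
    have h2 := ih (fun s => G fun a => a ≠ i ∧ s a) fun _ => k _
    have h3 := dd_radd (fun x => avg h t fun s => G (fun a => a = i ∨ s a) x)
      fun x => avg h t fun s => G (fun a => a ≠ i ∧ s a) x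
    exact dd_rmul (fun _ => h) _

theorem avg_add (h : Q) (l : List A) : ∀ f g k : (A → Prop) → Q, (∀ s, k s = f s + g s) →
    avg h l k = avg h l f + avg h l g := by
  induction l with
  | nil => exact fun f g k e => e _
  | cons i t ih =>
    intro f g k e
    rw [avg, avg, avg,
      ih (fun s => f fun a => a = i ∨ s a) (fun s => g fun a => a = i ∨ s a) _ fun _ => e _,
      ih (fun s => f fun a => a ≠ i ∧ s a) (fun s => g fun a => a ≠ i ∧ s a) _ fun _ => e _]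
    ring

theorem avg_const {h : Q} (hh : h + h = 1) (c : Q) (l : List A) :
    ∀ g : (A → Prop) → Q, (∀ s, g s = c) → avg h l g = c := by
  induction l with
  | nil => exact fun g e => e _
  | cons i t ih =>
    intro g e
    rw [avg, ih _ fun _ => e _, ih _ fun _ => e _]
    exact NL.half_same hh

theorem avg_nonneg {h : Q} (hh : h + h = 1) (l : List A) :
    ∀ g : (A → Prop) → Q, (∀ s, 0 ≤ g s) → 0 ≤ avg h l g := by
  induction l with
  | nil => exact fun g e => e _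
  | cons i t ih => exact fun g e => NL.half_nonneg hh (ih _ fun _ => e _) (ih _ fun _ => e _)

theorem avg_half {h : Q} (hh : h + h = 1) {i j : A} (hij : i ≠ j) (l : List A) :
    ∀ g : (A → Prop) → Q, i ∈ l → (∀ s : A → Prop, (s i ↔ s j) → g s = 0) →
      (∀ s : A → Prop, ¬ (s i ↔ s j) → g s = 1) → avg h l g = h := by
  induction l with
  | nil => exact fun _ e => (List.not_mem_nil e).elim
  | cons k t ih =>
    intro g hi g0 g1
    rw [avg]
    by_cases e : k = i ∨ k = j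
    · refine NL.half_one ((avg_add h t _ _ (fun _ => 1) fun s => ?_).symm.trans
        (avg_const hh 1 t _ fun _ => rfl))
      rcases e with rfl | rfl
      · by_cases r : s j
        · rw [g0 _ (iff_of_true (Or.inl rfl) (Or.inr r)),
            g1 _ fun w => (w.2 ⟨hij.symm, r⟩).1 rfl, zero_add]
        · rw [g1 _ fun w => (w.1 (Or.inl rfl)).elim hij.symm r,
            g0 _ (iff_of_false (fun w => w.1 rfl) fun w => r w.2), add_zero]
      · by_cases r : s i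
        · rw [g0 _ (iff_of_true (Or.inr r) (Or.inl rfl)),
            g1 _ fun w => (w.1 ⟨hij, r⟩).1 rfl, zero_add]
        · rw [g1 _ fun w => (w.2 (Or.inl rfl)).elim hij r,
            g0 _ (iff_of_false (fun w => r w.2) fun w => w.1 rfl), add_zero]
    · have ki : i ≠ k := fun w => e (Or.inl w.symm)
      have kj : j ≠ k := fun w => e (Or.inr w.symm)
      have hi' : i ∈ t := (List.mem_cons.1 hi).resolve_left ki
      rw [ih _ hi' (fun s w => g0 _ (by simpa [ki, kj] using w))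
          fun s w => g1 _ (by simpa [ki, kj] using w),
        ih _ hi' (fun s w => g0 _ (by simpa [ki, kj] using w))
          fun s w => g1 _ (by simpa [ki, kj] using w)]
      exact NL.half_one hh

variable {S : Sp A P}

/-- averages of point masses -/
theorem exists_avg {h : Q} (hh : h + h = 1) {I : PS A} (hi : S.Ind I) :
    ∃ v : Fn (List A) (Fn A Q), ∀ l, (∀ a, 0 ≤ v l a) ∧
      (∀ a b c, (∀ p, S.el p c ↔ S.el p a ∨ S.el p b) → (∀ p, S.el p a → ¬ S.el p b) →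
        v l c = v l a + v l b) ∧ (∀ a, (∀ p, S.el p a) → v l a = 1) ∧
      ∀ i j c, (∀ a ∈ l, a ∈ I) → i ∈ l → j ∈ l → i ≠ j →
        (∀ p, S.el p c ↔ ¬ (S.el p i ↔ S.el p j)) → v l c = h := by
  refine chs (R := fun (l : List A) (w : Fn A Q) => (∀ a, 0 ≤ w a) ∧
      (∀ a b c, (∀ p, S.el p c ↔ S.el p a ∨ S.el p b) → (∀ p, S.el p a → ¬ S.el p b) →
        w c = w a + w b) ∧ (∀ a, (∀ p, S.el p a) → w a = 1) ∧
      ∀ i j c, (∀ a ∈ l, a ∈ I) → i ∈ l → j ∈ l → i ≠ j →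
        (∀ p, S.el p c ↔ ¬ (S.el p i ↔ S.el p j)) → w c = h) fun l => ?_
  obtain ⟨z, hz⟩ : ∃ z : (A → Prop) → P, ∀ s, (∀ a ∈ l, a ∈ I) →
      ∀ a ∈ l, (S.el (z s) a ↔ s a) := by
    by_cases e : ∀ a ∈ l, a ∈ I
    · choose z hz using hi l e
      exact ⟨z, fun s _ => hz s⟩
    · obtain ⟨p, -⟩ := hi [] (by simp) fun _ => False
      exact ⟨fun _ => p, fun _ k => (e k).elim⟩
  refine ⟨⟨fun a => avg h l fun s => ind Q (S.el (z s) a),
    dd_avg h l (fun s a => ind Q (S.el (z s) a)) fun _ => inferInstance⟩,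
    fun a => avg_nonneg hh l _ fun s => ind_nonneg _, fun a b c e d => avg_add h l _ _ _ fun s => ?_,
    fun a e => avg_const hh 1 l _ fun s => ind_pos (e _),
    fun i j c hl h1 h2 hij e => avg_half hh hij l _ h1 (fun s w => ind_neg fun r => ?_)
      fun s w => ind_pos ((e _).2 fun r => w ?_)⟩
  · have h1 := e (z s)
    have h2 := d (z s)
    by_cases S.el (z s) a <;> by_cases S.el (z s) b <;> simp_all [ind]
  · exact (e _).1 r ((hz s hl i h1).trans (w.trans (hz s hl j h2).symm))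
  · exact (hz s hl i h1).symm.trans (r.trans (hz s hl j h2))

/-- the limit of the averages along an ultrafilter -/
theorem exists_charge' (ne : Nonempty A) {h : Q} (hh : h + h = 1) {I : PS A} (hi : S.Ind I) :
    ∃ ν : Fn A Q, NL.FA S.el ν ∧ ∀ i j c, i ∈ I → j ∈ I → i ≠ j →
      (∀ p, S.el p c ↔ ¬ (S.el p i ↔ S.el p j)) → ν c = h := by
  obtain ⟨v, hv⟩ := exists_avg hh hi
  have fa : ∀ l, NL.FA S.el (v l) := fun l => ⟨(hv l).1, (hv l).2.1, (hv l).2.2.1⟩
  obtain ⟨u, hF, u1, u2, u3, u4⟩ := ultra_ext (pb_set (List A)) (fun X : PS (List A) =>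
      ∃ m : List A, (∀ a ∈ m, a ∈ I) ∧ ∀ l : List A, (∀ a ∈ l, a ∈ I) → (∀ a ∈ m, a ∈ l) → l ∈ X)
    fun L hL => by
      obtain ⟨m, h1, h2⟩ : ∃ m : List A, (∀ a ∈ m, a ∈ I) ∧ ∀ l : List A, (∀ a ∈ l, a ∈ I) →
          (∀ a ∈ m, a ∈ l) → ∀ X ∈ L, l ∈ X := by
        induction L with
        | nil => exact ⟨[], by simp, by simp⟩
        | cons X L ih =>
          obtain ⟨m, h1, h2⟩ := ih fun Y hY => hL Y (by simp [hY])
          obtain ⟨n, h3, h4⟩ := hL X (by simp)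
          refine ⟨m ++ n, fun a e => (List.mem_append.1 e).elim (h1 a) (h3 a), fun l e r Y hY => ?_⟩
          rcases List.mem_cons.1 hY with rfl | hY
          · exact h4 l e fun a w => r a (List.mem_append_right _ w)
          · exact h2 l e (fun a w => r a (List.mem_append_left _ w)) Y hY
      exact ⟨{m}, fun k => k m rfl, fun X hX j (e : j = m) => e ▸ h2 m h1 (fun _ e => e) X hX⟩
  have all : ∀ X : PS (List A), (∀ l, l ∈ X) → X ∈ u := fun X e =>
    hF X ⟨[], by simp, fun l _ _ => e l⟩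
  have ex : ∀ X, X ∈ u → ∃ l, l ∈ X := fun X e => by_contra fun k => u4 X e fun l r => k ⟨l, r⟩
  obtain ⟨ν, hν⟩ := chs (R := fun (a : A) (c : Q) =>
      (∀ r, (sb fun l => r ≤ v l a) ∈ u → r ≤ c) ∧
      ∀ y, (∀ r, (sb fun l => r ≤ v l a) ∈ u → r ≤ y) → c ≤ y) fun a =>
    (exists_lub (fun r => (sb fun l => r ≤ v l a) ∈ u) ⟨0, all _ fun l => (fa l).nonneg a⟩
      ⟨1, fun r e => (ex _ e).elim fun l g => le_trans g ((fa l).le_one (S.lib ne) a)⟩).imp
      fun _ k => ⟨k.1, k.2⟩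
  have lub : ∀ a, NL.Lub (fun r => (sb fun l => r ≤ v l a) ∈ u) (ν a) := fun a =>
    ⟨(hν a).1, (hν a).2⟩
  have cst : ∀ a x, (sb fun l => v l a = x) ∈ u → ν a = x := fun a x e =>
    NL.lub_eq (lub a) fun r => ⟨fun g => (ex _ ((u1 _ _).2 ⟨e, g⟩)).elim fun l w =>
      le_of_le_of_eq w.2 w.1, fun g => u3 _ _ (fun l w => le_of_le_of_eq g (Eq.symm w)) e⟩
  refine ⟨ν, ⟨fun a => (lub a).ub 0 (all _ fun l => (fa l).nonneg a), fun a b c e d => ?_,
    fun a e => cst a 1 (all _ fun l => (fa l).one a e)⟩, fun i j c h1 h2 hij e => cst c h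
      (hF _ ⟨[i, j], by simp [h1, h2], fun l w r =>
        (hv l).2.2.2 i j c w (r i (by simp)) (r j (by simp)) hij e⟩)⟩
  exact NL.lub_add (lub a) (lub b) (lub c) (fun r s w g => u3 _ _ (fun l x => le_trans w x) g)
    (fun r s g g' => by
      refine u3 _ _ ?_ ((u1 _ _).2 ⟨g, g'⟩)
      exact fun l x => NL.add_le_of_eq ((fa l).add a b c e d) x.1 x.2)
    fun r s g g' => (u2 _).1 (by
      refine u3 _ _ ?_ ((u1 _ _).2 ⟨(u2 _).2 g, (u2 _).2 g'⟩)
      exact fun l x => NL.not_add_le_of_eq ((fa l).add a b c e d) x.1 x.2)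

variable (ne : Nonempty A)
include ne

theorem cover_two (U V : PS P) (a : A) (hU : S.Opn U) (hV : S.Opn V)
    (h : ∀ p, S.el p a → p ∈ U ∨ p ∈ V) : ∃ b c, (∀ p, S.el p b → p ∈ U) ∧
      (∀ p, S.el p c → p ∈ V) ∧ ∀ p, S.el p a → S.el p b ∨ S.el p c := by
  obtain ⟨o, ho⟩ := (S.lib ne).bot
  refine cover (S := S) (fun d => ∃ b c, (∀ p, S.el p b → p ∈ U) ∧ (∀ p, S.el p c → p ∈ V) ∧
      ∀ p, S.el p d → S.el p b ∨ S.el p c)
    (fun d hd => ⟨o, o, fun p e => (ho p e).elim, fun p e => (ho p e).elim,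
      fun p e => (hd p e).elim⟩) ?_ a fun p e => ?_
  · rintro x y d ⟨b, c, h1, h2, h3⟩ ⟨b', c', g1, g2, g3⟩ hd
    obtain ⟨b2, hb⟩ := (S.lib ne).sup b b'
    obtain ⟨c2, hc⟩ := (S.lib ne).sup c c'
    exact ⟨b2, c2, fun p e => ((hb p).1 e).elim (h1 p) (g1 p),
      fun p e => ((hc p).1 e).elim (h2 p) (g2 p), fun p e => (hd p e).elim
        (fun r => (h3 p r).imp (fun w => (hb p).2 (Or.inl w)) fun w => (hc p).2 (Or.inl w))
        fun r => (g3 p r).imp (fun w => (hb p).2 (Or.inr w)) fun w => (hc p).2 (Or.inr w)⟩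
  · rcases h p e with r | r
    · obtain ⟨b, h1, h2⟩ := hU p r
      exact ⟨b, h1, b, o, h2, fun p e => (ho p e).elim, fun _ => Or.inl⟩
    · obtain ⟨b, h1, h2⟩ := hV p r
      exact ⟨b, h1, o, b, fun p e => (ho p e).elim, h2, fun _ => Or.inr⟩

omit ne in
theorem cover_seq (V : Fn ℕ (PS P)) (hV : ∀ n, S.Opn (V n)) (hs : ∀ n, V n ⊆ V (n + 1)) (a : A)
    (h : ∀ p, S.el p a → ∃ n, p ∈ V n) : ∃ n, ∀ p, S.el p a → p ∈ V n := by
  have mono : Monotone V := monotone_nat_of_le_succ hs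
  refine cover (S := S) (fun d => ∃ n, ∀ p, S.el p d → p ∈ V n)
    (fun d hd => ⟨0, fun p e => (hd p e).elim⟩) ?_ a fun p e => ?_
  · rintro x y d ⟨n, hn⟩ ⟨k, hk⟩ hd
    exact ⟨max n k, fun p e => (hd p e).elim (fun w => mono (le_max_left _ _) (hn p w))
      fun w => mono (le_max_right _ _) (hk p w)⟩
  · obtain ⟨n, hn⟩ := h p e
    obtain ⟨b, h1, h2⟩ := hV n p hn
    exact ⟨b, h1, n, h2⟩

theorem exists_outer {ν : Fn A Q} (f : NL.FA S.el ν) :
    ∃ lam μ : Fn (PS P) Q, NL.Out S.el (fun (U : PS P) p => p ∈ U) ν lam μ := by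
  obtain ⟨o, ho⟩ := (S.lib ne).bot
  obtain ⟨t, ht⟩ := (S.lib ne).top
  obtain ⟨lam, l1⟩ := chs (R := fun (U : PS P) (c : Q) =>
      (∀ r, (∃ a, (∀ p, S.el p a → p ∈ U) ∧ ν a = r) → r ≤ c) ∧
      ∀ y, (∀ r, (∃ a, (∀ p, S.el p a → p ∈ U) ∧ ν a = r) → r ≤ y) → c ≤ y) fun U =>
    (exists_lub (fun r => ∃ a, (∀ p, S.el p a → p ∈ U) ∧ ν a = r)
      ⟨ν o, o, fun p e => (ho p e).elim, rfl⟩
      ⟨1, fun _ ⟨a, _, e⟩ => e ▸ f.le_one (S.lib ne) a⟩).imp fun _ k => ⟨k.1, k.2⟩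
  obtain ⟨μ, m1⟩ := chs (R := fun (T : PS P) (c : Q) =>
      (∀ r, (∃ U, S.Opn U ∧ (∀ p, p ∈ T → p ∈ U) ∧ lam U = r) → c ≤ r) ∧
      ∀ y, (∀ r, (∃ U, S.Opn U ∧ (∀ p, p ∈ T → p ∈ U) ∧ lam U = r) → y ≤ r) → y ≤ c) fun T => by
    obtain ⟨c, h1, h2⟩ := exists_lub
      (fun y => ∀ r, (∃ U, S.Opn U ∧ (∀ p, p ∈ T → p ∈ U) ∧ lam U = r) → y ≤ r)
      ⟨ν o, fun _ ⟨U, _, _, e⟩ => e ▸ (l1 U).1 _ ⟨o, fun p e => (ho p e).elim, rfl⟩⟩
      ⟨lam univ, fun y e => e _
        ⟨univ, fun p _ => ⟨t, ht p, fun _ _ => trivial⟩, fun _ _ => trivial, rfl⟩⟩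
    exact ⟨c, fun r hr => h2 r fun y hy => hy r hr, h1⟩
  exact ⟨lam, μ, fun U => ⟨(l1 U).1, (l1 U).2⟩, fun T => ⟨(m1 T).1, (m1 T).2⟩, cover_two ne⟩

theorem outer_cont {ν : Fn A Q} (f : NL.FA S.el ν) {lam μ : Fn (PS P) Q}
    (o : NL.Out S.el (fun (U : PS P) p => p ∈ U) ν lam μ) (B : Fn ℕ (PS P))
    (hB : ∀ n, B n ⊆ B (n + 1)) (T : PS P) (hT : ∀ p, p ∈ T → ∃ n, p ∈ B n) (r : Q)
    (hr : ∀ n, μ (B n) ≤ r) : μ T ≤ r := by
  refine NL.cont (S.lib ne) f o (S := B) hr fun ε hε => ?_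
  obtain ⟨V0, h0⟩ := NL.start (S.lib ne) f o (S := B 0) hε
  obtain ⟨V, -, hV⟩ := exists_seq (fun _ (V W : PS P) => ∀ p, p ∈ V → p ∈ W)
    (fun n V => S.Opn V ∧ (∀ p, p ∈ B n → p ∈ V) ∧ lam V < μ (B n) + ε) V0 h0 fun n V g => by
      obtain ⟨W, h1, h2⟩ := NL.step (S.lib ne) f o (S := B n) (T := B (n + 1)) (fun p e => hB n e)
        g.1 g.2.1 g.2.2
      exact ⟨W, h2, h1⟩
  refine ⟨iU V, fun p ⟨n, e⟩ => ?_, fun p e => (hT p e).imp fun n w => (hV n).1.2.1 p w,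
    fun a ha => ?_⟩
  · obtain ⟨b, h1, h2⟩ := (hV n).1.1 p e
    exact ⟨b, h1, fun q w => ⟨n, h2 q w⟩⟩
  · obtain ⟨n, hn⟩ := cover_seq V (fun n => (hV n).1.1) (fun n p e => (hV n).2 p e) a ha
    exact ⟨n, V n, hn, (hV n).1.2.2⟩

/-- an uncountable independent family gives a Radon measure of uncountable type -/
theorem exists_radon (ht : ¬ S.Tame) : ∃ (M : PS (PS P)) (μ : Fn (PS P) Q), Rad S M μ := by
  have s := S.lib ne
  obtain ⟨I, hi, hI⟩ : ∃ I : PS A, S.Ind I ∧ ¬ Cnt (· ∈ I) :=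
    by_contra fun g => ht fun I e => by_contra fun r => g ⟨I, e, r⟩
  obtain ⟨h, hh⟩ := NL.exists_half (R := Q)
  obtain ⟨ν, f, n3⟩ := exists_charge' ne hh hi
  obtain ⟨lam, μ, o⟩ := exists_outer ne f
  let pt : Fn ℕ (PS P) → Fn ℕ (PS P) := fun B => lm fun n => sb fun p => ∃ k, k < n ∧ p ∈ B k
  have p0 : ∀ B p, p ∉ pt B 0 := fun B p ⟨k, e, _⟩ => absurd e (by omega)
  have p1 : ∀ B n p, p ∈ pt B (n + 1) ↔ p ∈ pt B n ∨ p ∈ B n := fun B n p =>
    ⟨fun ⟨k, h1, h2⟩ => (Nat.lt_succ_iff_lt_or_eq.1 h1).imp (fun g => ⟨k, g, h2⟩)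
      fun g : k = n => g ▸ h2,
      fun e => e.elim (fun ⟨k, h1, h2⟩ => ⟨k, by omega, h2⟩) fun e => ⟨n, by omega, e⟩⟩
  have part : ∀ B : Fn ℕ (PS P), (∀ n, μ (B n) + μ (B n)ᶜ ≤ 1) → ∀ n,
      μ (pt B n) + μ (pt B n)ᶜ ≤ 1 := fun B hB n => by
    induction n with
    | zero => exact NL.ms_opn s f o fun p e => (p0 B p e).elim
    | succ n ih => exact NL.ms_un s f o ih (hB n) (p1 B n)
  have cont : ∀ (B : Fn ℕ (PS P)) (r : Q), (∀ n, μ (pt B n) ≤ r) → μ (iU B) ≤ r := fun B r =>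
    outer_cont ne f o (pt B) (fun n p e => (p1 B n p).2 (Or.inl e)) (iU B)
      (fun p e => e.elim fun n e => ⟨n + 1, (p1 B n p).2 (Or.inr e)⟩) r
  refine ⟨sb fun T => μ T + μ Tᶜ ≤ 1, μ, fun U hU => NL.ms_opn s f o hU,
    fun T e => NL.ms_co s f o e, fun B hB => ?_, NL.mu_nonneg s f o,
    NL.mu_empty s f o fun _ e => e, fun T W e => NL.mu_mono s f o fun _ k => e k,
    fun B hB hd b => ?_, fun T e b hb => ?_, ?_⟩
  · exact NL.ms_lim s f o (S := pt B) (T := iU B) (part B hB)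
      (fun _ _ ⟨k, _, e⟩ => ⟨k, e⟩) (cont B)
  · have key : ∀ n, ∑ i ∈ Finset.range n, μ (B i) = μ (pt B n) := fun n => by
      induction n with
      | zero => exact (NL.mu_empty s f o (p0 B)).symm
      | succ n ih =>
        rw [Finset.sum_range_succ, ih]
        exact (NL.mu_add s f o (part B hB n) (hB n) (p1 B n)
          fun p ⟨k, e, w⟩ v => e.ne (hd k n p w v)).symm
    refine ⟨fun e n => le_trans ?_ e, fun e => cont B b fun n => key n ▸ e n⟩
    rw [key]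
    exact NL.mu_mono s f o fun _ ⟨k, _, e⟩ => ⟨k, e⟩
  · refine NL.le_of_inner fun ε hε => ?_
    obtain ⟨U, h1, h2, h3⟩ := NL.inner s f o (S := T) e hε
    exact ⟨_, hb U h1 fun p => h2 p, h3⟩
  · obtain ⟨q, q0, hq⟩ := NL.far s f o hh
    refine ⟨q, q0, fun D ⟨k, hk⟩ => by_contra fun g => hI ?_⟩
    obtain ⟨d, hd⟩ := chs (R := fun a F => F ∈ D ∧ μ ((S.bs a \ F) ∪ (F \ S.bs a)) < q) fun a =>
      by_contra fun r => g ⟨a, fun t ht => not_lt.1 fun w => r ⟨t, ht, w⟩⟩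
    refine ⟨k.comp d, fun a b ha hb e => by_contra fun hab => ?_⟩
    have e' : d a = d b := hk _ _ (hd a).1 (hd b).1 e
    obtain ⟨c, hc⟩ := s.sup (S.inf a (S.cpl b)) (S.inf b (S.cpl a))
    simp only [S.el_inf, S.el_cpl] at hc
    refine hq c _ _ (n3 a b c ha hb hab fun p => (hc p).trans (by tauto)) (fun p r => ?_)
      (hd a).2 (hd b).2
    have := (hc p).1 r
    rw [← e']
    simp only [mem_union, mem_diff, Sp.bs, mem_sb]
    tauto

end Pool.Agent.P.MP_0d6be8_lc.NKW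
end
end

-- part Pool.Agent.P.MP_0d6be8_lc.NKW.GNik
section

set_option autoImplicit false
set_option linter.unusedSectionVars false
set_option synthInstance.maxSize 4000

/-! The typed Nikodym property from the coded one. -/

noncomputable section

open Pool.Agent.Lib.PosetForcing (App IsFun IsFunOn IsSucc)
open Pool.Agent.P.MP_5f3b23_lc.Zf (mm om op app_iff isPair_iff op_inj)
open Pool.Agent.P.MP_af1204_lc.Inn Filter

namespace Pool.Agent.P.MP_0d6be8_lc.NKW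

variable [Md] [Std]

theorem gnik_succ {n : ℕ} {y : MM} : IsSucc mm y (enc n) ↔ y = enc (n + 1) :=
  ⟨fun h => zext fun z => (h z).trans MP_5f3b23_lc.Zf.mem_suc.symm,
    fun h _ => h ▸ MP_5f3b23_lc.Zf.mem_suc⟩

variable {A P : Type} [MT A] [MT P] {S : Sp A P} {le : A → A → Prop} {sup : A → A → A}
  {Q : Type} [MT Q] [Field Q] [LinearOrder Q] [IsStrictOrderedRing Q] [RF Q]
  {R add rle o a r : MM}

theorem CR.abs_iff (cr : CR Q R add rle o) {x : Q} {t : MM} :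
    NK.IsAbs mm R add rle o (enc x) t ↔ t = enc |x| := by
  rw [NK.IsAbs, ← cr.car, ← cr.zero]
  refine ⟨fun ⟨h1, h2, h3⟩ => ?_, ?_⟩
  · obtain ⟨y, rfl⟩ := mem_car.1 h1
    rw [cr.le] at h2
    rcases h3 with h3 | h3
    · rw [← enc_inj.1 h3, abs_of_nonneg h2]
    · rw [eq_neg_of_add_eq_zero_left (enc_inj.1 ((cr.add _ _ _).1 h3)).symm, abs_neg,
        abs_of_nonneg h2]
  · rintro rfl
    refine ⟨enc_mem _, (cr.le _ _).2 (abs_nonneg x), ?_⟩
    rcases le_total 0 x with e | e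
    · exact Or.inl (by rw [abs_of_nonneg e])
    · exact Or.inr ((cr.add _ _ _).2 (by rw [abs_of_nonpos e, add_neg_cancel]))

theorem CA.disj_iff (ca : CA le a r) {x y : A} :
    NK.Disj mm a r (enc x) (enc y) ↔ Dj le x y := by
  rw [NK.Disj, ← ca.car]
  refine ⟨fun h u v h1 h2 => (ca.le _ _).1
    (h _ _ (enc_mem u) (enc_mem v) ((ca.le _ _).2 h1) ((ca.le _ _).2 h2)), fun h u v hu hv => ?_⟩
  obtain ⟨u, rfl⟩ := mem_car.1 hu
  obtain ⟨v, rfl⟩ := mem_car.1 hv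
  simpa only [ca.le] using h u v

theorem CA.join_eq (ca : CA le a r) (b : NL.BAx le S.inf sup S.cpl) {x y z : A}
    (h : NK.IsJoin mm a r (enc z) (enc x) (enc y)) : z = sup x y := by
  have k : ∀ t : A, le z t ↔ le x t ∧ le y t := fun t => by
    simpa only [ca.le] using h.2 (enc t) (ca.car ▸ enc_mem t)
  exact b.antisymm _ _ ((k _).2 ((b.sup_le _ _ _).1 (b.refl _)))
    ((b.sup_le _ _ _).2 ((k _).1 (b.refl _)))

theorem CR.var_iff (cr : CR Q R add rle o) (ca : CA le a r) {m : Fn A Q} {c : Q} :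
    NK.VarLe mm om R add rle o a r (enc m) (enc c) ↔ Var le m c := by
  have hv : ∀ (d : Fn ℕ A) (n : ℕ) (t : MM), (∃ a x, App mm (enc d) (enc n) a ∧
      App mm (enc m) a x ∧ NK.IsAbs mm R add rle o x t) ↔ t = enc |m (d n)| := fun d n t => by
    simp only [app_enc', exists_and_left, exists_eq_left, cr.abs_iff]
  refine ⟨fun h d hd n => ?_, fun h d s hd hj hs n y hy => ?_⟩
  · let s : Fn ℕ Q := lm fun n => ∑ i ∈ Finset.range n, |m (d i)|
    refine (cr.le _ _).1 (h (enc d) (enc s) ?_ (fun i j x y h1 h2 e => ?_) ⟨?_, fun k _ hk => ?_,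
      fun k k' x y z h1 h2 h3 h4 => ?_⟩ (enc n) _ (app_enc'.2 rfl))
    · rw [← car_nat, ← ca.car]; exact isFun_iff.2 ⟨d, rfl⟩
    · obtain ⟨i, rfl, rfl⟩ := app_enc.1 h1
      obtain ⟨j, rfl, rfl⟩ := app_enc.1 h2
      exact ca.disj_iff.2 (hd i j fun k => e (by rw [k]))
    · rw [← car_nat, ← cr.car]; exact isFun_iff.2 ⟨s, rfl⟩
    · rw [MP_5f3b23_lc.Zf.eq_emp hk, ← cr.zero]
      exact (app_enc' (x := (0 : ℕ))).2 rfl
    · obtain ⟨k, rfl, rfl⟩ := app_enc.1 h2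
      obtain rfl := gnik_succ.1 h1
      rw [(hv d k x).1 h3, app_enc'.1 h4, cr.add]
      exact congrArg enc (Finset.sum_range_succ _ _)
  · rw [← car_nat, ← ca.car] at hd
    obtain ⟨d, rfl⟩ := isFun_iff.1 hd
    obtain ⟨h1, h2, h3⟩ := hs
    rw [← car_nat, ← cr.car] at h1
    obtain ⟨s, rfl⟩ := isFun_iff.1 h1
    obtain ⟨n, rfl, rfl⟩ := app_enc.1 hy
    have e : ∀ n, s n = ∑ i ∈ Finset.range n, |m (d i)| := fun n => by
      induction n with
      | zero =>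
        have := app_enc'.1 (h2 (enc (0 : ℕ)) (car_nat ▸ enc_mem _) MP_5f3b23_lc.Zf.not_mem_emp)
        exact enc_inj.1 (this.symm.trans cr.zero.symm)
      | succ n ih =>
        rw [Finset.sum_range_succ, ← ih]
        exact enc_inj.1 ((cr.add _ _ _).1 (h3 _ _ _ _ _ (gnik_succ.2 rfl) (app_enc'.2 rfl)
          ((hv d n _).2 rfl) (app_enc'.2 rfl)))
    rw [cr.le, e]
    exact h d (fun i j k => ca.disj_iff.1 (hj _ _ _ _ (app_enc'.2 rfl) (app_enc'.2 rfl)
      fun g => k (enc_inj.1 g))) n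

theorem nik_of {R add rle o a r : MM} (cr : CR Q R add rle o) (ca : CA le a r)
    (b : NL.BAx le S.inf sup S.cpl) (h : NK.Nikodym mm om R add rle o a r) : Nik le sup Q := by
  intro m h1 h2
  have h0 := isFunOn_enc m (V := NK.IsCharge mm om R add rle o a r) fun n => ⟨by
      rw [← ca.car, ← cr.car]; exact isFun_iff.2 ⟨_, rfl⟩, fun x y z u v t _ _ g1 g2 g3 g4 g5 => by
      obtain ⟨x, rfl, rfl⟩ := app_enc.1 g3
      obtain ⟨y, rfl, rfl⟩ := app_enc.1 g4
      obtain ⟨z, rfl, rfl⟩ := app_enc.1 g5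
      rw [cr.add, ca.join_eq b g2, (h1 n).1 x y (ca.disj_iff.1 g1)],
      let ⟨c, hc⟩ := (h1 n).2; ⟨enc c, cr.car ▸ enc_mem c, (cr.var_iff ca).2 hc⟩⟩
  rw [car_nat] at h0
  obtain ⟨c, hc, k⟩ := h (enc m) h0 fun x hx => by
    rw [← ca.car] at hx
    obtain ⟨x, rfl⟩ := mem_car.1 hx
    obtain ⟨c, hc⟩ := h2 x
    refine ⟨enc c, cr.car ▸ enc_mem c, fun n f y t g1 g2 g3 => ?_⟩
    obtain ⟨n, rfl, rfl⟩ := app_enc.1 g1
    obtain rfl := app_enc'.1 g2
    rw [cr.abs_iff.1 g3, cr.le]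
    exact hc n
  rw [← cr.car] at hc
  obtain ⟨c, rfl⟩ := mem_car.1 hc
  exact ⟨c, fun n => (cr.var_iff ca).1 (k _ _ (app_enc'.2 rfl))⟩

end Pool.Agent.P.MP_0d6be8_lc.NKW
end
end

-- part Pool.Agent.P.MP_0d6be8_lc.NKW.GRLink
section

set_option autoImplicit false
set_option linter.unusedSectionVars false
set_option synthInstance.maxSize 4000

/-! From the typed Radon measure to its code. -/

noncomputable section

open Pool.Agent.Lib.PosetForcing (App IsFun IsFunOn LeCard IsSucc)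
open Pool.Agent.P.MP_5f3b23_lc.Zf (mm om op app_iff isPair_iff op_inj mem_suc)
open Pool.Agent.P.MP_af1204_lc.Inn Filter

namespace Pool.Agent.P.MP_0d6be8_lc.NKW

variable [Md] [Std]

section code
variable {X Y : Type} [MT X] [MT Y]

theorem rl_car (T : PS X) : car T = enc T :=
  zext fun _ => mem_car.trans (Iff.trans ⟨fun ⟨t, e⟩ => ⟨t.1, t.2, e⟩,
    fun ⟨t, h, e⟩ => ⟨⟨t, h⟩, e⟩⟩ mem_enc.symm)

theorem rl_fin (n : ℕ) : car (Fin n) = num n :=
  zext fun _ => mem_car.trans (Iff.trans ⟨fun ⟨t, e⟩ => ⟨t.1, t.2, e⟩,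
    fun ⟨t, h, e⟩ => ⟨⟨t, h⟩, e⟩⟩ mem_num.symm)

theorem rl_leCard : LeCard mm (car X) (car Y) ↔ ∃ f : Fn X Y, Function.Injective f := by
  refine ⟨fun ⟨j, h1, h2⟩ => ?_, fun ⟨f, hf⟩ => ⟨enc f, isFun_iff.2 ⟨f, rfl⟩, fun x x' y k k' => ?_⟩⟩
  · obtain ⟨e, rfl⟩ := isFun_iff.1 h1
    exact ⟨e, fun m n k => enc_inj.1 (h2 _ _ _ (app_enc'.2 rfl) (app_enc'.2 (by rw [k])))⟩
  · obtain ⟨t, rfl, rfl⟩ := app_enc.1 k
    obtain ⟨t', rfl, e⟩ := app_enc.1 k'
    rw [hf (enc_inj.1 e)]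

theorem rl_seq {f : MM} {T : PS Y} (h : IsFun mm f om (enc T)) :
    ∃ B : Fn ℕ Y, enc B = f ∧ ∀ n, B n ∈ T := by
  rw [← car_nat, ← rl_car] at h
  obtain ⟨B, rfl⟩ := isFun_iff.1 h
  exact ⟨lm fun n => (B n).1, zext fun p => Fn.mem_code.trans Fn.mem_code.symm, fun n => (B n).2⟩

theorem rl_fam {a : MM} (h : ∀ B, B ∈ a → ∀ y, y ∈ B → y ∈ car X) :
    ∃ T : PS (PS X), enc T = a := sub_iff.1 fun B hB => mem_car.2 (sub_iff.1 (h B hB))

theorem rl_eq {B : PS X} {C : MM} (h1 : ∀ y, y ∈ C → y ∈ car X) (h2 : ∀ x, enc x ∈ C ↔ x ∈ B) :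
    C = enc B := by
  obtain ⟨t, rfl⟩ := sub_iff.1 h1
  exact congrArg enc (PS.ext fun x => enc_mem_enc.symm.trans (h2 x))

theorem rl_sub (B : PS X) (y : MM) (h : y ∈ enc B) : y ∈ car X :=
  let ⟨x, _, e⟩ := mem_enc.1 h; e ▸ enc_mem x

theorem rl_iU {B : Fn ℕ (PS X)} {C : MM}
    (h : ∀ u, mm u C ↔ ∃ n D, App mm (enc B) n D ∧ mm u D) : C = enc (iU B) := by
  refine rl_eq (fun y hy => ?_) fun x => (h _).trans ⟨fun ⟨n, D, h1, h2⟩ => ?_,
    fun ⟨n, k⟩ => ⟨_, _, app_enc'.2 rfl, enc_mem_enc.2 k⟩⟩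
  · obtain ⟨n, D, h1, h2⟩ := (h y).1 hy
    obtain ⟨n, -, rfl⟩ := app_enc.1 h1
    exact rl_sub _ y h2
  · obtain ⟨n, -, rfl⟩ := app_enc.1 h1
    exact ⟨n, enc_mem_enc.1 h2⟩

theorem rl_compl (B : PS X) (u : MM) : mm u (enc Bᶜ) ↔ mm u (car X) ∧ ¬ mm u (enc B) :=
  ⟨fun k => ⟨rl_sub _ u k, let ⟨_, h, e⟩ := mem_enc.1 k; fun k' => h (enc_mem_enc.1 (e ▸ k'))⟩,
    fun k => let ⟨_, e⟩ := mem_car.1 k.1
      e ▸ enc_mem_enc.2 fun k' => k.2 (e ▸ enc_mem_enc.2 k')⟩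

end code

variable {A P : Type} [MT A] [MT P] {S : Sp A P}

theorem rl_opn {X : MM} (cp : CP S X) {U : PS P} : NK.IsOpenIn mm X (enc U) ↔ S.Opn U := by
  obtain ⟨rfl, el⟩ := cp
  refine ⟨fun h p hp => ?_, fun h => ⟨rl_sub U, fun u hu => ?_⟩⟩
  · obtain ⟨a, h1, h2⟩ := h.2 _ (enc_mem_enc.2 hp)
    obtain ⟨x, h3, rfl⟩ := (el p a).1 h1
    exact ⟨x, h3, fun q hq => enc_mem_enc.1 (h2 _ (enc_mem q) ((el q _).2 ⟨x, hq, rfl⟩))⟩
  · obtain ⟨p, hp, rfl⟩ := mem_enc.1 hu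
    obtain ⟨x, h1, h2⟩ := h p hp
    refine ⟨enc x, (el p _).2 ⟨x, h1, rfl⟩, fun v hv k => ?_⟩
    obtain ⟨q, rfl⟩ := mem_car.1 hv
    obtain ⟨y, h3, e⟩ := (el q _).1 k
    exact enc_mem_enc.2 (h2 q (enc_inj.1 e ▸ h3))

theorem rl_compact {X : MM} (cp : CP S X) (ne : Nonempty A) {U : PS P} (hU : S.Opn U) :
    NK.IsCompactIn mm om X (enc Uᶜ) := by
  refine ⟨cp.car ▸ rl_sub _, fun C h1 h2 => ?_⟩
  obtain ⟨C, rfl⟩ := rl_fam (X := P) fun B hB => cp.car ▸ (h1 B hB).1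
  obtain ⟨l, l1, l2⟩ := finite_subcover ne hU C
    (fun O hO => (rl_opn cp).1 (h1 _ (enc_mem_enc.2 hO))) fun p hp => by
      obtain ⟨O, g1, g2⟩ := h2 _ ((enc_mem_enc (B := Uᶜ)).2 hp)
      obtain ⟨O, g3, rfl⟩ := mem_enc.1 g1
      exact ⟨O, g3, enc_mem_enc.1 g2⟩
  let F : PS (PS P) := sb fun O => O ∈ l
  have : Finite F := l.finite_toSet.to_subtype
  choose g hg using fun O : F => List.mem_iff_get.1 (show O.1 ∈ l from O.2)
  refine ⟨enc F, num l.length, fun y hy => ?_, num_mem_om _, ?_, fun u hu => ?_⟩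
  · obtain ⟨O, g1, rfl⟩ := mem_enc.1 hy
    exact enc_mem_enc.2 (l1 O g1)
  · rw [← rl_car, ← rl_fin]
    exact rl_leCard.2 ⟨⟨g, DD.finite g⟩, fun s t e =>
      Subtype.ext ((hg s).symm.trans ((congrArg l.get e).trans (hg t)))⟩
  · obtain ⟨p, hp, rfl⟩ := mem_enc.1 hu
    obtain ⟨O, g1, g2⟩ := l2 p hp
    exact ⟨enc O, enc_mem_enc.2 g1, enc_mem_enc.2 g2⟩

variable {Q : Type} [MT Q] [Field Q] [LinearOrder Q] [IsStrictOrderedRing Q] [RF Q]

theorem radon_of {R add rle o X Sg : MM} (cr : CR Q R add rle o) (cp : CP S X) (ne : Nonempty A)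
    (hS : NK.IsBorel mm om X Sg) {M : PS (PS P)} {μ : Fn (PS P) Q} (h : Rad S M μ) :
    ∃ m, NK.IsRadon mm om R add rle o X Sg m ∧ ¬ NK.CountableType mm om R rle o Sg m := by
  obtain ⟨rfl, cadd, cle, rfl⟩ := cr
  obtain ⟨T, rfl⟩ := rl_fam (X := P) fun B hB => cp.car ▸ hS.1.1 B hB
  have hM : ∀ B ∈ T, B ∈ M := fun B hB => by
    refine enc_mem_enc.1 (hS.2 (enc M) ⟨fun B e => ?_, fun O e => ?_, fun B C e e' => ?_,
      fun f C e e' => ?_⟩ _ (enc_mem_enc.2 hB))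
    · obtain ⟨B, -, rfl⟩ := mem_enc.1 e
      exact cp.car ▸ rl_sub B
    · obtain ⟨O, rfl⟩ := sub_iff.1 (cp.car ▸ e.1 : ∀ y, y ∈ O → y ∈ car P)
      exact enc_mem_enc.2 (h.opn O ((rl_opn cp).1 e))
    · obtain ⟨B, k, rfl⟩ := mem_enc.1 e
      obtain rfl : C = enc Bᶜ := zext fun u => (e' u).trans (cp.car ▸ (rl_compl B u).symm)
      exact enc_mem_enc.2 (h.co B k)
    · obtain ⟨B, rfl, k⟩ := rl_seq e
      exact rl_iU e' ▸ enc_mem_enc.2 (h.un B k)
  have ho : ∀ U, S.Opn U → U ∈ T := fun U hU => enc_mem_enc.1 (hS.1.2.1 _ ((rl_opn cp).2 hU))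
  let m : Fn T Q := lm fun B => μ B.1
  have val : ∀ B x, App mm (enc m) B x ↔ ∃ t ∈ T, enc t = B ∧ enc (μ t) = x := fun B x =>
    app_enc.trans ⟨fun ⟨t, e⟩ => ⟨t.1, t.2, e⟩, fun ⟨t, k, e⟩ => ⟨⟨t, k⟩, e⟩⟩
  have val' : ∀ (B : PS P) x, App mm (enc m) (enc B) x → x = enc (μ B) := fun B x k =>
    let ⟨_, _, e1, e2⟩ := (val _ _).1 k; enc_inj.1 e1 ▸ e2.symm
  refine ⟨enc m, ⟨rl_car T ▸ isFun_iff.2 ⟨m, rfl⟩, fun B x e => ?_, fun B hB e => ?_,
    fun f s C x h1 h2 h3 h4 h5 => ?_, fun B x e => ?_⟩, fun ⟨D, d1, d2, d3⟩ => ?_⟩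
  · obtain ⟨t, -, -, rfl⟩ := (val B x).1 e
    exact (cle _ _).2 (h.nonneg t)
  · obtain ⟨t, k, rfl⟩ := mem_enc.1 hB
    obtain rfl : t = ∅ := PS.ext fun p => ⟨fun g => e _ (enc_mem_enc.2 g), False.elim⟩
    exact (val _ _).2 ⟨∅, k, rfl, congrArg enc h.empty⟩
  · obtain ⟨B, rfl, k⟩ := rl_seq h1
    obtain ⟨G, rfl⟩ := isFun_iff.1 (car_nat ▸ h3.1 : IsFun mm s (car ℕ) (car Q))
    have e1 : ∀ n, G n = ∑ i ∈ Finset.range n, μ (B i) := fun n => by
      induction n with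
      | zero => exact (enc_inj.1 ((app_enc' (x := 0)).1
          (h3.2.1 _ (num_mem_om 0) fun x g => by simpa using mem_num.1 g))).symm
      | succ n ih =>
        rw [Finset.sum_range_succ, ← ih]
        exact enc_inj.1 ((cadd _ _ _).1 (h3.2.2 (num n) (num (n + 1)) _ _ _ (fun _ => mem_suc)
          ((app_enc' (x := n)).2 rfl) ⟨_, (app_enc' (x := n)).2 rfl,
            (val _ _).2 ⟨B n, k n, rfl, rfl⟩⟩ ((app_enc' (x := n + 1)).2 rfl)))
    obtain rfl := rl_iU h4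
    obtain rfl := val' _ _ h5
    refine ⟨enc_mem _, fun b hb => ?_⟩
    obtain ⟨b, rfl⟩ := mem_car.1 hb
    rw [cle, h.sum B (fun n => hM _ (k n)) fun i j p g g' => enc_inj.1 (h2 _ _ _ _ _
      (app_enc'.2 rfl) (app_enc'.2 rfl) (enc_mem_enc.2 g) (enc_mem_enc.2 g'))]
    refine ⟨fun g y ⟨n, g'⟩ => ?_, fun g n => e1 n ▸ (cle _ _).1 (g _ ⟨_, app_enc'.2 rfl⟩)⟩
    obtain ⟨n, -, rfl⟩ := app_enc.1 g'
    exact (cle _ _).2 (e1 n ▸ g n)
  · obtain ⟨B, hB, rfl, rfl⟩ := (val B x).1 e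
    refine ⟨enc_mem _, fun b hb => ?_⟩
    obtain ⟨b, rfl⟩ := mem_car.1 hb
    rw [cle]
    refine ⟨fun g y ⟨K, _, k2, k3⟩ => ?_, fun g => h.inner B (hM B hB) b fun U hU hUB =>
      (cle _ _).1 (g _ ⟨enc Uᶜ, rl_compact cp ne hU, fun u hu => ?_, (val _ _).2 ⟨Uᶜ,
        enc_mem_enc.1 (hS.1.2.2.1 _ _ (enc_mem_enc.2 (ho U hU)) (cp.car ▸ rl_compl U)), rfl, rfl⟩⟩)⟩
    · obtain ⟨K, -, rfl, rfl⟩ := (val K y).1 k3
      exact (cle _ _).2 ((h.mono K B fun p hp => enc_mem_enc.1 (k2 _ (enc_mem_enc.2 hp))).trans g)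
    · obtain ⟨p, hp, rfl⟩ := mem_enc.1 hu
      exact enc_mem_enc.2 (hUB hp)
  · classical
    obtain ⟨q, q1, q2⟩ := h.far
    obtain ⟨D, rfl⟩ := sub_iff.1 fun y hy => rl_sub T y (d1 y hy)
    rw [← rl_car, ← car_nat] at d2
    obtain ⟨f, hf⟩ := rl_leCard.1 d2
    obtain ⟨a, ha⟩ := q2 D ⟨lm fun B => if k : B ∈ D then f ⟨B, k⟩ else 0, fun B C k k' e => by
      simp only [lm_apply, dif_pos k, dif_pos k'] at e
      exact congrArg Subtype.val (hf e)⟩
    obtain ⟨F, V, x, f1, f2, f3, f4⟩ := d3 (enc (S.bs a)) (enc q)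
      (enc_mem_enc.2 (ho _ fun p hp => ⟨a, hp, fun _ k => k⟩)) (enc_mem q)
      fun k => absurd ((cle _ _).1 k) (not_le.2 q1)
    obtain ⟨F, k, rfl⟩ := mem_enc.1 f1
    obtain rfl : V = enc ((S.bs a \ F) ∪ (F \ S.bs a)) := rl_eq
      (fun y hy => ((f2 y).1 hy).elim (fun g => rl_sub _ y g.1) fun g => rl_sub _ y g.1)
      fun p => (f2 _).trans (or_congr (and_congr enc_mem_enc (not_congr enc_mem_enc))
        (and_congr enc_mem_enc (not_congr enc_mem_enc)))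
    obtain rfl := val' _ _ f3
    exact f4 ((cle _ _).2 (ha F k))

end Pool.Agent.P.MP_0d6be8_lc.NKW
end
end

-- part Pool.Agent.P.MP_0d6be8_lc.NKW.GSpc
section

set_option autoImplicit false
set_option linter.unusedSectionVars false
set_option synthInstance.maxSize 4000

/-! The typed algebra and its points. -/

noncomputable section

open Pool.Agent.P.MP_5f3b23_lc.Zf (mm)
open Pool.Agent.Lib.PosetForcing (App)
open Pool.Agent.P.MP_af1204_lc.Inn

namespace Pool.Agent.P.MP_0d6be8_lc.NKW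

variable [Md] [Std]

theorem exists_ba {a r : MM} (h : NK.IsBoolean mm a r) :
    ∃ (inf : Fn (El a) (Fn (El a) (El a))) (sup : El a → El a → El a) (cpl : Fn (El a) (El a)),
      NL.BAx (fun x y : El a => App mm r (enc x) (enc y)) (fun x y => inf x y) sup cpl := by
  obtain ⟨⟨a0, h0⟩, ⟨o1, o2, o3⟩, lat, dis, cp⟩ := h
  obtain ⟨inf, hi⟩ := chs2 (R := fun x y c : El a => ∀ z : El a, App mm r (enc z) (enc c) ↔
      App mm r (enc z) (enc x) ∧ App mm r (enc z) (enc y)) fun x y =>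
    let ⟨c, hc⟩ := (lat x.1 y.1 x.2 y.2).1; ⟨⟨c, hc.1⟩, fun z => hc.2 z.1 z.2⟩
  have h2 : ∀ x y : El a, ∃ c : El a, NK.IsJoin mm a r c.1 x.1 y.1 := fun x y =>
    let ⟨c, hc⟩ := (lat x.1 y.1 x.2 y.2).2; ⟨⟨c, hc.1⟩, hc⟩
  choose sup hs using h2
  obtain ⟨cpl, hc⟩ := chs (R := fun x c : El a => (∀ y z : El a, App mm r (enc y) (enc x) →
      App mm r (enc y) (enc c) → App mm r (enc y) (enc z)) ∧ ∀ y z : El a,
      App mm r (enc x) (enc y) → App mm r (enc c) (enc y) → App mm r (enc z) (enc y)) fun x =>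
    let ⟨c, hc⟩ := cp x.1 x.2
    ⟨⟨c, hc.1⟩, fun y z => hc.2.1 y.1 z.1 y.2 z.2, fun y z => hc.2.2 y.1 z.1 y.2 z.2⟩
  have hi' : ∀ x y : El a, NK.IsMeet mm a r (inf x y).1 x.1 y.1 := fun x y =>
    ⟨(inf x y).2, fun z hz => hi x y ⟨z, hz⟩⟩
  exact ⟨inf, sup, cpl, ⟨⟨a0, h0⟩⟩, fun x => o1 x.1 x.2,
    fun x y g g' => Subtype.ext (o2 _ _ x.2 y.2 g g'), fun x y z => o3 x.1 y.1 z.1 x.2 y.2 z.2,
    hi, fun x y z => (hs x y).2 z.1 z.2,
    fun x y z t g g' => ((dis x.1 y.1 z.1 _ _ _ _ x.2 y.2 z.2 (hs y z) (hi' x (sup y z)) (hi' x y)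
      (hi' x z)).2 t.1 t.2).2 ⟨g, g'⟩, fun x => (hc x).1, fun x => (hc x).2⟩

theorem exists_space {a r X : MM} (h : NK.IsBoolean mm a r) (hX : NK.IsStone mm a r X) :
    ∃ (S : Sp (El a) (El X)) (sup : El a → El a → El a),
      NL.BAx (fun x y : El a => App mm r (enc x) (enc y)) S.inf sup S.cpl ∧ CP S X := by
  obtain ⟨inf, sup, cpl, b⟩ := exists_ba h
  refine ⟨⟨fun x y => inf x y, cpl, fun p x => enc x ∈ enc p, inferInstance, inferInstance,
    inferInstance, fun p x y => ?_, fun p x => ?_, fun p q e => ?_, fun q h1 h2 => ?_⟩, sup, b,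
    car_El X, fun p y => ⟨fun g => ⟨⟨y, ((hX p.1).1 p.2).1 y g⟩, g, rfl⟩,
      fun g => g.elim fun _ k => k.2 ▸ k.1⟩⟩
  · obtain ⟨-, u2, u3, -⟩ := (hX p.1).1 p.2
    exact ⟨fun g => ⟨u2 _ _ g x.2 (b.inf_l x y), u2 _ _ g y.2 (b.inf_r x y)⟩,
      fun g => u3 _ _ _ g.1 g.2 ⟨(inf x y).2, fun z hz => b.le_inf x y ⟨z, hz⟩⟩⟩
  · have := ((hX p.1).1 p.2).2.2.2 x.1 (cpl x).1 x.2 ⟨(cpl x).2,
      fun y z hy hz => b.cpl_bot x ⟨y, hy⟩ ⟨z, hz⟩, fun y z hy hz => b.cpl_top x ⟨y, hy⟩ ⟨z, hz⟩⟩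
    exact ⟨fun g g' => this.1 g' g, fun g => by_contra fun g' => g (this.2 g')⟩
  · exact Subtype.ext (zext fun x => ⟨fun g => (e ⟨x, ((hX p.1).1 p.2).1 x g⟩).1 g,
      fun g => (e ⟨x, ((hX q.1).1 q.2).1 x g⟩).2 g⟩)
  · have u1 : ∀ y, y ∈ enc q → y ∈ a := fun y hy => let ⟨t, _, k⟩ := mem_enc.1 hy; k ▸ t.2
    have u2 : ∀ x : El a, x.1 ∈ enc q ↔ x ∈ q := fun x => enc_mem_enc (x := x)
    have mono : ∀ x y : El a, App mm r (enc x) (enc y) → x ∈ q → y ∈ q := fun x y e g =>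
      ((h1 x y).1 (by rwa [show inf x y = x from b.inf_eq e])).2
    refine ⟨⟨enc q, (hX _).2 ⟨u1, fun x y hx hy e => (u2 ⟨y, hy⟩).2
      (mono ⟨x, u1 x hx⟩ _ e ((u2 ⟨x, u1 x hx⟩).1 hx)), fun x y c hx hy e => ?_,
      fun x c hx e => ⟨fun g g' => ?_, fun g => by_contra fun g' => g ?_⟩⟩⟩, u2⟩
    · exact (u2 ⟨c, e.1⟩).2 (mono (inf ⟨x, u1 x hx⟩ ⟨y, u1 y hy⟩) _
        ((e.2 _ (inf _ _).2).2 ⟨b.inf_l ⟨x, u1 x hx⟩ ⟨y, u1 y hy⟩, b.inf_r ⟨x, u1 x hx⟩ ⟨y, u1 y hy⟩⟩)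
        ((h1 _ _).2 ⟨(u2 ⟨x, u1 x hx⟩).1 hx, (u2 ⟨y, u1 y hy⟩).1 hy⟩))
    · exact (h2 ⟨x, hx⟩).1 (mono (inf ⟨x, hx⟩ ⟨c, e.1⟩) _
        (e.2.1 _ _ (inf _ _).2 (cpl _).2 (b.inf_l ⟨x, hx⟩ ⟨c, e.1⟩) (b.inf_r ⟨x, hx⟩ ⟨c, e.1⟩))
        ((h1 _ _).2 ⟨(u2 ⟨x, hx⟩).1 g, (u2 ⟨c, e.1⟩).1 g'⟩)) ((u2 ⟨x, hx⟩).1 g)
    · have s1 := (b.sup_le ⟨x, hx⟩ ⟨c, e.1⟩ _).1 (b.refl _)
      refine (u2 ⟨c, e.1⟩).2 (mono (cpl ⟨x, hx⟩) _ (b.trans _ _ _ ((b.le_inf _ _ _).2 ⟨b.refl _,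
        e.2.2 _ _ (sup ⟨x, hx⟩ ⟨c, e.1⟩).2 (cpl ⟨x, hx⟩).2 s1.1 s1.2⟩) (b.distrib _ _ _ _
          (b.cpl_bot ⟨x, hx⟩ _ _ (b.inf_r _ _) (b.inf_l _ _)) (b.inf_r _ _)))
        ((h2 _).2 fun k => g' ((u2 ⟨x, hx⟩).2 k)))

end Pool.Agent.P.MP_0d6be8_lc.NKW
end
end

-- part Pool.Agent.P.MP_0d6be8_lc.NKW.GStr
section

set_option autoImplicit false
set_option linter.unusedSectionVars false
set_option synthInstance.maxSize 4000

/-! The typed field of a complete ordered field of the model. -/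

noncomputable section

open Pool.Agent.P.MP_5f3b23_lc.Zf (mm)
open Pool.Agent.Lib.PosetForcing (App)
open Pool.Agent.P.MP_af1204_lc.Inn

namespace Pool.Agent.P.MP_0d6be8_lc.NKW

variable [Md] [Std]

theorem exists_op {R f : MM} (h : NK.IsOp mm f R) : ∃ g : El R → El R → El R,
    ∀ x y z, NK.App2 mm f x.1 y.1 z ↔ z = (g x y).1 := by
  have h1 : ∀ x y : El R, ∃ z : El R, NK.App2 mm f x.1 y.1 z.1 := fun x y =>
    let ⟨z, h1, h2⟩ := h.1 x.1 y.1 x.2 y.2; ⟨⟨z, h1⟩, h2⟩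
  choose g hg using h1
  exact ⟨g, fun x y z => ⟨fun e => h.2 _ _ _ _ e (hg x y), fun e => e ▸ hg x y⟩⟩

theorem exists_reals {R add mul rle o : MM} (h : NK.IsReals mm R add mul rle o) :
    ∃ (_ : Field (El R)) (_ : LinearOrder (El R)) (_ : IsStrictOrderedRing (El R)) (_ : RF (El R)),
      CR (El R) R add rle o := by
  obtain ⟨e, ⟨a1, a2, a3, a4, a5⟩, ⟨m1, m2, m3, m4, m5⟩, ne, neg, inv, dis, ⟨o1, o2, o3⟩, tot,
    ale, mnn, sup⟩ := h
  obtain ⟨ad, had⟩ := exists_op a1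
  obtain ⟨mu, hmu⟩ := exists_op m1
  have A : ∀ x y, NK.App2 mm add x.1 y.1 (ad x y).1 := fun x y => (had x y _).2 rfl
  have M : ∀ x y, NK.App2 mm mul x.1 y.1 (mu x y).1 := fun x y => (hmu x y _).2 rfl
  have ax : NL.OFld ad mu ⟨o, a2⟩ ⟨e, m2⟩ fun x y : El R => App mm rle x.1 y.1 := by
    refine ⟨fun a b c => ?_, fun a => ?_, fun a => ?_,
      fun a b c => ?_, fun a b => ?_, fun a => ?_, fun a ha => ?_, fun a b c => ?_,
      fun g => ne (congrArg Subtype.val g), fun a => o1 a.1 a.2,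
      fun a b c => o3 a.1 b.1 c.1 a.2 b.2 c.2, fun a b g g' => Subtype.ext (o2 _ _ a.2 b.2 g g'),
      fun a b => tot a.1 b.1 a.2 b.2,
      fun a b c g => ale a.1 b.1 c.1 _ _ a.2 b.2 c.2 g (A a c) (A b c),
      fun a b g g' => mnn a.1 b.1 _ a.2 b.2 g g' (M a b)⟩
    · exact Subtype.ext ((had a (ad b c) _).1
        (a5 a.1 b.1 c.1 _ _ _ a.2 b.2 c.2 (A a b) (A (ad a b) c) (A b c)))
    · exact (Subtype.ext ((had ⟨o, a2⟩ a _).1 (a4 _ _ _ a.2 a2 (a3 a.1 a.2)))).symm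
    · obtain ⟨y, h1, h2⟩ := neg a.1 a.2
      exact ⟨⟨y, h1⟩, (Subtype.ext ((had ⟨y, h1⟩ a _).1 (a4 _ _ _ a.2 h1 h2))).symm⟩
    · exact Subtype.ext ((hmu a (mu b c) _).1
        (m5 a.1 b.1 c.1 _ _ _ a.2 b.2 c.2 (M a b) (M (mu a b) c) (M b c)))
    · exact Subtype.ext ((hmu b a _).1 (m4 _ _ _ a.2 b.2 (M a b)))
    · exact (Subtype.ext ((hmu ⟨e, m2⟩ a _).1 (m4 _ _ _ a.2 m2 (m3 a.1 a.2)))).symm
    · obtain ⟨y, h1, h2⟩ := inv a.1 a.2 fun g => ha (Subtype.ext g)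
      exact ⟨⟨y, h1⟩, (Subtype.ext ((hmu a ⟨y, h1⟩ _).1 h2)).symm⟩
    · exact Subtype.ext ((had (mu a b) (mu a c) _).1 (dis a.1 b.1 c.1 _ _ _ _ a.2 b.2 c.2 (A b c)
        (M a (ad b c)) (M a b) (M a c)))
  let _ := ax.field
  let _ := ax.order
  have od : OD (El R) := ⟨(inferInstance : DP fun p : Cx fun _ : Cw (El R) => El R =>
    App mm rle (enc p.1.1) (enc p.2))⟩
  refine ⟨ax.field, ax.order, ax.strict, @RF.mk _ _ _ _ _ od ⟨?_⟩ ⟨?_⟩ fun G hG hb => ?_,
    car_El R, had, fun _ _ => Iff.rfl, rfl⟩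
  · exact (inferInstance : DP fun p : Cx fun _ : (Cx fun _ : El R => El R) => El R =>
      NK.App2 mm add (enc p.1.1) (enc p.1.2) (enc p.2)).congr fun p =>
        ((had _ _ _).trans (eq_comm.trans Subtype.ext_iff.symm)).symm
  · exact (inferInstance : DP fun p : Cx fun _ : (Cx fun _ : El R => El R) => El R =>
      NK.App2 mm mul (enc p.1.1) (enc p.1.2) (enc p.2)).congr fun p =>
        ((hmu _ _ _).trans (eq_comm.trans Subtype.ext_iff.symm)).symm
  · obtain ⟨x, hx⟩ := hG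
    obtain ⟨b, hb⟩ := hb
    obtain ⟨c, c1, c2⟩ := sup (enc G) (fun y hy => let ⟨t, _, k⟩ := mem_enc.1 hy; k ▸ t.2)
      ⟨_, enc_mem_enc.2 hx⟩ ⟨b.1, b.2, fun y hy => let ⟨t, ht, k⟩ := mem_enc.1 hy; k ▸ hb t ht⟩
    exact ⟨⟨c, c1⟩, fun b => (c2 b.1 b.2).trans ⟨fun g y hy => g y.1 (enc_mem_enc.2 hy),
      fun g y hy => let ⟨t, ht, k⟩ := mem_enc.1 hy; k ▸ g t ht⟩⟩

end Pool.Agent.P.MP_0d6be8_lc.NKW
end
end

-- part Pool.Agent.P.MP_0d6be8_lc.NKW.Final
section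

set_option autoImplicit false
set_option linter.unusedSectionVars false
set_option synthInstance.maxSize 4000

/-! The model of MA. -/

open Pool.Agent.Lib.PosetForcing
open Pool.Agent.P.MP_5f3b23_lc.Zf (mm om)
open Pool.Agent.P.MP_af1204_lc.Inn

namespace Pool.Agent.P.MP_0d6be8_lc.NKW

theorem seq_of_leCard [Md] [Std] {a : MM} (h : LeCard mm om a) :
    ∃ e : Fn ℕ (El a), Function.Injective e := by
  obtain ⟨j, h1, h2⟩ := h
  rw [← car_nat, ← car_El a] at h1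
  obtain ⟨e, rfl⟩ := isFun_iff.1 h1
  exact ⟨e, fun m n k => enc_inj.1 (h2 _ _ _ (app_enc'.2 rfl) (app_enc'.2 (by rw [k])))⟩

theorem goal_of_core [Md] [Std] (core : ∀ (A P : Type) [MT A] [MT P] (S : Sp A P), S.P2 →
    ∀ y : Fn ℕ P, Function.Injective y → ¬ S.Tame) : NK.Goal mm (om : MM) := by
  intro R add mul rle o hR a r hB hI hN X Sg hX hS
  obtain ⟨_, _, _, _, cr⟩ := exists_reals hR
  obtain ⟨S, sup, b, cp⟩ := exists_space hB hX
  obtain ⟨e, he⟩ := seq_of_leCard hI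
  obtain ⟨y, hy⟩ := exists_points b e he
  obtain ⟨M, μ, h⟩ := exists_radon (Q := El R) b.ne (core _ _ S
    (p2_of_nik b (nik_of cr ⟨car_El a, fun _ _ => Iff.rfl⟩ b hN)) y hy)
  exact radon_of cr cp b.ne hS h

theorem final : ∃ (M : Type) (mem : M → M → Prop), IsZFC mem ∧ ∃ w c, IsOmega mem w ∧
    IsPow mem c w ∧ MP_93aff1_lc.MA mem w c ∧ NK.Goal mem w :=
  final_of goal_of_core

end Pool.Agent.P.MP_0d6be8_lc.NKW
end
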